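import Pool.Agent.CollatzLin.Defs

set_option autoImplicit false

/-!
# The linear lower bound: basic lemmas
-/

namespace CollatzLin

open CollatzOne Finset

/-! ### The mass of the letters -/

lemma sum_letters (E : ℕ) : ∑ e ∈ Icc 1 E, (1 : ℝ) / 2 ^ e = Z E := by
  unfold Z
  induction E with
  | zero => simp
  | succ E ih =>
    rw [sum_Icc_succ_top (by omega), ih, pow_succ]
    field_simp
    ring

lemma half_le_Z {E : ℕ} (hE : 1 ≤ E) : 1 / 2 ≤ Z E := by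
  unfold Z
  have h : (2 : ℝ) ≤ 2 ^ E := by
    calc (2 : ℝ) = 2 ^ 1 := by norm_num
      _ ≤ 2 ^ E := pow_le_pow_right₀ (by norm_num) hE
  have h2 : (1 : ℝ) / 2 ^ E ≤ 1 / 2 := one_div_le_one_div_of_le (by norm_num) h
  linarith

lemma Z_pos {E : ℕ} (hE : 1 ≤ E) : 0 < Z E := by
  have := half_le_Z hE
  linarith

lemma Z_nonneg (E : ℕ) : 0 ≤ Z E := by
  unfold Z
  have h : (1 : ℝ) ≤ 2 ^ E := one_le_pow₀ (by norm_num)
  have h2 : (1 : ℝ) / 2 ^ E ≤ 1 := by
    rw [div_le_one (by positivity)]; exact h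
  linarith

lemma Z_le_one (E : ℕ) : Z E ≤ 1 := by
  unfold Z
  have : (0 : ℝ) ≤ 1 / 2 ^ E := by positivity
  linarith

lemma Z_pow_ge (E n : ℕ) : 1 - n / 2 ^ E ≤ Z E ^ n := by
  induction n with
  | zero => simp
  | succ n ih =>
    have h0 := Z_nonneg E
    have h1 := Z_le_one E
    have h2 : Z E ^ n ≤ 1 := pow_le_one₀ h0 h1
    have h3 : (0 : ℝ) ≤ 1 / 2 ^ E := by positivity
    have h4 : Z E ^ (n + 1) = Z E ^ n - Z E ^ n * (1 / 2 ^ E) := by
      rw [pow_succ]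
      unfold Z
      ring
    have h5 : Z E ^ n * (1 / 2 ^ E) ≤ 1 * (1 / 2 ^ E) := mul_le_mul_of_nonneg_right h2 h3
    rw [h4]
    push_cast
    rw [add_div]
    linarith

lemma two_mul_lt_two_pow {E : ℕ} : E < 2 ^ E := Nat.lt_two_pow_self

/-- If there are at least `n + 1` letters, the normalisation is harmless. -/
lemma half_le_Z_pow {E n : ℕ} (h : n + 1 ≤ E) : 1 / 2 ≤ Z E ^ n := by
  refine le_trans ?_ (Z_pow_ge E n)
  have h1 : 2 * n ≤ 2 ^ E := by
    obtain ⟨m, rfl⟩ : ∃ m, E = m + 1 := ⟨E - 1, by omega⟩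
    have : n < 2 ^ n := Nat.lt_two_pow_self
    have h2 : 2 ^ n ≤ 2 ^ m := Nat.pow_le_pow_right (by norm_num) (by omega)
    rw [pow_succ]
    omega
  have h2 : (2 : ℝ) * n ≤ 2 ^ E := by exact_mod_cast h1
  have h3 : (n : ℝ) / 2 ^ E ≤ 1 / 2 := by
    rw [div_le_div_iff₀ (by positivity) (by norm_num)]
    linarith
  linarith

/-! ### Heights and weights -/

lemma ht_pos (W : List ℕ) : 0 < ht W := by unfold ht; positivity

lemma ht_nil : ht [] = 1 := by simp [ht, js_nil]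

lemma ht_cons (e : ℕ) (W : List ℕ) : ht (e :: W) = 2 ^ e / 3 * ht W := by
  unfold ht
  rw [js_cons, List.length_cons, pow_add, pow_succ]
  field_simp

lemma ht_append (W V : List ℕ) : ht (W ++ V) = ht W * ht V := by
  unfold ht
  rw [js_append, List.length_append, pow_add, pow_add]
  field_simp

lemma wt_nil (E : ℕ) : wt E [] = 1 := by simp [wt, ht_nil]

lemma wt_append (E : ℕ) (W V : List ℕ) : wt E (W ++ V) = wt E W * wt E V := by
  unfold wt
  rw [ht_append, List.length_append, pow_add, div_mul_div_comm]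
  congr 1 <;> ring

lemma wt_cons (E e : ℕ) (W : List ℕ) : wt E (e :: W) = 3 / (Z E * 2 ^ e) * wt E W := by
  unfold wt
  rw [ht_cons, List.length_cons, pow_succ]
  rcases eq_or_ne (Z E) 0 with h | h
  · rw [h]; simp
  · have := ht_pos W
    field_simp

lemma wt_nonneg (E : ℕ) (W : List ℕ) : 0 ≤ wt E W := by
  have h1 := Z_nonneg E
  have h2 := ht_pos W
  unfold wt
  positivity

lemma wt_pos {E : ℕ} (hE : 1 ≤ E) (W : List ℕ) : 0 < wt E W := by
  have h1 := Z_pos hE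
  have h2 := ht_pos W
  unfold wt
  positivity

lemma pr_nonneg (E : ℕ) (W : List ℕ) : 0 ≤ pr E W := by
  have h1 := Z_nonneg E
  unfold pr
  positivity

lemma pr_pos {E : ℕ} (hE : 1 ≤ E) (W : List ℕ) : 0 < pr E W := by
  have h1 := Z_pos hE
  unfold pr
  positivity

lemma pr_nil (E : ℕ) : pr E [] = 1 := by simp [pr, js_nil]

lemma pr_append (E : ℕ) (W V : List ℕ) : pr E (W ++ V) = pr E W * pr E V := by
  unfold pr
  rw [js_append, List.length_append, pow_add, pow_add, div_mul_div_comm]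
  congr 1 <;> ring

lemma pr_cons (E e : ℕ) (W : List ℕ) : pr E (e :: W) = 1 / (Z E * 2 ^ e) * pr E W := by
  unfold pr
  rw [js_cons, List.length_cons, pow_succ, pow_add, div_mul_div_comm]
  congr 1 <;> ring

lemma wt_eq (E : ℕ) (W : List ℕ) : wt E W = 3 ^ W.length * pr E W := by
  unfold wt pr ht
  rcases eq_or_ne (Z E ^ W.length) 0 with h | h
  · rw [h]; simp
  · field_simp

/-! ### Displacements -/

lemma one_le_dst (W : List ℕ) : 1 ≤ dst W := by
  induction W with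
  | nil => simp [dst]
  | cons e W ih =>
    rw [dst]
    have : (0 : ℝ) ≤ 3 / 2 ^ e * dst W := mul_nonneg (by positivity) (by linarith)
    linarith

lemma dst_append (W V : List ℕ) : dst (W ++ V) = dst W + (dst V - 1) / ht W := by
  induction W with
  | nil => simp [dst, ht_nil]
  | cons e W ih =>
    have := ht_pos W
    rw [List.cons_append, dst, dst, ih, ht_cons]
    field_simp
    ring

lemma dst_le_append (W V : List ℕ) : dst W ≤ dst (W ++ V) := by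
  rw [dst_append]
  have h1 := one_le_dst V
  have h2 := ht_pos W
  have : 0 ≤ (dst V - 1) / ht W := div_nonneg (by linarith) h2.le
  linarith

lemma inv_ht_le_dst (W : List ℕ) : 1 / ht W ≤ dst W := by
  induction W with
  | nil => simp [dst, ht_nil]
  | cons e W ih =>
    have := ht_pos W
    rw [dst, ht_cons]
    have h : 1 / (2 ^ e / 3 * ht W) = 3 / 2 ^ e * (1 / ht W) := by field_simp
    rw [h]
    have h2 : (0 : ℝ) ≤ 3 / 2 ^ e := by positivity
    nlinarith [mul_le_mul_of_nonneg_left ih h2]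

lemma cc_nonneg (e : ℕ) : 0 ≤ cc e := by
  unfold cc
  positivity

lemma bs_nonneg (W : List ℕ) : 0 ≤ bs W := by
  induction W with
  | nil => simp [bs_nil]
  | cons e W ih =>
    rw [bs_cons]
    have := cc_nonneg e
    positivity

lemma cc_le (e : ℕ) : (cc e : ℝ) ≤ 2 ^ e / 3 := by
  have h : 3 * cc e ≤ 2 ^ e := by
    unfold cc
    omega
  have h2 : (3 : ℝ) * cc e ≤ 2 ^ e := by exact_mod_cast h
  linarith

lemma bs_le (W : List ℕ) : (bs W : ℝ) ≤ 2 ^ js W * dst W := by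
  induction W with
  | nil => simp [bs_nil, js_nil, dst]
  | cons e W ih =>
    rw [bs_cons, js_cons, dst, pow_add]
    push_cast
    have h1 := cc_le e
    have h2 : (0 : ℝ) ≤ 2 ^ js W := by positivity
    have h3 : (2 : ℝ) ^ js W * cc e ≤ 2 ^ js W * (2 ^ e / 3) := mul_le_mul_of_nonneg_left h1 h2
    have h4 : (2 : ℝ) ^ e * 2 ^ js W * (1 + 3 / 2 ^ e * dst W) =
        2 ^ e * 2 ^ js W + 3 * (2 ^ js W * dst W) := by
      field_simp
    rw [h4]
    have h5 : (0 : ℝ) ≤ 2 ^ e * 2 ^ js W := by positivity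
    nlinarith

/-! ### Descendants -/

lemma vd_append {W V : List ℕ} {y : ℤ} : vd (W ++ V) y ↔ vd W y ∧ vd V (ch W y) := by
  induction W generalizing y with
  | nil => simp [vd_nil, ch_nil]
  | cons e W ih =>
    rw [List.cons_append, vd_cons, vd_cons, ih]
    constructor
    · rintro ⟨h1, h2, h3⟩
      refine ⟨⟨h1, h2⟩, ?_⟩
      rwa [ch_cons (vd_cons.2 ⟨h1, h2⟩)]
    · rintro ⟨⟨h1, h2⟩, h3⟩
      refine ⟨h1, h2, ?_⟩
      rwa [ch_cons (vd_cons.2 ⟨h1, h2⟩)] at h3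

lemma ch_append {W V : List ℕ} {y : ℤ} (h : vd (W ++ V) y) : ch (W ++ V) y = ch V (ch W y) := by
  induction W generalizing y with
  | nil => simp [ch_nil]
  | cons e W ih =>
    rw [List.cons_append] at h ⊢
    obtain ⟨h1, h2⟩ := vd_cons.1 h
    rw [ch_cons h, ih h2, ch_cons (vd_cons.2 ⟨h1, (vd_append.1 h2).1⟩)]

lemma vd_shift {W : List ℕ} {n : ℕ} (hW : W.length = n) (y u : ℤ) :
    vd W (y + 3 ^ n * u) ↔ vd W y := by
  subst hW
  unfold vd
  have h : 2 ^ js W * (y + 3 ^ W.length * u) - bs W =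
      (2 ^ js W * y - bs W) + 3 ^ W.length * (2 ^ js W * u) := by ring
  rw [h]
  exact dvd_add_left (dvd_mul_right _ _)

lemma ch_shift {W : List ℕ} {n : ℕ} (hW : W.length = n) {y : ℤ} (h : vd W y) (u : ℤ) :
    ch W (y + 3 ^ n * u) = ch W y + 2 ^ js W * u := by
  have h1 := pow_ch h
  have h2 := pow_ch ((vd_shift hW y u).2 h)
  subst hW
  have h3 : (3 : ℤ) ^ W.length ≠ 0 := by positivity
  apply mul_left_cancel₀ h3
  rw [h2]
  linear_combination -h1

lemma ch_real {W : List ℕ} {y : ℤ} (h : vd W y) :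
    (ch W y : ℝ) = ht W * (y - bs W / 2 ^ js W) := by
  have h1 : (3 : ℝ) ^ W.length * ch W y = 2 ^ js W * y - bs W := by exact_mod_cast pow_ch h
  unfold ht
  field_simp
  linarith

lemma abs_ch_le {W : List ℕ} {y : ℤ} (h : vd W y) :
    |(ch W y : ℝ)| ≤ ht W * (|(y : ℝ)| + dst W) := by
  rw [ch_real h, abs_mul, abs_of_pos (ht_pos W)]
  refine mul_le_mul_of_nonneg_left ?_ (ht_pos W).le
  refine (abs_sub _ _).trans ?_
  have h1 : (0 : ℝ) ≤ bs W := by exact_mod_cast bs_nonneg W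
  have h2 := bs_le W
  rw [abs_of_nonneg (show (0 : ℝ) ≤ bs W / 2 ^ js W by positivity)]
  have h3 : (bs W : ℝ) / 2 ^ js W ≤ dst W := by
    rw [div_le_iff₀ (by positivity)]
    linarith
  linarith

/-- Words of the same length and total exponent reaching the same point are equal. -/
lemma ch_inj {W W' : List ℕ} {y : ℤ} (hW : ∀ e ∈ W, 1 ≤ e) (hW' : ∀ e ∈ W', 1 ≤ e)
    (hv : vd W y) (hv' : vd W' y) (hlen : W.length = W'.length) (hjs : js W = js W')
    (hch : ch W y = ch W' y) : W = W' := by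
  refine word_unique W W' hW hW' hlen hjs ?_
  have h1 := pow_ch hv
  have h2 := pow_ch hv'
  rw [hch, hlen, h2, hjs] at h1
  linarith

/-! ### Sums over words -/

lemma length_of_mem {E n : ℕ} {W : List ℕ} (h : W ∈ words E n) : W.length = n := (mem_words.1 h).1

lemma one_le_of_mem {E n : ℕ} {W : List ℕ} (h : W ∈ words E n) : ∀ e ∈ W, 1 ≤ e :=
  fun e he => ((mem_words.1 h).2 e he).1

lemma mem_cat {𝒲 𝒱 : Finset (List ℕ)} {U : List ℕ} :
    U ∈ cat 𝒲 𝒱 ↔ ∃ W ∈ 𝒲, ∃ V ∈ 𝒱, W ++ V = U := by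
  unfold cat
  simp only [mem_image, mem_product, Prod.exists]
  constructor
  · rintro ⟨W, V, ⟨h1, h2⟩, h3⟩; exact ⟨W, h1, V, h2, h3⟩
  · rintro ⟨W, h1, V, h2, h3⟩; exact ⟨W, V, ⟨h1, h2⟩, h3⟩

lemma sum_cat {M : Type*} [AddCommMonoid M] {𝒲 𝒱 : Finset (List ℕ)} {n : ℕ}
    (h : ∀ W ∈ 𝒲, W.length = n) (G : List ℕ → M) :
    ∑ U ∈ cat 𝒲 𝒱, G U = ∑ W ∈ 𝒲, ∑ V ∈ 𝒱, G (W ++ V) := by
  unfold cat
  rw [sum_image, sum_product]
  rintro ⟨W, V⟩ h1 ⟨W', V'⟩ h2 h3
  rw [mem_coe, mem_product] at h1 h2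
  have h4 : W.length = W'.length := by rw [h W h1.1, h W' h2.1]
  obtain ⟨h5, h6⟩ := List.append_inj h3 h4
  exact Prod.ext h5 h6

lemma words_add (E n m : ℕ) : words E (n + m) = cat (words E n) (words E m) := by
  ext U
  rw [mem_words, mem_cat]
  constructor
  · rintro ⟨h1, h2⟩
    refine ⟨U.take n, mem_words.2 ⟨by rw [List.length_take]; omega, fun e he => h2 e (List.mem_of_mem_take he)⟩,
      U.drop n, mem_words.2 ⟨by rw [List.length_drop]; omega, fun e he => h2 e (List.mem_of_mem_drop he)⟩,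
      List.take_append_drop n U⟩
  · rintro ⟨W, hW, V, hV, rfl⟩
    rw [mem_words] at hW hV
    refine ⟨by rw [List.length_append, hW.1, hV.1], fun e he => ?_⟩
    rcases List.mem_append.1 he with h | h
    · exact hW.2 e h
    · exact hV.2 e h

lemma sum_words_add {M : Type*} [AddCommMonoid M] (E n m : ℕ) (G : List ℕ → M) :
    ∑ U ∈ words E (n + m), G U = ∑ W ∈ words E n, ∑ V ∈ words E m, G (W ++ V) := by
  rw [words_add, sum_cat (fun W hW => length_of_mem hW)]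

lemma words_zero (E : ℕ) : words E 0 = {[]} := rfl

lemma words_mono {E E' : ℕ} (h : E ≤ E') (n : ℕ) : words E n ⊆ words E' n := by
  intro W hW
  rw [mem_words] at hW ⊢
  exact ⟨hW.1, fun e he => ⟨(hW.2 e he).1, (hW.2 e he).2.trans h⟩⟩

lemma sum_pr {E : ℕ} (hE : 1 ≤ E) (n : ℕ) : ∑ W ∈ words E n, pr E W = 1 := by
  induction n with
  | zero => rw [words_zero, sum_singleton, pr_nil]
  | succ n ih =>
    have hZ := Z_pos hE
    rw [sum_words_succ]
    have h1 : ∀ e ∈ Icc 1 E, ∑ W ∈ words E n, pr E (e :: W) = 1 / Z E * (1 / 2 ^ e) := by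
      intro e _
      simp only [pr_cons]
      rw [← mul_sum, ih]
      field_simp
    rw [sum_congr rfl h1, ← mul_sum, sum_letters]
    field_simp

/-- Sums of multiplicative functionals. -/
lemma sum_pr_prod (E n : ℕ) (f : ℕ → ℝ) :
    ∑ W ∈ words E n, pr E W * (W.map f).prod = (∑ e ∈ Icc 1 E, f e / (Z E * 2 ^ e)) ^ n := by
  induction n with
  | zero => simp [words_zero, pr_nil]
  | succ n ih =>
    rw [sum_words_succ, pow_succ', ← ih, sum_mul_sum]
    refine sum_congr rfl fun e _ => sum_congr rfl fun W _ => ?_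
    rw [pr_cons, List.map_cons, List.prod_cons]
    ring

lemma Pr_nonneg (E : ℕ) (𝒲 : Finset (List ℕ)) : 0 ≤ Pr E 𝒲 :=
  sum_nonneg fun W _ => pr_nonneg E W

lemma Pr_mono {E : ℕ} {𝒲 𝒱 : Finset (List ℕ)} (h : 𝒲 ⊆ 𝒱) : Pr E 𝒲 ≤ Pr E 𝒱 :=
  sum_le_sum_of_subset_of_nonneg h fun W _ _ => pr_nonneg E W

lemma Pr_words {E : ℕ} (hE : 1 ≤ E) (n : ℕ) : Pr E (words E n) = 1 := sum_pr hE n

lemma Pr_union_le (E : ℕ) (𝒲 𝒱 : Finset (List ℕ)) : Pr E (𝒲 ∪ 𝒱) ≤ Pr E 𝒲 + Pr E 𝒱 := by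
  classical
  unfold Pr
  rw [← sum_union_inter]
  have : 0 ≤ ∑ W ∈ 𝒲 ∩ 𝒱, pr E W := sum_nonneg fun W _ => pr_nonneg E W
  linarith

lemma Pr_filter_add (E : ℕ) (𝒲 : Finset (List ℕ)) (p : List ℕ → Prop) [DecidablePred p] :
    Pr E (𝒲.filter p) + Pr E (𝒲.filter (fun W => ¬ p W)) = Pr E 𝒲 := by
  unfold Pr
  exact sum_filter_add_sum_filter_not _ _ _

/-! ### Means -/

lemma mean_nonneg {N : ℕ} {f : ℤ → ℝ} (h : ∀ x, 0 ≤ f x) : 0 ≤ mean N f :=
  div_nonneg (S_nonneg h) (Nat.cast_nonneg _)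

lemma mean_mono {N : ℕ} {f g : ℤ → ℝ} (h : ∀ x, f x ≤ g x) : mean N f ≤ mean N g :=
  div_le_div_of_nonneg_right (S_mono h) (Nat.cast_nonneg _)

lemma mean_congr {N : ℕ} {f g : ℤ → ℝ} (h : ∀ x, f x = g x) : mean N f = mean N g := by
  unfold mean; rw [S_congr h]

lemma mean_add (N : ℕ) (f g : ℤ → ℝ) : mean N (fun x => f x + g x) = mean N f + mean N g := by
  unfold mean; rw [S_add, add_div]

lemma mean_sub (N : ℕ) (f g : ℤ → ℝ) : mean N (fun x => f x - g x) = mean N f - mean N g := by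
  unfold mean; rw [S_sub, sub_div]

lemma mean_mul_left (N : ℕ) (c : ℝ) (f : ℤ → ℝ) : mean N (fun x => c * f x) = c * mean N f := by
  unfold mean; rw [S_mul_left, mul_div_assoc]

lemma mean_const {N : ℕ} (hN : 1 ≤ N) (c : ℝ) : mean N (fun _ => c) = c := by
  unfold mean
  rw [S_const]
  have : (0 : ℝ) < N := by exact_mod_cast hN
  field_simp

lemma mean_sum {ι : Type*} (N : ℕ) (s : Finset ι) (f : ι → ℤ → ℝ) :
    mean N (fun x => ∑ i ∈ s, f i x) = ∑ i ∈ s, mean N (f i) := by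
  unfold mean; rw [S_sum, sum_div]

/-- The mean over a multiple of the period. -/
lemma mean_mul {N : ℕ} (M : ℕ) (hM : 1 ≤ M) {f : ℤ → ℝ} (h : Per N f) :
    mean (N * M) f = mean N f := by
  unfold mean
  rw [S_mul]
  have h1 : ∀ a : ℤ, S M (fun u => f (a + N * u)) = M * f a := by
    intro a
    rw [S_congr (fun u => h.add_mul a u), S_const]
  rw [S_congr h1, S_mul_left]
  have h2 : (0 : ℝ) < M := by exact_mod_cast hM
  push_cast
  rcases Nat.eq_zero_or_pos N with rfl | hN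
  · simp
  · have h3 : (0 : ℝ) < N := by exact_mod_cast hN
    field_simp

lemma mean_pow {n m : ℕ} (hnm : n ≤ m) {f : ℤ → ℝ} (h : Per (3 ^ n) f) :
    mean (3 ^ m) f = mean (3 ^ n) f := by
  obtain ⟨k, rfl⟩ := Nat.exists_eq_add_of_le hnm
  rw [pow_add]
  exact mean_mul _ (Nat.one_le_pow _ _ (by norm_num)) h

lemma Per.pow_mono {n m : ℕ} (hnm : n ≤ m) {f : ℤ → ℝ} (h : Per (3 ^ n) f) : Per (3 ^ m) f := by
  obtain ⟨k, rfl⟩ := Nat.exists_eq_add_of_le hnm
  rw [pow_add]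
  exact h.mul_right

/-- A nonnegative function is bounded by its mean times its period. -/
lemma le_mul_mean {N : ℕ} (hN : 1 ≤ N) {f : ℤ → ℝ} (h : Per N f) (h0 : ∀ x, 0 ≤ f x) (x : ℤ) :
    f x ≤ N * mean N f := by
  have hN' : (0 : ℤ) < N := by exact_mod_cast hN
  have h1 := Int.emod_nonneg x hN'.ne'
  have h2 := Int.emod_lt_of_pos x hN'
  have h3 : (((x % N).toNat : ℕ) : ℤ) = x % N := Int.toNat_of_nonneg h1
  have h4 : f x = f (((x % N).toNat : ℕ) : ℤ) := by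
    rw [h3]
    exact h.congr Int.dvd_self_sub_emod
  have h5 : f (((x % N).toNat : ℕ) : ℤ) ≤ S N f := by
    unfold S
    exact single_le_sum (f := fun x : ℕ => f (x : ℤ)) (fun i _ => h0 _)
      (mem_range.2 (by omega : (x % N).toNat < N))
  have h6 : (0 : ℝ) < N := by exact_mod_cast hN
  unfold mean
  rw [h4]
  refine h5.trans (le_of_eq ?_)
  field_simp

/-! ### The sums `MM` -/

lemma MM_nonneg {E : ℕ} {𝒲 : Finset (List ℕ)} {φ : ℤ → ℝ} (h : ∀ v, 0 ≤ φ v) (y : ℤ) :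
    0 ≤ MM E 𝒲 φ y := by
  unfold MM
  refine sum_nonneg fun W _ => ?_
  split_ifs
  · exact mul_nonneg (wt_nonneg E W) (h _)
  · exact le_rfl

lemma MM_mono {E : ℕ} {𝒲 : Finset (List ℕ)} {φ ψ : ℤ → ℝ} (h : ∀ v, φ v ≤ ψ v) (y : ℤ) :
    MM E 𝒲 φ y ≤ MM E 𝒲 ψ y := by
  unfold MM
  refine sum_le_sum fun W _ => ?_
  split_ifs
  · exact mul_le_mul_of_nonneg_left (h _) (wt_nonneg E W)
  · exact le_rfl

lemma MM_congr {E : ℕ} {𝒲 : Finset (List ℕ)} {φ ψ : ℤ → ℝ} (h : ∀ v, φ v = ψ v) (y : ℤ) :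
    MM E 𝒲 φ y = MM E 𝒲 ψ y := by
  have : φ = ψ := funext h
  rw [this]

lemma MM_add (E : ℕ) (𝒲 : Finset (List ℕ)) (φ ψ : ℤ → ℝ) (y : ℤ) :
    MM E 𝒲 (fun v => φ v + ψ v) y = MM E 𝒲 φ y + MM E 𝒲 ψ y := by
  unfold MM
  rw [← sum_add_distrib]
  refine sum_congr rfl fun W _ => ?_
  split_ifs
  · ring
  · ring

lemma MM_sub (E : ℕ) (𝒲 : Finset (List ℕ)) (φ ψ : ℤ → ℝ) (y : ℤ) :
    MM E 𝒲 (fun v => φ v - ψ v) y = MM E 𝒲 φ y - MM E 𝒲 ψ y := by
  unfold MM
  rw [← sum_sub_distrib]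
  refine sum_congr rfl fun W _ => ?_
  split_ifs
  · ring
  · ring

lemma MM_mul_left (E : ℕ) (𝒲 : Finset (List ℕ)) (c : ℝ) (φ : ℤ → ℝ) (y : ℤ) :
    MM E 𝒲 (fun v => c * φ v) y = c * MM E 𝒲 φ y := by
  unfold MM
  rw [mul_sum]
  refine sum_congr rfl fun W _ => ?_
  split_ifs
  · ring
  · ring

lemma MM_sum {ι : Type*} (E : ℕ) (𝒲 : Finset (List ℕ)) (s : Finset ι) (φ : ι → ℤ → ℝ) (y : ℤ) :
    MM E 𝒲 (fun v => ∑ i ∈ s, φ i v) y = ∑ i ∈ s, MM E 𝒲 (φ i) y := by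
  unfold MM
  rw [sum_comm]
  refine sum_congr rfl fun W _ => ?_
  split_ifs
  · rw [mul_sum]
  · rw [sum_const_zero]

lemma MM_subset {E : ℕ} {𝒲 𝒱 : Finset (List ℕ)} (hs : 𝒲 ⊆ 𝒱) {φ : ℤ → ℝ} (h : ∀ v, 0 ≤ φ v)
    (y : ℤ) : MM E 𝒲 φ y ≤ MM E 𝒱 φ y := by
  unfold MM
  refine sum_le_sum_of_subset_of_nonneg hs fun W _ _ => ?_
  split_ifs
  · exact mul_nonneg (wt_nonneg E W) (h _)
  · exact le_rfl

lemma MM_filter_add (E : ℕ) (𝒲 : Finset (List ℕ)) (p : List ℕ → Prop) [DecidablePred p]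
    (φ : ℤ → ℝ) (y : ℤ) :
    MM E (𝒲.filter p) φ y + MM E (𝒲.filter (fun W => ¬ p W)) φ y = MM E 𝒲 φ y := by
  unfold MM
  exact sum_filter_add_sum_filter_not _ _ _

lemma MM_singleton_nil (E : ℕ) (φ : ℤ → ℝ) (y : ℤ) : MM E {[]} φ y = φ y := by
  unfold MM
  rw [sum_singleton, if_pos (vd_nil y), wt_nil, ch_nil, one_mul]

lemma MM_words_zero (E : ℕ) (φ : ℤ → ℝ) (y : ℤ) : MM E (words E 0) φ y = φ y :=
  MM_singleton_nil E φ y

/-- Composition. -/
lemma MM_cat {E n : ℕ} {𝒲 𝒱 : Finset (List ℕ)} (h : ∀ W ∈ 𝒲, W.length = n) (φ : ℤ → ℝ) (y : ℤ) :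
    MM E (cat 𝒲 𝒱) φ y = MM E 𝒲 (MM E 𝒱 φ) y := by
  unfold MM
  rw [sum_cat h]
  refine sum_congr rfl fun W _ => ?_
  by_cases hv : vd W y
  · rw [if_pos hv, mul_sum]
    refine sum_congr rfl fun V _ => ?_
    by_cases hv2 : vd V (ch W y)
    · have h3 : vd (W ++ V) y := vd_append.2 ⟨hv, hv2⟩
      rw [if_pos h3, if_pos hv2, wt_append, ch_append h3]
      ring
    · rw [if_neg (fun h3 => hv2 (vd_append.1 h3).2), if_neg hv2, mul_zero]
  · rw [if_neg hv]
    refine sum_eq_zero fun V _ => ?_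
    rw [if_neg (fun h3 => hv (vd_append.1 h3).1)]

lemma MM_words_add (E n m : ℕ) (φ : ℤ → ℝ) (y : ℤ) :
    MM E (words E (n + m)) φ y = MM E (words E n) (MM E (words E m) φ) y := by
  rw [words_add, MM_cat (fun W hW => length_of_mem hW)]

/-- Shifting the root. -/
lemma MM_shift {E n : ℕ} {𝒲 : Finset (List ℕ)} (h : ∀ W ∈ 𝒲, W.length = n) (φ : ℤ → ℝ)
    (y u : ℤ) : MM E 𝒲 φ (y + 3 ^ n * u) =
      ∑ W ∈ 𝒲, if vd W y then wt E W * φ (2 ^ js W * u + ch W y) else 0 := by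
  unfold MM
  refine sum_congr rfl fun W hW => ?_
  by_cases hv : vd W y
  · rw [if_pos hv, if_pos ((vd_shift (h W hW) y u).2 hv), ch_shift (h W hW) hv, add_comm]
  · rw [if_neg hv, if_neg (fun h' => hv ((vd_shift (h W hW) y u).1 h'))]

lemma MM_per {E n m : ℕ} {𝒲 : Finset (List ℕ)} (h : ∀ W ∈ 𝒲, W.length = n) {φ : ℤ → ℝ}
    (hφ : Per (3 ^ m) φ) : Per (3 ^ (n + m)) (MM E 𝒲 φ) := by
  intro y
  have h1 := MM_shift (E := E) h φ y (3 ^ m)
  rw [show y + ((3 ^ (n + m) : ℕ) : ℤ) = y + 3 ^ n * 3 ^ m by push_cast; ring, h1]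
  unfold MM
  refine sum_congr rfl fun W _ => ?_
  have := hφ.add_mul (ch W y) (2 ^ js W)
  push_cast at this
  rw [show (2 : ℤ) ^ js W * 3 ^ m + ch W y = ch W y + 3 ^ m * 2 ^ js W by ring, this]

lemma isCoprime_two_three (J n : ℕ) : IsCoprime ((2 : ℤ) ^ J) ((3 ^ n : ℕ) : ℤ) := by
  push_cast
  exact IsCoprime.pow (by norm_num : IsCoprime (2 : ℤ) 3)

/-- Each word is valid on exactly one class. -/
lemma S_vd {W : List ℕ} {n : ℕ} (hW : W.length = n) (x : ℝ) :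
    S (3 ^ n) (fun y => if vd W y then x else 0) = x := by
  have h3 : 0 < 3 ^ n := by positivity
  have hper : Per (3 ^ n) (fun z => if ((3 ^ n : ℕ) : ℤ) ∣ bs W - z then x else 0) := by
    intro z
    refine if_congr ?_ rfl rfl
    constructor
    · intro h
      have := dvd_add h (dvd_refl ((3 ^ n : ℕ) : ℤ))
      rwa [show bs W - (z + ((3 ^ n : ℕ) : ℤ)) + ((3 ^ n : ℕ) : ℤ) = bs W - z by ring] at this
    · intro h
      have := dvd_sub h (dvd_refl ((3 ^ n : ℕ) : ℤ))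
      rwa [show bs W - z - ((3 ^ n : ℕ) : ℤ) = bs W - (z + ((3 ^ n : ℕ) : ℤ)) by ring] at this
  have h1 : ∀ y : ℤ, (if vd W y then x else 0) =
      (fun z => if ((3 ^ n : ℕ) : ℤ) ∣ bs W - z then x else 0) (2 ^ js W * y + 0) := by
    intro y
    refine if_congr ?_ rfl rfl
    unfold vd
    rw [hW, add_zero, ← Int.dvd_neg, show -(2 ^ js W * y - bs W) = bs W - 2 ^ js W * y by ring]
    push_cast
    exact Iff.rfl
  rw [S_congr h1, S_affine hper (isCoprime_two_three _ _) 0]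
  exact S_dvd h3 (bs W) (fun _ => x) (fun _ => rfl)

/-- The mean of one term. -/
lemma mean_vd {E : ℕ} {W : List ℕ} {n m : ℕ} (hW : W.length = n) {φ : ℤ → ℝ}
    (hφ : Per (3 ^ m) φ) :
    mean (3 ^ (n + m)) (fun y => if vd W y then wt E W * φ (ch W y) else 0) =
      pr E W * mean (3 ^ m) φ := by
  unfold mean
  rw [pow_add, S_mul]
  have h1 : ∀ a : ℤ, S (3 ^ m) (fun u => if vd W (a + ((3 ^ n : ℕ) : ℤ) * u) then
      wt E W * φ (ch W (a + ((3 ^ n : ℕ) : ℤ) * u)) else 0) =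
      if vd W a then wt E W * S (3 ^ m) φ else 0 := by
    intro a
    by_cases hv : vd W a
    · rw [if_pos hv]
      have h2 : ∀ u : ℤ, (if vd W (a + ((3 ^ n : ℕ) : ℤ) * u) then
          wt E W * φ (ch W (a + ((3 ^ n : ℕ) : ℤ) * u)) else 0) =
          wt E W * φ (2 ^ js W * u + ch W a) := by
        intro u
        push_cast
        rw [if_pos ((vd_shift hW a u).2 hv), ch_shift hW hv, add_comm]
      rw [S_congr h2, S_mul_left, S_affine hφ (isCoprime_two_three _ _)]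
    · rw [if_neg hv]
      have h2 : ∀ u : ℤ, (if vd W (a + ((3 ^ n : ℕ) : ℤ) * u) then
          wt E W * φ (ch W (a + ((3 ^ n : ℕ) : ℤ) * u)) else 0) = 0 := by
        intro u
        push_cast
        rw [if_neg (fun h' => hv ((vd_shift hW a u).1 h'))]
      rw [S_congr h2, S_const, mul_zero]
  rw [S_congr h1, S_vd hW, wt_eq, hW]
  push_cast
  field_simp

/-- The mean of `MM`. -/
lemma mean_MM {E n m : ℕ} {𝒲 : Finset (List ℕ)} (h : ∀ W ∈ 𝒲, W.length = n) {φ : ℤ → ℝ}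
    (hφ : Per (3 ^ m) φ) : mean (3 ^ (n + m)) (MM E 𝒲 φ) = Pr E 𝒲 * mean (3 ^ m) φ := by
  unfold MM Pr
  rw [mean_sum, sum_mul]
  exact sum_congr rfl fun W hW => mean_vd (h W hW) hφ

/-! ### The densities -/

lemma F_zero (E : ℕ) (y : ℤ) : F E 0 y = 1 := MM_words_zero E _ y

lemma F_nonneg (E n : ℕ) (y : ℤ) : 0 ≤ F E n y := MM_nonneg (fun _ => zero_le_one) y

lemma F_per (E n : ℕ) : Per (3 ^ n) (F E n) :=
  MM_per (n := n) (m := 0) (fun _ hW => length_of_mem hW) (fun _ => rfl)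

lemma F_add (E n m : ℕ) (y : ℤ) : F E (n + m) y = MM E (words E n) (F E m) y :=
  MM_words_add E n m _ y

lemma mean_F {E : ℕ} (hE : 1 ≤ E) (n : ℕ) : mean (3 ^ n) (F E n) = 1 := by
  have h := mean_MM (E := E) (n := n) (m := 0) (𝒲 := words E n) (fun _ hW => length_of_mem hW)
    (φ := fun _ => 1) (fun _ => rfl)
  rw [Pr_words hE, pow_zero, mean_const le_rfl, one_mul, add_zero] at h
  exact h

lemma mean_F' {E : ℕ} (hE : 1 ≤ E) {n m : ℕ} (h : n ≤ m) : mean (3 ^ m) (F E n) = 1 := by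
  rw [mean_pow h (F_per E n), mean_F hE]

lemma F_le {E : ℕ} (hE : 1 ≤ E) (n : ℕ) (y : ℤ) : F E n y ≤ 3 ^ n := by
  have h := le_mul_mean (Nat.one_le_pow n 3 (by norm_num)) (F_per E n) (F_nonneg E n) y
  rw [mean_F hE] at h
  simpa using h

/-- Some letter `≤ 6` is valid. -/
lemma exists_v1 (y : ℤ) : ∃ e, 1 ≤ e ∧ e ≤ 6 ∧ v1 e y := by
  have h : y % 3 = 0 ∨ y % 3 = 1 ∨ y % 3 = 2 := by omega
  rcases h with h | h | h
  · refine ⟨1, by norm_num, by norm_num, ?_⟩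
    unfold v1 cc; norm_num; omega
  · refine ⟨2, by norm_num, by norm_num, ?_⟩
    unfold v1 cc; norm_num; omega
  · refine ⟨4, by norm_num, by norm_num, ?_⟩
    unfold v1 cc; norm_num; omega

lemma exists_vd (n : ℕ) : ∀ y : ℤ, ∃ W ∈ words 6 n, vd W y := by
  induction n with
  | zero => exact fun y => ⟨[], by simp [words_zero], vd_nil y⟩
  | succ n ih =>
    intro y
    obtain ⟨e, h1, h2, h3⟩ := exists_v1 y
    obtain ⟨W, h4, h5⟩ := ih (c1 e y)
    refine ⟨e :: W, ?_, vd_cons.2 ⟨h3, h5⟩⟩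
    rw [mem_words] at h4 ⊢
    refine ⟨by rw [List.length_cons, h4.1], fun x hx => ?_⟩
    rcases List.mem_cons.1 hx with rfl | hx
    · exact ⟨h1, h2⟩
    · exact h4.2 x hx

lemma F_pos {E : ℕ} (hE : 6 ≤ E) (n : ℕ) (y : ℤ) : 0 < F E n y := by
  obtain ⟨W, h1, h2⟩ := exists_vd n y
  have h3 : W ∈ words E n := words_mono hE n h1
  unfold F MM
  have h4 : ∀ V ∈ words E n, 0 ≤ (if vd V y then wt E V * 1 else 0) := by
    intro V _
    split_ifs
    · rw [mul_one]; exact wt_nonneg E V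
    · exact le_rfl
  refine lt_of_lt_of_le ?_ (single_le_sum h4 h3)
  rw [if_pos h2, mul_one]
  exact wt_pos (by omega) W

/-- The martingale property. -/
lemma S_F_succ {E : ℕ} (hE : 1 ≤ E) (x : ℤ) (n : ℕ) :
    S 3 (fun h => F E (n + 1) (x + ((3 ^ n : ℕ) : ℤ) * h)) = 3 * F E n x := by
  have h1 : ∀ u : ℤ, F E (n + 1) (x + ((3 ^ n : ℕ) : ℤ) * u) =
      ∑ W ∈ words E n, if vd W x then wt E W * F E 1 (2 ^ js W * u + ch W x) else 0 := by
    intro u
    rw [F_add]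
    push_cast
    exact MM_shift (fun W hW => length_of_mem hW) _ x u
  rw [S_congr h1, S_sum]
  unfold F
  unfold MM
  rw [mul_sum]
  refine sum_congr rfl fun W _ => ?_
  by_cases hv : vd W x
  · simp only [if_pos hv]
    rw [S_mul_left]
    have h2 : Per 3 (F E 1) := by simpa using F_per E 1
    have h3 : S 3 (F E 1) = 3 := by
      have := mean_F hE 1
      unfold mean at this
      rw [pow_one] at this
      push_cast at this
      linarith
    have h4 : IsCoprime ((2 : ℤ) ^ js W) ((3 : ℕ) : ℤ) := by simpa using isCoprime_two_three (js W) 1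
    have h5 := S_affine h2 h4 (ch W x)
    rw [h3] at h5
    unfold F MM at h5
    rw [h5]
    ring
  · simp only [if_neg hv]
    rw [S_const]
    simp

end CollatzLin
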