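import Pool.Agent.CollatzOne.Words
import Pool.Agent.CollatzOne.EntRec2

set_option autoImplicit false

/-!
# The linear lower bound: definitions

Words of moves `W` (lists of letters `1 ≤ e ≤ E`) act on integers `y` (with `x = 3 y - 1`):
`vd W y` (validity) and `ch W y = (2 ^ js W * y - bs W) / 3 ^ W.length` (descendant) are defined in
`Pool.Agent.CollatzOne.Words`.
-/

namespace CollatzLin

open CollatzOne Finset

/-- Total mass of the letters `1, …, E`: `∑_{e ≤ E} 2 ^ (-e)`. -/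
noncomputable def Z (E : ℕ) : ℝ := 1 - 1 / 2 ^ E

/-- Height of a word. -/
noncomputable def ht (W : List ℕ) : ℝ := 2 ^ js W / 3 ^ W.length

/-- Normalised weight of a word: `1 / (Z ^ n * h)`. -/
noncomputable def wt (E : ℕ) (W : List ℕ) : ℝ := 1 / (Z E ^ W.length * ht W)

/-- Probability of a word. -/
noncomputable def pr (E : ℕ) (W : List ℕ) : ℝ := 1 / (Z E ^ W.length * 2 ^ js W)

/-- `∑_{j = 0}^{n} 1 / h_j`, where `h_j` is the height after `j` letters. -/
noncomputable def dst : List ℕ → ℝ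
  | [] => 1
  | e :: W => 1 + 3 / 2 ^ e * dst W

/-- Probability of a set of words. -/
noncomputable def Pr (E : ℕ) (𝒲 : Finset (List ℕ)) : ℝ := ∑ W ∈ 𝒲, pr E W

/-- Weighted sum over the words of `𝒲` that are valid at `y`. -/
noncomputable def MM (E : ℕ) (𝒲 : Finset (List ℕ)) (φ : ℤ → ℝ) (y : ℤ) : ℝ :=
  ∑ W ∈ 𝒲, if vd W y then wt E W * φ (ch W y) else 0

/-- The normalised densities. -/
noncomputable def F (E n : ℕ) (y : ℤ) : ℝ := MM E (words E n) (fun _ => 1) y

/-- Mean over a period. -/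
noncomputable def mean (N : ℕ) (f : ℤ → ℝ) : ℝ := S N f / N

/-- All concatenations. -/
def cat (𝒲 𝒱 : Finset (List ℕ)) : Finset (List ℕ) := (𝒲 ×ˢ 𝒱).image (fun p => p.1 ++ p.2)

/-- Digit entropy deficit. -/
noncomputable def ent (E k : ℕ) : ℝ := DD (3 ^ k) 3 (F E (k + 1)) / (3 : ℝ) ^ (k + 1)

end CollatzLin
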