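import Pool.Agent.CollatzLin.Basics
import Pool.Agent.CollatzExp.T1

set_option autoImplicit false

/-!
# Almost all trajectories attain almost bounded values (natural density): definitions
-/

namespace CollatzLin

open CollatzOne Finset

/-- `3 v - 1` is not divisible by `4`.  On these points every point has exactly one parent. -/
def OO (v : ℤ) : Prop := v % 4 ≠ 3

instance : DecidablePred OO := fun v => by unfold OO; infer_instance

/-- The points of `OO` of absolute value less than `2 ^ B`. -/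
noncomputable def bx (B : ℕ) : Finset ℤ := (Ioo (-(2 : ℤ) ^ B) (2 ^ B)).filter OO

/-- The dyadic window: the points of `OO` with `2 ^ A ≤ |v| < 2 ^ B`. -/
noncomputable def win (A B : ℕ) : Finset ℤ := (bx B).filter (fun v => (2 : ℤ) ^ A ≤ |v|)

/-- Logarithmic sum over a window. -/
noncomputable def LS (A B : ℕ) (f : ℤ → ℝ) : ℝ := ∑ v ∈ win A B, f v / |(v : ℝ)|

/-- Functions with values in `[0, 1]` that do not increase from a point to its children. -/
structure Adm (a : ℤ → ℝ) : Prop where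
  nonneg : ∀ v, 0 ≤ a v
  le_one : ∀ v, a v ≤ 1
  mono : ∀ (e : ℕ) (v : ℤ), 1 ≤ e → OO v → v1 e v → a (c1 e v) ≤ a v

/-- `⌊log₂ (4 / 3) ^ n⌋`. -/
def sh (n : ℕ) : ℕ := Nat.log 2 (4 ^ n / 3 ^ n)

open Classical in
/-- Typical words. -/
noncomputable def typ (E n Δ L : ℕ) : Finset (List ℕ) :=
  (words E n).filter (fun W => js W ≤ 2 * n + Δ ∧ 2 * n ≤ js W + Δ ∧ dst W ≤ 2 ^ (L / 8))

/-- Good words for the entropy recursion. -/
def goodw (E n k₀ : ℕ) : Finset (List ℕ) :=
  (words E n).filter (fun W => js W ≤ 3 * n ∧ bs W < 3 ^ (n + k₀))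

/-- Bad words for the entropy recursion. -/
def badw (E n k₀ : ℕ) : Finset (List ℕ) :=
  (words E n).filter (fun W => ¬ (js W ≤ 3 * n ∧ bs W < 3 ^ (n + k₀)))

open Classical in
/-- Words with height in `[H, 16 H)`. -/
noncomputable def hw (E n : ℕ) (H : ℝ) : Finset (List ℕ) :=
  (words E n).filter (fun W => H ≤ ht W ∧ ht W < 16 * H)

/-- Weight of the visits of the height window `[H, 16 H)` at depths `n₁ < n ≤ n₁ + N`. -/
noncomputable def Vis (E n₁ N : ℕ) (H : ℝ) (v : ℤ) : ℝ :=
  ∑ n ∈ Ioc n₁ (n₁ + N), MM E (hw E n H) (fun _ => 1) v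

end CollatzLin
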