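import Pool.Agent.CollatzLin.Defs2
import Pool.Agent.CollatzOne.EntRec3

set_option autoImplicit false

/-!
# The entropy core: monotonicity and the submultiplicative inequality for words
-/

namespace CollatzLin

open CollatzOne Finset

section nu
variable {α : Type*} (P : Finset α) (v : α → ℤ)

/-- Counting function of the residues of a finite family. -/
noncomputable def nuw (k : ℕ) (x : ℤ) : ℝ :=
  ((P.filter (fun W => ((3 ^ k : ℕ) : ℤ) ∣ v W - x)).card : ℝ)

lemma nuw_eq (k : ℕ) (x : ℤ) :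
    nuw P v k x = ∑ W ∈ P, if ((3 ^ k : ℕ) : ℤ) ∣ v W - x then (1 : ℝ) else 0 := by
  unfold nuw
  rw [← sum_filter, sum_const, nsmul_eq_mul, mul_one]

lemma nuw_nonneg (k : ℕ) (x : ℤ) : 0 ≤ nuw P v k x := by
  unfold nuw; positivity

lemma nuw_per (k : ℕ) : Per (3 ^ k) (nuw P v k) := by
  intro x
  unfold nuw
  congr 2
  refine filter_congr fun W _ => ?_
  constructor
  · intro h
    have := dvd_add h (dvd_refl ((3 ^ k : ℕ) : ℤ))
    rwa [show v W - (x + ((3 ^ k : ℕ) : ℤ)) + ((3 ^ k : ℕ) : ℤ) = v W - x by ring] at this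
  · intro h
    have := dvd_sub h (dvd_refl ((3 ^ k : ℕ) : ℤ))
    rwa [show v W - x - ((3 ^ k : ℕ) : ℤ) = v W - (x + ((3 ^ k : ℕ) : ℤ)) by ring] at this

lemma corr_nuw (k : ℕ) {g : ℤ → ℝ} (hg : Per (3 ^ k) g) (u : ℤ) :
    corr (3 ^ k) (nuw P v k) g u = ∑ W ∈ P, g (v W + u) := by
  have hq : 0 < 3 ^ k := by positivity
  unfold corr
  have h1 : ∀ x : ℤ, nuw P v k x * g (x + u) =
      ∑ W ∈ P, if ((3 ^ k : ℕ) : ℤ) ∣ v W - x then g (x + u) else 0 := by
    intro x
    unfold nuw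
    rw [← sum_filter, sum_const, nsmul_eq_mul]
  rw [S_congr h1, S_sum]
  refine sum_congr rfl fun W _ => ?_
  exact S_dvd hq (v W) (fun x => g (x + u)) (hg.comp_add u)

lemma S_nuw (k : ℕ) : S (3 ^ k) (nuw P v k) = P.card := by
  have h := corr_nuw P v k (g := fun _ => 1) (fun _ => rfl) 0
  unfold corr at h
  simp only [mul_one, sum_const, nsmul_eq_mul] at h
  exact h

lemma S_nuw_succ (k : ℕ) (x : ℤ) :
    S 3 (fun h => nuw P v (k + 1) (x + ((3 ^ k : ℕ) : ℤ) * h)) = nuw P v k x := by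
  have hqk : ((3 ^ k : ℕ) : ℤ) ≠ 0 := by
    push_cast
    positivity
  rw [S_congr (fun h => nuw_eq P v (k + 1) (x + ((3 ^ k : ℕ) : ℤ) * h)), S_sum, nuw_eq]
  refine sum_congr rfl fun W _ => ?_
  by_cases hd : ((3 ^ k : ℕ) : ℤ) ∣ v W - x
  · rw [if_pos hd]
    obtain ⟨t, ht⟩ := hd
    have h3 : ∀ h : ℤ, (((3 ^ (k + 1) : ℕ) : ℤ) ∣ v W - (x + ((3 ^ k : ℕ) : ℤ) * h)) ↔
        ((3 : ℕ) : ℤ) ∣ t - h := by
      intro h
      rw [show v W - (x + ((3 ^ k : ℕ) : ℤ) * h) = ((3 ^ k : ℕ) : ℤ) * (t - h) by linear_combination ht,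
        show ((3 ^ (k + 1) : ℕ) : ℤ) = ((3 ^ k : ℕ) : ℤ) * ((3 : ℕ) : ℤ) by push_cast; ring]
      exact mul_dvd_mul_iff_left hqk
    have h4 : ∀ h : ℤ, (if ((3 ^ (k + 1) : ℕ) : ℤ) ∣ v W - (x + ((3 ^ k : ℕ) : ℤ) * h) then (1 : ℝ) else 0) =
        (if ((3 : ℕ) : ℤ) ∣ t - h then (1 : ℝ) else 0) := by
      intro h
      exact if_congr (h3 h) rfl rfl
    rw [S_congr h4]
    exact S_dvd (by norm_num) t (fun _ => 1) (fun _ => rfl)
  · rw [if_neg hd]
    have h4 : ∀ h : ℤ, (if ((3 ^ (k + 1) : ℕ) : ℤ) ∣ v W - (x + ((3 ^ k : ℕ) : ℤ) * h) then (1 : ℝ) else 0) = 0 := by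
      intro h
      rw [if_neg]
      intro hd'
      apply hd
      have h5 : ((3 ^ k : ℕ) : ℤ) ∣ ((3 ^ (k + 1) : ℕ) : ℤ) := by
        push_cast
        exact pow_dvd_pow _ (Nat.le_succ k)
      have h6 := (dvd_trans h5 hd').add (Dvd.intro h rfl : ((3 ^ k : ℕ) : ℤ) ∣ ((3 ^ k : ℕ) : ℤ) * h)
      rwa [show v W - (x + ((3 ^ k : ℕ) : ℤ) * h) + ((3 ^ k : ℕ) : ℤ) * h = v W - x by ring] at h6
    rw [S_congr h4]
    simp [S]

/-- The entropy function of the counting function. -/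
noncomputable def HVw (k : ℕ) : ℝ := S (3 ^ k) (fun x => nuw P v k x * Real.log (nuw P v k x))

lemma DD_nuw (k : ℕ) : DD (3 ^ k) 3 (nuw P v (k + 1)) =
    P.card * Real.log 3 + HVw P v (k + 1) - HVw P v k := by
  have h := DD_tele (N := 3 ^ k) (r := 3) (by norm_num) one_pos (f := nuw P v (k + 1))
    (g := nuw P v k) (nuw_nonneg P v _) (nuw_per P v _) (fun x => by rw [one_mul]; exact S_nuw_succ P v k x)
  rw [h, ← pow_succ, S_nuw]
  simp only [div_one, one_mul]
  rfl

lemma sum_DD_nuw (k : ℕ) : ∑ i ∈ range k, DD (3 ^ i) 3 (nuw P v (i + 1)) =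
    k * (P.card * Real.log 3) + HVw P v k - HVw P v 0 := by
  induction k with
  | zero => simp
  | succ k ih =>
    rw [sum_range_succ, ih, DD_nuw]
    push_cast
    ring

lemma HVw_zero : HVw P v 0 = P.card * Real.log P.card := by
  unfold HVw nuw S
  simp

lemma HVw_eq_zero {k : ℕ} (h : ∀ W ∈ P, ∀ W' ∈ P, ((3 ^ k : ℕ) : ℤ) ∣ v W - v W' → W = W') :
    HVw P v k = 0 := by
  unfold HVw
  have h1 : ∀ x, nuw P v k x * Real.log (nuw P v k x) = 0 := by
    intro x
    have h2 : (P.filter (fun W => ((3 ^ k : ℕ) : ℤ) ∣ v W - x)).card ≤ 1 := by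
      rw [card_le_one]
      intro W hW W' hW'
      rw [mem_filter] at hW hW'
      refine h W hW.1 W' hW'.1 ?_
      have := dvd_sub hW.2 hW'.2
      rwa [show v W - x - (v W' - x) = v W - v W' by ring] at this
    unfold nuw
    interval_cases (P.filter (fun W => ((3 ^ k : ℕ) : ℤ) ∣ v W - x)).card <;> simp
  rw [S_congr h1]
  simp [S]

end nu

/-! ### The entropy deficits -/

lemma F_per' (E k : ℕ) : Per (3 ^ k * 3) (F E (k + 1)) := by
  have := F_per E (k + 1); rwa [pow_succ] at this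

theorem ent_nonneg (E k : ℕ) : 0 ≤ ent E k := by
  unfold ent
  exact div_nonneg (DD_nonneg (by norm_num) (F_per' E k) (F_nonneg E _)) (by positivity)

lemma S_F {E : ℕ} (hE : 1 ≤ E) (n : ℕ) : S (3 ^ n) (F E n) = 3 ^ n := by
  have h := mean_F hE n
  unfold mean at h
  push_cast at h
  have h3 : (3 : ℝ) ^ n ≠ 0 := by positivity
  field_simp at h
  exact h

theorem ent_le {E : ℕ} (hE : 1 ≤ E) (k : ℕ) : ent E k ≤ 2 := by
  unfold ent
  have h1 := DD_le (N := 3 ^ k) (r := 3) (by norm_num) (F_per' E k) (F_nonneg E _)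
  rw [← pow_succ, S_F hE] at h1
  rw [div_le_iff₀ (by positivity)]
  have h2 : Real.log 3 ≤ 2 := by
    have := Real.log_le_sub_one_of_pos (x := 3) (by norm_num)
    linarith
  push_cast at h1
  have h3 : (0 : ℝ) < 3 ^ (k + 1) := by positivity
  nlinarith

/-- Expansion of the density along words of length `n`. -/
lemma F_shift (E n k : ℕ) (c U : ℤ) :
    F E (n + k + 1) (c + ((3 ^ n : ℕ) : ℤ) * U) =
      ∑ W ∈ words E n, if vd W c then wt E W * F E (k + 1) (2 ^ js W * U + ch W c) else 0 := by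
  rw [show n + k + 1 = n + (k + 1) by ring, F_add]
  push_cast
  exact MM_shift (fun W hW => length_of_mem hW) _ c U

/-- One word. -/
lemma DD_word (E k : ℕ) (W : List ℕ) (c : ℤ) :
    DD (3 ^ k) 3 (fun U => F E (k + 1) (2 ^ js W * U + ch W c)) = DD (3 ^ k) 3 (F E (k + 1)) := by
  refine DD_affine (F_per' E k) ?_ _
  have := isCoprime_two_three (js W) (k + 1)
  rwa [pow_succ 3 k] at this

/-- Total weight of the words of a family. -/
lemma S_weights (E n : ℕ) (𝒲 : Finset (List ℕ)) (h : ∀ W ∈ 𝒲, W.length = n) (ψ : List ℕ → ℝ) :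
    S (3 ^ n) (fun c => ∑ W ∈ 𝒲, if vd W c then wt E W * ψ W else 0) =
      3 ^ n * ∑ W ∈ 𝒲, pr E W * ψ W := by
  rw [S_sum, mul_sum]
  refine sum_congr rfl fun W hW => ?_
  rw [S_vd (h W hW), wt_eq, h W hW]
  ring

theorem ent_anti {E : ℕ} (hE : 1 ≤ E) (k : ℕ) : ent E (k + 1) ≤ ent E k := by
  have key : DD (3 ^ (k + 1)) 3 (F E (k + 2)) ≤ 3 * DD (3 ^ k) 3 (F E (k + 1)) := by
    rw [pow_succ', show 3 * 3 ^ k = 3 ^ 1 * 3 ^ k by ring, DD_split]
    calc S (3 ^ 1) (fun y => DD (3 ^ k) 3 (fun U => F E (k + 2) (y + ((3 ^ 1 : ℕ) : ℤ) * U)))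
        ≤ S (3 ^ 1) (fun y => (∑ W ∈ words E 1, if vd W y then wt E W * 1 else 0) *
            DD (3 ^ k) 3 (F E (k + 1))) := by
          refine S_mono fun y => ?_
          have h1 : ∀ U : ℤ, F E (k + 2) (y + ((3 ^ 1 : ℕ) : ℤ) * U) =
              ∑ W ∈ (words E 1).filter (fun W => vd W y),
                wt E W * F E (k + 1) (2 ^ js W * U + ch W y) := by
            intro U
            have := F_shift E 1 k y U
            rw [show 1 + k + 1 = k + 2 by ring] at this
            rw [this, sum_filter]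
          rw [DD_congr h1]
          refine (DD_sum_le (by norm_num) ((words E 1).filter (fun W => vd W y)) (fun W => wt E W)
            (fun W _ => wt_nonneg E W) (fun W U => F E (k + 1) (2 ^ js W * U + ch W y))
            (fun W _ x => F_nonneg E _ _)).trans (le_of_eq ?_)
          rw [← sum_filter, sum_mul]
          refine sum_congr rfl fun W _ => ?_
          rw [DD_word, mul_one]
      _ = 3 * DD (3 ^ k) 3 (F E (k + 1)) := by
          rw [S_mul_right, S_weights E 1 (words E 1) (fun W hW => length_of_mem hW) (fun _ => 1)]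
          simp only [mul_one]
          rw [sum_pr hE]
          norm_num
  unfold ent
  rw [div_le_div_iff₀ (by positivity) (by positivity)]
  have h5 : (0 : ℝ) ≤ 3 ^ (k + 1) := by positivity
  calc DD (3 ^ (k + 1)) 3 (F E (k + 1 + 1)) * (3 : ℝ) ^ (k + 1)
      ≤ (3 * DD (3 ^ k) 3 (F E (k + 1))) * (3 : ℝ) ^ (k + 1) := by gcongr
    _ = DD (3 ^ k) 3 (F E (k + 1)) * (3 : ℝ) ^ (k + 1 + 1) := by ring

/-! ### The core inequality -/

/-- Good words valid at `c` with total exponent `J`. -/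
def gw (E n k₀ : ℕ) (c : ℤ) (J : ℕ) : Finset (List ℕ) :=
  (goodw E n k₀).filter (fun W => vd W c ∧ js W = J)

/-- The weight of the words of length `n` with total exponent `J`. -/
noncomputable def wJ (E n J : ℕ) : ℝ := 1 / (Z E ^ n * (2 ^ J / 3 ^ n))

lemma wJ_nonneg (E n J : ℕ) : 0 ≤ wJ E n J := by
  have := Z_nonneg E
  unfold wJ; positivity

lemma wt_eq_wJ {E n : ℕ} {W : List ℕ} (h : W.length = n) : wt E W = wJ E n (js W) := by
  unfold wt wJ ht
  rw [h]

lemma good_len {E n k₀ : ℕ} {W : List ℕ} (h : W ∈ goodw E n k₀) : W.length = n :=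
  length_of_mem (mem_filter.1 h).1

/-- Group the good words by total exponent. -/
lemma sum_good (E n k₀ : ℕ) (c : ℤ) (G : List ℕ → ℝ) :
    ∑ W ∈ goodw E n k₀, (if vd W c then G W else 0) =
      ∑ J ∈ range (3 * n + 1), ∑ W ∈ gw E n k₀ c J, G W := by
  rw [← sum_filter, ← sum_fiberwise_of_maps_to (t := range (3 * n + 1)) (g := fun W => js W)]
  · refine sum_congr rfl fun J _ => ?_
    unfold gw
    rw [filter_filter]
  · intro W hW
    rw [mem_filter, goodw, mem_filter] at hW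
    rw [mem_range]
    exact Nat.lt_succ_of_le hW.1.2.1

/-- The entropy of the positions of the good words. -/
noncomputable def tg (E n k₀ k : ℕ) : ℝ :=
  S (3 ^ n) (fun c => ∑ J ∈ range (3 * n + 1),
    wJ E n J * DD (3 ^ k) 3 (nuw (gw E n k₀ c J) (fun W => ch W c) (k + 1))) / 3 ^ n

lemma nuw_per' {α : Type*} (P : Finset α) (v : α → ℤ) (k : ℕ) :
    Per (3 ^ k * 3) (nuw P v (k + 1)) := by
  have := nuw_per P v (k + 1); rwa [pow_succ] at this

lemma tg_nonneg (E n k₀ k : ℕ) : 0 ≤ tg E n k₀ k := by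
  unfold tg
  refine div_nonneg (S_nonneg fun c => sum_nonneg fun J _ =>
    mul_nonneg (wJ_nonneg E n J) (DD_nonneg (by norm_num) (nuw_per' _ _ k) (nuw_nonneg _ _ _)))
    (by positivity)

lemma corr_nuw_nonneg (E k : ℕ) {α : Type*} (P : Finset α) (v : α → ℤ) (x : ℤ) :
    0 ≤ corr (3 ^ k * 3) (nuw P v (k + 1)) (F E (k + 1)) x :=
  S_nonneg fun z => mul_nonneg (nuw_nonneg _ _ _ _) (F_nonneg E _ _)

lemma DD_corr_nuw (E k J : ℕ) {α : Type*} (P : Finset α) (v : α → ℤ) :
    DD (3 ^ k) 3 (fun U => corr (3 ^ k * 3) (nuw P v (k + 1)) (F E (k + 1)) (2 ^ J * U + 0)) ≤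
      64 * DD (3 ^ k) 3 (nuw P v (k + 1)) * DD (3 ^ k) 3 (F E (k + 1)) := by
  have hper' := F_per' E k
  have hnuper := nuw_per' P v k
  have hcp : Per (3 ^ k * 3) (corr (3 ^ k * 3) (nuw P v (k + 1)) (F E (k + 1))) := by
    intro u
    unfold corr
    refine S_congr fun x => ?_
    rw [← add_assoc, hper' (x + u)]
  have h2 : DD (3 ^ k) 3 (fun U => corr (3 ^ k * 3) (nuw P v (k + 1)) (F E (k + 1)) (2 ^ J * U + 0)) =
      DD (3 ^ k) 3 (corr (3 ^ k * 3) (nuw P v (k + 1)) (F E (k + 1))) := by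
    refine DD_affine hcp ?_ 0
    have := isCoprime_two_three J (k + 1)
    rwa [pow_succ 3 k] at this
  rw [h2]
  have := DD_corr k 1 (f := nuw P v (k + 1)) (g := F E (k + 1)) (by simpa using hnuper)
    (by simpa using hper') (nuw_nonneg _ _ _) (F_nonneg E _)
  simpa using this

/-- (A4) -/
theorem ent_mul (E n k₀ k : ℕ) :
    ent E (n + k) ≤ (64 * tg E n k₀ k + Pr E (badw E n k₀)) * ent E k := by
  have hper' := F_per' E k
  have key : DD (3 ^ (n + k)) 3 (F E (n + k + 1)) ≤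
      (64 * (tg E n k₀ k * 3 ^ n) + 3 ^ n * Pr E (badw E n k₀)) * DD (3 ^ k) 3 (F E (k + 1)) := by
    rw [pow_add, DD_split]
    have htt : tg E n k₀ k * 3 ^ n = S (3 ^ n) (fun c => ∑ J ∈ range (3 * n + 1),
        wJ E n J * DD (3 ^ k) 3 (nuw (gw E n k₀ c J) (fun W => ch W c) (k + 1))) := by
      unfold tg; field_simp
    have hbad : 3 ^ n * Pr E (badw E n k₀) =
        S (3 ^ n) (fun c => ∑ W ∈ badw E n k₀, if vd W c then wt E W * 1 else 0) := by
      rw [S_weights E n (badw E n k₀) (fun W hW => length_of_mem (mem_filter.1 hW).1) (fun _ => 1)]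
      unfold Pr
      simp only [mul_one]
    rw [htt, hbad, ← S_mul_left, ← S_add, ← S_mul_right]
    refine S_mono fun c => ?_
    set s : Finset (ℕ ⊕ List ℕ) := (range (3 * n + 1)).disjSum ((badw E n k₀).filter (fun W => vd W c))
      with hs
    set cf : ℕ ⊕ List ℕ → ℝ := Sum.elim (fun J => wJ E n J) (fun W => wt E W) with hcf
    set ff : ℕ ⊕ List ℕ → ℤ → ℝ := Sum.elim
      (fun J U => corr (3 ^ k * 3) (nuw (gw E n k₀ c J) (fun W => ch W c) (k + 1)) (F E (k + 1))
        (2 ^ J * U + 0))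
      (fun W U => F E (k + 1) (2 ^ js W * U + ch W c)) with hff
    have h1 : ∀ U : ℤ, F E (n + k + 1) (c + ((3 ^ n : ℕ) : ℤ) * U) = ∑ i ∈ s, cf i * ff i U := by
      intro U
      rw [F_shift, hs, sum_disjSum, ← sum_filter_add_sum_filter_not (words E n)
        (fun W => js W ≤ 3 * n ∧ bs W < 3 ^ (n + k₀))]
      congr 1
      · rw [show (words E n).filter (fun W => js W ≤ 3 * n ∧ bs W < 3 ^ (n + k₀)) = goodw E n k₀ from rfl,
          sum_good E n k₀ c (fun W => wt E W * F E (k + 1) (2 ^ js W * U + ch W c))]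
        refine sum_congr rfl fun J _ => ?_
        rw [hcf, hff]
        simp only [Sum.elim_inl]
        rw [← pow_succ, corr_nuw _ _ _ (F_per E (k + 1)), mul_sum]
        refine sum_congr rfl fun W hW => ?_
        rw [gw, mem_filter] at hW
        rw [wt_eq_wJ (good_len hW.1), hW.2.2, add_zero, add_comm (ch W c)]
      · rw [show (words E n).filter (fun W => ¬ (js W ≤ 3 * n ∧ bs W < 3 ^ (n + k₀))) = badw E n k₀ from rfl,
          ← sum_filter]
        rfl
    rw [DD_congr h1]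
    have hcf0 : ∀ i ∈ s, 0 ≤ cf i := by
      intro i _
      rcases i with J | W
      · exact wJ_nonneg E n J
      · exact wt_nonneg E W
    have hff0 : ∀ i ∈ s, ∀ x, 0 ≤ ff i x := by
      intro i _ x
      rcases i with J | W
      · exact corr_nuw_nonneg E k _ _ _
      · exact F_nonneg E _ _
    refine (DD_sum_le (by norm_num) s cf hcf0 ff hff0).trans ?_
    rw [hs, sum_disjSum, add_mul]
    refine add_le_add ?_ (le_of_eq ?_)
    · rw [mul_sum, sum_mul]
      refine sum_le_sum fun J _ => ?_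
      rw [hcf, hff]
      simp only [Sum.elim_inl]
      have h3 := DD_corr_nuw E k J (gw E n k₀ c J) (fun W => ch W c)
      have h4 := wJ_nonneg E n J
      refine (mul_le_mul_of_nonneg_left h3 h4).trans (le_of_eq ?_)
      ring
    · rw [← sum_filter, sum_mul]
      refine sum_congr rfl fun W _ => ?_
      rw [hcf, hff]
      simp only [Sum.elim_inr]
      rw [DD_word, mul_one]
  unfold ent
  rw [div_le_iff₀ (by positivity)]
  refine key.trans (le_of_eq ?_)
  have : (3 : ℝ) ^ (n + k + 1) = 3 ^ n * 3 ^ (k + 1) := by ring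
  rw [this]
  field_simp

/-- The positions of good words with the same exponent are distinct modulo `3 ^ k₀`. -/
lemma gw_distinct (E n k₀ : ℕ) (c : ℤ) (J : ℕ) : ∀ W ∈ gw E n k₀ c J, ∀ W' ∈ gw E n k₀ c J,
    ((3 ^ k₀ : ℕ) : ℤ) ∣ ch W c - ch W' c → W = W' := by
  intro W hW W' hW' hd
  rw [gw, mem_filter] at hW hW'
  obtain ⟨hg, hv, hJ⟩ := hW
  obtain ⟨hg', hv', hJ'⟩ := hW'
  have hl := good_len hg
  have hl' := good_len hg'
  rw [goodw, mem_filter] at hg hg'
  have e1 := pow_ch hv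
  have e2 := pow_ch hv'
  rw [hl, hJ] at e1
  rw [hl', hJ'] at e2
  have e3 : (3 : ℤ) ^ n * (ch W c - ch W' c) = bs W' - bs W := by linear_combination e1 - e2
  obtain ⟨t, ht⟩ := hd
  have e4 : (3 : ℤ) ^ (n + k₀) ∣ bs W' - bs W := by
    rw [← e3, ht]
    push_cast
    exact ⟨t, by ring⟩
  have e5 : |bs W' - bs W| < 3 ^ (n + k₀) := by
    have h1 := bs_nonneg W
    have h2 := bs_nonneg W'
    have h3 := hg.2.2
    have h4 := hg'.2.2
    rw [abs_lt]
    constructor <;> linarith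
  have e6 := Int.eq_zero_of_abs_lt_dvd e4 e5
  rw [e6] at e3
  have e7 : ch W c = ch W' c := by
    have h3 : (3 : ℤ) ^ n ≠ 0 := by positivity
    have := (mul_eq_zero.1 e3).resolve_left h3
    linarith
  exact ch_inj (one_le_of_mem hg.1) (one_le_of_mem hg'.1) hv hv' (hl.trans hl'.symm)
    (hJ.trans hJ'.symm) e7

/-- (A5) -/
theorem sum_tg_le {E : ℕ} (hE : 1 ≤ E) (n k₀ : ℕ) :
    ∑ k ∈ range k₀, tg E n k₀ k ≤ (∑ W ∈ goodw E n k₀, pr E W * ((n + k₀ : ℕ) * Real.log 3 -
      n * Real.log (Z E) - js W * Real.log 2)) + Real.log (3 * n + 1) + 1 := by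
  have hZ := Z_pos hE
  set M : ℝ := 3 * n + 1 with hM
  have hM1 : 1 ≤ M := by rw [hM]; have : (0 : ℝ) ≤ n := Nat.cast_nonneg _; linarith
  have hlogM : 0 ≤ Real.log M := Real.log_nonneg hM1
  set ψ : ℕ → ℝ := fun J => (n + k₀ : ℕ) * Real.log 3 - n * Real.log (Z E) - J * Real.log 2 with hψ
  have key : ∀ c : ℤ, ∀ J ∈ range (3 * n + 1),
      wJ E n J * (∑ k ∈ range k₀, DD (3 ^ k) 3 (nuw (gw E n k₀ c J) (fun W => ch W c) (k + 1))) ≤
        (∑ W ∈ gw E n k₀ c J, wt E W * (ψ (js W) + Real.log M)) + 1 / M := by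
    intro c J _
    set V := gw E n k₀ c J with hV
    set m : ℝ := wJ E n J * V.card with hm
    have hm0 : 0 ≤ m := mul_nonneg (wJ_nonneg E n J) (Nat.cast_nonneg _)
    rw [sum_DD_nuw, HVw_eq_zero _ _ (gw_distinct E n k₀ c J), HVw_zero]
    have h1 : wJ E n J * (↑k₀ * (↑V.card * Real.log 3) + 0 - ↑V.card * Real.log ↑V.card) =
        m * (k₀ * Real.log 3) - m * Real.log V.card := by
      rw [hm]; ring
    rw [h1]
    have h2 : -(m * Real.log V.card) = -(m * Real.log m) +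
        m * (n * (Real.log 3 - Real.log (Z E)) - Real.log 2 * J) := by
      rcases Nat.eq_zero_or_pos V.card with h0 | h0
      · have : m = 0 := by rw [hm, h0]; simp
        rw [this]; ring
      · have hc : (0 : ℝ) < V.card := by exact_mod_cast h0
        have h3 : Real.log m = n * Real.log 3 - J * Real.log 2 - n * Real.log (Z E) +
            Real.log V.card := by
          rw [hm]
          unfold wJ
          rw [Real.log_mul (by positivity) hc.ne', Real.log_div (by positivity) (by positivity),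
            Real.log_one, Real.log_mul (by positivity) (by positivity),
            Real.log_div (by positivity) (by positivity), Real.log_pow, Real.log_pow, Real.log_pow]
          ring
        rw [h3]; ring
    have h4 := Sys.ent_neg_mul_log_le hm0 (lt_of_lt_of_le one_pos hM1)
    have h5 : ∑ W ∈ V, wt E W * (ψ (js W) + Real.log M) = m * (ψ J + Real.log M) := by
      have : ∀ W ∈ V, wt E W * (ψ (js W) + Real.log M) = wJ E n J * (ψ J + Real.log M) := by
        intro W hW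
        rw [hV, gw, mem_filter] at hW
        rw [wt_eq_wJ (good_len hW.1), hW.2.2]
      rw [sum_congr rfl this, sum_const, nsmul_eq_mul, hm]
      ring
    rw [h5]
    have h6 : m * (ψ J + Real.log M) = m * (k₀ * Real.log 3) +
        m * (n * (Real.log 3 - Real.log (Z E)) - Real.log 2 * J) + m * Real.log M := by
      rw [hψ]; push_cast; ring
    rw [h6]
    linarith
  have h1 : ∑ k ∈ range k₀, tg E n k₀ k = S (3 ^ n) (fun c => ∑ J ∈ range (3 * n + 1),
      wJ E n J * (∑ k ∈ range k₀, DD (3 ^ k) 3 (nuw (gw E n k₀ c J) (fun W => ch W c) (k + 1)))) /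
        3 ^ n := by
    unfold tg
    rw [← sum_div, ← S_sum]
    congr 1
    refine S_congr fun c => ?_
    rw [sum_comm]
    refine sum_congr rfl fun J _ => ?_
    rw [mul_sum]
  have h2 : S (3 ^ n) (fun c => ∑ J ∈ range (3 * n + 1),
      wJ E n J * (∑ k ∈ range k₀, DD (3 ^ k) 3 (nuw (gw E n k₀ c J) (fun W => ch W c) (k + 1)))) ≤
      3 ^ n * ∑ W ∈ goodw E n k₀, pr E W * (ψ (js W) + Real.log M) + 3 ^ n := by
    rw [← S_weights E n (goodw E n k₀) (fun W hW => good_len hW) (fun W => ψ (js W) + Real.log M)]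
    have h3 : (3 : ℝ) ^ n = S (3 ^ n) (fun _ => 1) := by rw [S_const]; push_cast; ring
    rw [h3, ← S_add]
    refine S_mono fun c => ?_
    rw [sum_good E n k₀ c (fun W => wt E W * (ψ (js W) + Real.log M))]
    refine (sum_le_sum (key c)).trans (le_of_eq ?_)
    rw [sum_add_distrib, sum_const, card_range, nsmul_eq_mul]
    congr 1
    rw [hM]
    push_cast
    field_simp
  rw [h1, div_le_iff₀ (by positivity)]
  refine h2.trans ?_
  have h3 : ∑ W ∈ goodw E n k₀, pr E W * (ψ (js W) + Real.log M) =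
      ∑ W ∈ goodw E n k₀, pr E W * ψ (js W) + Pr E (goodw E n k₀) * Real.log M := by
    unfold Pr
    rw [sum_mul, ← sum_add_distrib]
    exact sum_congr rfl fun W _ => by ring
  have h4 : Pr E (goodw E n k₀) ≤ 1 := by
    rw [← Pr_words hE n]
    exact Pr_mono (filter_subset _ _)
  have h5 : Pr E (goodw E n k₀) * Real.log M ≤ Real.log M := by nlinarith
  rw [h3]
  have h6 : (0 : ℝ) < 3 ^ n := by positivity
  have h7 : 3 ^ n * (∑ W ∈ goodw E n k₀, pr E W * ψ (js W) + Pr E (goodw E n k₀) * Real.log M) ≤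
      3 ^ n * (∑ W ∈ goodw E n k₀, pr E W * ψ (js W) + Real.log M) := by
    gcongr
  calc _ ≤ 3 ^ n * (∑ W ∈ goodw E n k₀, pr E W * ψ (js W) + Real.log M) + 3 ^ n := by linarith
    _ = _ := by rw [hψ]; ring

theorem ent_core {E : ℕ} (hE : 1 ≤ E) (n k₀ : ℕ) : ∃ t : ℕ → ℝ, (∀ k, 0 ≤ t k) ∧
    (∀ k, ent E (n + k) ≤ (64 * t k + Pr E (badw E n k₀)) * ent E k) ∧
    ∑ k ∈ range k₀, t k ≤ (∑ W ∈ goodw E n k₀, pr E W * ((n + k₀ : ℕ) * Real.log 3 -
      n * Real.log (Z E) - js W * Real.log 2)) + Real.log (3 * n + 1) + 1 :=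
  ⟨tg E n k₀, tg_nonneg E n k₀, ent_mul E n k₀, sum_tg_le hE n k₀⟩

end CollatzLin
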