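import Pool.Agent.CollatzLin.LSBasic
import Pool.Agent.CollatzOne.Concrete

set_option autoImplicit false

/-!
# From the logarithmic statements to natural density
-/

namespace CollatzLin

open CollatzOne Finset Filter Topology

/-- The integers whose trajectory stays outside `[-M, M]`. -/
def Avoid (M : ℕ) : Set ℤ := {n | ∀ k : ℕ, (M : ℤ) < |CollatzExp.C^[k] n|}

lemma Avoid.antitone {M M' : ℕ} (h : M ≤ M') : Avoid M' ⊆ Avoid M := by
  intro n hn k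
  have := hn k
  have h' : (M : ℤ) ≤ M' := by exact_mod_cast h
  linarith

lemma Avoid.iter {M : ℕ} {n : ℤ} (h : n ∈ Avoid M) (j : ℕ) : CollatzExp.C^[j] n ∈ Avoid M := by
  intro k
  rw [← Function.iterate_add_apply]
  exact h _

lemma Avoid.ne_zero {M : ℕ} {n : ℤ} (h : n ∈ Avoid M) : n ≠ 0 := by
  rintro rfl
  have := h 0
  simp at this
  omega

/-- Sets decreasing in `M` of small upper density. -/
def Small (T : ℕ → Set ℤ) : Prop :=
  ∀ δ : ℝ, 0 < δ → ∃ M N₀ : ℕ, ∀ N : ℕ, N₀ ≤ N →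
    ((T M ∩ Set.Icc (-(N : ℤ)) N).ncard : ℝ) ≤ δ * N

lemma card_multiples (K N : ℕ) (hK : 1 ≤ K) :
    (({n : ℤ | (K : ℤ) ∣ n} ∩ Set.Icc (-(N : ℤ)) N).ncard : ℝ) ≤ 2 * N / K + 1 := by
  have hK' : (0 : ℤ) < K := by exact_mod_cast hK
  have h1 : {n : ℤ | (K : ℤ) ∣ n} ∩ Set.Icc (-(N : ℤ)) N ⊆
      (fun m : ℤ => (K : ℤ) * m) '' (Icc (-((N / K : ℕ) : ℤ)) ((N / K : ℕ) : ℤ) : Finset ℤ) := by
    rintro n ⟨⟨m, rfl⟩, h2, h3⟩
    refine ⟨m, ?_, rfl⟩
    rw [mem_coe, mem_Icc]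
    push_cast
    constructor
    · have : -m ≤ (N : ℤ) / K := by
        rw [Int.le_ediv_iff_mul_le hK']
        linarith
      linarith
    · rw [Int.le_ediv_iff_mul_le hK']
      linarith
  have h2 : ({n : ℤ | (K : ℤ) ∣ n} ∩ Set.Icc (-(N : ℤ)) N).ncard ≤ 2 * (N / K) + 1 := by
    refine (Set.ncard_le_ncard h1 (Set.Finite.image _ (finite_toSet _))).trans ?_
    refine (Set.ncard_image_le (finite_toSet _)).trans ?_
    rw [Set.ncard_coe_finset, Int.card_Icc]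
    omega
  have h3 : ((N / K : ℕ) : ℝ) ≤ N / K := Nat.cast_div_le
  calc (({n : ℤ | (K : ℤ) ∣ n} ∩ Set.Icc (-(N : ℤ)) N).ncard : ℝ)
      ≤ ((2 * (N / K) + 1 : ℕ) : ℝ) := by exact_mod_cast h2
    _ = 2 * ((N / K : ℕ) : ℝ) + 1 := by push_cast; ring
    _ ≤ 2 * (N / K) + 1 := by linarith
    _ = _ := by ring

/-- Transfer of smallness along finitely many maps, up to multiples of a large integer. -/
lemma Small.transfer {S T : ℕ → Set ℤ} (hT : Small T) (b c : ℕ) (hb : 2 ≤ b) (hc : 1 ≤ c) (g : ℕ → ℤ → ℤ)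
    (h : ∀ M : ℕ, ∀ n ∈ S M, ∀ I : ℕ, ((b ^ I : ℕ) : ℤ) ∣ n ∨
      ∃ i < I, ∃ m ∈ T M, g i m = n ∧ |m| ≤ c * |n|) : Small S := by
  classical
  intro δ hδ
  -- choose the depth
  obtain ⟨I, hI⟩ : ∃ I : ℕ, 2 / δ * 4 < (b : ℝ) ^ I :=
    pow_unbounded_of_one_lt _ (by exact_mod_cast (by omega : 1 < b))
  have hbI : (0 : ℝ) < (b : ℝ) ^ I := by
    have : (0 : ℝ) < b := by exact_mod_cast (by omega : 0 < b)
    positivity
  obtain ⟨M, N₀, hN₀⟩ := hT (δ / (2 * c * (I + 1))) (by positivity)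
  have hc' : (1 : ℝ) ≤ c := by exact_mod_cast hc
  refine ⟨M, max (max N₀ 1) (⌈4 / δ⌉₊), fun N hN => ?_⟩
  have hN1 : N₀ ≤ N := by omega
  have hN2 : 1 ≤ N := by omega
  have hN3 : 4 / δ ≤ N := (Nat.le_ceil _).trans (by exact_mod_cast (by omega : ⌈4 / δ⌉₊ ≤ N))
  have hN2' : (1 : ℝ) ≤ N := by exact_mod_cast hN2
  have hcN : N₀ ≤ c * N := hN1.trans (Nat.le_mul_of_pos_left N hc)
  have h1 := hN₀ (c * N) hcN
  set T' := T M ∩ Set.Icc (-((c * N : ℕ) : ℤ)) ((c * N : ℕ) : ℤ) with hT'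
  have hT'fin : T'.Finite := (Set.finite_Icc _ _).subset Set.inter_subset_right
  have hsub : S M ∩ Set.Icc (-(N : ℤ)) N ⊆ ({n : ℤ | ((b ^ I : ℕ) : ℤ) ∣ n} ∩ Set.Icc (-(N : ℤ)) N) ∪
      ((range I).biUnion (fun i => hT'fin.toFinset.image (g i)) : Finset ℤ) := by
    rintro n ⟨hn1, hn2⟩
    rcases h M n hn1 I with h3 | ⟨i, hi, m, hm, hgm, hmn⟩
    · exact Or.inl ⟨h3, hn2⟩
    · right
      rw [mem_coe, mem_biUnion]
      refine ⟨i, mem_range.2 hi, mem_image.2 ⟨m, ?_, hgm⟩⟩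
      rw [Set.Finite.mem_toFinset]
      refine ⟨hm, ?_⟩
      have h4 : |n| ≤ N := abs_le.2 hn2
      have h5 : |m| ≤ c * N := hmn.trans (by gcongr)
      rw [Set.mem_Icc, ← abs_le]
      push_cast
      exact h5
  have h2 : ((S M ∩ Set.Icc (-(N : ℤ)) N).ncard : ℝ) ≤
      (({n : ℤ | ((b ^ I : ℕ) : ℤ) ∣ n} ∩ Set.Icc (-(N : ℤ)) N).ncard : ℝ) + I * (T'.ncard : ℝ) := by
    have h3 := (Set.ncard_le_ncard hsub (Set.Finite.union
      ((Set.finite_Icc _ _).subset Set.inter_subset_right) (finite_toSet _))).trans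
      (Set.ncard_union_le _ _)
    rw [Set.ncard_coe_finset] at h3
    have h4 : ((range I).biUnion (fun i => hT'fin.toFinset.image (g i))).card ≤ I * T'.ncard := by
      refine card_biUnion_le.trans ?_
      refine (sum_le_sum fun i _ => card_image_le).trans ?_
      rw [sum_const, card_range, smul_eq_mul, Set.ncard_eq_toFinset_card _ hT'fin]
    have h5 := h3.trans (Nat.add_le_add_left h4 _)
    exact_mod_cast h5
  have h3 := card_multiples (b ^ I) N (Nat.one_le_pow _ _ (by omega))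
  push_cast at h3 h1
  have h4 : 2 * (N : ℝ) / (b : ℝ) ^ I ≤ δ / 4 * N := by
    rw [div_le_iff₀ hbI]
    have h5 : 2 ≤ δ / 4 * (b : ℝ) ^ I := by
      have := hI.le
      rw [div_mul_eq_mul_div, div_le_iff₀ hδ] at this
      linarith
    nlinarith
  have h5 : (1 : ℝ) ≤ δ / 4 * N := by
    rw [div_le_iff₀ hδ] at hN3
    linarith
  have h6 : (I : ℝ) * (T'.ncard : ℝ) ≤ δ / 2 * N := by
    have h7 : (I : ℝ) * (T'.ncard : ℝ) ≤ (I + 1) * (δ / (2 * c * (I + 1)) * (c * N)) := by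
      have : (0 : ℝ) ≤ I := Nat.cast_nonneg _
      have h8 : (0 : ℝ) ≤ T'.ncard := Nat.cast_nonneg _
      have h9 : (I : ℝ) * (T'.ncard : ℝ) ≤ (I + 1) * (T'.ncard : ℝ) := by nlinarith
      refine h9.trans ?_
      gcongr
    refine h7.trans (le_of_eq ?_)
    field_simp
  push_cast at h2
  linarith

/-- The avoiding integers `≡ 2 mod 3`, not divisible by `4`. -/
def T0 (M : ℕ) : Set ℤ := {n | n ∈ Avoid M ∧ n % 3 = 2 ∧ n % 4 ≠ 0}

/-- The avoiding integers `≡ 2 mod 3`. -/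
def T2 (M : ℕ) : Set ℤ := {n | n ∈ Avoid M ∧ n % 3 = 2}

/-- The avoiding integers `≡ 1 mod 3`. -/
def T1 (M : ℕ) : Set ℤ := {n | n ∈ Avoid M ∧ n % 3 = 1}

/-- The avoiding integers `≡ 0 mod 3`. -/
def T3 (M : ℕ) : Set ℤ := {n | n ∈ Avoid M ∧ n % 3 = 0}

lemma small_T2 (h : Small T0) : Small T2 := by
  refine h.transfer 4 1 (by norm_num) le_rfl (fun i m => 4 ^ i * m) ?_
  intro M n hn I
  by_cases hd : ((4 ^ I : ℕ) : ℤ) ∣ n
  · exact Or.inl hd
  · right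
    -- the largest power of 4 dividing n
    have hn0 := Avoid.ne_zero hn.1
    have hex : ∃ i, ¬ (((4 : ℤ) ^ (i + 1)) ∣ n) := by
      refine ⟨I, fun hcon => hd ?_⟩
      push_cast
      exact dvd_trans (pow_dvd_pow _ (Nat.le_succ I)) hcon
    classical
    set i := Nat.find hex with hi
    have h1 : ¬ ((4 : ℤ) ^ (i + 1)) ∣ n := Nat.find_spec hex
    have h2 : ((4 : ℤ) ^ i) ∣ n := by
      rcases Nat.eq_zero_or_pos i with h0 | h0
      · rw [h0]; simp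
      · have := Nat.find_min hex (m := i - 1) (by omega)
        rw [not_not, Nat.sub_add_cancel h0] at this
        exact this
    have hiI : i < I := by
      by_contra hcon
      apply hd
      push_cast
      exact dvd_trans (pow_dvd_pow _ (not_lt.1 hcon)) h2
    obtain ⟨m, hm⟩ := h2
    have hm4 : m % 4 ≠ 0 := by
      intro hcon
      apply h1
      obtain ⟨t, ht⟩ := Int.dvd_of_emod_eq_zero hcon
      exact ⟨t, by rw [hm, ht]; ring⟩
    have h43 : (4 : ℤ) ^ i % 3 = 1 := by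
      have : (4 : ℤ) ^ i ≡ 1 ^ i [ZMOD 3] := Int.ModEq.pow i (by decide)
      rw [one_pow] at this
      exact this
    have hm3 : m % 3 = 2 := by
      have h5 := hn.2
      rw [hm, Int.mul_emod, h43] at h5
      omega
    have hmA : m ∈ Avoid M := by
      have h5 := Avoid.iter hn.1 (2 * i)
      have h6 : CollatzExp.C^[2 * i] n = m := by
        rw [hm, show (4 : ℤ) ^ i = 2 ^ (2 * i) by rw [pow_mul]; norm_num,
          CollatzExp.C_iter_two_pow _ _ _ le_rfl]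
        simp
      rwa [h6] at h5
    refine ⟨i, hiI, m, ⟨hmA, hm3, hm4⟩, hm.symm, ?_⟩
    rw [hm, abs_mul, Nat.cast_one, one_mul]
    have h7 : (1 : ℤ) ≤ |4 ^ i| := by
      rw [abs_of_pos (by positivity)]
      exact one_le_pow₀ (by norm_num)
    nlinarith [abs_nonneg m]

lemma small_T1 (h : Small T2) : Small T1 := by
  refine h.transfer 2 2 le_rfl (by norm_num) (fun i m => m / 2) ?_
  intro M n hn I
  rcases Nat.eq_zero_or_pos I with rfl | hI
  · left; simp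
  · right
    refine ⟨0, hI, 2 * n, ⟨?_, ?_⟩, ?_, ?_⟩
    · intro k
      cases k with
      | zero =>
        have := hn.1 0
        simp only [Function.iterate_zero, id_eq] at this ⊢
        rw [abs_mul]
        have h2 : |(2 : ℤ)| = 2 := rfl
        rw [h2]
        linarith [abs_nonneg n]
      | succ k =>
        rw [Function.iterate_succ_apply]
        have : CollatzExp.C (2 * n) = n := by
          rw [CollatzExp.C_even (by omega)]
          omega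
        rw [this]
        exact hn.1 k
    · have := hn.2
      omega
    · show 2 * n / 2 = n
      omega
    · rw [abs_mul]
      rfl

lemma small_T3 (h : Small T1) : Small T3 := by
  refine h.transfer 2 4 le_rfl (by norm_num) (fun i m => 2 ^ i * ((m - 1) / 3)) ?_
  intro M n hn I
  by_cases hd : ((2 ^ I : ℕ) : ℤ) ∣ n
  · exact Or.inl hd
  · right
    have hn0 := Avoid.ne_zero hn.1
    have hex : ∃ i, ¬ (((2 : ℤ) ^ (i + 1)) ∣ n) := by
      refine ⟨I, fun hcon => hd ?_⟩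
      push_cast
      exact dvd_trans (pow_dvd_pow _ (Nat.le_succ I)) hcon
    classical
    set i := Nat.find hex with hi
    have h1 : ¬ ((2 : ℤ) ^ (i + 1)) ∣ n := Nat.find_spec hex
    have h2 : ((2 : ℤ) ^ i) ∣ n := by
      rcases Nat.eq_zero_or_pos i with h0 | h0
      · rw [h0]; simp
      · have := Nat.find_min hex (m := i - 1) (by omega)
        rw [not_not, Nat.sub_add_cancel h0] at this
        exact this
    have hiI : i < I := by
      by_contra hcon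
      apply hd
      push_cast
      exact dvd_trans (pow_dvd_pow _ (not_lt.1 hcon)) h2
    obtain ⟨z, hz⟩ := h2
    have hz2 : z % 2 = 1 := by
      by_contra hcon
      apply h1
      obtain ⟨t, ht⟩ := Int.dvd_of_emod_eq_zero (by omega : z % 2 = 0)
      exact ⟨t, by rw [hz, ht]; ring⟩
    have hz0 : z ≠ 0 := by rintro rfl; omega
    have hzA : z ∈ Avoid M := by
      have h5 := Avoid.iter hn.1 i
      have h6 : CollatzExp.C^[i] n = z := by
        rw [hz, CollatzExp.C_iter_two_pow _ _ _ le_rfl]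
        simp
      rwa [h6] at h5
    have hmA : 3 * z + 1 ∈ Avoid M := by
      have h5 := Avoid.iter hzA 1
      rwa [Function.iterate_one, CollatzExp.C_odd hz2] at h5
    refine ⟨i, hiI, 3 * z + 1, ⟨hmA, by omega⟩, ?_, ?_⟩
    · show 2 ^ i * ((3 * z + 1 - 1) / 3) = n
      rw [show (3 * z + 1 - 1) / 3 = z by omega, hz]
    · have h7 : (1 : ℤ) ≤ 2 ^ i := one_le_pow₀ (by norm_num)
      have h8 : |z| ≤ |n| := by
        rw [hz, abs_mul, abs_of_pos (by positivity : (0 : ℤ) < 2 ^ i)]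
        nlinarith [abs_nonneg z]
      have h9 : 1 ≤ |z| := Int.one_le_abs hz0
      calc |3 * z + 1| ≤ |3 * z| + |1| := abs_add_le _ _
        _ = 3 * |z| + 1 := by rw [abs_mul]; rfl
        _ ≤ ((4 : ℕ) : ℤ) * |n| := by push_cast; linarith

/-! ### The logarithmic statements -/

/-- Statement of `log_small`. -/
def Stmt_log : Prop := ∃ (C : ℝ) (L₀ : ℕ), 0 < C ∧ ∀ L₁ : ℕ, L₀ ≤ L₁ → ∀ a : ℤ → ℝ, Adm a →
    (∀ v : ℤ, |v| < 2 ^ (2 * L₁) → a v = 0) → ∀ L ℓ : ℕ, L₁ ≤ L → L ≤ 64 * ℓ → 16 * ℓ ≤ L →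
    LS L (L + ℓ) a ≤ C * ℓ * (L₁ : ℝ) ^ (-(1 / 4) : ℝ)

/-- Statement of `start`. -/
def Stmt_start : Prop := ∀ δ : ℝ, 0 < δ → ∃ (η : ℝ) (L₀ : ℕ), 0 < η ∧ ∀ L : ℕ, L₀ ≤ L →
    ∀ a : ℤ → ℝ, Adm a →
    (∀ A ℓ : ℕ, L ≤ 2 * A → A ≤ 64 * ℓ → 16 * ℓ ≤ A → LS A (A + ℓ) a ≤ η * ℓ) →
    LS L (L + 1) a ≤ δ

open Classical in
/-- The indicator of the avoiding integers, in the coordinate `v`. -/
noncomputable def av (M : ℕ) (v : ℤ) : ℝ := if 3 * v - 1 ∈ Avoid M then 1 else 0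

lemma av_adm (M : ℕ) : Adm (av M) where
  nonneg := fun v => by unfold av; split_ifs <;> norm_num
  le_one := fun v => by unfold av; split_ifs <;> norm_num
  mono := by
    intro e v he _ hv
    unfold av
    by_cases h : 3 * c1 e v - 1 ∈ Avoid M
    · have h1 : 3 * v - 1 ∈ Avoid M := by
        have h2 := Avoid.iter h (e + 1)
        rwa [← child_eq hv, CollatzExp.C_iter_child_full he ((valid_iff e v).2 hv)] at h2
      rw [if_pos h, if_pos h1]
    · rw [if_neg h]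
      split_ifs <;> norm_num

/-- Windows carry little mass. -/
lemma LS_av_small (hlog : Stmt_log) (hstart : Stmt_start) {δ : ℝ} (hδ : 0 < δ) :
    ∃ M L₀ : ℕ, ∀ L : ℕ, L₀ ≤ L → LS L (L + 1) (av M) ≤ δ := by
  obtain ⟨η, L₀, hη, hL₀⟩ := hstart δ hδ
  obtain ⟨C, L₀', hC, hlog⟩ := hlog
  -- choose L₁
  have hlim : Tendsto (fun L : ℕ => C * (L : ℝ) ^ (-(1 / 4) : ℝ)) atTop (𝓝 (C * 0)) := by
    refine Tendsto.const_mul _ ?_
    exact (tendsto_rpow_neg_atTop (by norm_num : (0 : ℝ) < 1 / 4)).comp tendsto_natCast_atTop_atTop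
  rw [mul_zero] at hlim
  obtain ⟨L₁, hL₁, hL₁'⟩ : ∃ L₁ : ℕ, L₀' ≤ L₁ ∧ C * (L₁ : ℝ) ^ (-(1 / 4) : ℝ) ≤ η := by
    have h1 := (hlim.eventually (gt_mem_nhds hη)).and (eventually_ge_atTop L₀')
    obtain ⟨L₁, h2, h3⟩ := h1.exists
    exact ⟨L₁, h3, h2.le⟩
  refine ⟨3 * 2 ^ (2 * L₁) + 1, max L₀ (2 * L₁), fun L hL => ?_⟩
  refine hL₀ L (by omega) _ (av_adm _) ?_
  intro A ℓ h1 h2 h3
  refine (hlog L₁ hL₁ _ (av_adm _) ?_ A ℓ (by omega) h2 h3).trans ?_
  · intro v hv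
    unfold av
    rw [if_neg]
    intro hcon
    have h4 := hcon 0
    simp only [Function.iterate_zero, id_eq] at h4
    push_cast at h4
    have h5 : |3 * v - 1| ≤ 3 * |v| + 1 := by
      calc |3 * v - 1| ≤ |3 * v| + |1| := abs_sub _ _
        _ = 3 * |v| + 1 := by rw [abs_mul]; rfl
    linarith
  · have h4 : (0 : ℝ) ≤ ℓ := Nat.cast_nonneg _
    calc C * ℓ * (L₁ : ℝ) ^ (-(1 / 4) : ℝ) = (C * (L₁ : ℝ) ^ (-(1 / 4) : ℝ)) * ℓ := by ring
      _ ≤ η * ℓ := by gcongr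

/-- Counting in one window. -/
lemma card_win_le (M L : ℕ) :
    (((win L (L + 1)).filter (fun v => av M v = 1)).card : ℝ) ≤ 2 ^ (L + 1) * LS L (L + 1) (av M) := by
  unfold LS
  rw [mul_sum, card_eq_sum_ones, Nat.cast_sum, sum_filter]
  refine sum_le_sum fun v hv => ?_
  have h0 := (av_adm M).nonneg v
  have hpos := abs_pos_of_win hv
  rw [mem_win] at hv
  have h1 : |(v : ℝ)| ≤ 2 ^ (L + 1) := by
    have := hv.2.1.le
    exact_mod_cast this
  split_ifs with h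
  · rw [h]
    push_cast
    rw [mul_one_div, le_div_iff₀ hpos, one_mul]
    exact h1
  · positivity

/-- Counting in a box. -/
lemma card_bx_le {M L₀ : ℕ} {δ : ℝ} (hδ : 0 ≤ δ) (h : ∀ L : ℕ, L₀ ≤ L → LS L (L + 1) (av M) ≤ δ) (B : ℕ) :
    (((bx (L₀ + B)).filter (fun v => av M v = 1)).card : ℝ) ≤ 2 ^ (L₀ + 1) + δ * 2 ^ (L₀ + B + 1) := by
  induction B with
  | zero =>
    have h1 : ((bx L₀).filter (fun v => av M v = 1)).card ≤ 2 ^ (L₀ + 1) := by
      refine (card_filter_le _ _).trans ((card_filter_le _ _).trans ?_)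
      rw [Int.card_Ioo]
      have : (2 : ℤ) ^ L₀ - -2 ^ L₀ - 1 ≤ ((2 ^ (L₀ + 1) : ℕ) : ℤ) := by
        push_cast
        rw [pow_succ]
        linarith
      exact Int.toNat_le.2 this
    have h2 : (((bx L₀).filter (fun v => av M v = 1)).card : ℝ) ≤ 2 ^ (L₀ + 1) := by exact_mod_cast h1
    have h3 : 0 ≤ δ * 2 ^ (L₀ + 0 + 1) := by positivity
    rw [add_zero] at *
    linarith
  | succ B ih =>
    have h1 : (bx (L₀ + (B + 1))).filter (fun v => av M v = 1) ⊆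
        (bx (L₀ + B)).filter (fun v => av M v = 1) ∪
          (win (L₀ + B) (L₀ + B + 1)).filter (fun v => av M v = 1) := by
      intro v hv
      rw [mem_filter, mem_bx] at hv
      rw [mem_union, mem_filter, mem_filter, mem_bx, mem_win]
      by_cases h2 : |v| < 2 ^ (L₀ + B)
      · exact Or.inl ⟨⟨h2, hv.1.2⟩, hv.2⟩
      · exact Or.inr ⟨⟨not_lt.1 h2, hv.1.1, hv.1.2⟩, hv.2⟩
    have h2 := (card_le_card h1).trans (card_union_le _ _)
    have h3 := card_win_le M (L₀ + B)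
    have h4 := h (L₀ + B) (by omega)
    have h5 : (((bx (L₀ + (B + 1))).filter (fun v => av M v = 1)).card : ℝ) ≤
        (((bx (L₀ + B)).filter (fun v => av M v = 1)).card : ℝ) +
          (((win (L₀ + B) (L₀ + B + 1)).filter (fun v => av M v = 1)).card : ℝ) := by
      exact_mod_cast h2
    have h6 : (2 : ℝ) ^ (L₀ + B + 1) * LS (L₀ + B) (L₀ + B + 1) (av M) ≤ 2 ^ (L₀ + B + 1) * δ := by
      gcongr
    have h7 : (2 : ℝ) ^ (L₀ + (B + 1) + 1) = 2 * 2 ^ (L₀ + B + 1) := by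
      rw [← pow_succ']
      congr 1
    rw [h7]
    linarith

lemma small_T0 (hlog : Stmt_log) (hstart : Stmt_start) : Small T0 := by
  classical
  intro δ hδ
  obtain ⟨M, L₀, hL⟩ := LS_av_small hlog hstart (δ := δ / 8) (by positivity)
  refine ⟨M, max 1 (⌈2 ^ (L₀ + 1) * 2 / δ⌉₊ + 2 ^ L₀), fun N hN => ?_⟩
  have hN1 : 1 ≤ N := by omega
  have hpp : 1 ≤ 2 ^ L₀ := Nat.one_le_two_pow
  have hN2 : (2 : ℝ) ^ (L₀ + 1) * 2 / δ ≤ N :=
    (Nat.le_ceil _).trans (by exact_mod_cast (by omega : ⌈(2 : ℝ) ^ (L₀ + 1) * 2 / δ⌉₊ ≤ N))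
  have hN3 : 2 ^ L₀ ≤ N := by omega
  -- the box
  set b := Nat.log 2 N with hb
  have hb1 : 2 ^ b ≤ N := Nat.pow_log_le_self 2 (by omega)
  have hb2 : N < 2 ^ (b + 1) := Nat.lt_pow_succ_log_self (by norm_num) N
  have hLb : L₀ ≤ b := by
    by_contra hcon
    have : 2 ^ (b + 1) ≤ 2 ^ L₀ := Nat.pow_le_pow_right (by norm_num) (by omega)
    omega
  obtain ⟨B, hB⟩ : ∃ B, b + 1 = L₀ + B := ⟨b + 1 - L₀, by omega⟩
  have h1 := card_bx_le (M := M) (by positivity : (0 : ℝ) ≤ δ / 8) hL B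
  rw [← hB] at h1
  have hsub : T0 M ∩ Set.Icc (-(N : ℤ)) N ⊆
      (fun v : ℤ => 3 * v - 1) '' ((bx (b + 1)).filter (fun v => av M v = 1) : Finset ℤ) := by
    rintro n ⟨⟨hn1, hn2, hn3⟩, hn4⟩
    obtain ⟨v, rfl⟩ : ∃ v : ℤ, n = 3 * v - 1 := ⟨(n + 1) / 3, by omega⟩
    refine ⟨v, ?_, rfl⟩
    rw [mem_coe, mem_filter, mem_bx]
    refine ⟨⟨?_, ?_⟩, ?_⟩
    · have h2 : (N : ℤ) < 2 ^ (b + 1) := by exact_mod_cast hb2
      have h3 := hn4.1
      have h4 := hn4.2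
      rw [abs_lt]
      constructor <;> omega
    · unfold OO
      omega
    · unfold av
      rw [if_pos hn1]
  have h2 : ((T0 M ∩ Set.Icc (-(N : ℤ)) N).ncard : ℝ) ≤
      (((bx (b + 1)).filter (fun v => av M v = 1)).card : ℝ) := by
    have h3 := (Set.ncard_le_ncard hsub (Set.Finite.image _ (finite_toSet _))).trans
      (Set.ncard_image_le (finite_toSet _))
    rw [Set.ncard_coe_finset] at h3
    exact_mod_cast h3
  have h3 : (2 : ℝ) ^ (b + 1 + 1) ≤ 4 * N := by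
    have h4 : (2 : ℝ) ^ b ≤ N := by exact_mod_cast hb1
    rw [pow_succ, pow_succ]
    linarith
  have h4 : (2 : ℝ) ^ (L₀ + 1) ≤ δ / 2 * N := by
    rw [div_le_iff₀ hδ] at hN2
    linarith
  have h5 : δ / 8 * (2 : ℝ) ^ (b + 1 + 1) ≤ δ / 8 * (4 * N) := by gcongr
  linarith

/-- The proportion of integers with `|n| ≤ N` whose trajectory stays outside `[-M, M]` is small. -/
theorem small_Avoid (hlog : Stmt_log) (hstart : Stmt_start) : Small Avoid := by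
  have h0 := small_T0 hlog hstart
  have h2 := small_T2 h0
  have h1 := small_T1 h2
  have h3 := small_T3 h1
  intro δ hδ
  obtain ⟨M₁, N₁, hN₁⟩ := h1 (δ / 3) (by positivity)
  obtain ⟨M₂, N₂, hN₂⟩ := h2 (δ / 3) (by positivity)
  obtain ⟨M₃, N₃, hN₃⟩ := h3 (δ / 3) (by positivity)
  refine ⟨max M₁ (max M₂ M₃), max N₁ (max N₂ N₃), fun N hN => ?_⟩
  have e1 := hN₁ N (by omega)
  have e2 := hN₂ N (by omega)
  have e3 := hN₃ N (by omega)
  have hsub : Avoid (max M₁ (max M₂ M₃)) ∩ Set.Icc (-(N : ℤ)) N ⊆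
      (T1 M₁ ∩ Set.Icc (-(N : ℤ)) N) ∪ ((T2 M₂ ∩ Set.Icc (-(N : ℤ)) N) ∪
        (T3 M₃ ∩ Set.Icc (-(N : ℤ)) N)) := by
    rintro n ⟨hn1, hn2⟩
    rcases (by omega : n % 3 = 1 ∨ n % 3 = 2 ∨ n % 3 = 0) with h | h | h
    · exact Or.inl ⟨⟨Avoid.antitone (by omega) hn1, h⟩, hn2⟩
    · exact Or.inr (Or.inl ⟨⟨Avoid.antitone (by omega) hn1, h⟩, hn2⟩)
    · exact Or.inr (Or.inr ⟨⟨Avoid.antitone (by omega) hn1, h⟩, hn2⟩)
  have hfin : ∀ s : Set ℤ, (s ∩ Set.Icc (-(N : ℤ)) N).Finite :=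
    fun s => (Set.finite_Icc _ _).subset Set.inter_subset_right
  have h4 := (Set.ncard_le_ncard hsub ((hfin _).union ((hfin _).union (hfin _)))).trans
    ((Set.ncard_union_le _ _).trans (Nat.add_le_add_left (Set.ncard_union_le _ _) _))
  have h5 : ((Avoid (max M₁ (max M₂ M₃)) ∩ Set.Icc (-(N : ℤ)) N).ncard : ℝ) ≤
      ((T1 M₁ ∩ Set.Icc (-(N : ℤ)) N).ncard : ℝ) + (((T2 M₂ ∩ Set.Icc (-(N : ℤ)) N).ncard : ℝ) +
        ((T3 M₃ ∩ Set.Icc (-(N : ℤ)) N).ncard : ℝ)) := by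
    exact_mod_cast h4
  linarith

open Classical in
theorem avoid_small_of (hlog : Stmt_log) (hstart : Stmt_start) {δ : ℝ} (hδ : 0 < δ) :
    ∃ M N₀ : ℕ, ∀ N : ℕ, N₀ ≤ N →
    (((Icc (-(N : ℤ)) N).filter (fun n => ∀ k : ℕ, (M : ℤ) < |CollatzExp.C^[k] n|)).card : ℝ) ≤ δ * N := by
  obtain ⟨M, N₀, h⟩ := small_Avoid hlog hstart δ hδ
  refine ⟨M, N₀, fun N hN => ?_⟩
  have h1 := h N hN
  have h2 : Avoid M ∩ Set.Icc (-(N : ℤ)) N =
      ((Icc (-(N : ℤ)) N).filter (fun n => ∀ k : ℕ, (M : ℤ) < |CollatzExp.C^[k] n|) : Finset ℤ) := by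
    ext n
    rw [mem_coe, mem_filter, mem_Icc]
    constructor
    · rintro ⟨h3, h4⟩; exact ⟨h4, h3⟩
    · rintro ⟨h3, h4⟩; exact ⟨h4, h3⟩
  rw [h2, Set.ncard_coe_finset] at h1
  exact h1

/-- Almost all trajectories attain almost bounded values, in natural density. -/
theorem collatz_tao_of (hlog : Stmt_log) (hstart : Stmt_start) (f : ℕ → ℝ) (hf : Tendsto f atTop atTop) :
    Tendsto (fun N : ℕ => ({n : ℤ | |n| ≤ N ∧ ∃ k : ℕ, ((|CollatzExp.C^[k] n| : ℤ) : ℝ) ≤ f n.natAbs}.ncard : ℝ) /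
      (2 * N + 1)) atTop (𝓝 1) := by
  rw [Metric.tendsto_atTop]
  intro ε hε
  obtain ⟨M, N₀, hM⟩ := small_Avoid hlog hstart (ε / 2) (by positivity)
  obtain ⟨m₀, hm₀⟩ : ∃ m₀ : ℕ, ∀ m : ℕ, m₀ ≤ m → (M : ℝ) ≤ f m := by
    obtain ⟨m₀, h⟩ := (tendsto_atTop.1 hf M).exists_forall_of_atTop
    exact ⟨m₀, h⟩
  refine ⟨max N₀ (⌈(2 * m₀ + 1) * 2 / ε⌉₊), fun N hN => ?_⟩
  have hN1 : N₀ ≤ N := by omega
  have hN2 : (2 * (m₀ : ℝ) + 1) * 2 / ε ≤ N :=
    (Nat.le_ceil _).trans (by exact_mod_cast (by omega : ⌈(2 * (m₀ : ℝ) + 1) * 2 / ε⌉₊ ≤ N))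
  set G : Set ℤ := {n : ℤ | |n| ≤ N ∧ ∃ k : ℕ, ((|CollatzExp.C^[k] n| : ℤ) : ℝ) ≤ f n.natAbs} with hG
  have hIccc : (Set.Icc (-(N : ℤ)) N).ncard = 2 * N + 1 := by
    rw [← Finset.coe_Icc, Set.ncard_coe_finset, Int.card_Icc]
    omega
  have hGsub : G ⊆ Set.Icc (-(N : ℤ)) N := fun n hn => abs_le.1 hn.1
  have hGfin : G.Finite := (Set.finite_Icc _ _).subset hGsub
  have hcov : Set.Icc (-(N : ℤ)) N ⊆ G ∪ ((Avoid M ∩ Set.Icc (-(N : ℤ)) N) ∪
      Set.Icc (-(m₀ : ℤ)) m₀) := by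
    intro n hn
    by_cases h1 : n ∈ Avoid M
    · exact Or.inr (Or.inl ⟨h1, hn⟩)
    · by_cases h2 : |n| ≤ m₀
      · exact Or.inr (Or.inr (abs_le.1 h2))
      · left
        have h3 : ∃ k : ℕ, |CollatzExp.C^[k] n| ≤ (M : ℤ) := by
          by_contra hcon
          push Not at hcon
          exact h1 hcon
        obtain ⟨k, hk⟩ := h3
        refine ⟨abs_le.2 hn, k, ?_⟩
        have h2' := not_le.1 h2
        rw [Int.abs_eq_natAbs] at h2'
        have h4 := hm₀ n.natAbs (by omega)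
        refine le_trans ?_ h4
        exact_mod_cast hk
  have hfin1 : (Avoid M ∩ Set.Icc (-(N : ℤ)) N).Finite :=
    (Set.finite_Icc _ _).subset Set.inter_subset_right
  have h1 := (Set.ncard_le_ncard hcov (hGfin.union (hfin1.union (Set.finite_Icc _ _)))).trans
    ((Set.ncard_union_le _ _).trans (Nat.add_le_add_left (Set.ncard_union_le _ _) _))
  have hIccm : (Set.Icc (-(m₀ : ℤ)) m₀).ncard = 2 * m₀ + 1 := by
    rw [← Finset.coe_Icc, Set.ncard_coe_finset, Int.card_Icc]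
    omega
  rw [hIccc, hIccm] at h1
  have h2 : (2 * (N : ℝ) + 1) ≤ G.ncard + ((Avoid M ∩ Set.Icc (-(N : ℤ)) N).ncard + (2 * m₀ + 1)) := by
    exact_mod_cast h1
  have h3 : (G.ncard : ℝ) ≤ 2 * N + 1 := by
    have := Set.ncard_le_ncard hGsub (Set.finite_Icc _ _)
    rw [hIccc] at this
    exact_mod_cast this
  have h4 := hM N hN1
  have h5 : (2 * (m₀ : ℝ) + 1) ≤ ε / 2 * N := by
    rw [div_le_iff₀ hε] at hN2
    linarith
  have hpos : (0 : ℝ) < 2 * N + 1 := by positivity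
  rw [Real.dist_eq, abs_lt]
  constructor
  · rw [lt_sub_iff_add_lt, lt_div_iff₀ hpos]
    nlinarith
  · rw [sub_lt_iff_lt_add, div_lt_iff₀ hpos]
    nlinarith

end CollatzLin
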