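import Pool.Agent.CollatzLin.Defs2

set_option autoImplicit false

/-!
# Basic lemmas on windows, logarithmic sums and the shift `sh`
-/

namespace CollatzLin

open CollatzOne Finset

/-! ### Windows -/

lemma mem_bx {B : ℕ} {v : ℤ} : v ∈ bx B ↔ |v| < 2 ^ B ∧ OO v := by
  unfold bx
  rw [mem_filter, mem_Ioo, abs_lt]

lemma mem_win {A B : ℕ} {v : ℤ} : v ∈ win A B ↔ (2 : ℤ) ^ A ≤ |v| ∧ |v| < 2 ^ B ∧ OO v := by
  unfold win
  rw [mem_filter, mem_bx]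
  tauto

lemma win_subset_bx (A B : ℕ) : win A B ⊆ bx B := filter_subset _ _

lemma bx_mono {B B' : ℕ} (h : B ≤ B') : bx B ⊆ bx B' := by
  intro v hv
  rw [mem_bx] at hv ⊢
  exact ⟨lt_of_lt_of_le hv.1 (pow_le_pow_right₀ (by norm_num) h), hv.2⟩

lemma win_mono {A A' B B' : ℕ} (h : A' ≤ A) (h' : B ≤ B') : win A B ⊆ win A' B' := by
  intro v hv
  rw [mem_win] at hv ⊢
  exact ⟨le_trans (pow_le_pow_right₀ (by norm_num) h) hv.1,
    lt_of_lt_of_le hv.2.1 (pow_le_pow_right₀ (by norm_num) h'), hv.2.2⟩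

lemma abs_pos_of_win {A B : ℕ} {v : ℤ} (h : v ∈ win A B) : 0 < |(v : ℝ)| := by
  rw [mem_win] at h
  have h1 : (0 : ℤ) < 2 ^ A := by positivity
  have h2 : (0 : ℤ) < |v| := by linarith [h.1]
  exact_mod_cast h2

lemma win_real {A B : ℕ} {v : ℤ} (h : v ∈ win A B) : (2 : ℝ) ^ A ≤ |(v : ℝ)| ∧ |(v : ℝ)| < 2 ^ B := by
  rw [mem_win] at h
  exact ⟨by exact_mod_cast h.1, by exact_mod_cast h.2.1⟩

lemma win_disjoint (A B C : ℕ) : Disjoint (win A B) (win B C) := by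
  rw [disjoint_left]
  intro v h1 h2
  rw [mem_win] at h1 h2
  omega

lemma win_union {A B C : ℕ} (h1 : A ≤ B) (h2 : B ≤ C) : win A B ∪ win B C = win A C := by
  ext v
  rw [mem_union, mem_win, mem_win, mem_win]
  have e1 : (2 : ℤ) ^ A ≤ 2 ^ B := pow_le_pow_right₀ (by norm_num) h1
  have e2 : (2 : ℤ) ^ B ≤ 2 ^ C := pow_le_pow_right₀ (by norm_num) h2
  constructor
  · rintro (⟨a, b, c⟩ | ⟨a, b, c⟩)
    · exact ⟨a, by omega, c⟩
    · exact ⟨by omega, b, c⟩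
  · rintro ⟨a, b, c⟩
    by_cases h : |v| < 2 ^ B
    · left; exact ⟨a, h, c⟩
    · right; exact ⟨by omega, b, c⟩

lemma exists_dyadic {v : ℤ} (hv : v ≠ 0) : ∃ i : ℕ, (2 : ℤ) ^ i ≤ |v| ∧ |v| < 2 ^ (i + 1) := by
  refine ⟨Nat.log 2 v.natAbs, ?_, ?_⟩
  · have h := Nat.pow_log_le_self 2 (Int.natAbs_ne_zero.2 hv)
    rw [Int.abs_eq_natAbs]
    exact_mod_cast h
  · have h := Nat.lt_pow_succ_log_self (b := 2) (by norm_num) v.natAbs
    rw [Int.abs_eq_natAbs]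
    exact_mod_cast h

/-! ### Logarithmic sums -/

lemma LS_nonneg {A B : ℕ} {f : ℤ → ℝ} (h : ∀ v ∈ win A B, 0 ≤ f v) : 0 ≤ LS A B f :=
  sum_nonneg fun v hv => div_nonneg (h v hv) (abs_nonneg _)

lemma LS_mono {A B : ℕ} {f g : ℤ → ℝ} (h : ∀ v ∈ win A B, f v ≤ g v) : LS A B f ≤ LS A B g :=
  sum_le_sum fun v hv => div_le_div_of_nonneg_right (h v hv) (abs_nonneg _)

lemma LS_congr {A B : ℕ} {f g : ℤ → ℝ} (h : ∀ v ∈ win A B, f v = g v) : LS A B f = LS A B g :=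
  sum_congr rfl fun v hv => by rw [h v hv]

lemma LS_zero {A B : ℕ} {f : ℤ → ℝ} (h : ∀ v ∈ win A B, f v = 0) : LS A B f = 0 :=
  sum_eq_zero fun v hv => by rw [h v hv, zero_div]

lemma LS_add (A B : ℕ) (f g : ℤ → ℝ) : LS A B (fun v => f v + g v) = LS A B f + LS A B g := by
  unfold LS
  rw [← sum_add_distrib]
  exact sum_congr rfl fun v _ => add_div _ _ _

lemma LS_sub (A B : ℕ) (f g : ℤ → ℝ) : LS A B (fun v => f v - g v) = LS A B f - LS A B g := by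
  unfold LS
  rw [← sum_sub_distrib]
  exact sum_congr rfl fun v _ => sub_div _ _ _

lemma LS_mul_left (A B : ℕ) (c : ℝ) (f : ℤ → ℝ) : LS A B (fun v => c * f v) = c * LS A B f := by
  unfold LS
  rw [mul_sum]
  exact sum_congr rfl fun v _ => mul_div_assoc _ _ _

lemma LS_append {A B C : ℕ} (h1 : A ≤ B) (h2 : B ≤ C) (f : ℤ → ℝ) :
    LS A B f + LS B C f = LS A C f := by
  unfold LS
  rw [← win_union h1 h2, sum_union (win_disjoint A B C)]

lemma LS_window_mono {A A' B B' : ℕ} (h : A' ≤ A) (h' : B ≤ B') {f : ℤ → ℝ} (h0 : ∀ v, 0 ≤ f v) :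
    LS A B f ≤ LS A' B' f :=
  sum_le_sum_of_subset_of_nonneg (win_mono h h') fun v _ _ => div_nonneg (h0 v) (abs_nonneg _)

lemma LS_sum_dyadic (A n : ℕ) (f : ℤ → ℝ) : ∑ i ∈ Ico A (A + n), LS i (i + 1) f = LS A (A + n) f := by
  induction n with
  | zero =>
    simp only [add_zero, Ico_self, sum_empty]
    unfold LS
    have : win A A = ∅ := by
      rw [eq_empty_iff_forall_notMem]
      intro v hv
      rw [mem_win] at hv
      omega
    rw [this, sum_empty]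
  | succ n ih =>
    rw [← add_assoc, sum_Ico_succ_top (by omega), ih, LS_append (by omega) (by omega)]

/-- Cauchy-Schwarz. -/
lemma LS_cs {A B : ℕ} {f g : ℤ → ℝ} (hf : ∀ v, 0 ≤ f v) (hg : ∀ v, 0 ≤ g v) :
    LS A B (fun v => f v * g v) ≤ √(LS A B (fun v => f v ^ 2)) * √(LS A B (fun v => g v ^ 2)) := by
  have h0 : 0 ≤ LS A B (fun v => f v * g v) := LS_nonneg fun v _ => mul_nonneg (hf v) (hg v)
  have h1 : 0 ≤ LS A B (fun v => f v ^ 2) := LS_nonneg fun v _ => sq_nonneg _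
  rw [← Real.sqrt_mul h1]
  refine Real.le_sqrt_of_sq_le ?_
  unfold LS
  refine Finset.sum_sq_le_sum_mul_sum_of_sq_le_mul _ (fun v _ => ?_) (fun v _ => ?_) (fun v _ => ?_)
  · exact div_nonneg (sq_nonneg _) (abs_nonneg _)
  · exact div_nonneg (sq_nonneg _) (abs_nonneg _)
  · rw [div_pow, mul_pow, div_mul_div_comm, sq |(v : ℝ)|]

/-! ### The shift -/

lemma sh_le' (n : ℕ) : (2 : ℝ) ^ sh n ≤ (4 / 3) ^ n := by
  unfold sh
  have h3 : 0 < 3 ^ n := by positivity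
  have h1 : 1 ≤ 4 ^ n / 3 ^ n := (Nat.one_le_div_iff h3).2 (Nat.pow_le_pow_left (by norm_num) n)
  have h2 := Nat.pow_log_le_self 2 (show 4 ^ n / 3 ^ n ≠ 0 by omega)
  have h4 : (2 ^ Nat.log 2 (4 ^ n / 3 ^ n)) * 3 ^ n ≤ 4 ^ n :=
    (Nat.mul_le_mul_right _ h2).trans (Nat.div_mul_le_self _ _)
  have h5 : ((2 : ℝ) ^ Nat.log 2 (4 ^ n / 3 ^ n)) * 3 ^ n ≤ 4 ^ n := by exact_mod_cast h4
  rw [div_pow, le_div_iff₀ (by positivity)]
  exact h5

lemma lt_sh' (n : ℕ) : (4 / 3 : ℝ) ^ n < 2 ^ (sh n + 1) := by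
  unfold sh
  have h3 : 0 < 3 ^ n := by positivity
  have h2 := Nat.lt_pow_succ_log_self (b := 2) (by norm_num) (4 ^ n / 3 ^ n)
  have h4 : 4 ^ n < 2 ^ (Nat.log 2 (4 ^ n / 3 ^ n) + 1) * 3 ^ n := (Nat.div_lt_iff_lt_mul h3).1 h2
  have h5 : (4 : ℝ) ^ n < 2 ^ (Nat.log 2 (4 ^ n / 3 ^ n) + 1) * 3 ^ n := by exact_mod_cast h4
  rw [div_pow, div_lt_iff₀ (by positivity)]
  exact h5

lemma sh_mono {n m : ℕ} (h : n ≤ m) : sh n ≤ sh m := by
  have h1 := sh_le' n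
  have h2 := lt_sh' m
  have h3 : (4 / 3 : ℝ) ^ n ≤ (4 / 3) ^ m := pow_le_pow_right₀ (by norm_num) h
  have h4 : (2 : ℝ) ^ sh n < 2 ^ (sh m + 1) := by linarith
  have h5 := (pow_lt_pow_iff_right₀ (show (1 : ℝ) < 2 by norm_num)).1 h4
  omega

lemma twelve_sh (n : ℕ) : 12 * sh n ≤ 5 * n := by
  have h1 := sh_le' n
  have h2 : (2 : ℝ) ^ (12 * sh n) ≤ 2 ^ (5 * n) := by
    calc (2 : ℝ) ^ (12 * sh n) = (2 ^ sh n) ^ 12 := by rw [← pow_mul, mul_comm]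
      _ ≤ ((4 / 3) ^ n) ^ 12 := by gcongr
      _ = ((4 / 3) ^ 12) ^ n := by rw [← pow_mul, ← pow_mul, mul_comm]
      _ ≤ (2 ^ 5) ^ n := pow_le_pow_left₀ (by positivity) (by norm_num) n
      _ = 2 ^ (5 * n) := by rw [← pow_mul]
  exact (pow_le_pow_iff_right₀ (show (1 : ℝ) < 2 by norm_num)).1 h2

lemma lt_five_sh (n : ℕ) : 2 * n < 5 * (sh n + 1) := by
  have h1 := lt_sh' n
  have h2 : (2 : ℝ) ^ (2 * n) < 2 ^ (5 * (sh n + 1)) := by
    calc (2 : ℝ) ^ (2 * n) = (2 ^ 2) ^ n := by rw [← pow_mul]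
      _ ≤ ((4 / 3) ^ 5) ^ n := pow_le_pow_left₀ (by positivity) (by norm_num) n
      _ = ((4 / 3) ^ n) ^ 5 := by rw [← pow_mul, ← pow_mul, mul_comm]
      _ < (2 ^ (sh n + 1)) ^ 5 := pow_lt_pow_left₀ h1 (by positivity) (by norm_num)
      _ = 2 ^ (5 * (sh n + 1)) := by rw [← pow_mul, mul_comm]
  exact (pow_lt_pow_iff_right₀ (show (1 : ℝ) < 2 by norm_num)).1 h2

lemma sh_add_lt (n k : ℕ) : 12 * sh (n + k) < 12 * (sh n + 1) + 5 * k := by
  have h1 := sh_le' (n + k)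
  have h2 := lt_sh' n
  have h3 : (2 : ℝ) ^ (12 * sh (n + k)) < 2 ^ (12 * (sh n + 1) + 5 * k) := by
    calc (2 : ℝ) ^ (12 * sh (n + k)) = (2 ^ sh (n + k)) ^ 12 := by rw [← pow_mul, mul_comm]
      _ ≤ ((4 / 3) ^ (n + k)) ^ 12 := by gcongr
      _ = ((4 / 3) ^ n) ^ 12 * ((4 / 3) ^ 12) ^ k := by rw [pow_add, mul_pow, ← pow_mul, ← pow_mul, ← pow_mul, mul_comm k]
      _ < (2 ^ (sh n + 1)) ^ 12 * ((4 / 3) ^ 12) ^ k := by
          have : ((4 / 3 : ℝ) ^ n) ^ 12 < (2 ^ (sh n + 1)) ^ 12 := pow_lt_pow_left₀ h2 (by positivity) (by norm_num)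
          have h5 : (0 : ℝ) < ((4 / 3) ^ 12) ^ k := by positivity
          exact mul_lt_mul_of_pos_right this h5
      _ ≤ (2 ^ (sh n + 1)) ^ 12 * (2 ^ 5) ^ k := by
          have : ((4 / 3 : ℝ) ^ 12) ^ k ≤ (2 ^ 5) ^ k := pow_le_pow_left₀ (by positivity) (by norm_num) k
          exact mul_le_mul_of_nonneg_left this (by positivity)
      _ = 2 ^ (12 * (sh n + 1) + 5 * k) := by
          rw [pow_add 2 (12 * (sh n + 1)) (5 * k), pow_mul' 2 12 (sh n + 1), pow_mul 2 5 k]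
  exact (pow_lt_pow_iff_right₀ (show (1 : ℝ) < 2 by norm_num)).1 h3

/-! ### Heights of typical words -/

lemma mem_typ {E n Δ L : ℕ} {W : List ℕ} : W ∈ typ E n Δ L ↔
    W ∈ words E n ∧ js W ≤ 2 * n + Δ ∧ 2 * n ≤ js W + Δ ∧ dst W ≤ 2 ^ (L / 8) := by
  classical
  unfold typ
  rw [mem_filter]

lemma typ_subset (E n Δ L : ℕ) : typ E n Δ L ⊆ words E n := fun _ h => (mem_typ.1 h).1

/-- Upper bound for the height of a typical word. -/
lemma ht_typ_lt {E n Δ L : ℕ} {W : List ℕ} (h : W ∈ typ E n Δ L) : ht W < 2 ^ (sh n + 1 + Δ) := by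
  obtain ⟨h1, h2, -, -⟩ := mem_typ.1 h
  have h3 := lt_sh' n
  unfold ht
  rw [length_of_mem h1, div_lt_iff₀ (by positivity)]
  calc (2 : ℝ) ^ js W ≤ 2 ^ (2 * n + Δ) := pow_le_pow_right₀ (by norm_num) h2
    _ = (4 / 3) ^ n * (2 ^ Δ * 3 ^ n) := by
        rw [pow_add, pow_mul, div_pow]; norm_num; field_simp
    _ < 2 ^ (sh n + 1) * (2 ^ Δ * 3 ^ n) := mul_lt_mul_of_pos_right h3 (by positivity)
    _ = 2 ^ (sh n + 1 + Δ) * 3 ^ n := by rw [pow_add _ (sh n + 1)]; ring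

/-- Lower bound for the height of a typical word. -/
lemma le_ht_typ {E n Δ L : ℕ} {W : List ℕ} (h : W ∈ typ E n Δ L) : (2 : ℝ) ^ sh n ≤ 2 ^ Δ * ht W := by
  obtain ⟨h1, -, h2, -⟩ := mem_typ.1 h
  refine (sh_le' n).trans ?_
  unfold ht
  rw [length_of_mem h1, div_pow, ← mul_div_assoc, ← pow_add]
  refine div_le_div_of_nonneg_right ?_ (by positivity)
  calc (4 : ℝ) ^ n = 2 ^ (2 * n) := by rw [pow_mul]; norm_num
    _ ≤ 2 ^ (Δ + js W) := pow_le_pow_right₀ (by norm_num) (by omega)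

/-- Size of a descendant along a word of small displacement. -/
lemma ch_between {W : List ℕ} {v : ℤ} (h : vd W v) {D : ℝ} (hD : dst W ≤ D) :
    ht W * (|(v : ℝ)| - D) ≤ |(ch W v : ℝ)| ∧ |(ch W v : ℝ)| ≤ ht W * (|(v : ℝ)| + D) := by
  have h0 := ht_pos W
  constructor
  · rw [ch_real h, abs_mul, abs_of_pos h0]
    refine mul_le_mul_of_nonneg_left ?_ h0.le
    have h1 : (0 : ℝ) ≤ bs W := by exact_mod_cast bs_nonneg W
    have h2 := bs_le W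
    have h3 : (bs W : ℝ) / 2 ^ js W ≤ dst W := by
      rw [div_le_iff₀ (by positivity)]
      linarith
    have h4 : 0 ≤ (bs W : ℝ) / 2 ^ js W := by positivity
    have h5 := abs_sub_abs_le_abs_sub (v : ℝ) (bs W / 2 ^ js W)
    rw [abs_of_nonneg h4] at h5
    linarith
  · refine (abs_ch_le h).trans ?_
    exact mul_le_mul_of_nonneg_left (by linarith) h0.le

end CollatzLin
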