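import Pool.Agent.CollatzLin.Rate

set_option autoImplicit false

/-!
# Mixing of the normalised densities (helper84)
-/

namespace CollatzLin

open CollatzOne Finset Filter Topology

/-- The entropy of the density. -/
noncomputable def HH (E n : ℕ) : ℝ := mean (3 ^ n) (fun x => F E n x * Real.log (F E n x))

lemma ent_eq_HH {E : ℕ} (hE : 1 ≤ E) (k : ℕ) : ent E k = HH E (k + 1) - HH E k := by
  have h := DD_tele (N := 3 ^ k) (r := 3) (by norm_num) (κ := 3) (by norm_num) (f := F E (k + 1))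
    (g := F E k) (F_nonneg E _) (F_per E _) (fun x => S_F_succ hE x k)
  unfold ent HH mean
  rw [h, ← pow_succ]
  have h3 : ((3 : ℕ) : ℝ) / 3 = 1 := by norm_num
  rw [h3, Real.log_one, mul_zero, zero_add]
  push_cast
  field_simp
  ring

lemma sum_ent {E : ℕ} (hE : 1 ≤ E) {m₀ m : ℕ} (h : m₀ ≤ m) :
    ∑ k ∈ Ico m₀ m, ent E k = HH E m - HH E m₀ := by
  rw [sum_congr rfl (fun k _ => ent_eq_HH hE k), sum_Ico_eq_sub _ h,
    sum_range_sub (fun k => HH E k), sum_range_sub (fun k => HH E k)]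
  ring

/-- The martingale property, tested against a periodic function. -/
lemma mean_F_mul {E : ℕ} (hE : 1 ≤ E) {m₀ m : ℕ} (h : m₀ ≤ m) {φ : ℤ → ℝ} (hφ : Per (3 ^ m₀) φ) :
    mean (3 ^ m) (fun x => F E m x * φ x) = mean (3 ^ m₀) (fun x => F E m₀ x * φ x) := by
  induction m, h using Nat.le_induction with
  | base => rfl
  | succ k hk ih =>
    rw [← ih]
    unfold mean
    have hφk : Per (3 ^ k) φ := Per.pow_mono hk hφ
    have h1 : S (3 ^ (k + 1)) (fun x => F E (k + 1) x * φ x)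
        = 3 * S (3 ^ k) (fun x => F E k x * φ x) := by
      rw [pow_succ, S_mul, ← S_mul_left]
      refine S_congr fun a => ?_
      have h2 : ∀ u : ℤ, F E (k + 1) (a + ((3 ^ k : ℕ) : ℤ) * u) * φ (a + ((3 ^ k : ℕ) : ℤ) * u)
          = F E (k + 1) (a + ((3 ^ k : ℕ) : ℤ) * u) * φ a := by
        intro u
        rw [hφk.add_mul]
      rw [S_congr h2, S_mul_right, S_F_succ hE]
      ring
    rw [h1]
    push_cast
    rw [pow_succ]
    field_simp

lemma sq_sqrt_sub_le {x y : ℝ} (hx : 0 < x) (hy : 0 < y) :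
    (√x - √y) ^ 2 ≤ x * Real.log x - x * Real.log y - x + y := by
  have hsx := Real.sqrt_pos.2 hx
  have hsy := Real.sqrt_pos.2 hy
  have h1 : Real.log (√y / √x) ≤ √y / √x - 1 := Real.log_le_sub_one_of_pos (by positivity)
  rw [Real.log_div hsy.ne' hsx.ne', Real.log_sqrt hy.le, Real.log_sqrt hx.le] at h1
  have hx2 : √x * √x = x := Real.mul_self_sqrt hx.le
  have hy2 : √y * √y = y := Real.mul_self_sqrt hy.le
  have h2 : x * (Real.log y / 2 - Real.log x / 2) ≤ x * (√y / √x - 1) := by gcongr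
  have h3 : x * (√y / √x - 1) = √x * √y - x := by
    have : x * (√y / √x) = √x * √y := by
      rw [mul_div_assoc', div_eq_iff hsx.ne']
      calc x * √y = (√x * √x) * √y := by rw [hx2]
        _ = √x * √y * √x := by ring
    rw [mul_sub, this, mul_one]
  rw [h3] at h2
  nlinarith

lemma mean_mul_sq_le (N : ℕ) (f g : ℤ → ℝ) :
    (mean N (fun x => f x * g x)) ^ 2 ≤ mean N (fun x => f x ^ 2) * mean N (fun x => g x ^ 2) := by
  unfold mean S
  rw [div_pow, div_mul_div_comm, ← pow_two]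
  gcongr
  exact sum_mul_sq_le_sq_mul_sq _ _ _

theorem mean_sq_le {E : ℕ} (hE : 6 ≤ E) {m₀ m : ℕ} (h : m₀ ≤ m) :
    (mean (3 ^ m) (fun y => |F E m y - F E m₀ y|)) ^ 2 ≤ 4 * ∑ k ∈ Ico m₀ m, ent E k := by
  have hE1 : 1 ≤ E := by omega
  rw [sum_ent hE1 h]
  have h1 : mean (3 ^ m) (fun y => |F E m y - F E m₀ y|)
      = mean (3 ^ m) (fun y => |√(F E m y) - √(F E m₀ y)| * (√(F E m y) + √(F E m₀ y))) := by
    refine mean_congr fun y => ?_
    have hx2 := Real.mul_self_sqrt (F_nonneg E m y)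
    have hy2 := Real.mul_self_sqrt (F_nonneg E m₀ y)
    have h2 : F E m y - F E m₀ y = (√(F E m y) - √(F E m₀ y)) * (√(F E m y) + √(F E m₀ y)) := by
      nlinarith
    conv_lhs => rw [h2]
    rw [abs_mul, abs_of_nonneg (a := √(F E m y) + √(F E m₀ y)) (by positivity)]
  rw [h1]
  refine (mean_mul_sq_le _ _ _).trans ?_
  have h3 : mean (3 ^ m) (fun y => (√(F E m y) + √(F E m₀ y)) ^ 2) ≤ 4 := by
    have h4 : mean (3 ^ m) (fun y => (√(F E m y) + √(F E m₀ y)) ^ 2)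
        ≤ mean (3 ^ m) (fun y => 2 * F E m y + 2 * F E m₀ y) := by
      refine mean_mono fun y => ?_
      have hx2 := Real.mul_self_sqrt (F_nonneg E m y)
      have hy2 := Real.mul_self_sqrt (F_nonneg E m₀ y)
      nlinarith [sq_nonneg (√(F E m y) - √(F E m₀ y))]
    rw [mean_add, mean_mul_left, mean_mul_left, mean_F hE1, mean_F' hE1 h] at h4
    linarith
  have h5 : mean (3 ^ m) (fun y => |√(F E m y) - √(F E m₀ y)| ^ 2) ≤ HH E m - HH E m₀ := by
    have h6 : mean (3 ^ m) (fun y => |√(F E m y) - √(F E m₀ y)| ^ 2)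
        ≤ mean (3 ^ m) (fun y => (F E m y * Real.log (F E m y)
          - F E m y * Real.log (F E m₀ y)) - F E m y + F E m₀ y) := by
      refine mean_mono fun y => ?_
      rw [sq_abs]
      exact sq_sqrt_sub_le (F_pos hE m y) (F_pos hE m₀ y)
    rw [mean_add, mean_sub, mean_sub, mean_F hE1, mean_F' hE1 h] at h6
    have h7 : Per (3 ^ m₀) (fun x => Real.log (F E m₀ x)) := fun x => by
      simp only [F_per E m₀ x]
    rw [mean_F_mul hE1 h h7] at h6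
    unfold HH
    linarith
  have h8 : 0 ≤ mean (3 ^ m) (fun y => (√(F E m y) + √(F E m₀ y)) ^ 2) :=
    mean_nonneg fun y => sq_nonneg _
  have h9 : 0 ≤ mean (3 ^ m) (fun y => |√(F E m y) - √(F E m₀ y)| ^ 2) :=
    mean_nonneg fun y => sq_nonneg _
  nlinarith

lemma sum_inv_pow_five {m₀ m : ℕ} (h1 : 1 ≤ m₀) (h : m₀ ≤ m) :
    ∑ k ∈ Ico m₀ m, 1 / (k : ℝ) ^ 5 ≤ 8 / (m₀ : ℝ) ^ 4 := by
  have h2 : ∑ k ∈ Ico m₀ m, 1 / (k : ℝ) ^ 5 ≤ 8 / (m₀ : ℝ) ^ 4 - 8 / (m : ℝ) ^ 4 := by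
    induction m, h using Nat.le_induction with
    | base => simp
    | succ k hk ih =>
      rw [sum_Ico_succ_top hk]
      have hk1 : (1 : ℝ) ≤ k := by exact_mod_cast h1.trans hk
      have h3 : 1 / (k : ℝ) ^ 5 ≤ 8 / (k : ℝ) ^ 4 - 8 / ((k : ℝ) + 1) ^ 4 := by
        have hk0 : (0 : ℝ) < k := by linarith
        rw [div_sub_div _ _ (by positivity) (by positivity), div_le_div_iff₀ (by positivity)
          (by positivity)]
        have h4 : ((k : ℝ) + 1) ^ 4 ≤ 16 * (k : ℝ) ^ 4 := by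
          have : (k : ℝ) + 1 ≤ 2 * k := by linarith
          calc ((k : ℝ) + 1) ^ 4 ≤ (2 * k) ^ 4 := by gcongr
            _ = 16 * (k : ℝ) ^ 4 := by ring
        have h5 : 4 * (k : ℝ) ^ 3 ≤ ((k : ℝ) + 1) ^ 4 - (k : ℝ) ^ 4 := by nlinarith [sq_nonneg (k : ℝ)]
        have h6 : (k : ℝ) ^ 4 * ((k : ℝ) + 1) ^ 4 ≤ (k : ℝ) ^ 4 * (16 * (k : ℝ) ^ 4) := by gcongr
        have h7 : (8 * (4 * (k : ℝ) ^ 3)) * (k : ℝ) ^ 5
            ≤ (8 * (((k : ℝ) + 1) ^ 4 - (k : ℝ) ^ 4)) * (k : ℝ) ^ 5 := by gcongr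
        have h8 : 0 ≤ (k : ℝ) ^ 8 := by positivity
        nlinarith
      push_cast
      linarith
  have : 0 ≤ 8 / (m : ℝ) ^ 4 := by positivity
  linarith

theorem mix : ∃ (C : ℝ) (E₀ : ℕ), 0 < C ∧ ∀ E : ℕ, E₀ ≤ E → ∀ m₀ m : ℕ, 1 ≤ m₀ → m₀ ≤ m →
    mean (3 ^ m) (fun y => |F E m y - F E m₀ y|) ≤ C / (m₀ : ℝ) ^ 2 := by
  obtain ⟨C, E₀, hC, hrate⟩ := ent_rate
  refine ⟨√(32 * C), max E₀ 6, by positivity, fun E hE m₀ m h1 h => ?_⟩
  have hEE : E₀ ≤ E := (le_max_left _ _).trans hE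
  have hE6 : 6 ≤ E := (le_max_right _ _).trans hE
  have hm0 : (0 : ℝ) < m₀ := by exact_mod_cast h1
  have h2 := mean_sq_le hE6 h
  have h3 : ∑ k ∈ Ico m₀ m, ent E k ≤ 8 * C / (m₀ : ℝ) ^ 4 := by
    calc ∑ k ∈ Ico m₀ m, ent E k ≤ ∑ k ∈ Ico m₀ m, C * (1 / (k : ℝ) ^ 5) := by
          refine sum_le_sum fun k hk => ?_
          have := hrate E hEE k (h1.trans (mem_Ico.1 hk).1)
          rwa [mul_one_div]
      _ = C * ∑ k ∈ Ico m₀ m, 1 / (k : ℝ) ^ 5 := by rw [mul_sum]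
      _ ≤ C * (8 / (m₀ : ℝ) ^ 4) := by gcongr; exact sum_inv_pow_five h1 h
      _ = 8 * C / (m₀ : ℝ) ^ 4 := by ring
  have h4 : (mean (3 ^ m) (fun y => |F E m y - F E m₀ y|)) ^ 2 ≤ (√(32 * C) / (m₀ : ℝ) ^ 2) ^ 2 := by
    rw [div_pow, Real.sq_sqrt (by positivity)]
    refine h2.trans ?_
    have : 32 * C / ((m₀ : ℝ) ^ 2) ^ 2 = 4 * (8 * C / (m₀ : ℝ) ^ 4) := by ring
    rw [this]
    gcongr
  exact le_of_sq_le_sq' h4 (by positivity)
where
  le_of_sq_le_sq' {a b : ℝ} (h : a ^ 2 ≤ b ^ 2) (hb : 0 ≤ b) : a ≤ b := by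
    exact le_trans (le_abs_self a) (by
      have := Real.sqrt_le_sqrt h
      rwa [Real.sqrt_sq_eq_abs, Real.sqrt_sq hb] at this)

end CollatzLin
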