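import Pool.Agent.CollatzLin.Split

set_option autoImplicit false

/-!
# One step of `n` letters: logarithmic windows are mapped to logarithmic windows
-/

namespace CollatzLin

open CollatzOne Finset

theorem sh_le (n : ℕ) : (2 : ℝ) ^ sh n ≤ (4 / 3) ^ n := by
  have h0 : 4 ^ n / 3 ^ n ≠ 0 := by
    have : 3 ^ n ≤ 4 ^ n := Nat.pow_le_pow_left (by norm_num) n
    have h3 : 0 < 3 ^ n := by positivity
    exact (Nat.div_pos this h3).ne'
  have h1 : 2 ^ sh n ≤ 4 ^ n / 3 ^ n := Nat.pow_log_le_self 2 h0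
  have h2 : 2 ^ sh n * 3 ^ n ≤ 4 ^ n := (Nat.le_div_iff_mul_le (by positivity)).1 h1
  have h3 : (2 : ℝ) ^ sh n * 3 ^ n ≤ 4 ^ n := by exact_mod_cast h2
  rw [div_pow, le_div_iff₀ (by positivity)]
  exact h3

theorem lt_sh (n : ℕ) : (4 / 3 : ℝ) ^ n < 2 ^ (sh n + 1) := by
  have h1 : 4 ^ n / 3 ^ n < 2 ^ (sh n + 1) := Nat.lt_pow_succ_log_self (by norm_num) _
  have h2 : 4 ^ n < 2 ^ (sh n + 1) * 3 ^ n := (Nat.div_lt_iff_lt_mul (by positivity)).1 h1
  have h3 : (4 : ℝ) ^ n < 2 ^ (sh n + 1) * 3 ^ n := by exact_mod_cast h2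
  rw [div_pow, div_lt_iff₀ (by positivity)]
  exact h3

lemma two_sh_leS (n : ℕ) : 2 * sh n ≤ n := by
  have h1 := sh_le n
  have h2 : (2 : ℝ) ^ (2 * sh n) ≤ 2 ^ n := by
    calc (2 : ℝ) ^ (2 * sh n) = (2 ^ sh n) ^ 2 := by rw [mul_comm, pow_mul]
      _ ≤ ((4 / 3) ^ n) ^ 2 := pow_le_pow_left₀ (by positivity) h1 2
      _ = ((4 / 3) ^ 2) ^ n := by rw [← pow_mul, ← pow_mul, mul_comm]
      _ ≤ 2 ^ n := pow_le_pow_left₀ (by positivity) (by norm_num) n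
  have h3 : 2 ^ (2 * sh n) ≤ 2 ^ n := by exact_mod_cast h2
  exact (Nat.pow_le_pow_iff_right (by norm_num : 1 < 2)).1 h3

lemma mem_winS {A B : ℕ} {v : ℤ} : v ∈ win A B ↔ OO v ∧ (2 : ℤ) ^ A ≤ |v| ∧ |v| < 2 ^ B := by
  unfold win bx
  rw [Finset.mem_filter, Finset.mem_filter, Finset.mem_Ioo, abs_lt]
  tauto

lemma win_of_typ {E n Δ L ℓ : ℕ} (h8 : L / 8 + sh n + Δ + 2 ≤ L)
    {W : List ℕ} (hW : W ∈ typ E n Δ L) {v : ℤ} (hv : OO v) (hvd : vd W v)
    (hch : ch W v ∈ win L (L + ℓ)) :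
    v ∈ win (L - sh n - Δ - 2) (L - sh n + ℓ + (Δ + 1)) := by
  classical
  unfold typ at hW
  rw [Finset.mem_filter] at hW
  obtain ⟨hWm, hj1, hj2, hd⟩ := hW
  have hlen := length_of_mem hWm
  obtain ⟨-, hu1, hu2⟩ := mem_winS.1 hch
  have hu1' : (2 : ℝ) ^ L ≤ |(ch W v : ℝ)| := by exact_mod_cast hu1
  have hu2' : |(ch W v : ℝ)| < 2 ^ (L + ℓ) := by exact_mod_cast hu2
  set s := sh n with hs
  obtain ⟨A, hA⟩ : ∃ A, L = A + s + Δ + 2 := ⟨L - s - Δ - 2, by omega⟩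
  have hA' : L - s - Δ - 2 = A := by omega
  have hB' : L - s = A + Δ + 2 := by omega
  set b : ℝ := bs W / 2 ^ js W with hb
  have hb0 : 0 ≤ b := by
    have : (0 : ℝ) ≤ bs W := by exact_mod_cast bs_nonneg W
    positivity
  have hb1 : b ≤ 2 ^ (L / 8) := by
    have h2 := bs_le W
    have h3 : b ≤ dst W := by
      rw [hb, div_le_iff₀ (by positivity)]
      linarith
    exact h3.trans hd
  have hreal : |(ch W v : ℝ)| = ht W * |(v : ℝ) - b| := by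
    rw [ch_real hvd, abs_mul, abs_of_pos (ht_pos W)]
  have hht1 : ht W < 2 ^ (s + 1 + Δ) := by
    unfold ht
    rw [hlen]
    calc (2 : ℝ) ^ js W / 3 ^ n ≤ 2 ^ (2 * n + Δ) / 3 ^ n := by
          gcongr
          norm_num
      _ = (4 / 3) ^ n * 2 ^ Δ := by
          rw [pow_add, pow_mul, div_pow]; norm_num; ring
      _ < 2 ^ (s + 1) * 2 ^ Δ := by
          have := lt_sh n
          gcongr
      _ = 2 ^ (s + 1 + Δ) := by rw [← pow_add]
  have hht2 : (2 : ℝ) ^ s ≤ ht W * 2 ^ Δ := by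
    unfold ht
    rw [hlen]
    calc (2 : ℝ) ^ s ≤ (4 / 3) ^ n := sh_le n
      _ = 2 ^ (2 * n) / 3 ^ n := by rw [pow_mul, div_pow]; norm_num
      _ ≤ 2 ^ (js W + Δ) / 3 ^ n := by
          gcongr
          norm_num
      _ = 2 ^ js W / 3 ^ n * 2 ^ Δ := by rw [pow_add]; ring
  have hpos := ht_pos W
  have hvb0 : 0 ≤ |(v : ℝ) - b| := abs_nonneg _
  -- lower bound
  have hlow : (2 : ℝ) ^ (A + 1) ≤ |(v : ℝ) - b| := by
    by_contra hc
    push Not at hc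
    have h1 : ht W * |(v : ℝ) - b| < 2 ^ (s + 1 + Δ) * 2 ^ (A + 1) := by
      calc ht W * |(v : ℝ) - b| ≤ 2 ^ (s + 1 + Δ) * |(v : ℝ) - b| :=
            mul_le_mul_of_nonneg_right hht1.le hvb0
        _ < 2 ^ (s + 1 + Δ) * 2 ^ (A + 1) := mul_lt_mul_of_pos_left hc (by positivity)
    have h2 : (2 : ℝ) ^ (s + 1 + Δ) * 2 ^ (A + 1) = 2 ^ L := by
      rw [← pow_add]; congr 1; omega
    rw [h2, ← hreal] at h1
    linarith
  have hup : |(v : ℝ) - b| < 2 ^ (A + Δ + 2 + ℓ + Δ) := by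
    by_contra hc
    push Not at hc
    have h1 : (2 : ℝ) ^ s * 2 ^ (A + Δ + 2 + ℓ + Δ) ≤ 2 ^ (L + ℓ + Δ) := by
      rw [← pow_add]
      exact pow_le_pow_right₀ (by norm_num) (by omega)
    have h2 : (2 : ℝ) ^ s * 2 ^ (A + Δ + 2 + ℓ + Δ) ≤ (ht W * |(v : ℝ) - b|) * 2 ^ Δ := by
      calc (2 : ℝ) ^ s * 2 ^ (A + Δ + 2 + ℓ + Δ) ≤ (ht W * 2 ^ Δ) * |(v : ℝ) - b| :=
            mul_le_mul hht2 hc (by positivity) (by positivity)
        _ = _ := by ring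
    rw [← hreal] at h2
    have h3 : |(ch W v : ℝ)| * 2 ^ Δ < 2 ^ (L + ℓ) * 2 ^ Δ :=
      mul_lt_mul_of_pos_right hu2' (by positivity)
    have h4 : (2 : ℝ) ^ s * 2 ^ (A + Δ + 2 + ℓ + Δ) = 2 ^ (L + ℓ) * 2 ^ Δ := by
      rw [← pow_add, ← pow_add]; congr 1; omega
    linarith
  have hA8 : (2 : ℝ) ^ (L / 8) ≤ 2 ^ A := pow_le_pow_right₀ (by norm_num) (by omega)
  have hv1 : (2 : ℝ) ^ A ≤ |(v : ℝ)| := by
    have h1 : |(v : ℝ) - b| ≤ |(v : ℝ)| + b := by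
      have := abs_sub (v : ℝ) b
      rwa [abs_of_nonneg hb0] at this
    have h2 : (2 : ℝ) ^ (A + 1) = 2 * 2 ^ A := by rw [pow_succ]; ring
    linarith
  have hv2 : |(v : ℝ)| < 2 ^ (A + Δ + 2 + ℓ + (Δ + 1)) := by
    have h1 : |(v : ℝ)| ≤ |(v : ℝ) - b| + b := by
      have := abs_add_le ((v : ℝ) - b) b
      rwa [abs_of_nonneg hb0, sub_add_cancel] at this
    have h2 : (2 : ℝ) ^ (A + Δ + 2 + ℓ + (Δ + 1)) = 2 * 2 ^ (A + Δ + 2 + ℓ + Δ) := by
      rw [← add_assoc, pow_succ]; ring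
    have h3 : (2 : ℝ) ^ A ≤ 2 ^ (A + Δ + 2 + ℓ + Δ) := pow_le_pow_right₀ (by norm_num) (by omega)
    linarith
  rw [mem_winS, hA', hB']
  refine ⟨hv, ?_, ?_⟩
  · exact_mod_cast hv1
  · exact_mod_cast hv2

lemma LS_addS {A B C : ℕ} (hAB : A ≤ B) (hBC : B ≤ C) (f : ℤ → ℝ) :
    LS A C f = LS A B f + LS B C f := by
  classical
  unfold LS
  rw [← Finset.sum_union]
  · refine Finset.sum_congr ?_ fun _ _ => rfl
    ext v
    rw [Finset.mem_union, mem_winS, mem_winS, mem_winS]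
    have h1 : (2 : ℤ) ^ A ≤ 2 ^ B := pow_le_pow_right₀ (by norm_num) hAB
    have h2 : (2 : ℤ) ^ B ≤ 2 ^ C := pow_le_pow_right₀ (by norm_num) hBC
    constructor
    · rintro ⟨h3, h4, h5⟩
      rcases lt_or_ge |v| (2 ^ B) with h | h
      · exact Or.inl ⟨h3, h4, h⟩
      · exact Or.inr ⟨h3, h, h5⟩
    · rintro (⟨h3, h4, h5⟩ | ⟨h3, h4, h5⟩)
      · exact ⟨h3, h4, by linarith⟩
      · exact ⟨h3, by linarith, h5⟩
  · rw [Finset.disjoint_left]
    intro v h1 h2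
    rw [mem_winS] at h1 h2
    linarith [h1.2.2, h2.2.1]

lemma LS_monoS {A B : ℕ} {f g : ℤ → ℝ} (h : ∀ v, f v ≤ g v) : LS A B f ≤ LS A B g := by
  unfold LS
  exact Finset.sum_le_sum fun v _ => div_le_div_of_nonneg_right (h v) (abs_nonneg _)

lemma LS_F_le {E m A B : ℕ} (hE : 1 ≤ E) (hAB : A ≤ B) (h : 4 * 3 ^ m ≤ 2 ^ A) {f : ℤ → ℝ}
    (hf : ∀ v, f v ≤ F E m v) : LS A B f ≤ 2 * (B - A) + 9 := by
  refine (LS_monoS hf).trans ?_
  have h1 := LS_per hAB h (F_per E m) (F_nonneg E m)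
  rw [mean_F hE] at h1
  have h2 := (abs_le.1 h1).2
  have h3 : (36 : ℝ) * 3 ^ m / 2 ^ A ≤ 9 := by
    rw [div_le_iff₀ (by positivity)]
    have : (4 : ℝ) * 3 ^ m ≤ 2 ^ A := by exact_mod_cast h
    linarith
  have h4 : Real.log 2 ≤ 1 := by
    have := Real.log_two_lt_d9; linarith
  have h5 : (0 : ℝ) ≤ (B : ℝ) - A := by
    have : (A : ℝ) ≤ B := by exact_mod_cast hAB
    linarith
  have h6 : 3 / 2 * Real.log 2 ≤ 2 := by linarith
  have h7 : 3 / 2 * Real.log 2 * ((B : ℝ) - A) ≤ 2 * (B - A) := mul_le_mul_of_nonneg_right h6 h5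
  linarith

theorem step : ∃ (C : ℝ) (L₀ E₀ : ℕ), 0 < C ∧ ∀ L ℓ n m Δ E : ℕ, L₀ ≤ L → 1 ≤ ℓ → 1 ≤ n → 4 * n ≤ L →
    16 * m ≤ L → Δ ≤ n → E₀ ≤ E → 2 * (L + ℓ + n + 4) ≤ E → ∀ a : ℤ → ℝ, Adm a →
    LS L (L + ℓ) (fun v => F E m v * a v) ≤
      LS (L - sh n) (L - sh n + ℓ) (fun v => F E (n + m) v * a v) + C * (Δ + 1) +
      C * ℓ * (Real.exp (-((Δ : ℝ) ^ 2 / (8 * n))) + (1 / 2) ^ (L / 16)) := by
  classical
  obtain ⟨C₀, L₀, E₀, hC₀, hsplit⟩ := split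
  refine ⟨C₀ + 24, max L₀ 32, max E₀ 1, by linarith, ?_⟩
  intro L ℓ n m Δ E hL hℓ hn h4 h16 hΔ hE hE2 a ha
  have hL0 : L₀ ≤ L := (le_max_left _ _).trans hL
  have hL32 : 32 ≤ L := (le_max_right _ _).trans hL
  have hE0 : E₀ ≤ E := (le_max_left _ _).trans hE
  have hE1 : 1 ≤ E := (le_max_right _ _).trans hE
  have h1 := hsplit L ℓ n m Δ E hL0 hℓ hn h4 h16 hΔ hE0 hE2 a ha
  have hsn := two_sh_leS n
  set s := sh n with hs
  set A' := L - s - Δ - 2 with hA'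
  set B' := L - s + ℓ + (Δ + 1) with hB'
  -- the sum over typical words
  have h2 : (∑ v ∈ bx (L + ℓ + n), ∑ W ∈ typ E n Δ L, if vd W v ∧ ch W v ∈ win L (L + ℓ) then
        wt E W * F E m (ch W v) * a v / |(v : ℝ)| else 0) ≤
      LS A' B' (fun v => F E (n + m) v * a v) := by
    have hpt : ∀ v ∈ bx (L + ℓ + n), (∑ W ∈ typ E n Δ L, if vd W v ∧ ch W v ∈ win L (L + ℓ) then
        wt E W * F E m (ch W v) * a v / |(v : ℝ)| else 0) ≤
        if v ∈ win A' B' then F E (n + m) v * a v / |(v : ℝ)| else 0 := by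
      intro v hv
      have hOO : OO v := by
        unfold bx at hv
        exact (Finset.mem_filter.1 hv).2
      by_cases hw : v ∈ win A' B'
      · rw [if_pos hw, F_add]
        unfold MM
        rw [Finset.sum_mul, Finset.sum_div]
        have hsub : typ E n Δ L ⊆ words E n := Finset.filter_subset _ _
        refine le_trans ?_ (Finset.sum_le_sum_of_subset_of_nonneg hsub ?_)
        · refine Finset.sum_le_sum fun W _ => ?_
          by_cases hc : vd W v ∧ ch W v ∈ win L (L + ℓ)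
          · rw [if_pos hc, if_pos hc.1]
          · rw [if_neg hc]
            split_ifs
            · have e1 := wt_nonneg E W
              have e2 := F_nonneg E m (ch W v)
              have e3 := ha.nonneg v
              positivity
            · simp
        · intro W _ _
          split_ifs
          · have e1 := wt_nonneg E W
            have e2 := F_nonneg E m (ch W v)
            have e3 := ha.nonneg v
            positivity
          · simp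
      · rw [if_neg hw]
        refine le_of_eq (Finset.sum_eq_zero fun W hW => ?_)
        rw [if_neg]
        rintro ⟨hc1, hc2⟩
        exact hw (win_of_typ (by omega) hW hOO hc1 hc2)
    refine (Finset.sum_le_sum hpt).trans ?_
    rw [← Finset.sum_filter]
    unfold LS
    refine Finset.sum_le_sum_of_subset_of_nonneg ?_ ?_
    · intro v hv
      exact (Finset.mem_filter.1 hv).2
    · intro v _ _
      have e2 := F_nonneg E (n + m) v
      have e3 := ha.nonneg v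
      positivity
  -- the extensions of the window
  have hnm : 4 * 3 ^ (n + m) ≤ 2 ^ A' := by
    have h5 : (3 ^ (n + m)) ^ 16 ≤ (2 ^ L) ^ 8 := by
      calc (3 ^ (n + m)) ^ 16 = 3 ^ (16 * (n + m)) := by rw [← pow_mul, mul_comm]
        _ ≤ 3 ^ (5 * L) := Nat.pow_le_pow_right (by norm_num) (by omega)
        _ = (3 ^ 5) ^ L := by rw [pow_mul]
        _ ≤ (2 ^ 8) ^ L := Nat.pow_le_pow_left (by norm_num) L
        _ = (2 ^ L) ^ 8 := by rw [← pow_mul, ← pow_mul, mul_comm]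
    have h6 : (3 ^ (n + m)) ^ 2 ≤ 2 ^ L := by
      have : ((3 ^ (n + m)) ^ 2) ^ 8 ≤ (2 ^ L) ^ 8 := by rw [← pow_mul]; exact h5
      exact (Nat.pow_le_pow_iff_left (by norm_num)).1 this
    have h7 : (4 * 3 ^ (n + m)) ^ 2 ≤ (2 ^ A') ^ 2 := by
      calc (4 * 3 ^ (n + m)) ^ 2 = 2 ^ 4 * (3 ^ (n + m)) ^ 2 := by rw [mul_pow]; norm_num
        _ ≤ 2 ^ 4 * 2 ^ L := Nat.mul_le_mul_left _ h6
        _ = 2 ^ (4 + L) := by rw [pow_add]
        _ ≤ 2 ^ (A' * 2) := Nat.pow_le_pow_right (by norm_num) (by omega)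
        _ = (2 ^ A') ^ 2 := by rw [pow_mul]
    exact (Nat.pow_le_pow_iff_left (by norm_num)).1 h7
  have hFa : ∀ v, F E (n + m) v * a v ≤ F E (n + m) v := fun v =>
    mul_le_of_le_one_right (F_nonneg _ _ _) (ha.le_one v)
  have hsplit1 : LS A' B' (fun v => F E (n + m) v * a v) =
      LS A' (L - s) (fun v => F E (n + m) v * a v) +
      (LS (L - s) (L - s + ℓ) (fun v => F E (n + m) v * a v) +
       LS (L - s + ℓ) B' (fun v => F E (n + m) v * a v)) := by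
    rw [LS_addS (B := L - s) (by omega) (by omega), LS_addS (A := L - s) (B := L - s + ℓ) (by omega)
      (by omega)]
  have hx1 := LS_F_le (A := A') (B := L - s) hE1 (by omega) hnm hFa
  have hx2 := LS_F_le (A := L - s + ℓ) (B := B') hE1 (by omega)
    (hnm.trans (Nat.pow_le_pow_right (by norm_num) (by omega))) hFa
  have hc1 : ((L - s : ℕ) : ℝ) - (A' : ℕ) = Δ + 2 := by
    have : L - s = A' + (Δ + 2) := by omega
    rw [this]; push_cast; ring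
  have hc2 : ((B' : ℕ) : ℝ) - ((L - s + ℓ : ℕ) : ℝ) = Δ + 1 := by
    have : B' = (L - s + ℓ) + (Δ + 1) := by omega
    rw [this]; push_cast; ring
  rw [hc1] at hx1
  rw [hc2] at hx2
  have hlast : C₀ * ℓ * (Real.exp (-((Δ : ℝ) ^ 2 / (8 * n))) + (1 / 2) ^ (L / 16)) ≤
      (C₀ + 24) * ℓ * (Real.exp (-((Δ : ℝ) ^ 2 / (8 * n))) + (1 / 2) ^ (L / 16)) := by
    have : 0 ≤ Real.exp (-((Δ : ℝ) ^ 2 / (8 * n))) + (1 / 2) ^ (L / 16) := by positivity
    gcongr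
    linarith
  have hΔ0 : (0 : ℝ) ≤ Δ := Nat.cast_nonneg _
  have hΔ1 : 2 * ((Δ : ℝ) + 2) + 9 + (2 * (Δ + 1) + 9) ≤ (C₀ + 24) * (Δ + 1) := by nlinarith
  rw [hsplit1] at h2
  linarith

end CollatzLin
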