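import Pool.Agent.CollatzLin.LogSmallCore
import Pool.Agent.CollatzLin.Step
import Pool.Agent.CollatzLin.Mix

set_option autoImplicit false

/-!
# Trajectories that stay away from the bounded region are logarithmically rare
-/

namespace CollatzLin

open CollatzOne Finset

theorem log_small : ∃ (C : ℝ) (L₀ : ℕ), 0 < C ∧ ∀ L₁ : ℕ, L₀ ≤ L₁ → ∀ a : ℤ → ℝ, Adm a →
    (∀ v : ℤ, |v| < 2 ^ (2 * L₁) → a v = 0) → ∀ L ℓ : ℕ, L₁ ≤ L → L ≤ 64 * ℓ → 16 * ℓ ≤ L →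
    LS L (L + ℓ) a ≤ C * ℓ * (L₁ : ℝ) ^ (-(1 / 4) : ℝ) := log_small_of step mix

end CollatzLin
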