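import Pool.Agent.CollatzLin.Par

set_option autoImplicit false

/-!
# Logarithmic sums of periodic functions
-/

namespace CollatzLin

open CollatzOne Finset

/-! ### Harmonic sums of periodic functions -/

lemma block_bounds {N : ℕ} {g : ℤ → ℝ} (hg : Per N g) (h0 : ∀ x, 0 ≤ g x)
    {t : ℕ} (ht : 1 ≤ t) :
    N * mean N g / (t + N) ≤ ∑ u ∈ range N, g ((t + u : ℕ) : ℤ) / ((t + u : ℕ) : ℝ) ∧
    ∑ u ∈ range N, g ((t + u : ℕ) : ℤ) / ((t + u : ℕ) : ℝ) ≤ N * mean N g / t := by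
  have ht' : (1 : ℝ) ≤ t := by exact_mod_cast ht
  have h1 : (N : ℝ) * mean N g = ∑ u ∈ range N, g ((t + u : ℕ) : ℤ) := by
    unfold mean
    rcases Nat.eq_zero_or_pos N with rfl | hN
    · simp
    have h2 : (0 : ℝ) < N := by exact_mod_cast hN
    rw [mul_div_cancel₀ _ h2.ne', ← S_shift hg (t : ℤ)]
    unfold S
    refine sum_congr rfl fun u _ => ?_
    push_cast
    rw [add_comm]
  rw [h1, sum_div, sum_div]
  constructor
  · refine sum_le_sum fun u hu => ?_
    have h3 : (u : ℝ) < N := by exact_mod_cast mem_range.1 hu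
    push_cast
    exact div_le_div_of_nonneg_left (h0 _) (by positivity) (by linarith)
  · refine sum_le_sum fun u hu => ?_
    push_cast
    exact div_le_div_of_nonneg_left (h0 _) (by positivity)
      (by linarith [(Nat.cast_nonneg u : (0 : ℝ) ≤ u)])

lemma log_bounds {t r : ℝ} (ht : 0 < t) (hr : 0 ≤ r) :
    r / (t + r) ≤ Real.log ((t + r) / t) ∧ Real.log ((t + r) / t) ≤ r / t := by
  constructor
  · have h1 := Real.one_sub_inv_le_log_of_pos (x := (t + r) / t) (by positivity)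
    have h2 : 1 - ((t + r) / t)⁻¹ = r / (t + r) := by
      field_simp
      ring
    rwa [h2] at h1
  · have h1 := Real.log_le_sub_one_of_pos (x := (t + r) / t) (by positivity)
    have h2 : (t + r) / t - 1 = r / t := by
      field_simp
      ring
    rwa [h2] at h1

lemma ap_blocks {N : ℕ} {g : ℤ → ℝ} (hg : Per N g) (h0 : ∀ x, 0 ≤ g x)
    {X : ℕ} (hX : 1 ≤ X) (K : ℕ) :
    |∑ u ∈ range (K * N), g ((X + u : ℕ) : ℤ) / ((X + u : ℕ) : ℝ) -
      mean N g * Real.log ((X + K * N) / X)| ≤ mean N g * N * (1 / X - 1 / (X + K * N)) := by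
  have hX' : (1 : ℝ) ≤ X := by exact_mod_cast hX
  have hm : 0 ≤ mean N g := mean_nonneg h0
  induction K with
  | zero => simp [(by positivity : (X : ℝ) ≠ 0)]
  | succ K ih =>
    have hKN : (0 : ℝ) ≤ K * N := by positivity
    have hN0 : (0 : ℝ) ≤ N := by positivity
    obtain ⟨b1, b2⟩ := block_bounds hg h0 (t := X + K * N) (by omega)
    obtain ⟨l1, l2⟩ := log_bounds (t := (X : ℝ) + K * N) (r := N) (by positivity) hN0
    rw [Nat.succ_mul, sum_range_add]
    have h1 : ∀ u ∈ range N, g ((X + (K * N + u) : ℕ) : ℤ) / ((X + (K * N + u) : ℕ) : ℝ) =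
        g ((X + K * N + u : ℕ) : ℤ) / ((X + K * N + u : ℕ) : ℝ) := by
      intro u _
      rw [add_assoc X]
    rw [sum_congr rfl h1]
    have h2 : Real.log ((X + ((K + 1 : ℕ) : ℝ) * N) / X) =
        Real.log ((X + K * N) / X) + Real.log ((X + K * N + N) / (X + K * N)) := by
      rw [← Real.log_mul (by positivity) (by positivity)]
      congr 1
      push_cast
      field_simp
      ring
    rw [h2]
    push_cast at b1 b2 ⊢
    set b := ∑ u ∈ range N, g ((X : ℤ) + K * N + u) / ((X : ℝ) + K * N + u)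
    set a := ∑ u ∈ range (K * N), g ((X : ℤ) + u) / ((X : ℝ) + u)
    push_cast at ih
    rw [abs_le] at ih ⊢
    have e1 : mean N g * N * (1 / X - 1 / (X + (K + 1) * N)) =
        mean N g * N * (1 / X - 1 / (X + K * N)) +
          (N * mean N g / (X + K * N) - N * mean N g / (X + K * N + N)) := by
      have : (X : ℝ) + (K + 1) * N = X + K * N + N := by ring
      rw [this]
      ring
    have e2 : mean N g * Real.log ((X + K * N + N) / (X + K * N)) ≤
        N * mean N g / (X + K * N) := by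
      calc _ ≤ mean N g * (N / (X + K * N)) := mul_le_mul_of_nonneg_left l2 hm
        _ = _ := by ring
    have e3 : N * mean N g / (X + K * N + N) ≤
        mean N g * Real.log ((X + K * N + N) / (X + K * N)) := by
      calc _ = mean N g * (N / (X + K * N + N)) := by ring
        _ ≤ _ := mul_le_mul_of_nonneg_left l1 hm
    rw [e1, mul_add]
    constructor <;> linarith [ih.1, ih.2]

/-- Harmonic sums of a nonnegative periodic function. -/
theorem ap {N : ℕ} (hN : 1 ≤ N) {g : ℤ → ℝ} (hg : Per N g) (h0 : ∀ x, 0 ≤ g x)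
    {X Y : ℕ} (hX : 1 ≤ X) (hXY : X ≤ Y) :
    |∑ u ∈ Ico X Y, g (u : ℤ) / (u : ℝ) - mean N g * Real.log (Y / X)| ≤ mean N g * N / X := by
  have hX' : (1 : ℝ) ≤ X := by exact_mod_cast hX
  have hm : 0 ≤ mean N g := mean_nonneg h0
  obtain ⟨K, r, hr, rfl⟩ : ∃ K r, r < N ∧ Y = X + K * N + r := by
    refine ⟨(Y - X) / N, (Y - X) % N, Nat.mod_lt _ hN, ?_⟩
    have := Nat.div_add_mod (Y - X) N
    rw [mul_comm] at this
    omega
  rw [sum_Ico_eq_sum_range, show X + K * N + r - X = K * N + r by omega, sum_range_add]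
  have ih := ap_blocks hg h0 hX K
  obtain ⟨-, b2⟩ := block_bounds hg h0 (t := X + K * N) (by omega)
  obtain ⟨l1, l2⟩ := log_bounds (t := (X : ℝ) + K * N) (r := r) (by positivity) (by positivity)
  have h1 : ∀ u ∈ range r, g ((X + (K * N + u) : ℕ) : ℤ) / ((X + (K * N + u) : ℕ) : ℝ) =
      g ((X + K * N + u : ℕ) : ℤ) / ((X + K * N + u : ℕ) : ℝ) := by
    intro u _
    rw [add_assoc X]
  rw [sum_congr rfl h1]
  have h2 : Real.log (((X + K * N + r : ℕ) : ℝ) / X) =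
      Real.log ((X + K * N) / X) + Real.log ((X + K * N + r) / (X + K * N)) := by
    rw [← Real.log_mul (by positivity) (by positivity)]
    congr 1
    push_cast
    field_simp
  rw [h2]
  have h3 : ∑ u ∈ range r, g ((X + K * N + u : ℕ) : ℤ) / ((X + K * N + u : ℕ) : ℝ) ≤
      ∑ u ∈ range N, g ((X + K * N + u : ℕ) : ℤ) / ((X + K * N + u : ℕ) : ℝ) := by
    apply sum_le_sum_of_subset_of_nonneg
    · intro i hi
      rw [mem_range] at *
      omega
    · intro i _ _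
      exact div_nonneg (h0 _) (Nat.cast_nonneg _)
  have h4 : 0 ≤ ∑ u ∈ range r, g ((X + K * N + u : ℕ) : ℤ) / ((X + K * N + u : ℕ) : ℝ) :=
    sum_nonneg fun i _ => div_nonneg (h0 _) (Nat.cast_nonneg _)
  have h5 : (r : ℝ) ≤ N := by exact_mod_cast hr.le
  have h6 : mean N g * Real.log ((X + K * N + r) / (X + K * N)) ≤ N * mean N g / (X + K * N) := by
    calc _ ≤ mean N g * (r / (X + K * N)) := mul_le_mul_of_nonneg_left l2 hm
      _ ≤ mean N g * (N / (X + K * N)) := by gcongr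
      _ = _ := by ring
  have h7 : 0 ≤ mean N g * Real.log ((X + K * N + r) / (X + K * N)) :=
    mul_nonneg hm (le_trans (by positivity) l1)
  have h8 : mean N g * N / X = mean N g * N * (1 / X - 1 / (X + K * N)) +
      N * mean N g / (X + K * N) := by
    ring
  rw [h8, mul_add]
  push_cast at *
  rw [abs_le] at ih ⊢
  constructor <;> linarith [ih.1, ih.2]

/-! ### Symmetric sums -/

lemma sum_sym (A B : ℕ) (h : ℤ → ℝ) :
    ∑ v ∈ (Ioo (-(2 : ℤ) ^ B) (2 ^ B)).filter (fun v => (2 : ℤ) ^ A ≤ |v|), h v =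
      ∑ u ∈ Ico ((2 : ℕ) ^ A) (2 ^ B), (h (u : ℤ) + h (-(u : ℤ))) := by
  classical
  have hA : 1 ≤ 2 ^ A := Nat.one_le_two_pow
  rw [sum_add_distrib]
  have e1 : ∑ u ∈ Ico ((2 : ℕ) ^ A) (2 ^ B), h (u : ℤ) =
      ∑ v ∈ (Ico (2 ^ A) (2 ^ B)).image (fun u : ℕ => (u : ℤ)), h v := by
    rw [sum_image]
    intro a _ b _ hab
    have : (a : ℤ) = (b : ℤ) := hab
    omega
  have e2 : ∑ u ∈ Ico ((2 : ℕ) ^ A) (2 ^ B), h (-(u : ℤ)) =
      ∑ v ∈ (Ico (2 ^ A) (2 ^ B)).image (fun u : ℕ => -(u : ℤ)), h v := by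
    rw [sum_image]
    intro a _ b _ hab
    have : -(a : ℤ) = -(b : ℤ) := hab
    omega
  rw [e1, e2, ← sum_union]
  · apply sum_congr _ fun _ _ => rfl
    ext v
    simp only [mem_filter, mem_Ioo, mem_union, mem_image, mem_Ico]
    have hA2 : ((2 ^ A : ℕ) : ℤ) = 2 ^ A := by push_cast; ring
    have hB2 : ((2 ^ B : ℕ) : ℤ) = 2 ^ B := by push_cast; ring
    constructor
    · rintro ⟨⟨h1, h2⟩, h3⟩
      rcases le_total 0 v with hv | hv
      · left
        rw [abs_of_nonneg hv] at h3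
        refine ⟨v.toNat, ⟨?_, ?_⟩, Int.toNat_of_nonneg hv⟩ <;> zify <;>
          rw [Int.toNat_of_nonneg hv] <;> assumption
      · right
        rw [abs_of_nonpos hv] at h3
        have hv' : 0 ≤ -v := by omega
        refine ⟨(-v).toNat, ⟨?_, ?_⟩, by rw [Int.toNat_of_nonneg hv']; ring⟩ <;> zify <;>
          rw [Int.toNat_of_nonneg hv']
        · exact h3
        · omega
    · rintro (⟨u, ⟨h1, h2⟩, rfl⟩ | ⟨u, ⟨h1, h2⟩, rfl⟩)
      · zify at h1 h2
        have : (0 : ℤ) ≤ u := by positivity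
        rw [abs_of_nonneg this]
        exact ⟨⟨by omega, h2⟩, h1⟩
      · zify at h1 h2
        have : (0 : ℤ) ≤ u := by positivity
        rw [abs_neg, abs_of_nonneg this]
        exact ⟨⟨by omega, by omega⟩, h1⟩
  · rw [disjoint_left]
    intro v h1 h2
    obtain ⟨a, ha, rfl⟩ := mem_image.1 h1
    obtain ⟨b, hb, hab⟩ := mem_image.1 h2
    rw [mem_Ico] at ha hb
    omega

/-! ### The mass along one word -/

/-- `u` is a child along `W` of a point of `OO`. -/
def okd (W : List ℕ) (u : ℤ) : Prop :=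
  (2 : ℤ) ^ js W ∣ 3 ^ W.length * u + bs W ∧ OO ((3 ^ W.length * u + bs W) / 2 ^ js W)

instance (W : List ℕ) : DecidablePred (okd W) := fun u => by unfold okd; infer_instance

lemma S_four_OO : S 4 (fun u => if OO u then (1 : ℝ) else 0) = 3 := by
  unfold S OO
  simp [sum_range_succ]
  norm_num

lemma per_OO : Per 4 (fun u => if OO u then (1 : ℝ) else 0) := by
  intro x
  refine if_congr ?_ rfl rfl
  unfold OO
  omega

/-- The indicator of `2 ^ J ∣ z`, `z / 2 ^ J ∈ OO`. -/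
noncomputable def th (J : ℕ) (z : ℤ) : ℝ := if (2 : ℤ) ^ J ∣ z ∧ OO (z / 2 ^ J) then 1 else 0

lemma th_per (J : ℕ) : Per (2 ^ J * 4) (th J) := by
  intro z
  unfold th
  refine if_congr ?_ rfl rfl
  push_cast
  have h1 : (2 : ℤ) ^ J ∣ z + 2 ^ J * 4 ↔ (2 : ℤ) ^ J ∣ z :=
    (Int.dvd_add_left (dvd_mul_right _ _))
  rw [h1]
  refine and_congr_right fun h => ?_
  rw [Int.add_mul_ediv_left _ _ (by positivity)]
  unfold OO
  omega

lemma S_th (J : ℕ) : S (2 ^ J * 4) (th J) = 3 := by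
  rw [S_mul]
  have hJ : 0 < 2 ^ J := by positivity
  have h1 : ∀ a : ℤ, S 4 (fun u => th J (a + ((2 ^ J : ℕ) : ℤ) * u)) =
      if ((2 ^ J : ℕ) : ℤ) ∣ 0 - a then S 4 (fun u => if OO u then (1 : ℝ) else 0) else 0 := by
    intro a
    by_cases h : ((2 ^ J : ℕ) : ℤ) ∣ 0 - a
    · rw [if_pos h]
      obtain ⟨k, hk⟩ := h
      have ha : a = ((2 ^ J : ℕ) : ℤ) * (-k) := by linarith
      have h2 : ∀ u : ℤ, th J (a + ((2 ^ J : ℕ) : ℤ) * u) =
          (fun u => if OO u then (1 : ℝ) else 0) (u + -k) := by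
        intro u
        unfold th
        refine if_congr ?_ rfl rfl
        rw [ha, ← mul_add]
        push_cast
        rw [Int.mul_ediv_cancel_left _ (by positivity), add_comm (-k) u]
        simp
      rw [S_congr h2, S_shift per_OO]
    · rw [if_neg h]
      have h2 : ∀ u : ℤ, th J (a + ((2 ^ J : ℕ) : ℤ) * u) = 0 := by
        intro u
        unfold th
        rw [if_neg]
        rintro ⟨h3, -⟩
        apply h
        have h4 : ((2 ^ J : ℕ) : ℤ) ∣ a + ((2 ^ J : ℕ) : ℤ) * u := by push_cast; exact_mod_cast h3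
        have h5 := (Int.dvd_add_left (dvd_mul_right ((2 ^ J : ℕ) : ℤ) u)).1 h4
        rw [zero_sub]
        exact Int.dvd_neg.2 h5
      rw [S_congr h2, S_const, mul_zero]
  rw [S_congr h1, S_four_OO]
  exact S_dvd hJ 0 (fun _ => (3 : ℝ)) (fun _ => rfl)

lemma okd_per (W : List ℕ) : Per (2 ^ js W * 4) (fun u => if okd W u then (1 : ℝ) else 0) := by
  have h := (th_per (js W)).comp_affine (3 ^ W.length) (bs W)
  exact h

lemma isCoprime_pow_three (n J : ℕ) : IsCoprime ((3 : ℤ) ^ n) ((2 ^ J * 4 : ℕ) : ℤ) := by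
  have : ((2 ^ J * 4 : ℕ) : ℤ) = 2 ^ (J + 2) := by push_cast; ring
  rw [this]
  exact IsCoprime.pow (by norm_num : IsCoprime (3 : ℤ) 2)

lemma S_okd (W : List ℕ) (m : ℕ) {f : ℤ → ℝ} (hf : Per (3 ^ m) f) :
    S (3 ^ m * (2 ^ js W * 4)) (fun u => if okd W u then f u else 0) = 3 * S (3 ^ m) f := by
  rw [S_mul, ← S_mul_left]
  refine S_congr fun a => ?_
  have h1 : ∀ u : ℤ, (if okd W (a + ((3 ^ m : ℕ) : ℤ) * u) then f (a + ((3 ^ m : ℕ) : ℤ) * u) else 0) =
      f a * (fun u => if okd W u then (1 : ℝ) else 0) (3 ^ m * u + a) := by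
    intro u
    have h2 := hf.add_mul a u
    rw [h2]
    push_cast
    rw [add_comm a]
    simp
  rw [S_congr h1, S_mul_left, S_affine (okd_per W) (isCoprime_pow_three _ _)]
  have h3 : S (2 ^ js W * 4) (fun u => if okd W u then (1 : ℝ) else 0) = 3 := by
    have h4 : ∀ u : ℤ, (if okd W u then (1 : ℝ) else 0) = th (js W) (3 ^ W.length * u + bs W) :=
      fun u => rfl
    rw [S_congr h4, S_affine (th_per _) (isCoprime_pow_three _ _), S_th]
  rw [h3]
  ring

lemma mean_okd (W : List ℕ) (m : ℕ) {f : ℤ → ℝ} (hf : Per (3 ^ m) f) :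
    mean (3 ^ m * (2 ^ js W * 4)) (fun u => if okd W u then f u else 0) =
      3 / 4 * mean (3 ^ m) f / 2 ^ js W := by
  unfold mean
  rw [S_okd W m hf]
  push_cast
  field_simp

lemma okd_f_per (W : List ℕ) (m : ℕ) {f : ℤ → ℝ} (hf : Per (3 ^ m) f) :
    Per (3 ^ m * (2 ^ js W * 4)) (fun u => if okd W u then f u else 0) := by
  have h1 : Per (3 ^ m * (2 ^ js W * 4)) f := hf.mul_right
  have h2 : Per (3 ^ m * (2 ^ js W * 4)) (fun u => if okd W u then (1 : ℝ) else 0) := by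
    rw [mul_comm]
    exact (okd_per W).mul_right
  intro x
  have h3 := h1 x
  have h4 := h2 x
  show (if okd W (x + ((3 ^ m * (2 ^ js W * 4) : ℕ) : ℤ)) then f (x + ((3 ^ m * (2 ^ js W * 4) : ℕ) : ℤ)) else 0) =
    if okd W x then f x else 0
  rw [h3]
  simp only at h4
  by_cases h5 : okd W x
  · rw [if_pos h5] at h4 ⊢
    rw [if_pos]
    by_contra h6
    rw [if_neg h6] at h4
    norm_num at h4
  · rw [if_neg h5] at h4 ⊢
    rw [if_neg]
    intro h6
    rw [if_pos h6] at h4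
    norm_num at h4

/-- The symmetric logarithmic sum along one word. -/
theorem sum_okd (W : List ℕ) {m A B : ℕ} (hAB : A ≤ B) {f : ℤ → ℝ} (hf : Per (3 ^ m) f)
    (h0 : ∀ v, 0 ≤ f v) :
    |∑ v ∈ (Ioo (-(2 : ℤ) ^ B) (2 ^ B)).filter (fun v => (2 : ℤ) ^ A ≤ |v|),
        (if okd W v then f v else 0) / |(v : ℝ)| -
      3 / 2 * Real.log 2 * (B - A) * mean (3 ^ m) f / 2 ^ js W| ≤
      6 * 3 ^ m / 2 ^ A * mean (3 ^ m) f := by
  set g : ℤ → ℝ := fun u => if okd W u then f u else 0 with hg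
  set N := 3 ^ m * (2 ^ js W * 4) with hN
  have hN1 : 1 ≤ N := Nat.one_le_iff_ne_zero.2 (by positivity)
  have hgper : Per N g := okd_f_per W m hf
  have hg0 : ∀ u, 0 ≤ g u := fun u => by
    rw [hg]; dsimp only; split_ifs
    · exact h0 _
    · exact le_rfl
  have hgm : mean N g = 3 / 4 * mean (3 ^ m) f / 2 ^ js W := mean_okd W m hf
  set g' : ℤ → ℝ := fun u => g (-1 * u + 0) with hg'
  have hg'per : Per N g' := hgper.comp_affine (-1) 0
  have hg'm : mean N g' = mean N g := by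
    unfold mean
    rw [hg', S_affine hgper (isCoprime_one_left.neg_left) 0]
  have hXY : (2 : ℕ) ^ A ≤ 2 ^ B := Nat.pow_le_pow_right (by norm_num) hAB
  have a1 := ap hN1 hgper hg0 Nat.one_le_two_pow hXY
  have a2 := ap hN1 hg'per (fun u => hg0 _) Nat.one_le_two_pow hXY
  rw [sum_sym]
  have h1 : ∑ u ∈ Ico ((2 : ℕ) ^ A) (2 ^ B), (g (u : ℤ) / |((u : ℤ) : ℝ)| +
      g (-(u : ℤ)) / |((-(u : ℤ) : ℤ) : ℝ)|) =
      ∑ u ∈ Ico ((2 : ℕ) ^ A) (2 ^ B), g (u : ℤ) / (u : ℝ) +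
        ∑ u ∈ Ico ((2 : ℕ) ^ A) (2 ^ B), g' (u : ℤ) / (u : ℝ) := by
    rw [← sum_add_distrib]
    refine sum_congr rfl fun u _ => ?_
    rw [hg']
    dsimp only
    rw [show (-1 : ℤ) * u + 0 = -u by ring]
    push_cast
    rw [abs_neg, abs_of_nonneg (Nat.cast_nonneg u : (0 : ℝ) ≤ u)]
  rw [h1]
  have hlog : Real.log (((2 ^ B : ℕ) : ℝ) / ((2 ^ A : ℕ) : ℝ)) = (B - A) * Real.log 2 := by
    push_cast
    rw [Real.log_div (by positivity) (by positivity), Real.log_pow, Real.log_pow]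
    ring
  rw [hlog] at a1 a2
  rw [hg'm] at a2
  rw [hgm] at a1 a2
  have hN2 : (N : ℝ) = 3 ^ m * (2 ^ js W * 4) := by rw [hN]; push_cast; ring
  rw [hN2] at a1 a2
  push_cast at a1 a2
  have e1 : 3 / 4 * mean (3 ^ m) f / 2 ^ js W * (3 ^ m * (2 ^ js W * 4)) / (2 : ℝ) ^ A =
      3 * 3 ^ m / 2 ^ A * mean (3 ^ m) f := by
    field_simp
  rw [e1] at a1 a2
  rw [abs_le] at a1 a2 ⊢
  have e2 : 3 / 2 * Real.log 2 * (B - A) * mean (3 ^ m) f / 2 ^ js W =
      2 * (3 / 4 * mean (3 ^ m) f / 2 ^ js W * ((B - A) * Real.log 2)) := by ring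
  have e3 : 6 * 3 ^ m / 2 ^ A * mean (3 ^ m) f = 2 * (3 * 3 ^ m / 2 ^ A * mean (3 ^ m) f) := by ring
  rw [e2, e3]
  constructor <;> linarith [a1.1, a1.2, a2.1, a2.2]

lemma win_eq (A B : ℕ) :
    win A B = ((Ioo (-(2 : ℤ) ^ B) (2 ^ B)).filter (fun v => (2 : ℤ) ^ A ≤ |v|)).filter OO := by
  unfold win bx
  rw [filter_filter, filter_filter]
  exact filter_congr fun v _ => and_comm

lemma okd_nil (u : ℤ) : okd [] u ↔ OO u := by
  unfold okd
  simp [js_nil, bs_nil]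

theorem LS_per {m A B : ℕ} (hAB : A ≤ B) (_h : 4 * 3 ^ m ≤ 2 ^ A) {f : ℤ → ℝ} (hf : Per (3 ^ m) f)
    (h0 : ∀ v, 0 ≤ f v) :
    |LS A B f - 3 / 2 * Real.log 2 * (B - A) * mean (3 ^ m) f| ≤ 36 * 3 ^ m / 2 ^ A * mean (3 ^ m) f := by
  have h1 := sum_okd [] hAB hf h0
  rw [js_nil, pow_zero, div_one] at h1
  have h2 : ∑ v ∈ (Ioo (-(2 : ℤ) ^ B) (2 ^ B)).filter (fun v => (2 : ℤ) ^ A ≤ |v|),
        (if okd [] v then f v else 0) / |(v : ℝ)| = LS A B f := by
    unfold LS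
    rw [win_eq, sum_filter (p := OO)]
    refine sum_congr rfl fun v _ => ?_
    by_cases hv : OO v
    · rw [if_pos hv, if_pos ((okd_nil v).2 hv)]
    · rw [if_neg hv, if_neg (fun h => hv ((okd_nil v).1 h)), zero_div]
  rw [h2] at h1
  refine h1.trans ?_
  have h3 : 0 ≤ mean (3 ^ m) f := mean_nonneg h0
  apply mul_le_mul_of_nonneg_right _ h3
  gcongr
  norm_num

/-- The mass of the descendants along one word (exact form). -/
theorem LS_class_eq {n A B : ℕ} {W : List ℕ} (hW : ∀ e ∈ W, 1 ≤ e) (hn : W.length = n)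
    (f : ℤ → ℝ) :
    ∑ v ∈ bx (B + n), (if vd W v ∧ ch W v ∈ win A B then f (ch W v) / |(ch W v : ℝ)| else 0) =
      ∑ v ∈ (Ioo (-(2 : ℤ) ^ B) (2 ^ B)).filter (fun v => (2 : ℤ) ^ A ≤ |v|),
        (if okd W v then f v else 0) / |(v : ℝ)| := by
  have h1 : ∀ v : ℤ, (if okd W v then f v else 0) / |(v : ℝ)| =
      if okd W v then f v / |(v : ℝ)| else 0 := by
    intro v
    split_ifs
    · rfl
    · rw [zero_div]
  rw [sum_congr rfl fun v _ => h1 v, ← sum_filter, ← sum_filter]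
  have h2 : (0 : ℤ) < 2 ^ js W := by positivity
  have h3 : (0 : ℤ) < 3 ^ W.length := by positivity
  refine sum_bij (fun v _ => ch W v) ?_ ?_ ?_ ?_
  · intro v hv
    rw [mem_filter] at hv
    obtain ⟨hv1, hv2, hv3⟩ := hv
    have e1 := pow_ch hv2
    have e2 : 3 ^ W.length * ch W v + bs W = 2 ^ js W * v := by linarith
    rw [win, mem_filter, mem_bx] at hv3
    rw [mem_filter, mem_filter, mem_Ioo]
    have h4 := abs_lt.1 hv3.1.1
    refine ⟨⟨⟨h4.1, h4.2⟩, hv3.2⟩, ?_⟩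
    unfold okd
    rw [e2, Int.mul_ediv_cancel_left _ h2.ne']
    exact ⟨dvd_mul_right _ _, (mem_bx.1 hv1).2⟩
  · intro v hv v' hv' heq
    rw [mem_filter] at hv hv'
    have e1 := pow_ch hv.2.1
    have e1' := pow_ch hv'.2.1
    have heq' : ch W v = ch W v' := heq
    rw [heq'] at e1
    have : 2 ^ js W * v = 2 ^ js W * v' := by linarith
    exact mul_left_cancel₀ h2.ne' this
  · intro u hu
    rw [mem_filter, mem_filter, mem_Ioo] at hu
    obtain ⟨⟨⟨hu1, hu2⟩, hu3⟩, ⟨v, hv⟩, hu5⟩ := hu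
    rw [hv, Int.mul_ediv_cancel_left _ h2.ne'] at hu5
    have hv1 : vd W v := by
      unfold vd
      rw [← hv]
      exact ⟨u, by ring⟩
    have hv2 : ch W v = u := by
      unfold ch
      rw [← hv, add_sub_cancel_right, Int.mul_ediv_cancel_left _ h3.ne']
    have hub : |u| < 2 ^ B := abs_lt.2 ⟨hu1, hu2⟩
    refine ⟨v, ?_, hv2⟩
    rw [mem_filter]
    refine ⟨mem_bx.2 ⟨abs_ancestor_lt hW hn hv1 (by rw [hv2]; exact hub), hu5⟩, hv1, ?_⟩
    rw [hv2, win, mem_filter, mem_bx]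
    refine ⟨⟨hub, ?_⟩, hu3⟩
    rw [← hv2]
    exact OO_ch hW hu5 hv1
  · intro v _
    rfl

/-- The mass of the descendants along one word. -/
theorem LS_class {n m A B : ℕ} {W : List ℕ} (hW : ∀ e ∈ W, 1 ≤ e) (hn : W.length = n) (hAB : A ≤ B)
    (_h : 4 * 3 ^ m * 2 ^ js W ≤ 2 ^ A) {f : ℤ → ℝ} (hf : Per (3 ^ m) f) (h0 : ∀ v, 0 ≤ f v) :
    3 / 2 * Real.log 2 * (B - A) * mean (3 ^ m) f / 2 ^ js W - 36 * 3 ^ m / 2 ^ A * mean (3 ^ m) f ≤
      ∑ v ∈ bx (B + n), if vd W v ∧ ch W v ∈ win A B then f (ch W v) / |(ch W v : ℝ)| else 0 := by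
  rw [LS_class_eq hW hn f]
  have h1 := (abs_le.1 (sum_okd W hAB hf h0)).1
  have h3 : 0 ≤ mean (3 ^ m) f := mean_nonneg h0
  have h4 : 6 * 3 ^ m / 2 ^ A * mean (3 ^ m) f ≤ 36 * 3 ^ m / 2 ^ A * mean (3 ^ m) f := by
    apply mul_le_mul_of_nonneg_right _ h3
    gcongr
    norm_num
  linarith

end CollatzLin
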