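import Pool.Agent.CollatzLin.LSBasic
import Pool.Agent.CollatzLin.Sums

set_option autoImplicit false

/-!
# Trajectories that stay away from the bounded region are logarithmically rare: the recursion
-/

namespace CollatzLin

open CollatzOne Finset

/-- The statement of `step`. -/
def StepStmt : Prop := ∃ (C : ℝ) (L₀ E₀ : ℕ), 0 < C ∧ ∀ L ℓ n m Δ E : ℕ, L₀ ≤ L → 1 ≤ ℓ → 1 ≤ n →
    4 * n ≤ L → 16 * m ≤ L → Δ ≤ n → E₀ ≤ E → 2 * (L + ℓ + n + 4) ≤ E → ∀ a : ℤ → ℝ, Adm a →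
    LS L (L + ℓ) (fun v => F E m v * a v) ≤
      LS (L - sh n) (L - sh n + ℓ) (fun v => F E (n + m) v * a v) + C * (Δ + 1) +
      C * ℓ * (Real.exp (-((Δ : ℝ) ^ 2 / (8 * n))) + (1 / 2) ^ (L / 16))

/-- The statement of `mix`. -/
def MixStmt : Prop := ∃ (C : ℝ) (E₀ : ℕ), 0 < C ∧ ∀ E : ℕ, E₀ ≤ E → ∀ m₀ m : ℕ, 1 ≤ m₀ → m₀ ≤ m →
    mean (3 ^ m) (fun y => |F E m y - F E m₀ y|) ≤ C / (m₀ : ℝ) ^ 2

/-- The decreasing function that controls the recursion. -/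
noncomputable def gq (L : ℕ) : ℝ := (L : ℝ) ^ (-(1 / 4) : ℝ)

lemma gq_pos {L : ℕ} (hL : 1 ≤ L) : 0 < gq L := by
  have : (0 : ℝ) < L := by exact_mod_cast hL
  exact Real.rpow_pos_of_pos this _

lemma one_div_le_gq {L : ℕ} (hL : 1 ≤ L) : 1 / (L : ℝ) ≤ gq L := by
  have h1 : (1 : ℝ) ≤ L := by exact_mod_cast hL
  have h2 : (L : ℝ) ^ (-1 : ℝ) ≤ (L : ℝ) ^ (-(1 / 4) : ℝ) :=
    Real.rpow_le_rpow_of_exponent_le h1 (by norm_num)
  rwa [Real.rpow_neg_one, ← one_div] at h2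

lemma rpow_three_quarters {L : ℕ} (hL : 1 ≤ L) : (L : ℝ) ^ (3 / 4 : ℝ) = L * gq L := by
  have h1 : (0 : ℝ) < L := by exact_mod_cast hL
  unfold gq
  nth_rw 2 [← Real.rpow_one (L : ℝ)]
  rw [← Real.rpow_add h1]
  norm_num

lemma gq_anti {A L : ℕ} (hA : 1 ≤ A) (h : A ≤ L) : gq L ≤ gq A := by
  have h1 : (0 : ℝ) < A := by exact_mod_cast hA
  have h2 : (A : ℝ) ≤ L := by exact_mod_cast h
  exact Real.rpow_le_rpow_of_nonpos h1 h2 (by norm_num)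

lemma gq_gain {A L : ℕ} (hA : 1 ≤ A) (h : 100 * A ≤ 94 * L) : 1015 / 1000 * gq L ≤ gq A := by
  have h1 : (0 : ℝ) < A := by exact_mod_cast hA
  have h0 : 0 < L := by omega
  have h0' : (0 : ℝ) < L := by exact_mod_cast h0
  have h2 : (A : ℝ) ≤ 94 / 100 * L := by
    have : (100 : ℝ) * A ≤ 94 * L := by exact_mod_cast h
    linarith
  have h3 : (94 / 100 * (L : ℝ)) ^ (-(1 / 4) : ℝ) ≤ (A : ℝ) ^ (-(1 / 4) : ℝ) :=
    Real.rpow_le_rpow_of_nonpos h1 h2 (by norm_num)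
  rw [Real.mul_rpow (by norm_num) h0'.le] at h3
  refine le_trans (mul_le_mul_of_nonneg_right ?_ (gq_pos h0).le) h3
  have h4 : (1015 / 1000 : ℝ) = ((1015 / 1000 : ℝ) ^ (4 : ℕ)) ^ (1 / 4 : ℝ) := by
    rw [← Real.rpow_natCast, ← Real.rpow_mul (by norm_num)]
    norm_num
  rw [h4, Real.rpow_neg (by norm_num), ← Real.inv_rpow (by norm_num)]
  exact Real.rpow_le_rpow (by norm_num) (by norm_num) (by norm_num)

/-- Replacing one density by another. -/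
lemma repl {C : ℝ} {E₀ : ℕ} (hm : ∀ E : ℕ, E₀ ≤ E → ∀ m₀ m : ℕ, 1 ≤ m₀ → m₀ ≤ m →
    mean (3 ^ m) (fun y => |F E m y - F E m₀ y|) ≤ C / (m₀ : ℝ) ^ 2)
    {A k m M E : ℕ} (hE : E₀ ≤ E) (h1 : 1 ≤ m) (h2 : m ≤ M) (h3 : 4 * 3 ^ M ≤ 2 ^ A) (hk : 1 ≤ k)
    {a : ℤ → ℝ} (ha : Adm a) :
    LS A (A + k) (fun v => F E M v * a v) ≤ LS A (A + k) (fun v => F E m v * a v) +
      11 * k * (C / (m : ℝ) ^ 2) := by
  have h4 : LS A (A + k) (fun v => F E M v * a v) ≤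
      LS A (A + k) (fun v => F E m v * a v + |F E M v - F E m v|) := by
    refine LS_mono fun v _ => ?_
    have h5 := le_abs_self (F E M v - F E m v)
    have h6 := abs_nonneg (F E M v - F E m v)
    have h7 := ha.nonneg v
    have h8 := ha.le_one v
    have h9 : (F E M v - F E m v) * a v ≤ |F E M v - F E m v| := by
      calc (F E M v - F E m v) * a v ≤ |F E M v - F E m v| * a v :=
            mul_le_mul_of_nonneg_right h5 h7
        _ ≤ |F E M v - F E m v| * 1 := mul_le_mul_of_nonneg_left h8 h6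
        _ = _ := mul_one _
    linarith
  rw [LS_add] at h4
  have hper : Per (3 ^ M) (fun v => |F E M v - F E m v|) := by
    intro v
    have e1 := F_per E M v
    have e2 := Per.pow_mono h2 (F_per E m) v
    simp only [e1, e2]
  have h5 := LS_per (Nat.le_add_right A k) h3 hper (fun v => abs_nonneg _)
  have h6 := (abs_le.1 h5).2
  have h7 := hm E hE m M h1 h2
  have h8 : 0 ≤ mean (3 ^ M) (fun v => |F E M v - F E m v|) := mean_nonneg fun v => abs_nonneg _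
  have h9 : (36 : ℝ) * 3 ^ M / 2 ^ A ≤ 9 := by
    rw [div_le_iff₀ (by positivity)]
    have : (4 : ℝ) * 3 ^ M ≤ 2 ^ A := by exact_mod_cast h3
    linarith
  have h10 : Real.log 2 ≤ 0.6931471808 := Real.log_two_lt_d9.le
  have h11 : (1 : ℝ) ≤ k := by exact_mod_cast hk
  have h12 : 3 / 2 * Real.log 2 * (((A + k : ℕ) : ℝ) - A) + 36 * 3 ^ M / 2 ^ A ≤ 11 * k := by
    push_cast
    rw [add_sub_cancel_left]
    nlinarith
  have h13 : LS A (A + k) (fun v => |F E M v - F E m v|) ≤ 11 * k * (C / (m : ℝ) ^ 2) := by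
    calc LS A (A + k) (fun v => |F E M v - F E m v|)
        ≤ (3 / 2 * Real.log 2 * (((A + k : ℕ) : ℝ) - A) + 36 * 3 ^ M / 2 ^ A) *
          mean (3 ^ M) (fun v => |F E M v - F E m v|) := by linarith
      _ ≤ 11 * k * mean (3 ^ M) (fun v => |F E M v - F E m v|) := mul_le_mul_of_nonneg_right h12 h8
      _ ≤ 11 * k * (C / (m : ℝ) ^ 2) := mul_le_mul_of_nonneg_left h7 (by positivity)
  linarith

lemma four_mul_three_pow_le {M L A : ℕ} (h1 : 16 * M ≤ 5 * L) (h2 : 3 * L ≤ 4 * A) (hL : 8 ≤ L) :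
    4 * 3 ^ M ≤ 2 ^ A := by
  have h3 : (4 * 3 ^ M) ^ 5 ≤ (2 ^ A) ^ 5 := by
    calc (4 * 3 ^ M) ^ 5 = 2 ^ 10 * (3 ^ 5) ^ M := by
          rw [mul_pow, ← pow_mul, ← pow_mul, mul_comm M 5]; norm_num
      _ ≤ 2 ^ 10 * (2 ^ 8) ^ M := Nat.mul_le_mul_left _ (Nat.pow_le_pow_left (by norm_num) M)
      _ = 2 ^ (10 + 8 * M) := by rw [pow_add, pow_mul]
      _ ≤ 2 ^ (A * 5) := Nat.pow_le_pow_right (by norm_num) (by omega)
      _ = (2 ^ A) ^ 5 := by rw [pow_mul]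
  exact (Nat.pow_le_pow_iff_left (by norm_num)).1 h3

lemma exp_bound {n Δ : ℕ} (hn : 1 ≤ n) (hΔ : (n : ℝ) ^ (3 / 4 : ℝ) ≤ Δ) :
    Real.exp (-((Δ : ℝ) ^ 2 / (8 * n))) ≤ 128 / n := by
  have h0 : (0 : ℝ) < n := by exact_mod_cast hn
  have h1 : ((n : ℝ) ^ (3 / 4 : ℝ)) ^ 2 = n * √n := by
    rw [← Real.rpow_natCast, ← Real.rpow_mul h0.le, Real.sqrt_eq_rpow]
    nth_rw 2 [← Real.rpow_one (n : ℝ)]
    rw [← Real.rpow_add h0]
    norm_num
  have h2 : (n : ℝ) * √n ≤ (Δ : ℝ) ^ 2 := by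
    rw [← h1]
    exact pow_le_pow_left₀ (by positivity) hΔ 2
  have h3 : √n / 8 ≤ (Δ : ℝ) ^ 2 / (8 * n) := by
    rw [div_le_div_iff₀ (by norm_num) (by positivity)]
    linarith
  have h4 : Real.exp (-((Δ : ℝ) ^ 2 / (8 * n))) ≤ Real.exp (-(√n / 8)) :=
    Real.exp_le_exp.2 (by linarith)
  refine h4.trans ?_
  have h5 := Real.quadratic_le_exp_of_nonneg (x := √n / 8) (by positivity)
  have h6 : (√n) ^ 2 = n := Real.sq_sqrt h0.le
  have h7 : (n : ℝ) / 128 ≤ Real.exp (√n / 8) := by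
    have : 0 ≤ √(n : ℝ) := Real.sqrt_nonneg _
    nlinarith
  rw [Real.exp_neg, ← one_div, div_le_div_iff₀ (Real.exp_pos _) h0]
  linarith

lemma half_pow_bound {L : ℕ} (hL : 1 ≤ L) : ((1 : ℝ) / 2) ^ (L / 16) ≤ 16 / L := by
  have h1 : L / 16 < 2 ^ (L / 16) := Nat.lt_two_pow_self
  have h2 : L ≤ 16 * 2 ^ (L / 16) := by omega
  have h3 : (L : ℝ) ≤ 16 * 2 ^ (L / 16) := by exact_mod_cast h2
  have h0 : (0 : ℝ) < L := by exact_mod_cast hL
  rw [div_pow, one_pow, div_le_div_iff₀ (by positivity) h0]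
  linarith

/-- One step of the recursion. -/
lemma one_step (hs : StepStmt) (hm : MixStmt) : ∃ (Y : ℝ) (L₀ E₀ : ℕ), 0 < Y ∧
    ∀ L ℓ m E : ℕ, L₀ ≤ L → L ≤ 64 * ℓ → 16 * ℓ ≤ L → 16 * m ≤ L → E₀ ≤ E → 3 * L ≤ E →
    ∀ a : ℤ → ℝ, Adm a → ∀ X : ℝ,
    (∀ A k : ℕ, 3 * L ≤ 4 * A → A < L → A ≤ 64 * k → 16 * k ≤ A →
      LS A (A + k) (fun v => F E (A / 16) v * a v) ≤ k * (X - Y * gq A)) →
    LS L (L + ℓ) (fun v => F E m v * a v) ≤ ℓ * (X - Y * gq L) := by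
  obtain ⟨C, L₀, E₀, hC, hs⟩ := hs
  obtain ⟨C', E₁, hC', hm⟩ := hm
  refine ⟨100 * (C * 1232 + 45056 * C'), max L₀ 300, max E₀ E₁, by positivity, ?_⟩
  intro L ℓ m E hL h1 h2 h3 hE hE' a ha X hX
  have hL0 : L₀ ≤ L := le_trans (le_max_left _ _) hL
  have hL1 : 300 ≤ L := le_trans (le_max_right _ _) hL
  have hE0 : E₀ ≤ E := le_trans (le_max_left _ _) hE
  have hE1 : E₁ ≤ E := le_trans (le_max_right _ _) hE
  obtain ⟨n, hn⟩ : ∃ n, n = L / 4 := ⟨_, rfl⟩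
  obtain ⟨Δ, hΔ⟩ : ∃ Δ, Δ = ⌈(n : ℝ) ^ (3 / 4 : ℝ)⌉₊ := ⟨_, rfl⟩
  obtain ⟨s, hsn⟩ : ∃ s, s = sh n := ⟨_, rfl⟩
  have hn1 : 1 ≤ n := by omega
  have hn1' : (1 : ℝ) ≤ n := by exact_mod_cast hn1
  have hΔn : Δ ≤ n := by
    rw [hΔ, Nat.ceil_le]
    calc (n : ℝ) ^ (3 / 4 : ℝ) ≤ (n : ℝ) ^ (1 : ℝ) :=
          Real.rpow_le_rpow_of_exponent_le hn1' (by norm_num)
      _ = n := Real.rpow_one _
  have hst := hs L ℓ n m Δ E hL0 (by omega) hn1 (by omega) h3 hΔn hE0 (by omega) a ha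
  have hs1 : 12 * s ≤ 5 * n := by rw [hsn]; exact twelve_sh n
  have hs2 : 2 * n < 5 * (s + 1) := by rw [hsn]; exact lt_five_sh n
  rw [← hsn] at hst
  set G := gq L with hG
  have hG0 : 0 < G := gq_pos (by omega)
  have hLr : (300 : ℝ) ≤ L := by exact_mod_cast hL1
  have hG1 : 1 / (L : ℝ) ≤ G := one_div_le_gq (by omega)
  have hℓ1 : 1 ≤ ℓ := by omega
  have hℓr : (1 : ℝ) ≤ ℓ := by exact_mod_cast hℓ1
  have hℓL : (L : ℝ) ≤ 64 * ℓ := by exact_mod_cast h1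
  -- (I)
  have b1 : (Δ : ℝ) + 1 ≤ 192 * ℓ * G := by
    have c1 : (Δ : ℝ) ≤ (n : ℝ) ^ (3 / 4 : ℝ) + 1 := by
      rw [hΔ]
      exact (Nat.ceil_lt_add_one (by positivity)).le
    have c2 : (n : ℝ) ^ (3 / 4 : ℝ) ≤ (L : ℝ) ^ (3 / 4 : ℝ) := by
      refine Real.rpow_le_rpow (by positivity) ?_ (by norm_num)
      exact_mod_cast (by omega : n ≤ L)
    have c3 : (1 : ℝ) ≤ (L : ℝ) ^ (3 / 4 : ℝ) := Real.one_le_rpow (by linarith) (by norm_num)
    have c4 := rpow_three_quarters (L := L) (by omega)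
    rw [c4] at c2 c3
    have c5 : (L : ℝ) * G ≤ 64 * ℓ * G := mul_le_mul_of_nonneg_right hℓL hG0.le
    linarith
  -- (II)
  have b2 : Real.exp (-((Δ : ℝ) ^ 2 / (8 * n))) ≤ 1024 * G := by
    have c1 := exp_bound hn1 (Δ := Δ) (by rw [hΔ]; exact Nat.le_ceil _)
    have c2 : (128 : ℝ) / n ≤ 1024 * (1 / L) := by
      have c3 : (L : ℝ) ≤ 8 * n := by exact_mod_cast (by omega : L ≤ 8 * n)
      rw [mul_one_div, div_le_div_iff₀ (by linarith) (by linarith)]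
      linarith
    linarith
  -- (III)
  have b3 : ((1 : ℝ) / 2) ^ (L / 16) ≤ 16 * G := by
    have c1 := half_pow_bound (L := L) (by omega)
    have c2 : (16 : ℝ) / L = 16 * (1 / L) := by ring
    linarith
  -- (IV)
  have b4 : ∀ A : ℕ, 3 * L ≤ 4 * A → C' / (((A / 16 : ℕ) : ℝ)) ^ 2 ≤ 4096 * C' * G := by
    intro A hA
    have c1 : (L : ℝ) ≤ 64 * ((A / 16 : ℕ) : ℝ) := by
      exact_mod_cast (by omega : L ≤ 64 * (A / 16))
    have c0 : (0 : ℝ) < ((A / 16 : ℕ) : ℝ) := by linarith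
    have c2 : (L : ℝ) ≤ 4096 * (((A / 16 : ℕ) : ℝ)) ^ 2 := by nlinarith
    have c3 : C' / (((A / 16 : ℕ) : ℝ)) ^ 2 ≤ 4096 * C' * (1 / L) := by
      rw [mul_one_div, div_le_div_iff₀ (by positivity) (by linarith)]
      nlinarith
    refine c3.trans ?_
    exact mul_le_mul_of_nonneg_left hG1 (by positivity)
  -- each piece
  have piece : ∀ A k : ℕ, 3 * L ≤ 4 * A → 100 * A ≤ 94 * L → A ≤ 64 * k → 16 * k ≤ A →
      LS A (A + k) (fun v => F E (n + m) v * a v) ≤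
        k * (X - 100 * (C * 1232 + 45056 * C') * (1015 / 1000 * G)) + 45056 * C' * (k * G) := by
    intro A k c1 c2 c3 c4
    have c5 := hX A k c1 (by omega) c3 c4
    have c6 := repl hm (A := A) (k := k) (m := A / 16) (M := n + m) hE1 (by omega) (by omega)
      (four_mul_three_pow_le (L := L) (by omega) c1 (by omega)) (by omega) ha
    have c7 := b4 A c1
    have c8 : (0 : ℝ) ≤ k := Nat.cast_nonneg k
    have c9 : 11 * (k : ℝ) * (C' / (((A / 16 : ℕ) : ℝ)) ^ 2) ≤ 11 * k * (4096 * C' * G) :=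
      mul_le_mul_of_nonneg_left c7 (by positivity)
    have c10 := gq_gain (A := A) (L := L) (by omega) c2
    have c11 : (k : ℝ) * (X - 100 * (C * 1232 + 45056 * C') * gq A) ≤
        k * (X - 100 * (C * 1232 + 45056 * C') * (1015 / 1000 * G)) := by
      refine mul_le_mul_of_nonneg_left ?_ c8
      have : 100 * (C * 1232 + 45056 * C') * (1015 / 1000 * G) ≤
          100 * (C * 1232 + 45056 * C') * gq A := mul_le_mul_of_nonneg_left c10 (by positivity)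
      linarith
    nlinarith
  -- the window after the step
  have key : LS (L - s) (L - s + ℓ) (fun v => F E (n + m) v * a v) ≤
      ℓ * (X - 100 * (C * 1232 + 45056 * C') * (1015 / 1000 * G)) + 45056 * C' * (ℓ * G) := by
    by_cases hc : 16 * ℓ ≤ L - s
    · exact piece (L - s) ℓ (by omega) (by omega) (by omega) hc
    · have p1 := piece (L - s) (ℓ / 2) (by omega) (by omega) (by omega) (by omega)
      have p2 := piece (L - s + ℓ / 2) (ℓ - ℓ / 2) (by omega) (by omega) (by omega) (by omega)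
      have p3 : LS (L - s) (L - s + ℓ / 2) (fun v => F E (n + m) v * a v) +
          LS (L - s + ℓ / 2) (L - s + ℓ / 2 + (ℓ - ℓ / 2)) (fun v => F E (n + m) v * a v) =
          LS (L - s) (L - s + ℓ) (fun v => F E (n + m) v * a v) := by
        rw [show L - s + ℓ / 2 + (ℓ - ℓ / 2) = L - s + ℓ by omega]
        exact LS_append (by omega) (by omega) _
      rw [← p3]
      have p4 : (ℓ : ℝ) = ((ℓ / 2 : ℕ) : ℝ) + ((ℓ - ℓ / 2 : ℕ) : ℝ) := by
        exact_mod_cast (by omega : ℓ = ℓ / 2 + (ℓ - ℓ / 2))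
      rw [p4]
      nlinarith
  have e1 : C * ((Δ : ℝ) + 1) ≤ C * (192 * ℓ * G) := mul_le_mul_of_nonneg_left b1 hC.le
  have e2 : C * ℓ * (Real.exp (-((Δ : ℝ) ^ 2 / (8 * n))) + (1 / 2) ^ (L / 16)) ≤
      C * ℓ * (1040 * G) := mul_le_mul_of_nonneg_left (by linarith) (by positivity)
  have e3 : ℓ * (X - 100 * (C * 1232 + 45056 * C') * (1015 / 1000 * G)) +
      45056 * C' * (ℓ * G) + C * (192 * ℓ * G) + C * ℓ * (1040 * G) ≤
      ℓ * (X - 100 * (C * 1232 + 45056 * C') * G) := by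
    have : 0 ≤ C * (ℓ * G) := by positivity
    have : 0 ≤ C' * (ℓ * G) := by positivity
    nlinarith
  linarith

theorem log_small_of (hs : StepStmt) (hm : MixStmt) :
    ∃ (C : ℝ) (L₀ : ℕ), 0 < C ∧ ∀ L₁ : ℕ, L₀ ≤ L₁ → ∀ a : ℤ → ℝ, Adm a →
    (∀ v : ℤ, |v| < 2 ^ (2 * L₁) → a v = 0) → ∀ L ℓ : ℕ, L₁ ≤ L → L ≤ 64 * ℓ → 16 * ℓ ≤ L →
    LS L (L + ℓ) a ≤ C * ℓ * (L₁ : ℝ) ^ (-(1 / 4) : ℝ) := by
  obtain ⟨Y, L₀, E₀, hY, h⟩ := one_step hs hm
  refine ⟨Y, max L₀ 16, hY, ?_⟩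
  intro L₁ hL₁ a ha hz L ℓ hL h1 h2
  have hL0 : L₀ ≤ L₁ := le_trans (le_max_left _ _) hL₁
  have hL16 : 16 ≤ L₁ := le_trans (le_max_right _ _) hL₁
  set E := E₀ + 3 * L with hE
  have hzero : ∀ A k M : ℕ, A + k ≤ 2 * L₁ → LS A (A + k) (fun v => F E M v * a v) = 0 := by
    intro A k M hA
    refine LS_zero fun v hv => ?_
    have h3 := (mem_win.1 hv).2.1
    rw [hz v (lt_of_lt_of_le h3 (pow_le_pow_right₀ (by norm_num) hA)), mul_zero]
  have hrec : ∀ A : ℕ, L₁ ≤ A → A ≤ L → ∀ k : ℕ, A ≤ 64 * k → 16 * k ≤ A → ∀ M : ℕ, 16 * M ≤ A →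
      LS A (A + k) (fun v => F E M v * a v) ≤ k * (Y * gq L₁ - Y * gq A) := by
    intro A
    induction A using Nat.strong_induction_on with
    | _ A ih =>
      intro hA hAL k hk1 hk2 M hM
      by_cases hc : A + k ≤ 2 * L₁
      · rw [hzero A k M hc]
        have := gq_anti (A := L₁) (L := A) (by omega) hA
        have : Y * gq A ≤ Y * gq L₁ := mul_le_mul_of_nonneg_left this hY.le
        exact mul_nonneg (Nat.cast_nonneg _) (by linarith)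
      · refine h A k M E (by omega) hk1 hk2 hM (by omega) (by omega) a ha _ ?_
        intro B j hB1 hB2 hB3 hB4
        exact ih B hB2 (by omega) (by omega) j hB3 hB4 (B / 16) (by omega)
  have h3 := hrec L hL le_rfl ℓ h1 h2 0 (by omega)
  have h4 : LS L (L + ℓ) (fun v => F E 0 v * a v) = LS L (L + ℓ) a := by
    refine LS_congr fun v _ => ?_
    rw [F_zero, one_mul]
  rw [h4] at h3
  refine h3.trans ?_
  have h5 := gq_pos (L := L) (by omega)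
  have h6 : (0 : ℝ) ≤ ℓ := Nat.cast_nonneg _
  have h7 : 0 ≤ ℓ * (Y * gq L) := by positivity
  have h8 : (L₁ : ℝ) ^ (-(1 / 4) : ℝ) = gq L₁ := rfl
  rw [h8]
  nlinarith

end CollatzLin
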