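import Pool.Agent.CollatzLin.Defs2

set_option autoImplicit false

/-!
# Moments of the heights and displacements of random words
-/

namespace CollatzLin

open CollatzOne Finset

/-! ### Letters -/

/-- The generating function of the letters. -/
lemma sum_geom_le (E : ℕ) {s : ℝ} (h0 : 0 ≤ s) (h2 : s < 2) :
    ∑ e ∈ Icc 1 E, (s / 2) ^ e ≤ s / (2 - s) := by
  have h3 : 0 < 2 - s := by linarith
  have key : ∀ E : ℕ, ∑ e ∈ Icc 1 E, (s / 2) ^ e = s / (2 - s) * (1 - (s / 2) ^ E) := by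
    intro E
    induction E with
    | zero => simp
    | succ E ih =>
      rw [sum_Icc_succ_top (by omega), ih, pow_succ]
      field_simp
      ring
  rw [key]
  have h4 : 0 ≤ (s / 2) ^ E := by positivity
  have h5 : 0 ≤ s / (2 - s) := div_nonneg h0 h3.le
  nlinarith

lemma sum_letters_geom (E : ℕ) {s : ℝ} (h0 : 0 ≤ s) (h2 : s < 2) :
    ∑ e ∈ Icc 1 E, s ^ e / (Z E * 2 ^ e) ≤ s / ((2 - s) * Z E) := by
  have h1 : ∀ e ∈ Icc 1 E, s ^ e / (Z E * 2 ^ e) = (s / 2) ^ e * (1 / Z E) := by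
    intro e _
    rw [div_pow, div_mul_div_comm, mul_one]
    congr 1
    ring
  rw [sum_congr rfl h1, ← sum_mul]
  have h3 : 0 ≤ 1 / Z E := div_nonneg zero_le_one (Z_nonneg E)
  refine (mul_le_mul_of_nonneg_right (sum_geom_le E h0 h2) h3).trans (le_of_eq ?_)
  rw [div_mul_div_comm, mul_one]

lemma sum_letters_id (E : ℕ) : ∑ e ∈ Icc 1 E, (e : ℝ) / 2 ^ e = 2 - (E + 2) / 2 ^ E := by
  induction E with
  | zero => norm_num
  | succ E ih =>
    rw [sum_Icc_succ_top (by omega), ih, pow_succ]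
    push_cast
    field_simp
    ring

lemma sum_letters_sq (E : ℕ) :
    ∑ e ∈ Icc 1 E, (e : ℝ) ^ 2 / 2 ^ e = 6 - ((E : ℝ) ^ 2 + 4 * E + 6) / 2 ^ E := by
  induction E with
  | zero => norm_num
  | succ E ih =>
    rw [sum_Icc_succ_top (by omega), ih, pow_succ]
    push_cast
    field_simp
    ring

/-- The first moment of a letter. -/
noncomputable def mu (E : ℕ) : ℝ := ∑ e ∈ Icc 1 E, (e : ℝ) / (Z E * 2 ^ e)

/-- The second moment of a letter. -/
noncomputable def mu2 (E : ℕ) : ℝ := ∑ e ∈ Icc 1 E, (e : ℝ) ^ 2 / (Z E * 2 ^ e)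

lemma mu_eq (E : ℕ) : mu E = (2 - (E + 2) / 2 ^ E) / Z E := by
  unfold mu
  rw [← sum_letters_id, sum_div]
  refine sum_congr rfl fun e _ => ?_
  rw [div_div, mul_comm (Z E)]

lemma mu2_eq (E : ℕ) : mu2 E = (6 - ((E : ℝ) ^ 2 + 4 * E + 6) / 2 ^ E) / Z E := by
  unfold mu2
  rw [← sum_letters_sq, sum_div]
  refine sum_congr rfl fun e _ => ?_
  rw [div_div, mul_comm (Z E)]

lemma mu_nonneg (E : ℕ) : 0 ≤ mu E := by
  unfold mu
  have := Z_nonneg E
  exact sum_nonneg fun e _ => by positivity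

lemma mu_ge {E : ℕ} (hE : 1 ≤ E) : 2 - (E + 2) / 2 ^ E ≤ mu E := by
  have hZ := Z_pos hE
  have h1 : 0 ≤ mu E := mu_nonneg E
  have h2 := mu_eq E
  have h3 : mu E * Z E = 2 - (E + 2) / 2 ^ E := by
    rw [h2]; field_simp
  rw [← h3]
  have := Z_le_one E
  nlinarith

lemma mu_le {E : ℕ} (hE : 1 ≤ E) : mu E ≤ 2 := by
  have hZ := Z_pos hE
  rw [mu_eq, div_le_iff₀ hZ]
  unfold Z
  have h1 : (0 : ℝ) ≤ E / 2 ^ E := by positivity
  have h2 : ((E : ℝ) + 2) / 2 ^ E = E / 2 ^ E + 2 * (1 / 2 ^ E) := by ring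
  rw [h2]
  linarith

lemma mu2_le {E : ℕ} (hE : 1 ≤ E) : mu2 E ≤ 6 := by
  have hZ := Z_pos hE
  rw [mu2_eq, div_le_iff₀ hZ]
  unfold Z
  have h1 : (0 : ℝ) ≤ (E ^ 2 + 4 * E) / 2 ^ E := by positivity
  have h2 : ((E : ℝ) ^ 2 + 4 * E + 6) / 2 ^ E = (E ^ 2 + 4 * E) / 2 ^ E + 6 * (1 / 2 ^ E) := by ring
  rw [h2]
  linarith

/-! ### Moments of `js` -/

lemma sum_pr_js_eq {E : ℕ} (hE : 1 ≤ E) (n : ℕ) :
    ∑ W ∈ words E n, pr E W * js W = n * mu E := by
  induction n with
  | zero => simp [words_zero, js_nil]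
  | succ n ih =>
    rw [sum_words_succ]
    have h1 : ∀ e ∈ Icc 1 E, ∑ W ∈ words E n, pr E (e :: W) * js (e :: W) =
        (e : ℝ) / (Z E * 2 ^ e) + 1 / (Z E * 2 ^ e) * (n * mu E) := by
      intro e _
      have h2 : ∀ W ∈ words E n, pr E (e :: W) * js (e :: W) =
          (e : ℝ) / (Z E * 2 ^ e) * pr E W + 1 / (Z E * 2 ^ e) * (pr E W * js W) := by
        intro W _
        rw [pr_cons, js_cons]
        push_cast
        ring
      rw [sum_congr rfl h2, sum_add_distrib, ← mul_sum, ← mul_sum, ih, sum_pr hE, mul_one]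
    rw [sum_congr rfl h1, sum_add_distrib, ← sum_mul]
    have h3 : ∑ e ∈ Icc 1 E, (1 : ℝ) / (Z E * 2 ^ e) = 1 := by
      have hZ := Z_pos hE
      have h4 : ∀ e ∈ Icc 1 E, (1 : ℝ) / (Z E * 2 ^ e) = 1 / 2 ^ e * (1 / Z E) := by
        intro e _
        field_simp
      rw [sum_congr rfl h4, ← sum_mul, sum_letters]
      field_simp
    rw [h3]
    unfold mu
    push_cast
    ring

theorem sum_pr_js {E : ℕ} (hE : 1 ≤ E) (n : ℕ) :
    (n : ℝ) * (2 - (E + 2) / 2 ^ E) ≤ ∑ W ∈ words E n, pr E W * js W := by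
  rw [sum_pr_js_eq hE]
  exact mul_le_mul_of_nonneg_left (mu_ge hE) (Nat.cast_nonneg _)

theorem sum_pr_js_sq {E : ℕ} (hE : 1 ≤ E) (n : ℕ) :
    ∑ W ∈ words E n, pr E W * (js W : ℝ) ^ 2 ≤ 6 * (n : ℝ) ^ 2 := by
  induction n with
  | zero => simp [words_zero, js_nil]
  | succ n ih =>
    rw [sum_words_succ]
    have hZ := Z_pos hE
    have h1 : ∀ e ∈ Icc 1 E, ∑ W ∈ words E n, pr E (e :: W) * (js (e :: W) : ℝ) ^ 2 =
        (e : ℝ) ^ 2 / (Z E * 2 ^ e) + (e : ℝ) / (Z E * 2 ^ e) * (2 * (n * mu E)) +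
          1 / (Z E * 2 ^ e) * ∑ W ∈ words E n, pr E W * (js W : ℝ) ^ 2 := by
      intro e _
      have h2 : ∀ W ∈ words E n, pr E (e :: W) * (js (e :: W) : ℝ) ^ 2 =
          (e : ℝ) ^ 2 / (Z E * 2 ^ e) * pr E W +
            2 * (e : ℝ) / (Z E * 2 ^ e) * (pr E W * js W) +
            1 / (Z E * 2 ^ e) * (pr E W * (js W : ℝ) ^ 2) := by
        intro W _
        rw [pr_cons, js_cons]
        push_cast
        ring
      rw [sum_congr rfl h2, sum_add_distrib, sum_add_distrib, ← mul_sum, ← mul_sum, ← mul_sum,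
        sum_pr_js_eq hE, sum_pr hE, mul_one]
      ring
    rw [sum_congr rfl h1, sum_add_distrib, sum_add_distrib, ← sum_mul, ← sum_mul]
    have h3 : ∑ e ∈ Icc 1 E, (1 : ℝ) / (Z E * 2 ^ e) = 1 := by
      have h4 : ∀ e ∈ Icc 1 E, (1 : ℝ) / (Z E * 2 ^ e) = 1 / 2 ^ e * (1 / Z E) := by
        intro e _
        field_simp
      rw [sum_congr rfl h4, ← sum_mul, sum_letters]
      field_simp
    rw [h3, one_mul]
    change mu2 E + mu E * (2 * (n * mu E)) + _ ≤ _
    have h5 := mu_le hE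
    have h6 := mu2_le hE
    have h7 := mu_nonneg E
    have h8 : (0 : ℝ) ≤ n := Nat.cast_nonneg _
    have h9 : mu E * mu E ≤ 2 * 2 := mul_le_mul h5 h5 h7 (by norm_num)
    have h10 : mu E * (2 * (n * mu E)) ≤ 8 * n := by nlinarith
    push_cast
    nlinarith

/-! ### The half-integer moments -/

/-- `√(3 / 2 ^ e)`. -/
noncomputable def rt (e : ℕ) : ℝ := √(3 / 2 ^ e)

lemma rt_eq (e : ℕ) : rt e = √3 * (√2 / 2) ^ e := by
  unfold rt
  have h : (3 : ℝ) / 2 ^ e = (√3 * (√2 / 2) ^ e) ^ 2 := by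
    rw [mul_pow, Real.sq_sqrt (by norm_num), ← pow_mul, mul_comm e 2, pow_mul, div_pow,
      Real.sq_sqrt (by norm_num), div_eq_mul_inv 3, ← inv_pow]
    norm_num
  rw [h, Real.sqrt_sq (by positivity)]

/-- The half-integer moment of a letter. -/
noncomputable def kap (E : ℕ) : ℝ := ∑ e ∈ Icc 1 E, rt e / (Z E * 2 ^ e)

lemma kap_nonneg (E : ℕ) : 0 ≤ kap E := by
  unfold kap rt
  have := Z_nonneg E
  exact sum_nonneg fun e _ => by positivity

lemma kap_le {E : ℕ} (hE : 6 ≤ E) : kap E ≤ 39 / 40 := by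
  have h2a : √2 ≤ 1.41422 := by
    rw [Real.sqrt_le_left (by norm_num)]
    norm_num
  have h3a : √3 ≤ 1.73206 := by
    rw [Real.sqrt_le_left (by norm_num)]
    norm_num
  have h2b : 0 ≤ √2 := Real.sqrt_nonneg _
  have h3b : 0 ≤ √3 := Real.sqrt_nonneg _
  have hs1 : √2 / 2 < 2 := by linarith
  have h1 : ∀ e ∈ Icc 1 E, rt e / (Z E * 2 ^ e) = √3 * ((√2 / 2) ^ e / (Z E * 2 ^ e)) := by
    intro e _
    rw [rt_eq, mul_div_assoc]
  unfold kap
  rw [sum_congr rfl h1, ← mul_sum]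
  have h4 := sum_letters_geom E (s := √2 / 2) (by positivity) hs1
  have hZ : 63 / 64 ≤ Z E := by
    unfold Z
    have h5 : (2 : ℝ) ^ 6 ≤ 2 ^ E := pow_le_pow_right₀ (by norm_num) hE
    have h6 : (1 : ℝ) / 2 ^ E ≤ 1 / 2 ^ 6 := one_div_le_one_div_of_le (by norm_num) h5
    norm_num at h6 ⊢
    linarith
  have h7 : √2 / 2 / ((2 - √2 / 2) * Z E) ≤ 0.70711 / (1.29289 * (63 / 64)) := by
    apply div_le_div₀ (by norm_num) (by linarith) (by norm_num)
    apply mul_le_mul (by linarith) hZ (by norm_num) (by linarith)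
  calc √3 * ∑ e ∈ Icc 1 E, (√2 / 2) ^ e / (Z E * 2 ^ e)
      ≤ √3 * (0.70711 / (1.29289 * (63 / 64))) := by
        exact mul_le_mul_of_nonneg_left (h4.trans h7) h3b
    _ ≤ 1.73206 * (0.70711 / (1.29289 * (63 / 64))) := by
        exact mul_le_mul_of_nonneg_right h3a (by norm_num)
    _ ≤ 39 / 40 := by norm_num

lemma sqrt_one_add_le {x : ℝ} (hx : 0 ≤ x) : √(1 + x) ≤ 1 + √x := by
  rw [Real.sqrt_le_left (by positivity)]
  have := Real.sq_sqrt hx
  have := Real.sqrt_nonneg x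
  nlinarith

theorem sqrt_dst_le {E : ℕ} (hE : 6 ≤ E) (n : ℕ) : ∑ W ∈ words E n, pr E W * √(dst W) ≤ 40 := by
  have hE1 : 1 ≤ E := by omega
  have hZ := Z_pos hE1
  induction n with
  | zero => simp [words_zero, pr_nil, dst]
  | succ n ih =>
    rw [sum_words_succ]
    have h1 : ∀ e ∈ Icc 1 E, ∑ W ∈ words E n, pr E (e :: W) * √(dst (e :: W)) ≤
        1 / (Z E * 2 ^ e) + rt e / (Z E * 2 ^ e) * 40 := by
      intro e _
      have h2 : ∀ W ∈ words E n, pr E (e :: W) * √(dst (e :: W)) ≤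
          1 / (Z E * 2 ^ e) * pr E W + rt e / (Z E * 2 ^ e) * (pr E W * √(dst W)) := by
        intro W _
        rw [pr_cons, dst]
        have h3 := one_le_dst W
        have h4 : √(1 + 3 / 2 ^ e * dst W) ≤ 1 + rt e * √(dst W) := by
          refine (sqrt_one_add_le (by positivity)).trans (le_of_eq ?_)
          rw [Real.sqrt_mul (by positivity)]
          rfl
        have h5 : 0 ≤ 1 / (Z E * 2 ^ e) * pr E W := mul_nonneg (by positivity) (pr_nonneg E W)
        refine (mul_le_mul_of_nonneg_left h4 h5).trans (le_of_eq ?_)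
        ring
      refine (sum_le_sum h2).trans ?_
      rw [sum_add_distrib, ← mul_sum, ← mul_sum, sum_pr hE1, mul_one]
      have h6 : 0 ≤ rt e / (Z E * 2 ^ e) := by unfold rt; positivity
      linarith [mul_le_mul_of_nonneg_left ih h6]
    refine (sum_le_sum h1).trans ?_
    rw [sum_add_distrib, ← sum_mul]
    have h3 : ∑ e ∈ Icc 1 E, (1 : ℝ) / (Z E * 2 ^ e) = 1 := by
      have h4 : ∀ e ∈ Icc 1 E, (1 : ℝ) / (Z E * 2 ^ e) = 1 / 2 ^ e * (1 / Z E) := by
        intro e _
        field_simp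
      rw [sum_congr rfl h4, ← sum_mul, sum_letters]
      field_simp
    rw [h3]
    have h7 := kap_le hE
    unfold kap at h7
    linarith

open Classical in
theorem Pr_dst {E : ℕ} (hE : 6 ≤ E) (n : ℕ) {K : ℝ} (hK : 0 < K) :
    Pr E ((words E n).filter (fun W => K < dst W)) ≤ 40 / √K := by
  rw [le_div_iff₀ (Real.sqrt_pos.2 hK)]
  refine le_trans ?_ (sqrt_dst_le hE n)
  unfold Pr
  rw [sum_mul]
  calc ∑ W ∈ (words E n).filter (fun W => K < dst W), pr E W * √K
      ≤ ∑ W ∈ (words E n).filter (fun W => K < dst W), pr E W * √(dst W) := by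
        refine sum_le_sum fun W hW => ?_
        rw [mem_filter] at hW
        exact mul_le_mul_of_nonneg_left (Real.sqrt_le_sqrt hW.2.le) (pr_nonneg E W)
    _ ≤ _ := sum_le_sum_of_subset_of_nonneg (filter_subset _ _)
        fun W _ _ => mul_nonneg (pr_nonneg E W) (Real.sqrt_nonneg _)

lemma prod_rt (W : List ℕ) : (W.map rt).prod = √(1 / ht W) := by
  induction W with
  | nil => simp [ht_nil]
  | cons e W ih =>
    rw [List.map_cons, List.prod_cons, ih, ht_cons]
    unfold rt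
    rw [← Real.sqrt_mul (by positivity)]
    congr 1
    have := ht_pos W
    field_simp

open Classical in
theorem Pr_ht {E : ℕ} (hE : 6 ≤ E) (n : ℕ) {K : ℝ} (hK : 0 < K) :
    Pr E ((words E n).filter (fun W => ht W ≤ K)) ≤ √K * (49 / 50) ^ n := by
  have h1 : ∑ W ∈ words E n, pr E W * (W.map rt).prod = kap E ^ n := sum_pr_prod E n rt
  have h2 : kap E ^ n ≤ (49 / 50) ^ n :=
    pow_le_pow_left₀ (kap_nonneg E) ((kap_le hE).trans (by norm_num)) n
  calc Pr E ((words E n).filter (fun W => ht W ≤ K))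
      ≤ ∑ W ∈ (words E n).filter (fun W => ht W ≤ K), √K * (pr E W * (W.map rt).prod) := by
        unfold Pr
        refine sum_le_sum fun W hW => ?_
        rw [mem_filter] at hW
        have h3 := ht_pos W
        have h4 : 1 ≤ √K * √(1 / ht W) := by
          rw [← Real.sqrt_mul hK.le, Real.one_le_sqrt, mul_one_div, le_div_iff₀ h3, one_mul]
          exact hW.2
        rw [prod_rt]
        have h5 := pr_nonneg E W
        nlinarith
    _ ≤ ∑ W ∈ words E n, √K * (pr E W * (W.map rt).prod) := by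
        refine sum_le_sum_of_subset_of_nonneg (filter_subset _ _) fun W _ _ => ?_
        rw [prod_rt]
        exact mul_nonneg (Real.sqrt_nonneg _) (mul_nonneg (pr_nonneg E W) (Real.sqrt_nonneg _))
    _ = √K * kap E ^ n := by rw [← mul_sum, h1]
    _ ≤ √K * (49 / 50) ^ n := mul_le_mul_of_nonneg_left h2 (Real.sqrt_nonneg _)

/-! ### Large deviations of `js` -/

lemma prod_pow_js (s : ℝ) (W : List ℕ) : (W.map (fun e => s ^ e)).prod = s ^ js W := by
  induction W with
  | nil => simp [js_nil]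
  | cons e W ih => rw [List.map_cons, List.prod_cons, ih, js_cons, pow_add]

/-- The exponential moment. -/
lemma sum_pr_pow {E : ℕ} (n : ℕ) {s : ℝ} (h0 : 0 ≤ s) (h2 : s < 2) :
    ∑ W ∈ words E n, pr E W * s ^ js W ≤ (s / ((2 - s) * Z E)) ^ n := by
  have h1 : ∑ W ∈ words E n, pr E W * s ^ js W =
      (∑ e ∈ Icc 1 E, s ^ e / (Z E * 2 ^ e)) ^ n := by
    rw [← sum_pr_prod E n (fun e => s ^ e)]
    exact sum_congr rfl fun W _ => by rw [prod_pow_js]
  rw [h1]
  have h3 := Z_nonneg E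
  exact pow_le_pow_left₀ (sum_nonneg fun e _ => by positivity) (sum_letters_geom E h0 h2) n

lemma neg_log_one_sub_le {t : ℝ} (h0 : 0 ≤ t) (h1 : t ≤ 1 / 3) :
    -Real.log (1 - t) ≤ t + t ^ 2 / 2 + t ^ 3 / 3 + 3 / 2 * t ^ 4 := by
  have h := Real.abs_log_sub_add_sum_range_le (x := t) (by rw [abs_of_nonneg h0]; linarith) 3
  rw [abs_of_nonneg h0] at h
  have h2 := (abs_le.1 h).1
  simp only [sum_range_succ, range_zero, sum_empty] at h2
  have h3 : t ^ (3 + 1) / (1 - t) ≤ 3 / 2 * t ^ 4 := by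
    rw [div_le_iff₀ (by linarith)]
    have : 0 ≤ t ^ 4 := by positivity
    nlinarith
  norm_num at h2 h3 ⊢
  linarith

lemma le_log_one_add {t : ℝ} (h0 : 0 ≤ t) : t - t ^ 2 / 2 ≤ Real.log (1 + t) := by
  refine le_trans ?_ (Real.le_log_one_add_of_nonneg h0)
  rw [le_div_iff₀ (by linarith)]
  have : 0 ≤ t ^ 3 := by positivity
  nlinarith

open Classical in
theorem Pr_upper {E : ℕ} (hE : 1 ≤ E) (n : ℕ) {ε : ℝ} (h0 : 0 < ε) (h1 : ε ≤ 1) :
    Pr E ((words E n).filter (fun W => (2 + ε) * n < js W)) ≤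
      Real.exp (-(ε ^ 2 * n / 8)) / Z E ^ n := by
  have hZ := Z_pos hE
  set t : ℝ := ε / 3 with ht
  have ht0 : 0 < t := by positivity
  have ht1 : t ≤ 1 / 3 := by linarith
  have hε : ε = 3 * t := by rw [ht]; ring
  set s : ℝ := 1 + t with hs
  have hs0 : 0 < s := by positivity
  have hlog : 0 < Real.log s := Real.log_pos (by linarith)
  -- the moment bound
  have hm := sum_pr_pow (E := E) n (s := s) hs0.le (by linarith)
  have hk : Real.exp ((2 + ε) * n * Real.log s) *
      Pr E ((words E n).filter (fun W => (2 + ε) * n < js W)) ≤ (s / ((2 - s) * Z E)) ^ n := by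
    refine le_trans ?_ hm
    unfold Pr
    rw [mul_sum]
    calc ∑ W ∈ (words E n).filter (fun W => (2 + ε) * n < js W),
          Real.exp ((2 + ε) * n * Real.log s) * pr E W
        ≤ ∑ W ∈ (words E n).filter (fun W => (2 + ε) * n < js W), pr E W * s ^ js W := by
          refine sum_le_sum fun W hW => ?_
          rw [mem_filter] at hW
          have h3 : s ^ js W = Real.exp (js W * Real.log s) := by
            rw [← Real.log_pow, Real.exp_log (by positivity)]
          rw [h3, mul_comm]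
          refine mul_le_mul_of_nonneg_left (Real.exp_le_exp.2 ?_) (pr_nonneg E W)
          exact mul_le_mul_of_nonneg_right hW.2.le hlog.le
      _ ≤ _ := sum_le_sum_of_subset_of_nonneg (filter_subset _ _)
          fun W _ _ => mul_nonneg (pr_nonneg E W) (by positivity)
  have h4 : (s / ((2 - s) * Z E)) ^ n = Real.exp (n * (Real.log s - Real.log (1 - t))) / Z E ^ n := by
    have h5 : s / ((2 - s) * Z E) = s / (1 - t) / Z E := by
      rw [hs, div_div]; congr 2; ring
    rw [h5, div_pow]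
    congr 1
    have h6 : 0 < s / (1 - t) := div_pos hs0 (by linarith)
    rw [← Real.log_div hs0.ne' (by linarith), ← Real.log_pow, Real.exp_log (by positivity)]
  rw [h4] at hk
  have h7 : Pr E ((words E n).filter (fun W => (2 + ε) * n < js W)) ≤
      Real.exp (-((2 + ε) * n * Real.log s)) *
        (Real.exp (n * (Real.log s - Real.log (1 - t))) / Z E ^ n) := by
    have h8 := mul_le_mul_of_nonneg_left hk (Real.exp_pos (-((2 + ε) * n * Real.log s))).le
    rw [← mul_assoc, ← Real.exp_add, neg_add_cancel, Real.exp_zero, one_mul] at h8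
    exact h8
  refine h7.trans ?_
  rw [← mul_div_assoc, ← Real.exp_add]
  refine div_le_div_of_nonneg_right (Real.exp_le_exp.2 ?_) (by positivity)
  have h9 := neg_log_one_sub_le ht0.le ht1
  have h10 := le_log_one_add ht0.le
  rw [← hs] at h10
  have h11 : (1 + 3 * t) * (t - t ^ 2 / 2) ≤ (1 + 3 * t) * Real.log s :=
    mul_le_mul_of_nonneg_left h10 (by positivity)
  have h12 : -((1 + 3 * t) * Real.log s) - Real.log (1 - t) ≤ -(9 * t ^ 2 / 8) := by
    have h13 : 0 ≤ t ^ 2 * (1 / 3 - t) := mul_nonneg (by positivity) (by linarith)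
    have h14 : 0 ≤ t ^ 3 * (1 / 3 - t) := mul_nonneg (by positivity) (by linarith)
    nlinarith
  have h15 : (0 : ℝ) ≤ n := Nat.cast_nonneg _
  have h16 := mul_le_mul_of_nonneg_left h12 h15
  rw [hε]
  nlinarith

open Classical in
theorem Pr_lower {E : ℕ} (hE : 1 ≤ E) (n : ℕ) {ε : ℝ} (h0 : 0 < ε) (h1 : ε ≤ 1) :
    Pr E ((words E n).filter (fun W => (js W : ℝ) < (2 - ε) * n)) ≤
      Real.exp (-(ε ^ 2 * n / 8)) / Z E ^ n := by
  have hZ := Z_pos hE
  set t : ℝ := ε / 3 with ht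
  have ht0 : 0 < t := by positivity
  have ht1 : t ≤ 1 / 3 := by linarith
  have hε : ε = 3 * t := by rw [ht]; ring
  set s : ℝ := 1 - t with hs
  have hs0 : 0 < s := by linarith
  have hlog : Real.log s < 0 := Real.log_neg hs0 (by linarith)
  -- the moment bound
  have hm := sum_pr_pow (E := E) n (s := s) hs0.le (by linarith)
  have hk : Real.exp ((2 - ε) * n * Real.log s) *
      Pr E ((words E n).filter (fun W => (js W : ℝ) < (2 - ε) * n)) ≤
        (s / ((2 - s) * Z E)) ^ n := by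
    refine le_trans ?_ hm
    unfold Pr
    rw [mul_sum]
    calc ∑ W ∈ (words E n).filter (fun W => (js W : ℝ) < (2 - ε) * n),
          Real.exp ((2 - ε) * n * Real.log s) * pr E W
        ≤ ∑ W ∈ (words E n).filter (fun W => (js W : ℝ) < (2 - ε) * n), pr E W * s ^ js W := by
          refine sum_le_sum fun W hW => ?_
          rw [mem_filter] at hW
          have h3 : s ^ js W = Real.exp (js W * Real.log s) := by
            rw [← Real.log_pow, Real.exp_log (by positivity)]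
          rw [h3, mul_comm]
          refine mul_le_mul_of_nonneg_left (Real.exp_le_exp.2 ?_) (pr_nonneg E W)
          exact mul_le_mul_of_nonpos_right hW.2.le hlog.le
      _ ≤ _ := sum_le_sum_of_subset_of_nonneg (filter_subset _ _)
          fun W _ _ => mul_nonneg (pr_nonneg E W) (by positivity)
  have h4 : (s / ((2 - s) * Z E)) ^ n = Real.exp (n * (Real.log s - Real.log (1 + t))) / Z E ^ n := by
    have h5 : s / ((2 - s) * Z E) = s / (1 + t) / Z E := by
      rw [hs, div_div]; congr 2; ring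
    rw [h5, div_pow]
    congr 1
    have h6 : 0 < s / (1 + t) := div_pos hs0 (by linarith)
    rw [← Real.log_div hs0.ne' (by linarith), ← Real.log_pow, Real.exp_log (by positivity)]
  rw [h4] at hk
  have h7 : Pr E ((words E n).filter (fun W => (js W : ℝ) < (2 - ε) * n)) ≤
      Real.exp (-((2 - ε) * n * Real.log s)) *
        (Real.exp (n * (Real.log s - Real.log (1 + t))) / Z E ^ n) := by
    have h8 := mul_le_mul_of_nonneg_left hk (Real.exp_pos (-((2 - ε) * n * Real.log s))).le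
    rw [← mul_assoc, ← Real.exp_add, neg_add_cancel, Real.exp_zero, one_mul] at h8
    exact h8
  refine h7.trans ?_
  rw [← mul_div_assoc, ← Real.exp_add]
  refine div_le_div_of_nonneg_right (Real.exp_le_exp.2 ?_) (by positivity)
  have h9 := neg_log_one_sub_le ht0.le ht1
  rw [← hs] at h9
  have h10 := le_log_one_add ht0.le
  have h11 : (1 - 3 * t) * -Real.log s ≤
      (1 - 3 * t) * (t + t ^ 2 / 2 + t ^ 3 / 3 + 3 / 2 * t ^ 4) :=
    mul_le_mul_of_nonneg_left h9 (by linarith)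
  have h12 : (1 - 3 * t) * -Real.log s - Real.log (1 + t) ≤ -(9 * t ^ 2 / 8) := by
    have h13 : 0 ≤ t ^ 2 * (1 / 3 - t) := mul_nonneg (by positivity) (by linarith)
    have h14 : 0 ≤ t ^ 3 * (1 / 3 - t) := mul_nonneg (by positivity) (by linarith)
    have h15 : 0 ≤ t ^ 3 := by positivity
    have h16 : 0 ≤ t ^ 5 := by positivity
    nlinarith
  have h15 : (0 : ℝ) ≤ n := Nat.cast_nonneg _
  have h16 := mul_le_mul_of_nonneg_left h12 h15
  rw [hε]
  nlinarith

end CollatzLin
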