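import Pool.Agent.CollatzLin.LSBasic

set_option autoImplicit false

/-!
# Parents and the transport identity
-/

namespace CollatzLin

open CollatzOne Finset

/-- The relation between a point and its child, in the coordinate `x = 3 y - 1`. -/
lemma par_eq {e : ℕ} {v : ℤ} (h : v1 e v) :
    2 ^ e * (3 * v - 1) = 3 * (3 * c1 e v - 1) + CollatzExp.eps e := by
  have h1 := three_c1 h
  have h2 := three_cc e
  linear_combination -3 * h1 + h2

lemma par_iff {e : ℕ} {v u : ℤ} :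
    (v1 e v ∧ c1 e v = u) ↔ 2 ^ e * (3 * v - 1) = 3 * (3 * u - 1) + CollatzExp.eps e := by
  constructor
  · rintro ⟨h, rfl⟩
    exact par_eq h
  · intro h
    have h2 := three_cc e
    have h3 : 2 ^ e * v - cc e = 3 * u := by
      have : 3 * (2 ^ e * v - cc e) = 3 * (3 * u) := by linear_combination h - h2
      linarith
    have h4 : v1 e v := ⟨u, h3⟩
    refine ⟨h4, ?_⟩
    have h5 := three_c1 h4
    linarith

lemma eps_bounds (e : ℕ) : 1 ≤ CollatzExp.eps e ∧ CollatzExp.eps e ≤ 2 := by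
  rcases eps_eq e with ⟨h, -⟩ | ⟨h, -⟩ <;> rw [h] <;> norm_num

/-- Children are never congruent to `3` modulo `4`. -/
lemma OO_c1 {e : ℕ} (he : 1 ≤ e) {v : ℤ} (h : v1 e v) : OO (c1 e v) := by
  have h1 := par_eq h
  unfold OO
  rcases eps_eq e with ⟨h2, h3⟩ | ⟨h2, h3⟩
  · rw [h2] at h1
    obtain ⟨k, rfl⟩ : ∃ k, e = k + 1 := ⟨e - 1, by omega⟩
    rw [pow_succ, show (2 : ℤ) ^ k * 2 * (3 * v - 1) = 2 * (2 ^ k * (3 * v - 1)) by ring] at h1
    omega
  · rw [h2] at h1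
    obtain ⟨k, rfl⟩ : ∃ k, e = k + 2 := ⟨e - 2, by omega⟩
    rw [pow_add, show (2 : ℤ) ^ k * 2 ^ 2 * (3 * v - 1) = 4 * (2 ^ k * (3 * v - 1)) by ring] at h1
    omega

theorem OO_ch {W : List ℕ} (hW : ∀ e ∈ W, 1 ≤ e) {v : ℤ} (hv : OO v) (h : vd W v) : OO (ch W v) := by
  induction W generalizing v with
  | nil => rwa [ch_nil]
  | cons e W ih =>
    obtain ⟨h1, h2⟩ := vd_cons.1 h
    rw [ch_cons h]
    exact ih (fun x hx => hW x (by simp [hx])) (OO_c1 (hW e (by simp)) h1) h2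

theorem Adm.ch {a : ℤ → ℝ} (ha : Adm a) {W : List ℕ} (hW : ∀ e ∈ W, 1 ≤ e) {v : ℤ} (hv : OO v)
    (h : vd W v) : a (ch W v) ≤ a v := by
  induction W generalizing v with
  | nil => rw [ch_nil]
  | cons e W ih =>
    obtain ⟨h1, h2⟩ := vd_cons.1 h
    rw [ch_cons h]
    exact (ih (fun x hx => hW x (by simp [hx])) (OO_c1 (hW e (by simp)) h1) h2).trans
      (ha.mono e v (hW e (by simp)) hv h1)

lemma exists_two_pow_mul {N : ℤ} (hN : N ≠ 0) : ∃ (k : ℕ) (w : ℤ), N = 2 ^ k * w ∧ w % 2 = 1 := by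
  obtain ⟨k, m, hm, h⟩ := Nat.exists_eq_two_pow_mul_odd (Int.natAbs_ne_zero.2 hN)
  obtain ⟨j, rfl⟩ := hm
  rcases Int.natAbs_eq N with h' | h'
  · refine ⟨k, 2 * j + 1, ?_, by omega⟩
    rw [h', h]; push_cast; ring
  · refine ⟨k, -(2 * j + 1), ?_, by omega⟩
    rw [h', h]; push_cast; ring

/-- Two points of `OO` with the same child are equal. -/
lemma parent_unique {e e' : ℕ} {v v' : ℤ} (he : 1 ≤ e) (he' : 1 ≤ e') (hv : OO v) (_hv' : OO v')
    {u : ℤ} (h : 2 ^ e * (3 * v - 1) = 3 * (3 * u - 1) + CollatzExp.eps e)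
    (h' : 2 ^ e' * (3 * v' - 1) = 3 * (3 * u - 1) + CollatzExp.eps e') (hlt : e ≤ e') :
    e = e' ∧ v = v' := by
  have hpar : ∀ {e : ℕ} {v : ℤ}, 1 ≤ e → 2 ^ e * (3 * v - 1) = 3 * (3 * u - 1) + CollatzExp.eps e →
      (CollatzExp.eps e = 1 ∧ e % 2 = 1 ∧ u % 2 = 0) ∨ (CollatzExp.eps e = 2 ∧ e % 2 = 0 ∧ u % 2 = 1) := by
    intro e v he h
    obtain ⟨k, rfl⟩ : ∃ k, e = k + 1 := ⟨e - 1, by omega⟩
    rw [pow_succ, show (2 : ℤ) ^ k * 2 * (3 * v - 1) = 2 * (2 ^ k * (3 * v - 1)) by ring] at h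
    rcases eps_eq (k + 1) with ⟨h2, h3⟩ | ⟨h2, h3⟩ <;> rw [h2] at h <;> omega
  have h1 := hpar he h
  have h2 := hpar he' h'
  have heps : CollatzExp.eps e = CollatzExp.eps e' := by omega
  have hpe : e % 2 = e' % 2 := by omega
  have h3 : (2 : ℤ) ^ e * (3 * v - 1) = 2 ^ e' * (3 * v' - 1) := by rw [h, h', heps]
  obtain ⟨k, rfl⟩ : ∃ k, e' = e + 2 * k := ⟨(e' - e) / 2, by omega⟩
  rw [pow_add, mul_assoc] at h3
  have h4 := mul_left_cancel₀ (by positivity : (2 : ℤ) ^ e ≠ 0) h3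
  rcases Nat.eq_zero_or_pos k with rfl | hk
  · refine ⟨by simp, ?_⟩
    simp at h4
    omega
  · exfalso
    obtain ⟨j, rfl⟩ : ∃ j, k = j + 1 := ⟨k - 1, by omega⟩
    rw [show 2 * (j + 1) = 2 * j + 2 by ring, pow_add,
      show (2 : ℤ) ^ (2 * j) * 2 ^ 2 * (3 * v' - 1) = 4 * (2 ^ (2 * j) * (3 * v' - 1)) by ring] at h4
    unfold OO at hv
    omega

lemma two_pow_two_mul_mod (j : ℕ) : (2 : ℤ) ^ (2 * j) % 3 = 1 := by
  have := two_pow_mod_three (2 * j)
  rw [if_neg (by omega)] at this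
  exact this

lemma two_pow_two_mul_add_one_mod (j : ℕ) : (2 : ℤ) ^ (2 * j + 1) % 3 = 2 := by
  have := two_pow_mod_three (2 * j + 1)
  rw [if_pos (by omega)] at this
  exact this

/-- From `2 ^ e * x = 3 * (3 * u - 1) + eps e` one gets `x ≡ 2` modulo `3`. -/
lemma mod_three_of {e : ℕ} {x u : ℤ} (h : 2 ^ e * x = 3 * (3 * u - 1) + CollatzExp.eps e) :
    ∃ v : ℤ, x = 3 * v - 1 := by
  have h2 := two_pow_mod_three e
  have h3 : (2 ^ e * x) % 3 = (CollatzExp.eps e) % 3 := by rw [h]; omega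
  rw [Int.mul_emod, h2] at h3
  have h4 : x % 3 = 2 := by
    rcases eps_eq e with ⟨h5, h6⟩ | ⟨h5, h6⟩
    · rw [if_pos h6, h5] at h3
      omega
    · rw [if_neg (by omega), h5] at h3
      omega
  exact ⟨(x + 1) / 3, by omega⟩

lemma exists_parent {u : ℤ} (hu : OO u) : ∃ (e : ℕ) (v : ℤ), 1 ≤ e ∧ OO v ∧
    2 ^ e * (3 * v - 1) = 3 * (3 * u - 1) + CollatzExp.eps e := by
  -- it suffices to find `e` of the right parity with `x` not divisible by `4`
  have key : ∀ (e : ℕ) (x : ℤ), 1 ≤ e → x % 4 ≠ 0 →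
      2 ^ e * x = 3 * (3 * u - 1) + CollatzExp.eps e → ∃ (e : ℕ) (v : ℤ), 1 ≤ e ∧ OO v ∧
      2 ^ e * (3 * v - 1) = 3 * (3 * u - 1) + CollatzExp.eps e := by
    intro e x he hx h
    obtain ⟨v, rfl⟩ := mod_three_of h
    refine ⟨e, v, he, ?_, h⟩
    unfold OO
    omega
  have eo : ∀ e : ℕ, e % 2 = 1 → CollatzExp.eps e = 1 := by
    intro e he
    rcases eps_eq e with ⟨h5, h6⟩ | ⟨h5, h6⟩ <;> omega
  have ee : ∀ e : ℕ, e % 2 = 0 → CollatzExp.eps e = 2 := by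
    intro e he
    rcases eps_eq e with ⟨h5, h6⟩ | ⟨h5, h6⟩ <;> omega
  unfold OO at hu
  rcases Int.emod_two_eq_zero_or_one u with h0 | h0
  · -- odd moves
    obtain ⟨k, w, h1, h2⟩ := exists_two_pow_mul (N := 3 * (3 * u - 1) + 1) (by omega)
    have hk : 1 ≤ k := by
      rcases Nat.eq_zero_or_pos k with rfl | h
      · rw [pow_zero, one_mul] at h1; omega
      · exact h
    rcases Nat.mod_two_eq_zero_or_one k with h3 | h3
    · obtain ⟨j, rfl⟩ : ∃ j, k = j + 1 := ⟨k - 1, by omega⟩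
      refine key j (2 * w) (by omega) (by omega) ?_
      rw [eo j (by omega), h1, pow_succ]; ring
    · refine key k w hk (by omega) ?_
      rw [eo k h3, h1]
  · -- even moves
    have h4 : u % 4 = 1 := by omega
    obtain ⟨k, w, h1, h2⟩ := exists_two_pow_mul (N := 3 * (3 * u - 1) + 2) (by omega)
    have hk : 2 ≤ k := by
      rcases Nat.lt_or_ge k 2 with h | h
      · exfalso
        interval_cases k
        · rw [pow_zero, one_mul] at h1; omega
        · rw [pow_one] at h1; omega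
      · exact h
    rcases Nat.mod_two_eq_zero_or_one k with h3 | h3
    · refine key k w (by omega) (by omega) ?_
      rw [ee k h3, h1]
    · obtain ⟨j, rfl⟩ : ∃ j, k = j + 1 := ⟨k - 1, by omega⟩
      refine key j (2 * w) (by omega) (by omega) ?_
      rw [ee j (by omega), h1, pow_succ]; ring

theorem exists_unique_parent {u : ℤ} (hu : OO u) : ∃! p : ℕ × ℤ, 1 ≤ p.1 ∧ OO p.2 ∧ v1 p.1 p.2 ∧
    c1 p.1 p.2 = u := by
  obtain ⟨e, v, h1, h2, h3⟩ := exists_parent hu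
  refine ⟨(e, v), ⟨h1, h2, par_iff.2 h3⟩, ?_⟩
  rintro ⟨e', v'⟩ ⟨h1', h2', h3'⟩
  have h4 := par_iff.1 h3'
  rcases le_total e e' with h | h
  · obtain ⟨h5, h6⟩ := parent_unique h1 h1' h2 h2' h3 h4 h
    exact Prod.ext h5.symm h6.symm
  · obtain ⟨h5, h6⟩ := parent_unique h1' h1 h2' h2 h4 h3 h
    exact Prod.ext h5 h6

/-! ### Sizes -/

/-- The parent of a point of absolute value `< 2 ^ B` has absolute value `< 2 ^ (B + 1)`. -/
lemma abs_parent_lt {e B : ℕ} (he : 1 ≤ e) {v : ℤ} (h : v1 e v) (hB : |c1 e v| < 2 ^ B) :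
    |v| < 2 ^ (B + 1) := by
  have h1 := par_eq h
  have h2 := eps_bounds e
  obtain ⟨k, rfl⟩ : ∃ k, e = k + 1 := ⟨e - 1, by omega⟩
  set u := c1 (k + 1) v
  rw [abs_lt] at hB ⊢
  have h3 : (1 : ℤ) ≤ 2 ^ k := one_le_pow₀ (by norm_num)
  have h4 : (2 : ℤ) ^ (B + 1) = 2 * 2 ^ B := by rw [pow_succ]; ring
  rw [h4]
  have h5 : (2 : ℤ) ^ (k + 1) = 2 * 2 ^ k := by rw [pow_succ]; ring
  rw [h5] at h1
  constructor
  · by_contra hcon
    have h6 : v ≤ -(2 * 2 ^ B) := by omega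
    have h7 : (2 : ℤ) ^ k * (3 * v - 1) ≤ 1 * (3 * v - 1) :=
      mul_le_mul_of_nonpos_right h3 (by
        have : (0 : ℤ) < 2 ^ B := by positivity
        omega)
    have h8 : 2 * (2 : ℤ) ^ k * (3 * v - 1) = 2 * (2 ^ k * (3 * v - 1)) := by ring
    rw [h8] at h1
    omega
  · by_contra hcon
    have h6 : 2 * 2 ^ B ≤ v := by omega
    have h7 : 1 * (3 * v - 1) ≤ (2 : ℤ) ^ k * (3 * v - 1) :=
      mul_le_mul_of_nonneg_right h3 (by
        have : (0 : ℤ) < 2 ^ B := by positivity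
        omega)
    have h8 : 2 * (2 : ℤ) ^ k * (3 * v - 1) = 2 * (2 ^ k * (3 * v - 1)) := by ring
    rw [h8] at h1
    omega

/-- Bound for the letter of the move to a small child. -/
lemma letter_lt {e B : ℕ} {v : ℤ} (h : v1 e v) (hB : |c1 e v| < 2 ^ B) : e < B + 4 := by
  have h1 := par_eq h
  have h2 := eps_bounds e
  set u := c1 e v
  have h3 : (2 : ℤ) ^ e ≤ |2 ^ e * (3 * v - 1)| := by
    rw [abs_mul, abs_of_pos (by positivity : (0 : ℤ) < 2 ^ e)]
    have : 1 ≤ |3 * v - 1| := Int.one_le_abs (by omega)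
    have h0 : (0 : ℤ) < 2 ^ e := by positivity
    nlinarith
  rw [h1] at h3
  have h4 : |3 * (3 * u - 1) + CollatzExp.eps e| < 2 ^ (B + 4) := by
    rw [abs_lt] at hB ⊢
    rw [pow_add]
    constructor <;> omega
  have h5 : (2 : ℤ) ^ e < 2 ^ (B + 4) := lt_of_le_of_lt h3 h4
  exact (pow_lt_pow_iff_right₀ (by norm_num)).1 h5

lemma abs_ancestor_lt {n B : ℕ} : ∀ {W : List ℕ} (_ : ∀ e ∈ W, 1 ≤ e) (_ : W.length = n) {v : ℤ}
    (_ : vd W v) (_ : |ch W v| < 2 ^ B), |v| < 2 ^ (B + n) := by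
  induction n with
  | zero =>
    intro W _ hn v _ h
    obtain rfl := List.length_eq_zero_iff.1 hn
    rwa [ch_nil] at h
  | succ n ih =>
    intro W hW hn v hv h
    cases W with
    | nil => simp at hn
    | cons e W =>
      obtain ⟨h1, h2⟩ := vd_cons.1 hv
      rw [ch_cons hv] at h
      have h3 := ih (fun x hx => hW x (by simp [hx])) (by simpa using hn) h2 h
      have := abs_parent_lt (hW e (by simp)) h1 h3
      rwa [add_assoc] at this

/-! ### Transport -/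

lemma transport_one {B E : ℕ} (hE : B + 4 ≤ E) (g : ℤ → ℝ) (hg : ∀ u : ℤ, 2 ^ B ≤ |u| → g u = 0) :
    ∑ u ∈ bx B, g u = ∑ v ∈ bx (B + 1), ∑ e ∈ Icc 1 E, if v1 e v then g (c1 e v) else 0 := by
  classical
  have hR : ∑ v ∈ bx (B + 1), ∑ e ∈ Icc 1 E, (if v1 e v then g (c1 e v) else 0) =
      ∑ q ∈ (((bx (B + 1) ×ˢ Icc 1 E).filter (fun q : ℤ × ℕ => v1 q.2 q.1)).filter
        (fun q : ℤ × ℕ => |c1 q.2 q.1| < 2 ^ B)), g (c1 q.2 q.1) := by
    rw [← sum_product' (bx (B + 1)) (Icc 1 E) (fun v e => if v1 e v then g (c1 e v) else 0),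
      ← sum_filter]
    symm
    apply sum_filter_of_ne
    rintro ⟨v, e⟩ _ h
    by_contra hcon
    exact h (hg _ (not_lt.1 hcon))
  rw [hR]
  symm
  refine sum_bij (fun q _ => c1 q.2 q.1) ?_ ?_ ?_ ?_
  · rintro ⟨v, e⟩ h
    simp only [mem_filter, mem_product, mem_Icc] at h
    exact mem_bx.2 ⟨h.2, OO_c1 h.1.1.2.1 h.1.2⟩
  · rintro ⟨v, e⟩ h ⟨v', e'⟩ h' heq
    simp only [mem_filter, mem_product, mem_Icc] at h h'
    have h1 := (mem_bx.1 h.1.1.1).2
    have h1' := (mem_bx.1 h'.1.1.1).2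
    have hu := OO_c1 h.1.1.2.1 h.1.2
    obtain ⟨p, -, hp⟩ := exists_unique_parent hu
    have h2 := hp (e, v) ⟨h.1.1.2.1, h1, h.1.2, rfl⟩
    have h3 := hp (e', v') ⟨h'.1.1.2.1, h1', h'.1.2, heq.symm⟩
    have h4 := h2.trans h3.symm
    exact Prod.ext (congrArg Prod.snd h4) (congrArg Prod.fst h4)
  · intro u hu
    obtain ⟨hu1, hu2⟩ := mem_bx.1 hu
    obtain ⟨⟨e, v⟩, ⟨h1, h2, h3, h4⟩, -⟩ := exists_unique_parent hu2
    simp only at h1 h2 h3 h4
    refine ⟨(v, e), ?_, h4⟩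
    simp only [mem_filter, mem_product, mem_Icc]
    have h5 : |c1 e v| < 2 ^ B := by rw [h4]; exact hu1
    have h6 := letter_lt h3 h5
    exact ⟨⟨⟨mem_bx.2 ⟨abs_parent_lt h1 h3 h5, h2⟩, h1, by omega⟩, h3⟩, h5⟩
  · rintro ⟨v, e⟩ _
    rfl

/-- The transport identity: sum over the points = sum over the ancestors at distance `n`. -/
theorem transport {B n E : ℕ} (hE : B + n + 4 ≤ E) (g : ℤ → ℝ) (hg : ∀ u : ℤ, 2 ^ B ≤ |u| → g u = 0) :
    ∑ u ∈ bx B, g u = ∑ v ∈ bx (B + n), ∑ W ∈ words E n, if vd W v then g (ch W v) else 0 := by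
  induction n with
  | zero =>
    refine sum_congr rfl fun v _ => ?_
    simp [words, vd_nil, ch_nil]
  | succ n ih =>
    rw [ih (by omega), transport_one (E := E) (B := B + n) (by omega)]
    · refine sum_congr rfl fun v _ => ?_
      rw [sum_words_succ]
      refine sum_congr rfl fun e _ => ?_
      by_cases h : v1 e v
      · rw [if_pos h]
        refine sum_congr rfl fun W _ => ?_
        by_cases h2 : vd W (c1 e v)
        · have h3 : vd (e :: W) v := vd_cons.2 ⟨h, h2⟩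
          rw [if_pos h2, if_pos h3, ch_cons h3]
        · rw [if_neg h2, if_neg (fun h3 => h2 (vd_cons.1 h3).2)]
      · rw [if_neg h]
        symm
        refine sum_eq_zero fun W _ => ?_
        rw [if_neg (fun h3 => h (vd_cons.1 h3).1)]
    · intro u hu
      refine sum_eq_zero fun W hW => ?_
      split_ifs with h
      · apply hg
        by_contra hcon
        have hW' := mem_words.1 hW
        have := abs_ancestor_lt (fun e he => (hW'.2 e he).1) hW'.1 h (not_le.1 hcon)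
        omega
      · rfl

end CollatzLin
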