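import Pool.Agent.CollatzLin.Mom
import Pool.Agent.CollatzLin.EntCore

set_option autoImplicit false

/-!
# Rate of decay of the entropy deficits (helper84)
-/

namespace CollatzLin

open CollatzOne Finset Filter Topology

lemma log_ineq1 : 5 * Real.log 3 ≤ 8 * Real.log 2 := by
  have h : Real.log ((3 : ℝ) ^ 5) ≤ Real.log ((2 : ℝ) ^ 8) :=
    Real.log_le_log (by norm_num) (by norm_num)
  rw [Real.log_pow, Real.log_pow] at h
  exact_mod_cast h

lemma log_ineq2 : 202 * Real.log 2 ≤ 130 * Real.log 3 := by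
  have h : Real.log ((2 : ℝ) ^ 202) ≤ Real.log ((3 : ℝ) ^ 130) :=
    Real.log_le_log (by norm_num) (by norm_num)
  rw [Real.log_pow, Real.log_pow] at h
  exact_mod_cast h

lemma log_three_lt : Real.log 3 < 2 := by
  rw [Real.log_lt_iff_lt_exp (by norm_num)]
  have h2 : (2.7182818283 : ℝ) < Real.exp 1 := Real.exp_one_gt_d9
  have : Real.exp 2 = Real.exp 1 * Real.exp 1 := by rw [← Real.exp_add]; norm_num
  rw [this]
  nlinarith

lemma n_large {ε : ℝ} (h0 : 0 < ε) (h1 : ε ≤ 1 / 100) : ∃ n₀ : ℕ, 30 ≤ n₀ ∧ ∀ n : ℕ, n₀ ≤ n →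
    Real.exp (-(ε ^ 2 * n / 16)) + 40 / √((2 : ℝ) ^ (ε * n)) ≤ ε ^ 2 / 100 ∧
    Real.log 3 + Real.log (3 * n + 1) + 1 ≤ ε / 4 * n := by
  refine ⟨⌈32000 / ε ^ 4⌉₊ + 30, by omega, fun n hn => ?_⟩
  have hn1 : 32000 / ε ^ 4 ≤ n := by
    refine (Nat.le_ceil _).trans ?_
    exact_mod_cast (by omega : ⌈32000 / ε ^ 4⌉₊ ≤ n)
  have hn30 : (30 : ℝ) ≤ n := by exact_mod_cast (by omega : 30 ≤ n)
  have hnpos : (0 : ℝ) < n := by linarith
  have hn2 : 32000 ≤ n * ε ^ 4 := by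
    rwa [div_le_iff₀ (by positivity)] at hn1
  have he3 : ε ^ 4 ≤ ε ^ 3 := pow_le_pow_of_le_one h0.le (by linarith) (by norm_num)
  have he2 : ε ^ 4 ≤ ε ^ 2 := pow_le_pow_of_le_one h0.le (by linarith) (by norm_num)
  constructor
  · have hA : Real.exp (-(ε ^ 2 * n / 16)) ≤ ε ^ 2 / 200 := by
      have h2 : 0 < ε ^ 2 * n / 16 := by positivity
      have h3 : ε ^ 2 * n / 16 ≤ Real.exp (ε ^ 2 * n / 16) := by
        have := Real.add_one_le_exp (ε ^ 2 * n / 16)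
        linarith
      rw [Real.exp_neg]
      calc (Real.exp (ε ^ 2 * n / 16))⁻¹ ≤ (ε ^ 2 * n / 16)⁻¹ := by gcongr
        _ = 16 / (ε ^ 2 * n) := by field_simp
        _ ≤ ε ^ 2 / 200 := by
          rw [div_le_div_iff₀ (by positivity) (by norm_num)]
          nlinarith
    have hB : 40 / √((2 : ℝ) ^ (ε * n)) ≤ ε ^ 2 / 200 := by
      have h4 : √((2 : ℝ) ^ (ε * n)) = Real.exp (Real.log 2 * (ε * n) / 2) := by
        rw [Real.rpow_def_of_pos (by norm_num), ← Real.exp_half]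
      have hl2 : (1 / 2 : ℝ) ≤ Real.log 2 := by
        have := Real.log_two_gt_d9
        linarith
      have h5 : ε * n / 4 ≤ Real.exp (Real.log 2 * (ε * n) / 2) := by
        have h6 := Real.add_one_le_exp (Real.log 2 * (ε * n) / 2)
        have h7 : 0 < ε * n := by positivity
        nlinarith
      rw [h4]
      have h7 : 0 < ε * n / 4 := by positivity
      calc 40 / Real.exp (Real.log 2 * (ε * n) / 2) ≤ 40 / (ε * n / 4) := by gcongr
        _ = 160 / (ε * n) := by field_simp; norm_num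
        _ ≤ ε ^ 2 / 200 := by
          rw [div_le_div_iff₀ (by positivity) (by norm_num)]
          nlinarith
    linarith
  · have h2 : Real.log (3 * n + 1) ≤ 4 * √n := by
      have h3 : (3 * n + 1 : ℝ) ≤ 4 * n := by linarith
      have h4 : Real.log (3 * n + 1) ≤ Real.log (4 * n) := Real.log_le_log (by positivity) h3
      have h5 : Real.log (4 * n) = 2 * Real.log (2 * √n) := by
        have : (4 * n : ℝ) = (2 * √n) ^ 2 := by
          rw [mul_pow, Real.sq_sqrt hnpos.le]; norm_num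
        rw [this, Real.log_pow]
        push_cast
        rfl
      have h6 : Real.log (2 * √n) ≤ 2 * √n - 1 := Real.log_le_sub_one_of_pos (by positivity)
      linarith
    have h3 := log_three_lt
    have h4 : 1 ≤ √n := by
      rw [Real.one_le_sqrt]; linarith
    have h5 : 28 ≤ ε * √n := by
      have h6 : (28 : ℝ) ^ 2 ≤ (ε * √n) ^ 2 := by
        rw [mul_pow, Real.sq_sqrt hnpos.le]
        nlinarith
      nlinarith [h4, mul_pos h0 (lt_of_lt_of_le one_pos h4)]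
    have h6 : √n * √n = n := Real.mul_self_sqrt hnpos.le
    nlinarith

lemma E_large {ε : ℝ} (h0 : 0 < ε) : ∃ E₀ : ℕ, 6 ≤ E₀ ∧ ∀ E : ℕ, E₀ ≤ E →
    ((E : ℝ) + 2) / 2 ^ E ≤ ε ∧ -Real.log (Z E) ≤ ε := by
  have h1 : Tendsto (fun E : ℕ => (E : ℝ) ^ 1 / 2 ^ E) atTop (𝓝 0) :=
    tendsto_pow_const_div_const_pow_of_one_lt 1 (by norm_num)
  have h2 : Tendsto (fun E : ℕ => (E : ℝ) ^ 0 / 2 ^ E) atTop (𝓝 0) :=
    tendsto_pow_const_div_const_pow_of_one_lt 0 (by norm_num)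
  have h3 : Tendsto (fun E : ℕ => ((E : ℝ) + 2) / 2 ^ E) atTop (𝓝 0) := by
    have := h1.add (h2.const_mul 2)
    simp only [pow_one, pow_zero, mul_zero, add_zero] at this
    refine this.congr fun E => ?_
    ring
  have h4 : Tendsto (fun E : ℕ => -Real.log (Z E)) atTop (𝓝 0) := by
    have h5 : Tendsto (fun E : ℕ => Z E) atTop (𝓝 1) := by
      unfold Z
      have := h2.const_sub 1
      simpa using this
    have h6 := (Real.continuousAt_log (by norm_num : (1 : ℝ) ≠ 0)).tendsto.comp h5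
    rw [Real.log_one] at h6
    simpa using h6.neg
  obtain ⟨E₁, hE₁⟩ := eventually_atTop.1 (h3.eventually (gt_mem_nhds h0))
  obtain ⟨E₂, hE₂⟩ := eventually_atTop.1 (h4.eventually (gt_mem_nhds h0))
  refine ⟨max (max E₁ E₂) 6, le_max_right _ _, fun E hE => ?_⟩
  have hE1 : E₁ ≤ E := ((le_max_left _ _).trans (le_max_left _ _)).trans hE
  have hE2 : E₂ ≤ E := ((le_max_right _ _).trans (le_max_left _ _)).trans hE
  exact ⟨(hE₁ E hE1).le, (hE₂ E hE2).le⟩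

lemma ent_antitone {E : ℕ} (hE : 1 ≤ E) : Antitone (ent E) := antitone_nat_of_succ_le (ent_anti hE)

lemma sum_good_add_bad (E n k₀ : ℕ) (f : List ℕ → ℝ) :
    ∑ W ∈ goodw E n k₀, f W + ∑ W ∈ badw E n k₀, f W = ∑ W ∈ words E n, f W :=
  sum_filter_add_sum_filter_not _ _ _

lemma Pr_bad_le {E : ℕ} (hE : 6 ≤ E) (n k₀ : ℕ) {ε : ℝ} (h0 : 0 < ε) (h1 : ε ≤ 1 / 100)
    (hk : (2 + 2 * ε) * n * Real.log 2 < (n + k₀ : ℕ) * Real.log 3) :
    Pr E (badw E n k₀) ≤ Real.exp (-(ε ^ 2 * n / 8)) / Z E ^ n + 40 / √((2 : ℝ) ^ (ε * n)) := by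
  classical
  have hsub : badw E n k₀ ⊆ ((words E n).filter (fun W => (2 + ε) * n < js W)) ∪
      ((words E n).filter (fun W => (2 : ℝ) ^ (ε * n) < dst W)) := by
    intro W hW
    unfold badw at hW
    rw [mem_filter] at hW
    obtain ⟨hW1, hW2⟩ := hW
    rw [mem_union, mem_filter, mem_filter]
    by_contra hcon
    push Not at hcon
    have hj := hcon.1 hW1
    have hd := hcon.2 hW1
    apply hW2
    constructor
    · have : (js W : ℝ) ≤ (3 * n : ℕ) := by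
        push_cast
        have : (0 : ℝ) ≤ n := Nat.cast_nonneg n
        nlinarith
      exact_mod_cast this
    · have h2 := bs_le W
      have h3 : (2 : ℝ) ^ js W ≤ (2 : ℝ) ^ ((2 + ε) * n) := by
        rw [← Real.rpow_natCast]
        exact Real.rpow_le_rpow_of_exponent_le (by norm_num) hj
      have h4 : (bs W : ℝ) ≤ (2 : ℝ) ^ ((2 + 2 * ε) * n) := by
        calc (bs W : ℝ) ≤ 2 ^ js W * dst W := h2
          _ ≤ (2 : ℝ) ^ ((2 + ε) * n) * (2 : ℝ) ^ (ε * n) := by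
            gcongr
            exact le_trans zero_le_one (one_le_dst W)
          _ = (2 : ℝ) ^ ((2 + 2 * ε) * n) := by
            rw [← Real.rpow_add (by norm_num)]
            congr 1
            ring
      have h5 : (2 : ℝ) ^ ((2 + 2 * ε) * n) < (3 : ℝ) ^ (n + k₀) := by
        rw [← Real.rpow_natCast, Real.rpow_def_of_pos (by norm_num), Real.rpow_def_of_pos (by norm_num)]
        apply Real.exp_lt_exp.2
        nlinarith
      have h6 : (bs W : ℝ) < ((3 ^ (n + k₀) : ℤ) : ℝ) := by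
        push_cast
        exact lt_of_le_of_lt h4 h5
      exact_mod_cast h6
  refine (Pr_mono hsub).trans ((Pr_union_le _ _ _).trans ?_)
  exact add_le_add (Pr_upper (by omega) n h0 (by linarith)) (Pr_dst hE n (by positivity))

lemma sum_bad_le {E : ℕ} (hE1 : 1 ≤ E) (n k₀ : ℕ) {ε : ℝ} (h0 : 0 < ε)
    (hP : Pr E (badw E n k₀) ≤ ε ^ 2 / 100) :
    ∑ W ∈ badw E n k₀, pr E W * js W ≤ ε / 4 * n := by
  have h2 : (∑ W ∈ badw E n k₀, pr E W * js W) ^ 2 ≤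
      (∑ W ∈ badw E n k₀, pr E W) * (∑ W ∈ badw E n k₀, pr E W * (js W : ℝ) ^ 2) := by
    refine sum_sq_le_sum_mul_sum_of_sq_le_mul _ (fun W _ => pr_nonneg E W)
      (fun W _ => mul_nonneg (pr_nonneg E W) (sq_nonneg _)) (fun W _ => le_of_eq (by ring))
  have h3 : ∑ W ∈ badw E n k₀, pr E W * (js W : ℝ) ^ 2 ≤ 6 * (n : ℝ) ^ 2 := by
    refine le_trans (sum_le_sum_of_subset_of_nonneg (filter_subset _ _) fun W _ _ =>
      mul_nonneg (pr_nonneg E W) (sq_nonneg _)) (sum_pr_js_sq hE1 n)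
  have h4 : (∑ W ∈ badw E n k₀, pr E W * js W) ^ 2 ≤ (ε / 4 * n) ^ 2 := by
    have h6 : 0 ≤ ∑ W ∈ badw E n k₀, pr E W * (js W : ℝ) ^ 2 :=
      sum_nonneg fun W _ => mul_nonneg (pr_nonneg E W) (sq_nonneg _)
    refine h2.trans ?_
    calc (∑ W ∈ badw E n k₀, pr E W) * (∑ W ∈ badw E n k₀, pr E W * (js W : ℝ) ^ 2)
        ≤ ε ^ 2 / 100 * (6 * (n : ℝ) ^ 2) := mul_le_mul hP h3 h6 (by positivity)
      _ ≤ (ε / 4 * n) ^ 2 := by
        have : 0 ≤ ε ^ 2 * (n : ℝ) ^ 2 := by positivity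
        linarith [show (ε / 4 * n) ^ 2 = ε ^ 2 * (n : ℝ) ^ 2 / 16 by ring,
          show ε ^ 2 / 100 * (6 * (n : ℝ) ^ 2) = ε ^ 2 * (n : ℝ) ^ 2 * (6 / 100) by ring]
  exact le_trans (le_abs_self _) (abs_le_of_sq_le_sq h4 (by positivity))

lemma sum_good_le {E : ℕ} (hE1 : 1 ≤ E) (n k₀ : ℕ) {ε : ℝ} (h0 : 0 < ε) (h1 : ε ≤ 1 / 100)
    (hEa : ((E : ℝ) + 2) / 2 ^ E ≤ ε ^ 2 / 16) (hEb : -Real.log (Z E) ≤ ε ^ 2 / 16)
    (hbad : ∑ W ∈ badw E n k₀, pr E W * js W ≤ ε / 4 * n)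
    (hF2 : ((n + k₀ : ℕ) : ℝ) * Real.log 3 ≤ (2 + 2 * ε) * n * Real.log 2 + Real.log 3) :
    (∑ W ∈ goodw E n k₀, pr E W * ((n + k₀ : ℕ) * Real.log 3 -
      n * Real.log (Z E) - js W * Real.log 2)) ≤ 3 * ε * n + Real.log 3 := by
  have hZpos : 0 < Z E := Z_pos hE1
  have hL3 : 0 < Real.log 3 := Real.log_pos (by norm_num)
  have hL2 : 0 < Real.log 2 := Real.log_pos (by norm_num)
  have hL2' : Real.log 2 < 1 := by have := Real.log_two_lt_d9; linarith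
  have hn : (0 : ℝ) ≤ n := Nat.cast_nonneg n
  have h2 : (∑ W ∈ goodw E n k₀, pr E W * ((n + k₀ : ℕ) * Real.log 3 -
      n * Real.log (Z E) - js W * Real.log 2)) =
      (∑ W ∈ goodw E n k₀, pr E W) * ((n + k₀ : ℕ) * Real.log 3 - n * Real.log (Z E))
        - (∑ W ∈ goodw E n k₀, pr E W * js W) * Real.log 2 := by
    rw [sum_mul, sum_mul, ← sum_sub_distrib]
    exact sum_congr rfl fun W _ => by ring
  rw [h2]
  have h3 : ∑ W ∈ goodw E n k₀, pr E W ≤ 1 := by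
    rw [← sum_pr hE1 n]
    exact sum_le_sum_of_subset_of_nonneg (filter_subset _ _) fun W _ _ => pr_nonneg E W
  have hlogZ : Real.log (Z E) ≤ 0 := Real.log_nonpos hZpos.le (Z_le_one E)
  have h4 : 0 ≤ (n + k₀ : ℕ) * Real.log 3 - n * Real.log (Z E) := by
    have h6 : 0 ≤ ((n + k₀ : ℕ) : ℝ) * Real.log 3 := by positivity
    have h7 : n * Real.log (Z E) ≤ 0 := mul_nonpos_of_nonneg_of_nonpos hn hlogZ
    linarith
  have h5 : (∑ W ∈ goodw E n k₀, pr E W) * ((n + k₀ : ℕ) * Real.log 3 - n * Real.log (Z E))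
      ≤ 1 * ((n + k₀ : ℕ) * Real.log 3 - n * Real.log (Z E)) :=
    mul_le_mul_of_nonneg_right h3 h4
  have h6 := sum_good_add_bad E n k₀ (fun W => pr E W * js W)
  have h7 := sum_pr_js hE1 n
  have h8 : (n : ℝ) * (2 - ε ^ 2 / 16) - ε / 4 * n ≤ ∑ W ∈ goodw E n k₀, pr E W * js W := by
    have h9 : (n : ℝ) * (2 - ε ^ 2 / 16) ≤ n * (2 - (E + 2) / 2 ^ E) := by gcongr
    linarith
  have h9 : ((n : ℝ) * (2 - ε ^ 2 / 16) - ε / 4 * n) * Real.log 2
      ≤ (∑ W ∈ goodw E n k₀, pr E W * js W) * Real.log 2 := mul_le_mul_of_nonneg_right h8 hL2.le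
  have h10 : n * -Real.log (Z E) ≤ n * (ε ^ 2 / 16) := mul_le_mul_of_nonneg_left hEb hn
  have hε2 : ε ^ 2 ≤ ε := by nlinarith
  have h11 : (n : ℝ) * (ε ^ 2 / 16) ≤ n * (ε / 16) :=
    mul_le_mul_of_nonneg_left (by linarith) hn
  have h12 : (ε ^ 2 / 16 + ε / 4) * n * Real.log 2 ≤ (ε / 16 + ε / 4) * n := by
    have h13 : 0 ≤ (ε ^ 2 / 16 + ε / 4) * n := by positivity
    have h14 : (ε ^ 2 / 16 + ε / 4) * n ≤ (ε / 16 + ε / 4) * n :=
      mul_le_mul_of_nonneg_right (by linarith) hn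
    calc (ε ^ 2 / 16 + ε / 4) * n * Real.log 2 ≤ (ε ^ 2 / 16 + ε / 4) * n * 1 :=
          mul_le_mul_of_nonneg_left hL2'.le h13
      _ ≤ _ := by rw [mul_one]; exact h14
  have h13 : 2 * ε * n * Real.log 2 ≤ 2 * ε * n * 1 :=
    mul_le_mul_of_nonneg_left hL2'.le (by positivity)
  have e1 : ((n : ℝ) * (2 - ε ^ 2 / 16) - ε / 4 * n) * Real.log 2
      = 2 * n * Real.log 2 - (ε ^ 2 / 16 + ε / 4) * n * Real.log 2 := by ring
  have e2 : (2 + 2 * ε) * n * Real.log 2 = 2 * n * Real.log 2 + 2 * ε * n * Real.log 2 := by ring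
  have e3 : n * -Real.log (Z E) = -(n * Real.log (Z E)) := by ring
  have e4 : 0 ≤ ε * n := by positivity
  rw [e1] at h9
  rw [e2] at hF2
  rw [e3] at h10
  have e5 : (ε / 16 + ε / 4) * n = 5 / 16 * (ε * n) := by ring
  have e6 : (n : ℝ) * (ε / 16) = 1 / 16 * (ε * n) := by ring
  have e7 : 2 * ε * n * 1 = 2 * (ε * n) := by ring
  have e8 : 3 * ε * n = 3 * (ε * n) := by ring
  rw [e5] at h12
  rw [e6] at h11
  rw [e7] at h13
  rw [e8]
  linarith

lemma alpha_bounds {ε : ℝ} (h0 : 0 < ε) (h1 : ε ≤ 1 / 100) :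
    let α : ℝ := (2 + 2 * ε) * Real.log 2 / Real.log 3 - 1
    (1 + α) * Real.log 3 = (2 + 2 * ε) * Real.log 2 ∧ 1 / 4 ≤ α ∧ α ≤ 3 / 10 := by
  intro α
  have hL3 : 0 < Real.log 3 := Real.log_pos (by norm_num)
  have hL2 : 0 < Real.log 2 := Real.log_pos (by norm_num)
  have hα1 : (1 + α) * Real.log 3 = (2 + 2 * ε) * Real.log 2 := by
    simp only [α]; field_simp; ring
  refine ⟨hα1, ?_, ?_⟩
  · have := log_ineq1
    have h2 : (1 + 1 / 4) * Real.log 3 ≤ (1 + α) * Real.log 3 := by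
      rw [hα1]; nlinarith
    have := le_of_mul_le_mul_right h2 hL3
    linarith
  · have := log_ineq2
    have h2 : (1 + α) * Real.log 3 ≤ (1 + 3 / 10) * Real.log 3 := by
      rw [hα1]; nlinarith
    have := le_of_mul_le_mul_right h2 hL3
    linarith

lemma rate_concl {E : ℕ} (hE1 : 1 ≤ E) {n k₀ : ℕ} {ε P : ℝ} (h0 : 0 < ε) (hn : 0 < n)
    (hk3 : (n : ℝ) / 4 ≤ k₀) (hP0 : 0 ≤ P) (hPε : P ≤ ε) {t : ℕ → ℝ} (ht0 : ∀ k, 0 ≤ t k)
    (hmul : ∀ k, ent E (n + k) ≤ (64 * t k + P) * ent E k)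
    (hT : ∑ k ∈ range k₀, t k ≤ 4 * ε * n) :
    ent E (n + k₀) ≤ 2049 * ε * ent E (k₀ / 2) := by
  have hnpos : (0 : ℝ) < n := by exact_mod_cast hn
  set k₁ := k₀ / 2 with hk₁
  have hk₁k : k₁ ≤ k₀ := Nat.div_le_self _ _
  set A := ent E (n + k₀) with hA
  set B := ent E k₁ with hB
  have hB0 : 0 ≤ B := ent_nonneg _ _
  have hstep : ((k₀ - k₁ : ℕ) : ℝ) * A ≤ (64 * (4 * ε * n) + ((k₀ - k₁ : ℕ) : ℝ) * P) * B := by
    have h2 : ∀ k ∈ Ico k₁ k₀, A ≤ (64 * t k + P) * B := by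
      intro k hk
      obtain ⟨hka, hkb⟩ := mem_Ico.1 hk
      have h3 : A ≤ ent E (n + k) := ent_antitone hE1 (by omega)
      have h4 : ent E k ≤ B := ent_antitone hE1 hka
      have h5 : 0 ≤ 64 * t k + P := by have := ht0 k; positivity
      calc A ≤ ent E (n + k) := h3
        _ ≤ (64 * t k + P) * ent E k := hmul k
        _ ≤ (64 * t k + P) * B := mul_le_mul_of_nonneg_left h4 h5
    have h3 := sum_le_sum h2
    rw [sum_const, Nat.card_Ico, nsmul_eq_mul, ← sum_mul, sum_add_distrib, sum_const, Nat.card_Ico,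
      nsmul_eq_mul, ← mul_sum] at h3
    refine h3.trans (mul_le_mul_of_nonneg_right ?_ hB0)
    have h4 : ∑ k ∈ Ico k₁ k₀, t k ≤ 4 * ε * n := by
      refine le_trans ?_ hT
      exact sum_le_sum_of_subset_of_nonneg (fun k hk => mem_range.2 (mem_Ico.1 hk).2)
        fun k _ _ => ht0 k
    linarith
  have hd : (n : ℝ) / 8 ≤ ((k₀ - k₁ : ℕ) : ℝ) := by
    have : k₀ ≤ 2 * (k₀ - k₁) := by omega
    have : (k₀ : ℝ) ≤ 2 * ((k₀ - k₁ : ℕ) : ℝ) := by exact_mod_cast this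
    linarith
  by_cases hc : A ≤ P * B
  · refine hc.trans (mul_le_mul_of_nonneg_right ?_ hB0)
    linarith
  · push Not at hc
    have h2 : (n : ℝ) / 8 * (A - P * B) ≤ ((k₀ - k₁ : ℕ) : ℝ) * (A - P * B) :=
      mul_le_mul_of_nonneg_right hd (by linarith)
    have e1 : (64 * (4 * ε * n) + ((k₀ - k₁ : ℕ) : ℝ) * P) * B
        = (n : ℝ) / 8 * (2048 * ε * B) + ((k₀ - k₁ : ℕ) : ℝ) * (P * B) := by ring
    have e2 : ((k₀ - k₁ : ℕ) : ℝ) * (A - P * B) = ((k₀ - k₁ : ℕ) : ℝ) * A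
        - ((k₀ - k₁ : ℕ) : ℝ) * (P * B) := by ring
    have h3 : (n : ℝ) / 8 * (A - P * B) ≤ n / 8 * (2048 * ε * B) := by linarith
    have h4 : A - P * B ≤ 2048 * ε * B := le_of_mul_le_mul_left h3 (by positivity)
    have h5 : P * B ≤ ε * B := mul_le_mul_of_nonneg_right hPε hB0
    linarith

lemma rate_step {ε : ℝ} (h0 : 0 < ε) (h1 : ε ≤ 1 / 100) : ∃ E₀ n₀ : ℕ, 6 ≤ E₀ ∧ ∀ E : ℕ, E₀ ≤ E →
    ∀ n : ℕ, n₀ ≤ n → ∃ k₀ : ℕ, (n : ℝ) / 4 ≤ k₀ ∧ (k₀ : ℝ) ≤ n / 3 ∧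
      ent E (n + k₀) ≤ 2049 * ε * ent E (k₀ / 2) := by
  obtain ⟨n₀, hn30, hn₀⟩ := n_large h0 h1
  obtain ⟨E₀, hE6, hE₀⟩ := E_large (ε := ε ^ 2 / 16) (by positivity)
  refine ⟨E₀, n₀, hE6, fun E hE n hn => ?_⟩
  have hE1 : 1 ≤ E := by omega
  obtain ⟨hEa, hEb⟩ := hE₀ E hE
  obtain ⟨hna, hnb⟩ := hn₀ n hn
  have hn30' : (30 : ℝ) ≤ n := by exact_mod_cast hn30.trans hn
  have hnpos : (0 : ℝ) < n := by linarith
  have hL3 : 0 < Real.log 3 := Real.log_pos (by norm_num)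
  obtain ⟨hα1, hα2, hα3⟩ := alpha_bounds h0 h1
  set α : ℝ := (2 + 2 * ε) * Real.log 2 / Real.log 3 - 1 with hα
  set k₀ : ℕ := ⌊n * α⌋₊ + 1 with hk₀
  have hk1 : n * α < k₀ := by
    rw [hk₀]; push_cast; exact Nat.lt_floor_add_one _
  have hk2 : (k₀ : ℝ) ≤ n * α + 1 := by
    rw [hk₀]; push_cast
    have := Nat.floor_le (a := n * α) (by positivity)
    linarith
  have hnα1 : n * (1 / 4) ≤ n * α := mul_le_mul_of_nonneg_left hα2 hnpos.le
  have hnα2 : n * α ≤ n * (3 / 10) := mul_le_mul_of_nonneg_left hα3 hnpos.le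
  have hk3 : (n : ℝ) / 4 ≤ k₀ := by linarith
  have hk4 : (k₀ : ℝ) ≤ n / 3 := by linarith
  refine ⟨k₀, hk3, hk4, ?_⟩
  have hkey : (2 + 2 * ε) * n * Real.log 2 = n * Real.log 3 + (n * α) * Real.log 3 := by
    have : (2 + 2 * ε) * n * Real.log 2 = n * ((1 + α) * Real.log 3) := by rw [hα1]; ring
    rw [this]; ring
  have hcast : ((n + k₀ : ℕ) : ℝ) * Real.log 3 = n * Real.log 3 + k₀ * Real.log 3 := by
    push_cast; ring
  have hF1 : (2 + 2 * ε) * n * Real.log 2 < (n + k₀ : ℕ) * Real.log 3 := by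
    rw [hkey, hcast]
    have := mul_lt_mul_of_pos_right hk1 hL3
    linarith
  have hF2 : ((n + k₀ : ℕ) : ℝ) * Real.log 3 ≤ (2 + 2 * ε) * n * Real.log 2 + Real.log 3 := by
    rw [hkey, hcast]
    have := mul_le_mul_of_nonneg_right hk2 hL3.le
    linarith
  have hZpos : 0 < Z E := Z_pos hE1
  -- the bad words
  have hP : Pr E (badw E n k₀) ≤ ε ^ 2 / 100 := by
    refine (Pr_bad_le (hE6.trans hE) n k₀ h0 h1 hF1).trans (le_trans ?_ hna)
    gcongr ?_ + _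
    rw [div_le_iff₀ (by positivity)]
    have hZn : Z E ^ n = Real.exp (n * Real.log (Z E)) := by
      rw [mul_comm, Real.exp_mul, Real.exp_log hZpos, Real.rpow_natCast]
    rw [hZn, ← Real.exp_add]
    apply Real.exp_le_exp.2
    have h2 : n * -Real.log (Z E) ≤ n * (ε ^ 2 / 16) := mul_le_mul_of_nonneg_left hEb hnpos.le
    linarith
  have hPε : Pr E (badw E n k₀) ≤ ε := by nlinarith
  obtain ⟨t, ht0, hmul, hsum⟩ := ent_core hE1 n k₀
  have hgood := sum_good_le hE1 n k₀ h0 h1 hEa hEb (sum_bad_le hE1 n k₀ h0 hP) hF2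
  have hT : ∑ k ∈ range k₀, t k ≤ 4 * ε * n := by
    refine hsum.trans ?_
    have : 0 < ε * n := by positivity
    linarith [show 4 * ε * n = 4 * (ε * n) by ring, show 3 * ε * n = 3 * (ε * n) by ring,
      show ε / 4 * n = 1 / 4 * (ε * n) by ring]
  exact rate_concl hE1 h0 (by exact_mod_cast hnpos) hk3 (Pr_nonneg _ _) hPε ht0 hmul hT

theorem ent_rate : ∃ (C : ℝ) (E₀ : ℕ), 0 < C ∧ ∀ E : ℕ, E₀ ≤ E → ∀ N : ℕ, 1 ≤ N →
    ent E N ≤ C / (N : ℝ) ^ 5 := by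
  obtain ⟨E₀, n₀, hE6, hstep⟩ := rate_step (ε := 1 / 2 ^ 32) (by positivity) (by norm_num)
  set M : ℕ := 2 * n₀ + 40 with hM
  refine ⟨2 * (M : ℝ) ^ 5, E₀, by positivity, fun E hE => ?_⟩
  have hE1 : 1 ≤ E := by omega
  intro N
  induction N using Nat.strong_induction_on with
  | _ N ih =>
    intro hN
    have hN0 : (0 : ℝ) < N := by exact_mod_cast hN
    by_cases hNM : N ≤ M
    · refine (ent_le hE1 N).trans ?_
      rw [le_div_iff₀ (by positivity)]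
      gcongr
    · push Not at hNM
      set n : ℕ := 3 * N / 4 with hn
      have hn1 : n₀ ≤ n := by omega
      obtain ⟨k₀, hk3, hk4, hk⟩ := hstep E hE n hn1
      have hnN : 4 * n ≤ 3 * N := by omega
      have hnN' : 3 * N ≤ 4 * n + 3 := by omega
      have hnR : 4 * (n : ℝ) ≤ 3 * N := by exact_mod_cast hnN
      have hnR' : 3 * (N : ℝ) ≤ 4 * n + 3 := by exact_mod_cast hnN'
      have h2 : n + k₀ ≤ N := by
        have : (n : ℝ) + k₀ ≤ N := by linarith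
        exact_mod_cast this
      have h3 : n ≤ 4 * k₀ := by
        have : (n : ℝ) ≤ 4 * k₀ := by linarith
        exact_mod_cast this
      have h4 : N ≤ 16 * (k₀ / 2) := by omega
      have h5 : k₀ / 2 < N := by omega
      have h6 : 1 ≤ k₀ / 2 := by omega
      have h7 := ih (k₀ / 2) h5 h6
      have h8 : (0 : ℝ) < ((k₀ / 2 : ℕ) : ℝ) := by exact_mod_cast h6
      have h9 : (N : ℝ) ≤ 16 * ((k₀ / 2 : ℕ) : ℝ) := by exact_mod_cast h4
      calc ent E N ≤ ent E (n + k₀) := ent_antitone hE1 h2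
        _ ≤ 2049 * (1 / 2 ^ 32) * ent E (k₀ / 2) := hk
        _ ≤ (1 / 16 ^ 5) * ent E (k₀ / 2) := by
          have := ent_nonneg E (k₀ / 2)
          gcongr
          norm_num
        _ ≤ (1 / 16 ^ 5) * (2 * (M : ℝ) ^ 5 / ((k₀ / 2 : ℕ) : ℝ) ^ 5) := by gcongr
        _ = 2 * (M : ℝ) ^ 5 / (16 * ((k₀ / 2 : ℕ) : ℝ)) ^ 5 := by
          rw [mul_pow]
          field_simp
        _ ≤ 2 * (M : ℝ) ^ 5 / (N : ℝ) ^ 5 := by gcongr

end CollatzLin
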