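import Pool.Agent.CollatzLin.Mom
import Pool.Agent.CollatzLin.Sums

set_option autoImplicit false

/-!
# One step of the transport identity, with typical words
-/

namespace CollatzLin

open CollatzOne Finset Filter Topology

open Classical in
theorem Pr_not_typ : ∃ E₀ : ℕ, ∀ L n Δ E : ℕ, 1 ≤ n → Δ ≤ n → E₀ ≤ E → n + 1 ≤ E →
    1 - Pr E (typ E n Δ L) ≤ 4 * Real.exp (-((Δ : ℝ) ^ 2 / (8 * n))) + 80 * (1 / 2) ^ (L / 16) := by
  refine ⟨6, fun L n Δ E hn hΔ hE hnE => ?_⟩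
  have hE1 : 1 ≤ E := by omega
  rcases Nat.eq_zero_or_pos Δ with h0 | hΔ0
  · subst h0
    have h1 := Pr_nonneg E (typ E n 0 L)
    have h2 : (0 : ℝ) ≤ 80 * (1 / 2) ^ (L / 16) := by positivity
    have h3 : Real.exp (-(((0 : ℕ) : ℝ) ^ 2 / (8 * n))) = 1 := by simp
    rw [h3]
    linarith
  have hn0 : (0 : ℝ) < n := by exact_mod_cast hn
  have hΔr : (0 : ℝ) < Δ := by exact_mod_cast hΔ0
  set ε : ℝ := Δ / n with hε
  have hε0 : 0 < ε := by positivity
  have hε1 : ε ≤ 1 := by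
    rw [hε, div_le_one hn0]
    exact_mod_cast hΔ
  have hεn : ε * n = Δ := by rw [hε]; field_simp
  have hexp : ε ^ 2 * n / 8 = (Δ : ℝ) ^ 2 / (8 * n) := by
    rw [hε]; field_simp
  have hup := Pr_upper hE1 n hε0 hε1
  have hlo := Pr_lower hE1 n hε0 hε1
  rw [hexp] at hup hlo
  have hZ := half_le_Z_pow hnE
  have hexp0 : 0 < Real.exp (-((Δ : ℝ) ^ 2 / (8 * n))) := Real.exp_pos _
  have hdiv : Real.exp (-((Δ : ℝ) ^ 2 / (8 * n))) / Z E ^ n ≤ 2 * Real.exp (-((Δ : ℝ) ^ 2 / (8 * n))) := by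
    rw [div_le_iff₀ (by linarith)]
    nlinarith
  have hd := Pr_dst hE n (K := 2 ^ (L / 8)) (by positivity)
  have hd2 : 40 / √((2 : ℝ) ^ (L / 8)) ≤ 80 * (1 / 2) ^ (L / 16) := by
    have h1 : (2 : ℝ) ^ (L / 16) ≤ √((2 : ℝ) ^ (L / 8)) := by
      apply Real.le_sqrt_of_sq_le
      rw [← pow_mul]
      exact pow_le_pow_right₀ (by norm_num) (by omega)
    have h2 : (0 : ℝ) < 2 ^ (L / 16) := by positivity
    rw [one_div, inv_pow, ← div_eq_mul_inv]
    calc 40 / √((2 : ℝ) ^ (L / 8)) ≤ 40 / 2 ^ (L / 16) := div_le_div_of_nonneg_left (by norm_num) h2 h1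
      _ ≤ 80 / 2 ^ (L / 16) := div_le_div_of_nonneg_right (by norm_num) h2.le
  have hsplit := Pr_filter_add E (words E n) (fun W => js W ≤ 2 * n + Δ ∧ 2 * n ≤ js W + Δ ∧ dst W ≤ 2 ^ (L / 8))
  rw [Pr_words hE1] at hsplit
  have hsub : (words E n).filter (fun W => ¬ (js W ≤ 2 * n + Δ ∧ 2 * n ≤ js W + Δ ∧ dst W ≤ 2 ^ (L / 8))) ⊆
      ((words E n).filter (fun W => (2 + ε) * n < js W) ∪
        (words E n).filter (fun W => (js W : ℝ) < (2 - ε) * n)) ∪
        (words E n).filter (fun W => (2 : ℝ) ^ (L / 8) < dst W) := by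
    intro W hW
    rw [mem_filter] at hW
    rw [mem_union, mem_union, mem_filter, mem_filter, mem_filter]
    obtain ⟨hW1, hW2⟩ := hW
    by_cases h1 : js W ≤ 2 * n + Δ
    · by_cases h2 : 2 * n ≤ js W + Δ
      · right
        refine ⟨hW1, ?_⟩
        by_contra h3
        exact hW2 ⟨h1, h2, not_lt.1 h3⟩
      · left; right
        refine ⟨hW1, ?_⟩
        push Not at h2
        have h3 : ((js W : ℕ) : ℝ) + Δ < 2 * n := by exact_mod_cast h2
        nlinarith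
    · left; left
      refine ⟨hW1, ?_⟩
      push Not at h1
      have h3 : 2 * (n : ℝ) + Δ < js W := by exact_mod_cast h1
      nlinarith
  have h4 := Pr_mono (E := E) hsub
  have h5 := Pr_union_le E (((words E n).filter (fun W => (2 + ε) * n < js W) ∪
        (words E n).filter (fun W => (js W : ℝ) < (2 - ε) * n)))
        ((words E n).filter (fun W => (2 : ℝ) ^ (L / 8) < dst W))
  have h6 := Pr_union_le E ((words E n).filter (fun W => (2 + ε) * n < js W))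
        ((words E n).filter (fun W => (js W : ℝ) < (2 - ε) * n))
  have h7 : Pr E (typ E n Δ L) = Pr E ((words E n).filter (fun W => js W ≤ 2 * n + Δ ∧ 2 * n ≤ js W + Δ ∧ dst W ≤ 2 ^ (L / 8))) := by
    unfold typ
    rfl
  rw [h7]
  linarith

lemma typ_sub (E n Δ L : ℕ) : typ E n Δ L ⊆ words E n := by
  unfold typ
  exact filter_subset _ _

lemma sp_mem_typ {E n Δ L : ℕ} {W : List ℕ} : W ∈ typ E n Δ L ↔ W ∈ words E n ∧
    js W ≤ 2 * n + Δ ∧ 2 * n ≤ js W + Δ ∧ dst W ≤ 2 ^ (L / 8) := by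
  unfold typ
  rw [mem_filter]

lemma sum_inv_eq {E n : ℕ} (hE : 1 ≤ E) {𝒲 : Finset (List ℕ)} (h : ∀ W ∈ 𝒲, W.length = n) :
    ∑ W ∈ 𝒲, (1 : ℝ) / 2 ^ js W = Z E ^ n * Pr E 𝒲 := by
  unfold Pr
  rw [mul_sum]
  refine sum_congr rfl fun W hW => ?_
  have := Z_pos hE
  unfold pr
  rw [h W hW]
  field_simp

lemma card_typ_le {E n Δ L : ℕ} (hE : 1 ≤ E) : ((typ E n Δ L).card : ℝ) ≤ 2 ^ (2 * n + Δ) := by
  have h1 : ((typ E n Δ L).card : ℝ) = ∑ W ∈ typ E n Δ L, (1 : ℝ) := by simp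
  have h2 : ∑ W ∈ typ E n Δ L, (1 : ℝ) ≤ ∑ W ∈ typ E n Δ L, (2 : ℝ) ^ (2 * n + Δ) * (1 / 2 ^ js W) := by
    refine sum_le_sum fun W hW => ?_
    rw [sp_mem_typ] at hW
    rw [mul_one_div, one_le_div (by positivity)]
    exact pow_le_pow_right₀ (by norm_num) hW.2.1
  rw [← mul_sum, sum_inv_eq hE (fun W hW => length_of_mem (typ_sub _ _ _ _ hW))] at h2
  rw [h1]
  refine h2.trans ?_
  have h3 : Z E ^ n ≤ 1 := pow_le_one₀ (Z_nonneg E) (Z_le_one E)
  have h4 : Pr E (typ E n Δ L) ≤ 1 := by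
    have := Pr_mono (E := E) (typ_sub E n Δ L)
    rwa [Pr_words hE] at this
  have h5 := Pr_nonneg E (typ E n Δ L)
  have h6 : Z E ^ n * Pr E (typ E n Δ L) ≤ 1 := by
    calc Z E ^ n * Pr E (typ E n Δ L) ≤ 1 * 1 := mul_le_mul h3 h4 h5 (by norm_num)
      _ = 1 := by norm_num
  calc (2 : ℝ) ^ (2 * n + Δ) * (Z E ^ n * Pr E (typ E n Δ L)) ≤ 2 ^ (2 * n + Δ) * 1 :=
        mul_le_mul_of_nonneg_left h6 (by positivity)
    _ = _ := mul_one _

/-- The pointwise comparison along a typical word. -/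
lemma typ_point {E n Δ L : ℕ} (hL : 16 ≤ L) (hn : 4 * n ≤ L) (hΔ : Δ ≤ n) (hE : 1 ≤ E)
    {W : List ℕ} (hW : W ∈ typ E n Δ L) {v : ℤ} (hv : vd W v) (hc : (2 : ℤ) ^ L ≤ |ch W v|) :
    1 / |(ch W v : ℝ)| ≤ wt E W / |(v : ℝ)| + (1 / 2) ^ (L / 16) / |(ch W v : ℝ)| := by
  rw [sp_mem_typ] at hW
  obtain ⟨hW1, hW2, hW3, hW4⟩ := hW
  have hlen := length_of_mem hW1
  have hc' : (2 : ℝ) ^ L ≤ |(ch W v : ℝ)| := by exact_mod_cast hc
  have hc0 : 0 < |(ch W v : ℝ)| := lt_of_lt_of_le (by positivity) hc'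
  have hr := ch_real hv
  set β : ℝ := bs W / 2 ^ js W with hβ
  have hβ0 : 0 ≤ β := by
    have : (0 : ℝ) ≤ bs W := by exact_mod_cast bs_nonneg W
    positivity
  have hβ1 : β ≤ 2 ^ (L / 8) := by
    refine le_trans ?_ hW4
    rw [hβ, div_le_iff₀ (by positivity)]
    have := bs_le W
    linarith
  have hh := ht_pos W
  have habs : |(ch W v : ℝ)| = ht W * |(v : ℝ) - β| := by
    rw [hr, abs_mul, abs_of_pos hh]
  have hh2 : ht W ≤ 2 ^ (2 * n) := by
    unfold ht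
    rw [hlen, div_le_iff₀ (by positivity)]
    calc (2 : ℝ) ^ js W ≤ 2 ^ (3 * n) := pow_le_pow_right₀ (by norm_num) (by omega)
      _ = 2 ^ (2 * n) * 2 ^ n := by rw [← pow_add]; congr 1; omega
      _ ≤ 2 ^ (2 * n) * 3 ^ n := mul_le_mul_of_nonneg_left
          (pow_le_pow_left₀ (by norm_num) (by norm_num) n) (by positivity)
  have hvβ : (2 : ℝ) ^ (L - 2 * n) ≤ |(v : ℝ) - β| := by
    have h1 : (2 : ℝ) ^ L ≤ 2 ^ (2 * n) * |(v : ℝ) - β| := by
      rw [habs] at hc'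
      exact hc'.trans (mul_le_mul_of_nonneg_right hh2 (abs_nonneg _))
    have h2 : (2 : ℝ) ^ L = 2 ^ (2 * n) * 2 ^ (L - 2 * n) := by
      rw [← pow_add]; congr 1; omega
    rw [h2] at h1
    exact le_of_mul_le_mul_left h1 (by positivity)
  have htri : |(v : ℝ) - β| ≤ |(v : ℝ)| + β := by
    calc |(v : ℝ) - β| ≤ |(v : ℝ)| + |β| := abs_sub _ _
      _ = _ := by rw [abs_of_nonneg hβ0]
  have htri2 : |(v : ℝ)| ≤ |(v : ℝ) - β| + β := by
    calc |(v : ℝ)| = |((v : ℝ) - β) + β| := by ring_nf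
      _ ≤ |(v : ℝ) - β| + |β| := abs_add_le _ _
      _ = _ := by rw [abs_of_nonneg hβ0]
  have hv1 : (2 : ℝ) ^ (L / 8 + L / 16) ≤ |(v : ℝ)| := by
    have h1 : (2 : ℝ) ^ (L / 8 + L / 16) * 2 ≤ 2 ^ (L - 2 * n) := by
      rw [← pow_succ]
      exact pow_le_pow_right₀ (by norm_num) (by omega)
    have h2 : (2 : ℝ) ^ (L / 8) ≤ 2 ^ (L / 8 + L / 16) := pow_le_pow_right₀ (by norm_num) (by omega)
    linarith
  have hv0 : 0 < |(v : ℝ)| := lt_of_lt_of_le (by positivity) hv1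
  have hβv : β / |(v : ℝ)| ≤ (1 / 2) ^ (L / 16) := by
    rw [div_le_iff₀ hv0]
    calc β ≤ 2 ^ (L / 8) := hβ1
      _ = (1 / 2) ^ (L / 16) * 2 ^ (L / 8 + L / 16) := by
        rw [pow_add, one_div, inv_pow]
        field_simp
      _ ≤ (1 / 2) ^ (L / 16) * |(v : ℝ)| := mul_le_mul_of_nonneg_left hv1 (by positivity)
  have hkey : 1 / |(ch W v : ℝ)| ≤ 1 / (ht W * |(v : ℝ)|) + (β / |(v : ℝ)|) / |(ch W v : ℝ)| := by
    have h1 : 1 / (ht W * |(v : ℝ)|) = (|(v : ℝ) - β| / |(v : ℝ)|) / |(ch W v : ℝ)| := by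
      have h2 : |(v : ℝ) - β| ≠ 0 := by
        have : (0 : ℝ) < 2 ^ (L - 2 * n) := by positivity
        linarith
      rw [habs]
      field_simp
    rw [h1, ← add_div]
    refine div_le_div_of_nonneg_right ?_ hc0.le
    rw [← add_div, one_le_div hv0]
    exact htri2
  have hwt : 1 / (ht W * |(v : ℝ)|) ≤ wt E W / |(v : ℝ)| := by
    rw [← div_div]
    refine div_le_div_of_nonneg_right ?_ hv0.le
    unfold wt
    rw [hlen]
    have hZ := Z_pos hE
    have hZ1 : Z E ^ n ≤ 1 := pow_le_one₀ (Z_nonneg E) (Z_le_one E)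
    refine one_div_le_one_div_of_le (by positivity) ?_
    calc Z E ^ n * ht W ≤ 1 * ht W := mul_le_mul_of_nonneg_right hZ1 hh.le
      _ = ht W := one_mul _
  calc 1 / |(ch W v : ℝ)| ≤ 1 / (ht W * |(v : ℝ)|) + (β / |(v : ℝ)|) / |(ch W v : ℝ)| := hkey
    _ ≤ _ := add_le_add hwt (div_le_div_of_nonneg_right hβv hc0.le)

lemma sp_mem_win {A B : ℕ} {v : ℤ} : v ∈ win A B ↔ (|v| < 2 ^ B ∧ OO v) ∧ 2 ^ A ≤ |v| := by
  unfold win bx
  rw [mem_filter, mem_filter, mem_Ioo, abs_lt]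

lemma sp_mem_bx {B : ℕ} {v : ℤ} : v ∈ bx B ↔ |v| < 2 ^ B ∧ OO v := by
  unfold bx
  rw [mem_filter, mem_Ioo, abs_lt]

lemma LS_eq (A B : ℕ) (f : ℤ → ℝ) :
    LS A B f = ∑ u ∈ bx B, if u ∈ win A B then f u / |(u : ℝ)| else 0 := by
  unfold LS
  rw [← sum_filter]
  congr 1
  ext u
  rw [mem_filter, sp_mem_win, sp_mem_bx]
  tauto

theorem split : ∃ (C : ℝ) (L₀ E₀ : ℕ), 0 < C ∧ ∀ L ℓ n m Δ E : ℕ, L₀ ≤ L → 1 ≤ ℓ → 1 ≤ n → 4 * n ≤ L →
    16 * m ≤ L → Δ ≤ n → E₀ ≤ E → 2 * (L + ℓ + n + 4) ≤ E → ∀ a : ℤ → ℝ, Adm a →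
    LS L (L + ℓ) (fun v => F E m v * a v) ≤
      (∑ v ∈ bx (L + ℓ + n), ∑ W ∈ typ E n Δ L, if vd W v ∧ ch W v ∈ win L (L + ℓ) then
        wt E W * F E m (ch W v) * a v / |(v : ℝ)| else 0) +
      C * ℓ * (Real.exp (-((Δ : ℝ) ^ 2 / (8 * n))) + (1 / 2) ^ (L / 16)) := by
  obtain ⟨E₀, hE₀⟩ := Pr_not_typ
  refine ⟨300, 16, max E₀ 1, by norm_num, fun L ℓ n m Δ E hL hℓ hn hnL hmL hΔ hE hE2 a ha => ?_⟩
  have hE1 : 1 ≤ E := (le_max_right _ _).trans hE
  have hnt := hE₀ L n Δ E hn hΔ ((le_max_left _ _).trans hE) (by omega)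
  set B := L + ℓ with hB
  set δ : ℝ := (1 / 2) ^ (L / 16) with hδ
  set x : ℝ := Real.exp (-((Δ : ℝ) ^ 2 / (8 * n))) with hx
  have hδ0 : 0 < δ := by positivity
  have hx0 : 0 < x := Real.exp_pos _
  have hℓr : (1 : ℝ) ≤ ℓ := by exact_mod_cast hℓ
  have hF0 : ∀ v, 0 ≤ F E m v := F_nonneg E m
  have hmean : mean (3 ^ m) (F E m) = 1 := mean_F hE1 m
  -- the two functions
  set g1 : ℤ → ℝ := fun u => if u ∈ win L B then F E m u * a u / |(u : ℝ)| else 0 with hg1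
  set g2 : ℤ → ℝ := fun u => if u ∈ win L B then F E m u / |(u : ℝ)| else 0 with hg2
  have hout : ∀ u : ℤ, 2 ^ B ≤ |u| → u ∉ win L B := by
    intro u hu h
    rw [sp_mem_win] at h
    omega
  have hT1 := transport (B := B) (n := n) (E := E) (by omega) g1 (fun u hu => by
    simp only [hg1]; exact if_neg (hout u hu))
  have hT2 := transport (B := B) (n := n) (E := E) (by omega) g2 (fun u hu => by
    simp only [hg2]; exact if_neg (hout u hu))
  have hg10 : ∀ u, g1 u ≤ g2 u := by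
    intro u
    simp only [hg1, hg2]
    split_ifs
    · refine div_le_div_of_nonneg_right ?_ (abs_nonneg _)
      calc F E m u * a u ≤ F E m u * 1 := mul_le_mul_of_nonneg_left (ha.le_one u) (hF0 u)
        _ = _ := mul_one _
    · exact le_rfl
  have hg20 : ∀ u, 0 ≤ g2 u := by
    intro u
    simp only [hg2]
    split_ifs
    · exact div_nonneg (hF0 u) (abs_nonneg _)
    · exact le_rfl
  -- sizes
  have h3m : (3 : ℝ) ^ m ≤ 2 ^ (2 * m) := by
    rw [pow_mul]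
    exact pow_le_pow_left₀ (by norm_num) (by norm_num) m
  have hδeq : δ * 2 ^ (L / 16) = 1 := by
    rw [hδ, ← mul_pow]; norm_num
  have hsmall : 36 * 3 ^ m / (2 : ℝ) ^ L * (1 + 2 ^ (2 * n + Δ)) ≤ 36 * δ := by
    have h1 : (1 : ℝ) + 2 ^ (2 * n + Δ) ≤ 2 ^ (3 * n + 1) := by
      have h2 : (1 : ℝ) ≤ 2 ^ (3 * n) := one_le_pow₀ (by norm_num)
      have h3 : (2 : ℝ) ^ (2 * n + Δ) ≤ 2 ^ (3 * n) := pow_le_pow_right₀ (by norm_num) (by omega)
      rw [pow_succ]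
      linarith
    have h2 : (3 : ℝ) ^ m * (1 + 2 ^ (2 * n + Δ)) * 2 ^ (L / 16) ≤ 2 ^ L := by
      calc (3 : ℝ) ^ m * (1 + 2 ^ (2 * n + Δ)) * 2 ^ (L / 16) ≤
            2 ^ (2 * m) * 2 ^ (3 * n + 1) * 2 ^ (L / 16) := by gcongr
        _ = 2 ^ (2 * m + (3 * n + 1) + L / 16) := by rw [← pow_add, ← pow_add]
        _ ≤ 2 ^ L := pow_le_pow_right₀ (by norm_num) (by omega)
    have h3 : (3 : ℝ) ^ m * (1 + 2 ^ (2 * n + Δ)) ≤ δ * 2 ^ L := by
      have h4 := mul_le_mul_of_nonneg_left h2 hδ0.le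
      calc (3 : ℝ) ^ m * (1 + 2 ^ (2 * n + Δ)) = δ * 2 ^ (L / 16) * ((3 : ℝ) ^ m * (1 + 2 ^ (2 * n + Δ))) := by
            rw [hδeq, one_mul]
        _ = δ * (3 ^ m * (1 + 2 ^ (2 * n + Δ)) * 2 ^ (L / 16)) := by ring
        _ ≤ _ := h4
    rw [div_mul_eq_mul_div, div_le_iff₀ (by positivity)]
    linarith
  have hsmall1 : 36 * 3 ^ m / (2 : ℝ) ^ L ≤ 36 * δ := by
    refine le_trans ?_ hsmall
    have h1 : (0 : ℝ) ≤ 36 * 3 ^ m / (2 : ℝ) ^ L := by positivity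
    have h2 : (1 : ℝ) ≤ 1 + 2 ^ (2 * n + Δ) := by
      have : (0 : ℝ) ≤ 2 ^ (2 * n + Δ) := by positivity
      linarith
    nlinarith
  have hnat : 4 * 3 ^ m ≤ 2 ^ L := by
    have h1 : 3 ^ m ≤ 2 ^ (2 * m) := by
      rw [pow_mul]
      exact Nat.pow_le_pow_left (by norm_num) m
    calc 4 * 3 ^ m ≤ 2 ^ 2 * 2 ^ (2 * m) := Nat.mul_le_mul (by norm_num) h1
      _ = 2 ^ (2 + 2 * m) := by rw [← pow_add]
      _ ≤ 2 ^ L := Nat.pow_le_pow_right (by norm_num) (by omega)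
  have hlog : 3 / 2 * Real.log 2 ≤ 2 := by
    have := Real.log_two_lt_d9
    linarith
  have hlog0 : 0 ≤ 3 / 2 * Real.log 2 := by
    have := Real.log_nonneg (show (1 : ℝ) ≤ 2 by norm_num)
    linarith
  have hBL : ((B : ℝ) - L) = ℓ := by
    rw [hB]; push_cast; ring
  -- total mass
  have htot : ∑ u ∈ bx B, g2 u = LS L B (F E m) := by rw [LS_eq]
  have hLSper := LS_per (A := L) (B := B) (by omega) hnat (F_per E m) hF0
  rw [hmean, mul_one, mul_one, hBL] at hLSper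
  have hLSub : LS L B (F E m) ≤ 3 / 2 * Real.log 2 * ℓ + 36 * 3 ^ m / 2 ^ L := by
    have := (abs_le.1 hLSper).2
    linarith
  -- the typical part of the transported mass
  set T2 : ℝ := ∑ v ∈ bx (B + n), ∑ W ∈ typ E n Δ L, if vd W v then g2 (ch W v) else 0 with hT2def
  have hT2lb : 3 / 2 * Real.log 2 * ℓ * (Z E ^ n * Pr E (typ E n Δ L)) -
      (typ E n Δ L).card * (36 * 3 ^ m / 2 ^ L) ≤ T2 := by
    rw [hT2def, sum_comm]
    have h1 : ∀ W ∈ typ E n Δ L, 3 / 2 * Real.log 2 * ℓ * (1 / 2 ^ js W) - 36 * 3 ^ m / 2 ^ L ≤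
        ∑ v ∈ bx (B + n), if vd W v then g2 (ch W v) else 0 := by
      intro W hW
      have hW' := sp_mem_typ.1 hW
      have hjs : 4 * 3 ^ m * 2 ^ js W ≤ 2 ^ L := by
        have h1 : 3 ^ m ≤ 2 ^ (2 * m) := by
          rw [pow_mul]
          exact Nat.pow_le_pow_left (by norm_num) m
        calc 4 * 3 ^ m * 2 ^ js W ≤ 2 ^ 2 * 2 ^ (2 * m) * 2 ^ (3 * n) :=
              Nat.mul_le_mul (Nat.mul_le_mul (by norm_num) h1) (Nat.pow_le_pow_right (by norm_num) (by omega))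
          _ = 2 ^ (2 + 2 * m + 3 * n) := by rw [← pow_add, ← pow_add]
          _ ≤ 2 ^ L := Nat.pow_le_pow_right (by norm_num) (by omega)
      have h2 := LS_class (n := n) (A := L) (B := B) (one_le_of_mem hW'.1) (length_of_mem hW'.1) (by omega) hjs
        (F_per E m) hF0
      rw [hmean, mul_one, mul_one, hBL] at h2
      refine le_trans (le_of_eq ?_) (h2.trans (le_of_eq ?_))
      · rw [mul_one_div]
      · refine sum_congr rfl fun v _ => ?_
        simp only [hg2]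
        by_cases hvd : vd W v
        · by_cases hw : ch W v ∈ win L B
          · rw [if_pos ⟨hvd, hw⟩, if_pos hvd, if_pos hw]
          · rw [if_neg (fun h => hw h.2), if_pos hvd, if_neg hw]
        · rw [if_neg (fun h => hvd h.1), if_neg hvd]
    refine le_trans (le_of_eq ?_) (sum_le_sum h1)
    rw [sum_sub_distrib, ← mul_sum, sum_inv_eq hE1 (fun W hW => length_of_mem (typ_sub _ _ _ _ hW)),
      sum_const, nsmul_eq_mul]
  -- the non typical part
  have hNT : ∑ v ∈ bx (B + n), ∑ W ∈ words E n \ typ E n Δ L, (if vd W v then g1 (ch W v) else 0) ≤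
      LS L B (F E m) - T2 := by
    have h1 : ∑ v ∈ bx (B + n), ∑ W ∈ words E n \ typ E n Δ L, (if vd W v then g1 (ch W v) else 0) ≤
        ∑ v ∈ bx (B + n), ∑ W ∈ words E n \ typ E n Δ L, (if vd W v then g2 (ch W v) else 0) := by
      refine sum_le_sum fun v _ => sum_le_sum fun W _ => ?_
      split_ifs
      · exact hg10 _
      · exact le_rfl
    refine h1.trans (le_of_eq ?_)
    rw [← htot, hT2, hT2def, ← sum_sub_distrib]
    refine sum_congr rfl fun v _ => ?_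
    rw [← sum_sdiff (typ_sub E n Δ L)]
    ring
  have hPr1 : Pr E (typ E n Δ L) ≤ 1 := by
    have := Pr_mono (E := E) (typ_sub E n Δ L)
    rwa [Pr_words hE1] at this
  have hPr0 := Pr_nonneg E (typ E n Δ L)
  have hZn := Z_pow_ge E n
  have hZn1 : Z E ^ n ≤ 1 := pow_le_one₀ (Z_nonneg E) (Z_le_one E)
  have hnE : (n : ℝ) / 2 ^ E ≤ δ := by
    have h1 : n < 2 ^ n := Nat.lt_two_pow_self
    have h2 : (n : ℝ) ≤ 2 ^ n := by exact_mod_cast h1.le
    rw [div_le_iff₀ (by positivity)]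
    calc (n : ℝ) ≤ 2 ^ n := h2
      _ = δ * 2 ^ (L / 16) * 2 ^ n := by rw [hδeq, one_mul]
      _ = δ * 2 ^ (L / 16 + n) := by rw [mul_assoc, ← pow_add]
      _ ≤ δ * 2 ^ E := mul_le_mul_of_nonneg_left (pow_le_pow_right₀ (by norm_num) (by omega)) hδ0.le
  have hbrace : LS L B (F E m) - T2 ≤ ℓ * (8 * x + 198 * δ) := by
    have h1 : 1 - Z E ^ n * Pr E (typ E n Δ L) ≤ δ + (4 * x + 80 * δ) := by
      have h2 : (1 - Z E ^ n) * Pr E (typ E n Δ L) ≤ (1 - Z E ^ n) * 1 :=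
        mul_le_mul_of_nonneg_left hPr1 (by linarith)
      nlinarith
    have h2 : 3 / 2 * Real.log 2 * ℓ * (1 - Z E ^ n * Pr E (typ E n Δ L)) ≤ 2 * ℓ * (δ + (4 * x + 80 * δ)) := by
      have h3 : 0 ≤ 1 - Z E ^ n * Pr E (typ E n Δ L) := by
        have : Z E ^ n * Pr E (typ E n Δ L) ≤ 1 * 1 :=
          mul_le_mul hZn1 hPr1 hPr0 (by norm_num)
        linarith
      have h4 : 3 / 2 * Real.log 2 * ℓ ≤ 2 * ℓ := mul_le_mul_of_nonneg_right hlog (by linarith)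
      exact mul_le_mul h4 h1 h3 (by linarith)
    have h3 : (typ E n Δ L).card * (36 * 3 ^ m / (2 : ℝ) ^ L) + 36 * 3 ^ m / (2 : ℝ) ^ L ≤ 36 * δ := by
      refine le_trans ?_ hsmall
      have h4 := card_typ_le (E := E) (n := n) (Δ := Δ) (L := L) hE1
      have h5 : (0 : ℝ) ≤ 36 * 3 ^ m / (2 : ℝ) ^ L := by positivity
      nlinarith [mul_le_mul_of_nonneg_right h4 h5]
    have h4 : 36 * δ ≤ 36 * (ℓ * δ) := by nlinarith
    have h5 : 3 / 2 * Real.log 2 * ℓ * (1 - Z E ^ n * Pr E (typ E n Δ L)) =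
        3 / 2 * Real.log 2 * ℓ - 3 / 2 * Real.log 2 * ℓ * (Z E ^ n * Pr E (typ E n Δ L)) := by ring
    have h6 : 2 * (ℓ : ℝ) * (δ + (4 * x + 80 * δ)) = 162 * (ℓ * δ) + 8 * (ℓ * x) := by ring
    have h7 : (ℓ : ℝ) * (8 * x + 198 * δ) = 198 * (ℓ * δ) + 8 * (ℓ * x) := by ring
    rw [h7]
    rw [h5, h6] at h2
    linarith
  -- the typical part
  have hT1ub : ∑ v ∈ bx (B + n), ∑ W ∈ typ E n Δ L, (if vd W v then g1 (ch W v) else 0) ≤
      (∑ v ∈ bx (B + n), ∑ W ∈ typ E n Δ L, if vd W v ∧ ch W v ∈ win L B then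
        wt E W * F E m (ch W v) * a v / |(v : ℝ)| else 0) + δ * LS L B (F E m) := by
    have h1 : ∀ v ∈ bx (B + n), ∀ W ∈ typ E n Δ L, (if vd W v then g1 (ch W v) else 0) ≤
        (if vd W v ∧ ch W v ∈ win L B then wt E W * F E m (ch W v) * a v / |(v : ℝ)| else 0) +
        δ * (if vd W v then g2 (ch W v) else 0) := by
      intro v hv W hW
      by_cases hvd : vd W v
      · by_cases hw : ch W v ∈ win L B
        · simp only [hg1, hg2]
          have hand : vd W v ∧ ch W v ∈ win L B := ⟨hvd, hw⟩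
          rw [if_pos hvd, if_pos hand, if_pos hw, if_pos hvd, if_pos hw]
          have hW' := sp_mem_typ.1 hW
          have hOO := (sp_mem_bx.1 hv).2
          have h2 := typ_point hL hnL hΔ hE1 hW hvd (sp_mem_win.1 hw).2
          have h3 := ha.ch (one_le_of_mem hW'.1) hOO hvd
          have h4 := ha.nonneg v
          have h5 := ha.le_one v
          have h6 := hF0 (ch W v)
          have h7 : (0 : ℝ) ≤ 1 / |(ch W v : ℝ)| := by positivity
          calc F E m (ch W v) * a (ch W v) / |(ch W v : ℝ)|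
              = F E m (ch W v) * a (ch W v) * (1 / |(ch W v : ℝ)|) := by ring
            _ ≤ F E m (ch W v) * a v * (1 / |(ch W v : ℝ)|) :=
                mul_le_mul_of_nonneg_right (mul_le_mul_of_nonneg_left h3 h6) h7
            _ ≤ F E m (ch W v) * a v * (wt E W / |(v : ℝ)| + δ / |(ch W v : ℝ)|) :=
                mul_le_mul_of_nonneg_left h2 (mul_nonneg h6 h4)
            _ = wt E W * F E m (ch W v) * a v / |(v : ℝ)| + F E m (ch W v) * a v * (δ / |(ch W v : ℝ)|) := by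
                ring
            _ ≤ wt E W * F E m (ch W v) * a v / |(v : ℝ)| + F E m (ch W v) * 1 * (δ / |(ch W v : ℝ)|) := by
                have h8 : (0 : ℝ) ≤ δ / |(ch W v : ℝ)| := by positivity
                have h9 := mul_le_mul_of_nonneg_right (mul_le_mul_of_nonneg_left h5 h6) h8
                linarith
            _ = _ := by ring
        · have e1 : g1 (ch W v) = 0 := if_neg hw
          have e2 : g2 (ch W v) = 0 := if_neg hw
          have hand : ¬ (vd W v ∧ ch W v ∈ win L B) := fun h => hw h.2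
          rw [e1, e2, if_neg hand, ite_self, mul_zero, add_zero]
      · have hand : ¬ (vd W v ∧ ch W v ∈ win L B) := fun h => hvd h.1
        rw [if_neg hvd, if_neg hand, if_neg hvd, mul_zero, add_zero]
    have h2 := sum_le_sum fun v hv => sum_le_sum (h1 v hv)
    refine h2.trans ?_
    simp only [sum_add_distrib, ← mul_sum]
    have h3 : ∑ v ∈ bx (B + n), ∑ W ∈ typ E n Δ L, (if vd W v then g2 (ch W v) else 0) ≤ LS L B (F E m) := by
      rw [← htot, hT2]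
      refine sum_le_sum fun v _ => ?_
      refine sum_le_sum_of_subset_of_nonneg (typ_sub _ _ _ _) fun W _ _ => ?_
      split_ifs
      · exact hg20 _
      · exact le_rfl
    have h4 := mul_le_mul_of_nonneg_left h3 hδ0.le
    linarith
  have hδ1 : δ ≤ 1 := pow_le_one₀ (by norm_num) (by norm_num)
  have hextra : δ * LS L B (F E m) ≤ ℓ * (38 * δ) := by
    have h1 : LS L B (F E m) ≤ 2 * ℓ + 36 * δ := by
      have h2 : 3 / 2 * Real.log 2 * ℓ ≤ 2 * ℓ := mul_le_mul_of_nonneg_right hlog (by linarith)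
      linarith
    have h2 : LS L B (F E m) ≤ 38 * ℓ := by linarith
    calc δ * LS L B (F E m) ≤ δ * (38 * ℓ) := mul_le_mul_of_nonneg_left h2 hδ0.le
      _ = _ := by ring
  have hLS1 : LS L B (fun v => F E m v * a v) = ∑ u ∈ bx B, g1 u := by rw [LS_eq]
  have hsum : ∑ u ∈ bx B, g1 u =
      ∑ v ∈ bx (B + n), ∑ W ∈ words E n \ typ E n Δ L, (if vd W v then g1 (ch W v) else 0) +
      ∑ v ∈ bx (B + n), ∑ W ∈ typ E n Δ L, (if vd W v then g1 (ch W v) else 0) := by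
    rw [hT1, ← sum_add_distrib]
    refine sum_congr rfl fun v _ => ?_
    rw [← sum_sdiff (typ_sub E n Δ L)]
  rw [hLS1, hsum]
  have hfin : (ℓ : ℝ) * (8 * x + 198 * δ) + ℓ * (38 * δ) ≤ 300 * ℓ * (x + δ) := by
    have h1 : 0 ≤ (ℓ : ℝ) * x := by positivity
    have h2 : 0 ≤ (ℓ : ℝ) * δ := by positivity
    nlinarith
  linarith

end CollatzLin
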