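import Pool.Agent.CollatzLin.Mom
import Pool.Agent.CollatzLin.Mix

set_option autoImplicit false

/-!
# Visits of a height window: a dual Doob inequality
-/

namespace CollatzLin

open CollatzOne Finset

/-! ### Conditional means -/

/-- Conditional mean given the residue modulo `3 ^ n`, for functions of period `3 ^ (n + d)`. -/
noncomputable def cE (n d : ℕ) (f : ℤ → ℝ) (v : ℤ) : ℝ := mean (3 ^ d) (fun u => f (v + 3 ^ n * u))

lemma cE_nonneg {n d : ℕ} {f : ℤ → ℝ} (h : ∀ v, 0 ≤ f v) (v : ℤ) : 0 ≤ cE n d f v :=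
  mean_nonneg fun _ => h _

lemma cE_add (n d : ℕ) (f g : ℤ → ℝ) (v : ℤ) :
    cE n d (fun v => f v + g v) v = cE n d f v + cE n d g v := mean_add _ _ _

lemma cE_per {n d : ℕ} {f : ℤ → ℝ} (h : Per (3 ^ (n + d)) f) : Per (3 ^ n) (cE n d f) := by
  intro v
  unfold cE mean
  congr 1
  have hper : Per (3 ^ d) (fun u => f (v + 3 ^ n * u)) := by
    intro u
    have := h (v + 3 ^ n * u)
    push_cast at this ⊢
    rw [← this]
    congr 1
    rw [pow_add]
    ring
  have h1 := S_shift hper 1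
  rw [← h1]
  refine S_congr fun u => ?_
  congr 1
  push_cast
  ring

/-- The defining property of conditional means. -/
lemma mean_cE {n d : ℕ} {f ψ : ℤ → ℝ} (hf : Per (3 ^ (n + d)) f) (hψ : Per (3 ^ n) ψ) :
    mean (3 ^ (n + d)) (fun v => cE n d f v * ψ v) = mean (3 ^ (n + d)) (fun v => f v * ψ v) := by
  have hp : Per (3 ^ n) (fun v => cE n d f v * ψ v) := by
    intro v
    show cE n d f (v + _) * ψ (v + _) = _
    rw [cE_per hf v, hψ v]
  rw [mean_pow (Nat.le_add_right n d) hp]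
  unfold mean
  rw [pow_add, S_mul]
  have h1 : ∀ a : ℤ, S (3 ^ d) (fun u => f (a + ((3 ^ n : ℕ) : ℤ) * u) * ψ (a + ((3 ^ n : ℕ) : ℤ) * u)) =
      3 ^ d * (cE n d f a * ψ a) := by
    intro a
    have h2 : ∀ u : ℤ, f (a + ((3 ^ n : ℕ) : ℤ) * u) * ψ (a + ((3 ^ n : ℕ) : ℤ) * u) =
        f (a + 3 ^ n * u) * ψ a := by
      intro u
      rw [hψ.add_mul]
      push_cast
      rfl
    rw [S_congr h2, S_mul_right]
    unfold cE mean
    push_cast
    field_simp
  rw [S_congr h1, S_mul_left]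
  push_cast
  field_simp

/-- Conditional mean of `MM`. -/
lemma cE_MM {E n d : ℕ} {𝒲 : Finset (List ℕ)} (h : ∀ W ∈ 𝒲, W.length = n) {φ : ℤ → ℝ}
    (hφ : Per (3 ^ d) φ) (v : ℤ) :
    cE n d (MM E 𝒲 φ) v = MM E 𝒲 (fun _ => 1) v * mean (3 ^ d) φ := by
  unfold cE
  rw [mean_congr (fun u => MM_shift h φ v u)]
  unfold MM
  rw [mean_sum, sum_mul]
  refine sum_congr rfl fun W _ => ?_
  by_cases hv : vd W v
  · simp only [if_pos hv]
    rw [mean_mul_left]
    unfold mean
    rw [S_affine hφ (isCoprime_two_three _ _), mul_one]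
  · simp only [if_neg hv]
    rw [mean_const (Nat.one_le_pow _ _ (by norm_num)), zero_mul]

/-! ### The number of visits -/

/-- The height after `n` letters is in the window. -/
def inW (H : ℝ) (n : ℕ) (V : List ℕ) : Prop := H ≤ ht (V.take n) ∧ ht (V.take n) < 16 * H

/-- The first visit after `n₁` is at time `n`. -/
def fst (H : ℝ) (n₁ n : ℕ) (V : List ℕ) : Prop := inW H n V ∧ ∀ j ∈ Ioo n₁ n, ¬ inW H j V

/-- A later return. -/
def ret (n k : ℕ) (V : List ℕ) : Prop := ht ((V.drop n).take k) ≤ 16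

open Classical in
/-- Number of visits. -/
noncomputable def kapV (H : ℝ) (n₁ N : ℕ) (V : List ℕ) : ℝ :=
  ∑ n ∈ Ioc n₁ (n₁ + N), if inW H n V then 1 else 0

open Classical in
/-- Number of late returns. -/
noncomputable def lat (H : ℝ) (n₁ N n₂ : ℕ) (V : List ℕ) : ℝ :=
  ∑ n ∈ Ioc n₁ (n₁ + N), ∑ k ∈ Ioc n₂ (n₁ + N - n), if fst H n₁ n V ∧ ret n k V then 1 else 0

lemma lat_nonneg (H : ℝ) (n₁ N n₂ : ℕ) (V : List ℕ) : 0 ≤ lat H n₁ N n₂ V := by
  unfold lat
  refine sum_nonneg fun n _ => sum_nonneg fun k _ => ?_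
  split_ifs <;> norm_num

lemma kapV_le {H : ℝ} (hH : 0 < H) (n₁ N n₂ : ℕ) (V : List ℕ) :
    kapV H n₁ N V ≤ (n₂ + 1) + lat H n₁ N n₂ V := by
  classical
  set A := (Ioc n₁ (n₁ + N)).filter (fun n => inW H n V) with hA
  have hk : kapV H n₁ N V = (A.card : ℝ) := by
    unfold kapV
    rw [← sum_filter, sum_const, nsmul_eq_mul, mul_one]
  rw [hk]
  rcases A.eq_empty_or_nonempty with h0 | h0
  · rw [h0, card_empty]
    have := lat_nonneg H n₁ N n₂ V
    push_cast
    have h2 : (0 : ℝ) ≤ n₂ := Nat.cast_nonneg _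
    linarith
  · set n₀ := A.min' h0 with hn₀
    have hmem : n₀ ∈ A := A.min'_mem h0
    rw [hA, mem_filter, mem_Ioc] at hmem
    have hfst : fst H n₁ n₀ V := by
      refine ⟨hmem.2, fun j hj hjW => ?_⟩
      rw [mem_Ioo] at hj
      have h1 : j ∈ A := by
        rw [hA, mem_filter, mem_Ioc]
        exact ⟨⟨hj.1, by omega⟩, hjW⟩
      have := A.min'_le j h1
      omega
    -- split the visits
    have hsplit : A ⊆ (Icc n₀ (n₀ + n₂)) ∪ ((Ioc n₂ (n₁ + N - n₀)).filter (fun k => ret n₀ k V)).image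
        (fun k => n₀ + k) := by
      intro n hn
      have hle := A.min'_le n hn
      rw [hA, mem_filter, mem_Ioc] at hn
      rw [mem_union, mem_Icc, mem_image]
      by_cases hc : n ≤ n₀ + n₂
      · left; exact ⟨hle, hc⟩
      · right
        refine ⟨n - n₀, ?_, by omega⟩
        rw [mem_filter, mem_Ioc]
        refine ⟨⟨by omega, by omega⟩, ?_⟩
        unfold ret
        have h1 : V.take n = V.take n₀ ++ (V.drop n₀).take (n - n₀) := by
          rw [← List.take_add]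
          congr 1
          omega
        have h2 := hn.2.2
        rw [h1, ht_append] at h2
        have h3 := hmem.2.1
        have h4 := ht_pos ((V.drop n₀).take (n - n₀))
        by_contra hcon
        push Not at hcon
        nlinarith
    have hcard : (A.card : ℝ) ≤ (n₂ + 1) + (((Ioc n₂ (n₁ + N - n₀)).filter (fun k => ret n₀ k V)).card : ℝ) := by
      have h1 := card_le_card hsplit
      have h2 := card_union_le (Icc n₀ (n₀ + n₂)) (((Ioc n₂ (n₁ + N - n₀)).filter (fun k => ret n₀ k V)).image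
        (fun k => n₀ + k))
      have h3 := card_image_le (s := (Ioc n₂ (n₁ + N - n₀)).filter (fun k => ret n₀ k V)) (f := fun k => n₀ + k)
      have h4 : (Icc n₀ (n₀ + n₂)).card = n₂ + 1 := by rw [Nat.card_Icc]; omega
      have h5 : A.card ≤ (n₂ + 1) + ((Ioc n₂ (n₁ + N - n₀)).filter (fun k => ret n₀ k V)).card := by omega
      exact_mod_cast h5
    refine hcard.trans ?_
    have hlat : (((Ioc n₂ (n₁ + N - n₀)).filter (fun k => ret n₀ k V)).card : ℝ) ≤ lat H n₁ N n₂ V := by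
      unfold lat
      have h1 : (((Ioc n₂ (n₁ + N - n₀)).filter (fun k => ret n₀ k V)).card : ℝ) =
          ∑ k ∈ Ioc n₂ (n₁ + N - n₀), if fst H n₁ n₀ V ∧ ret n₀ k V then (1 : ℝ) else 0 := by
        rw [← sum_filter, sum_const, nsmul_eq_mul, mul_one]
        congr 2
        refine filter_congr fun k _ => ?_
        simp [hfst]
      rw [h1]
      exact single_le_sum (f := fun n => ∑ k ∈ Ioc n₂ (n₁ + N - n), if fst H n₁ n V ∧ ret n k V then (1 : ℝ) else 0)
        (fun n _ => sum_nonneg fun k _ => by split_ifs <;> norm_num) (mem_Ioc.2 hmem.1)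
    linarith

open Classical in
lemma sum_fst_le (H : ℝ) (n₁ N : ℕ) (V : List ℕ) :
    ∑ n ∈ Ioc n₁ (n₁ + N), (if fst H n₁ n V then (1 : ℝ) else 0) ≤ 1 := by
  rw [← sum_filter, sum_const, nsmul_eq_mul, mul_one]
  have : ((Ioc n₁ (n₁ + N)).filter (fun n => fst H n₁ n V)).card ≤ 1 := by
    rw [card_le_one]
    intro a ha b hb
    rw [mem_filter, mem_Ioc] at ha hb
    rcases lt_trichotomy a b with h | h | h
    · exact absurd ha.2.1 (hb.2.2 a (mem_Ioo.2 ⟨ha.1.1, h⟩))
    · exact h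
    · exact absurd hb.2.1 (ha.2.2 b (mem_Ioo.2 ⟨hb.1.1, h⟩))
  exact_mod_cast this

lemma take_take_le {V : List ℕ} {j n : ℕ} (h : j ≤ n) : (V.take n).take j = V.take j := by
  rw [List.take_take, min_eq_left h]

lemma fst_take {H : ℝ} {n₁ n : ℕ} {V : List ℕ} : fst H n₁ n V ↔ fst H n₁ n (V.take n) := by
  unfold fst inW
  rw [take_take_le le_rfl]
  refine and_congr Iff.rfl (forall₂_congr fun j hj => ?_)
  rw [mem_Ioo] at hj
  rw [take_take_le (by omega)]

open Classical in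
/-- Mean number of late returns. -/
lemma sum_lat_le {E : ℕ} (hE : 6 ≤ E) (H : ℝ) (n₁ N n₂ : ℕ) :
    ∑ V ∈ words E (n₁ + N), pr E V * lat H n₁ N n₂ V ≤ 200 * (49 / 50) ^ n₂ := by
  have hE1 : 1 ≤ E := by omega
  -- one term
  have hterm : ∀ n ∈ Ioc n₁ (n₁ + N), ∀ k ∈ Ioc n₂ (n₁ + N - n),
      ∑ V ∈ words E (n₁ + N), pr E V * (if fst H n₁ n V ∧ ret n k V then (1 : ℝ) else 0) ≤
      (∑ V ∈ words E (n₁ + N), pr E V * (if fst H n₁ n V then (1 : ℝ) else 0)) * (4 * (49 / 50) ^ k) := by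
    intro n hn k hk
    rw [mem_Ioc] at hn hk
    obtain ⟨r, hr⟩ : ∃ r, n₁ + N = n + (k + r) := ⟨n₁ + N - n - k, by omega⟩
    rw [hr, sum_words_add, sum_words_add]
    have h1 : ∀ U ∈ words E n, ∀ U' ∈ words E (k + r), (fst H n₁ n (U ++ U') ↔ fst H n₁ n U) := by
      intro U hU U' _
      rw [fst_take (V := U ++ U'), List.take_append_of_le_length (by rw [length_of_mem hU]),
        List.take_of_length_le (by rw [length_of_mem hU])]
    have h2 : ∀ U ∈ words E n, ∑ V ∈ words E (k + r), pr E (U ++ V) *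
        (if fst H n₁ n (U ++ V) then (1 : ℝ) else 0) = pr E U * (if fst H n₁ n U then (1 : ℝ) else 0) := by
      intro U hU
      have h3 : ∀ V ∈ words E (k + r), pr E (U ++ V) * (if fst H n₁ n (U ++ V) then (1 : ℝ) else 0) =
          (pr E U * (if fst H n₁ n U then (1 : ℝ) else 0)) * pr E V := by
        intro V hV
        rw [pr_append, if_congr (h1 U hU V hV) rfl rfl]
        ring
      rw [sum_congr rfl h3, ← mul_sum, sum_pr hE1, mul_one]
    rw [sum_congr rfl h2, sum_mul]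
    refine sum_le_sum fun U hU => ?_
    have h3 : ∀ V ∈ words E (k + r), pr E (U ++ V) * (if fst H n₁ n (U ++ V) ∧ ret n k (U ++ V) then (1 : ℝ) else 0) =
        (pr E U * (if fst H n₁ n U then (1 : ℝ) else 0)) * (pr E V * (if ht (V.take k) ≤ 16 then 1 else 0)) := by
      intro V hV
      have h4 : ret n k (U ++ V) ↔ ht (V.take k) ≤ 16 := by
        unfold ret
        have h5 : (U ++ V).drop n = V := by
          rw [List.drop_append_of_le_length (by rw [length_of_mem hU]),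
            List.drop_eq_nil_of_le (by rw [length_of_mem hU]), List.nil_append]
        rw [h5]
      rw [pr_append, if_congr (and_congr (h1 U hU V hV) h4) rfl rfl, ite_and]
      split_ifs <;> ring
    rw [sum_congr rfl h3, ← mul_sum]
    have h0 : 0 ≤ pr E U * (if fst H n₁ n U then (1 : ℝ) else 0) :=
      mul_nonneg (pr_nonneg E U) (by split_ifs <;> norm_num)
    refine mul_le_mul_of_nonneg_left ?_ h0
    rw [sum_words_add]
    have h5 : ∀ W ∈ words E k, ∑ V ∈ words E r, pr E (W ++ V) * (if ht ((W ++ V).take k) ≤ 16 then (1 : ℝ) else 0) =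
        pr E W * (if ht W ≤ 16 then 1 else 0) := by
      intro W hW
      have h6 : ∀ V ∈ words E r, pr E (W ++ V) * (if ht ((W ++ V).take k) ≤ 16 then (1 : ℝ) else 0) =
          (pr E W * (if ht W ≤ 16 then 1 else 0)) * pr E V := by
        intro V _
        rw [pr_append, List.take_append_of_le_length (by rw [length_of_mem hW]),
          List.take_of_length_le (by rw [length_of_mem hW])]
        ring
      rw [sum_congr rfl h6, ← mul_sum, sum_pr hE1, mul_one]
    rw [sum_congr rfl h5]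
    have h7 := Pr_ht hE k (K := 16) (by norm_num)
    unfold Pr at h7
    rw [sum_filter] at h7
    have h8 : √(16 : ℝ) = 4 := by
      rw [show (16 : ℝ) = 4 ^ 2 by norm_num, Real.sqrt_sq (by norm_num)]
    rw [h8] at h7
    refine le_trans (le_of_eq ?_) h7
    refine sum_congr rfl fun W _ => ?_
    split_ifs <;> ring
  have hgeo : ∀ n, ∑ k ∈ Ioc n₂ (n₁ + N - n), (4 : ℝ) * (49 / 50) ^ k ≤ 200 * (49 / 50) ^ n₂ := by
    intro n
    rw [← mul_sum]
    have h1 : ∀ m : ℕ, ∑ k ∈ Ioc n₂ m, (49 / 50 : ℝ) ^ k ≤ 49 * (49 / 50) ^ n₂ - 49 * (49 / 50) ^ (max n₂ m) := by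
      intro m
      induction m with
      | zero => simp
      | succ m ih =>
        by_cases hm : n₂ ≤ m
        · rw [sum_Ioc_succ_top hm, max_eq_right (by omega : n₂ ≤ m + 1)]
          rw [max_eq_right hm] at ih
          rw [pow_succ]
          linarith
        · rw [Ioc_eq_empty (by omega), max_eq_left (by omega : m + 1 ≤ n₂)]
          simp
    have h2 := h1 (n₁ + N - n)
    have h3 : (0 : ℝ) ≤ (49 / 50) ^ (max n₂ (n₁ + N - n)) := by positivity
    have h4 : (0 : ℝ) ≤ (49 / 50) ^ n₂ := by positivity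
    linarith
  calc ∑ V ∈ words E (n₁ + N), pr E V * lat H n₁ N n₂ V
      = ∑ n ∈ Ioc n₁ (n₁ + N), ∑ k ∈ Ioc n₂ (n₁ + N - n), ∑ V ∈ words E (n₁ + N),
          pr E V * (if fst H n₁ n V ∧ ret n k V then (1 : ℝ) else 0) := by
        unfold lat
        simp only [mul_sum]
        rw [sum_comm]
        refine sum_congr rfl fun n _ => ?_
        rw [sum_comm]
    _ ≤ ∑ n ∈ Ioc n₁ (n₁ + N), ∑ k ∈ Ioc n₂ (n₁ + N - n),
          (∑ V ∈ words E (n₁ + N), pr E V * (if fst H n₁ n V then (1 : ℝ) else 0)) * (4 * (49 / 50) ^ k) :=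
        sum_le_sum fun n hn => sum_le_sum fun k hk => hterm n hn k hk
    _ ≤ ∑ n ∈ Ioc n₁ (n₁ + N), (∑ V ∈ words E (n₁ + N), pr E V * (if fst H n₁ n V then (1 : ℝ) else 0)) *
          (200 * (49 / 50) ^ n₂) := by
        refine sum_le_sum fun n _ => ?_
        rw [← mul_sum]
        refine mul_le_mul_of_nonneg_left (hgeo n) (sum_nonneg fun V _ => mul_nonneg (pr_nonneg E V) ?_)
        split_ifs <;> norm_num
    _ = (∑ V ∈ words E (n₁ + N), pr E V * ∑ n ∈ Ioc n₁ (n₁ + N), (if fst H n₁ n V then (1 : ℝ) else 0)) *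
          (200 * (49 / 50) ^ n₂) := by
        rw [← sum_mul]
        congr 1
        rw [sum_comm]
        refine sum_congr rfl fun V _ => ?_
        rw [mul_sum]
    _ ≤ 1 * (200 * (49 / 50) ^ n₂) := by
        refine mul_le_mul_of_nonneg_right ?_ (by positivity)
        calc _ ≤ ∑ V ∈ words E (n₁ + N), pr E V * 1 :=
              sum_le_sum fun V _ => mul_le_mul_of_nonneg_left (sum_fst_le H n₁ N V) (pr_nonneg E V)
          _ = 1 := by simp only [mul_one]; exact sum_pr hE1 _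
    _ = _ := one_mul _

/-! ### The decomposition -/

open Classical in
/-- The sum of the weights with multiplicities. -/
lemma sum_G_eq (E n₁ N : ℕ) (H : ℝ) (v : ℤ) :
    ∑ n ∈ Ioc n₁ (n₁ + N), MM E (hw E n H) (F E (n₁ + N - n)) v =
      ∑ V ∈ words E (n₁ + N), if vd V v then wt E V * kapV H n₁ N V else 0 := by
  have h1 : ∀ n ∈ Ioc n₁ (n₁ + N), MM E (hw E n H) (F E (n₁ + N - n)) v =
      ∑ V ∈ words E (n₁ + N), if vd V v then wt E V * (if inW H n V then 1 else 0) else 0 := by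
    intro n hn
    rw [mem_Ioc] at hn
    obtain ⟨r, hr⟩ : ∃ r, n₁ + N = n + r := ⟨n₁ + N - n, by omega⟩
    rw [show n₁ + N - n = r by omega, hr, sum_words_add]
    unfold hw
    unfold MM
    rw [sum_filter]
    refine sum_congr rfl fun W hW => ?_
    have hlen := length_of_mem hW
    have h2 : ∀ V : List ℕ, inW H n (W ++ V) ↔ (H ≤ ht W ∧ ht W < 16 * H) := by
      intro V
      unfold inW
      rw [List.take_append_of_le_length (by rw [hlen]), List.take_of_length_le (by rw [hlen])]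
    by_cases hw : H ≤ ht W ∧ ht W < 16 * H
    · rw [if_pos hw]
      by_cases hv : vd W v
      · rw [if_pos hv]
        unfold F MM
        rw [mul_sum]
        refine sum_congr rfl fun V _ => ?_
        by_cases hv2 : vd V (ch W v)
        · rw [if_pos hv2, if_pos (vd_append.2 ⟨hv, hv2⟩), if_pos ((h2 V).2 hw), wt_append]
          ring
        · rw [if_neg hv2, if_neg (fun h => hv2 (vd_append.1 h).2), mul_zero]
      · rw [if_neg hv]
        refine (sum_eq_zero fun V _ => ?_).symm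
        rw [if_neg (fun h => hv (vd_append.1 h).1)]
    · rw [if_neg hw]
      refine (sum_eq_zero fun V _ => ?_).symm
      rw [if_neg (fun h => hw ((h2 V).1 h)), mul_zero, ite_self]
  rw [sum_congr rfl h1, sum_comm]
  refine sum_congr rfl fun V _ => ?_
  by_cases hv : vd V v
  · simp only [if_pos hv]
    unfold kapV
    rw [mul_sum]
  · simp only [if_neg hv, sum_const_zero]

lemma length_of_hw {E n : ℕ} {H : ℝ} : ∀ W ∈ hw E n H, W.length = n := by
  classical
  intro W hW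
  unfold hw at hW
  rw [mem_filter] at hW
  exact length_of_mem hW.1

/-- Twice the ordered sum dominates the square. -/
lemma sq_sum_le (s : Finset ℕ) (x : ℕ → ℝ) (hx : ∀ n ∈ s, 0 ≤ x n) :
    (∑ n ∈ s, x n) ^ 2 ≤ 2 * ∑ k ∈ s, x k * ∑ n ∈ s.filter (fun n => n ≤ k), x n := by
  have h1 : (∑ n ∈ s, x n) ^ 2 = ∑ k ∈ s, ∑ n ∈ s, x k * x n := by
    rw [sq, sum_mul_sum]
  have h2 : ∑ k ∈ s, x k * ∑ n ∈ s.filter (fun n => n ≤ k), x n =
      ∑ k ∈ s, ∑ n ∈ s, if n ≤ k then x k * x n else 0 := by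
    refine sum_congr rfl fun k _ => ?_
    rw [mul_sum, sum_filter]
  have h3 : ∑ k ∈ s, ∑ n ∈ s, (if n ≤ k then x k * x n else 0) =
      ∑ k ∈ s, ∑ n ∈ s, if k ≤ n then x k * x n else 0 := by
    rw [sum_comm]
    refine sum_congr rfl fun k _ => sum_congr rfl fun n _ => ?_
    rw [mul_comm (x n)]
  rw [h1, two_mul, h2]
  nth_rw 2 [h3]
  rw [← sum_add_distrib]
  refine sum_le_sum fun k hk => ?_
  rw [← sum_add_distrib]
  refine sum_le_sum fun n hn => ?_
  have h4 : 0 ≤ x k * x n := mul_nonneg (hx k hk) (hx n hn)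
  split_ifs with ha hb hb
  · linarith
  · linarith
  · linarith
  · omega

/-- The abstract decomposition (dual Doob inequality). -/
lemma dual_doob {E n₁ N : ℕ} (hE : 1 ≤ E) {H K₀ δ : ℝ} (hK₀ : 0 < K₀) {T : ℤ → ℝ}
    (hTper : Per (3 ^ (n₁ + N)) T)
    (hT : ∀ v, ∑ n ∈ Ioc n₁ (n₁ + N), MM E (hw E n H) (F E (n₁ + N - n)) v ≤ K₀ + T v)
    (hT0 : ∀ v, 0 ≤ T v) (hTδ : mean (3 ^ (n₁ + N)) T ≤ δ) :
    ∃ V' V'' : ℤ → ℝ, Per (3 ^ (n₁ + N)) V' ∧ Per (3 ^ (n₁ + N)) V'' ∧
    (∀ v, 0 ≤ V' v) ∧ (∀ v, 0 ≤ V'' v) ∧ (∀ v, Vis E n₁ N H v = V' v + V'' v) ∧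
    mean (3 ^ (n₁ + N)) (fun v => V' v ^ 2) ≤ 2 * K₀ ^ 2 ∧ mean (3 ^ (n₁ + N)) V'' ≤ δ := by
  set M := n₁ + N with hM
  set I := Ioc n₁ M with hI
  have hd : ∀ n ∈ I, n + (M - n) = M := by
    intro n hn
    rw [hI, mem_Ioc] at hn
    omega
  set G : ℕ → ℤ → ℝ := fun n => MM E (hw E n H) (F E (M - n)) with hG
  have hG0 : ∀ n v, 0 ≤ G n v := fun n v => MM_nonneg (F_nonneg E _) v
  have hGper : ∀ n ∈ I, Per (3 ^ M) (G n) := by
    intro n hn
    have := MM_per (E := E) (m := M - n) (length_of_hw (E := E) (n := n) (H := H)) (F_per E (M - n))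
    rwa [hd n hn] at this
  set B : ℤ → ℝ := fun v => ∑ n ∈ I, G n v with hB
  have hB0 : ∀ v, 0 ≤ B v := fun v => sum_nonneg fun n _ => hG0 n v
  have hBper : Per (3 ^ M) B := fun v => sum_congr rfl fun n hn => hGper n hn v
  set θ : ℤ → ℝ := fun v => if B v ≤ K₀ then 1 else K₀ / B v with hθ
  have hθper : Per (3 ^ M) θ := by
    intro v
    simp only [hθ]
    rw [hBper v]
  have hθ0 : ∀ v, 0 ≤ θ v := by
    intro v
    simp only [hθ]
    split_ifs
    · norm_num
    · exact div_nonneg hK₀.le (hB0 v)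
  have hθ1 : ∀ v, θ v ≤ 1 := by
    intro v
    simp only [hθ]
    split_ifs with h
    · exact le_rfl
    · push Not at h
      rw [div_le_one (by linarith)]
      exact h.le
  have hθB : ∀ v, θ v * B v ≤ K₀ := by
    intro v
    simp only [hθ]
    split_ifs with h
    · rw [one_mul]; exact h
    · push Not at h
      have : B v ≠ 0 := by linarith
      rw [div_mul_cancel₀ _ this]
  have hθB' : ∀ v, (1 - θ v) * B v ≤ T v := by
    intro v
    have hv := hT v
    simp only [hθ]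
    split_ifs with h
    · rw [sub_self, zero_mul]; exact hT0 v
    · push Not at h
      have : B v ≠ 0 := by linarith
      rw [sub_mul, div_mul_cancel₀ _ this, one_mul]
      have : B v ≤ K₀ + T v := hv
      linarith
  set G' : ℕ → ℤ → ℝ := fun n v => θ v * G n v with hG'
  set G'' : ℕ → ℤ → ℝ := fun n v => (1 - θ v) * G n v with hG''
  have hG'0 : ∀ n v, 0 ≤ G' n v := fun n v => mul_nonneg (hθ0 v) (hG0 n v)
  have hG''0 : ∀ n v, 0 ≤ G'' n v := fun n v => mul_nonneg (by linarith [hθ1 v]) (hG0 n v)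
  have hG'per : ∀ n ∈ I, Per (3 ^ M) (G' n) := by
    intro n hn v
    simp only [hG']
    rw [hθper v, hGper n hn v]
  have hG''per : ∀ n ∈ I, Per (3 ^ M) (G'' n) := by
    intro n hn v
    simp only [hG'']
    rw [hθper v, hGper n hn v]
  set x : ℕ → ℤ → ℝ := fun n => cE n (M - n) (G' n) with hx
  set z : ℕ → ℤ → ℝ := fun n => cE n (M - n) (G'' n) with hz
  have hx0 : ∀ n v, 0 ≤ x n v := fun n v => cE_nonneg (hG'0 n) v
  have hz0 : ∀ n v, 0 ≤ z n v := fun n v => cE_nonneg (hG''0 n) v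
  have hxper : ∀ n ∈ I, Per (3 ^ n) (x n) := fun n hn => cE_per (by rw [hd n hn]; exact hG'per n hn)
  have hzper : ∀ n ∈ I, Per (3 ^ n) (z n) := fun n hn => cE_per (by rw [hd n hn]; exact hG''per n hn)
  have hle : ∀ n ∈ I, n ≤ M := by
    intro n hn
    rw [hI, mem_Ioc] at hn
    omega
  have hxper' : ∀ n ∈ I, Per (3 ^ M) (x n) := fun n hn => Per.pow_mono (hle n hn) (hxper n hn)
  have hzper' : ∀ n ∈ I, Per (3 ^ M) (z n) := fun n hn => Per.pow_mono (hle n hn) (hzper n hn)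
  have hmx : ∀ n ∈ I, mean (3 ^ M) (x n) = mean (3 ^ M) (G' n) := by
    intro n hn
    have h1 : Per (3 ^ (n + (M - n))) (G' n) := by rw [hd n hn]; exact hG'per n hn
    have h2 := mean_cE h1 (ψ := fun _ => 1) (fun _ => rfl)
    simp only [mul_one] at h2
    rwa [hd n hn] at h2
  have hmz : ∀ n ∈ I, mean (3 ^ M) (z n) = mean (3 ^ M) (G'' n) := by
    intro n hn
    have h1 : Per (3 ^ (n + (M - n))) (G'' n) := by rw [hd n hn]; exact hG''per n hn
    have h2 := mean_cE h1 (ψ := fun _ => 1) (fun _ => rfl)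
    simp only [mul_one] at h2
    rwa [hd n hn] at h2
  refine ⟨fun v => ∑ n ∈ I, x n v, fun v => ∑ n ∈ I, z n v, ?_, ?_, ?_, ?_, ?_, ?_, ?_⟩
  · intro v
    exact sum_congr rfl fun n hn => hxper' n hn v
  · intro v
    exact sum_congr rfl fun n hn => hzper' n hn v
  · exact fun v => sum_nonneg fun n _ => hx0 n v
  · exact fun v => sum_nonneg fun n _ => hz0 n v
  · intro v
    unfold Vis
    rw [← hM, ← hI, ← sum_add_distrib]
    refine sum_congr rfl fun n hn => ?_
    simp only [hx, hz]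
    rw [← cE_add]
    have h1 : (fun v => G' n v + G'' n v) = G n := by
      funext v
      simp only [hG', hG'']
      ring
    rw [h1]
    simp only [hG]
    rw [cE_MM length_of_hw (F_per E _), mean_F hE, mul_one]
  · -- second moment
    have h1 : ∀ v, (∑ n ∈ I, x n v) ^ 2 ≤ 2 * ∑ k ∈ I, x k v * ∑ n ∈ I.filter (fun n => n ≤ k), x n v :=
      fun v => sq_sum_le I (fun n => x n v) (fun n _ => hx0 n v)
    have h2 : ∀ k ∈ I, mean (3 ^ M) (fun v => x k v * ∑ n ∈ I.filter (fun n => n ≤ k), x n v) ≤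
        mean (3 ^ M) (fun v => G' k v * ∑ n ∈ I, x n v) := by
      intro k hk
      have h3 : Per (3 ^ k) (fun v => ∑ n ∈ I.filter (fun n => n ≤ k), x n v) := by
        intro v
        refine sum_congr rfl fun n hn => ?_
        rw [mem_filter] at hn
        exact (Per.pow_mono hn.2 (hxper n hn.1)) v
      have h4 : Per (3 ^ (k + (M - k))) (G' k) := by rw [hd k hk]; exact hG'per k hk
      have h5 := mean_cE h4 h3
      rw [hd k hk] at h5
      simp only [hx] at h5 ⊢
      rw [h5]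
      refine mean_mono fun v => ?_
      refine mul_le_mul_of_nonneg_left ?_ (hG'0 k v)
      exact sum_le_sum_of_subset_of_nonneg (filter_subset _ _) fun n _ _ => hx0 n v
    have h6 : mean (3 ^ M) (fun v => ∑ n ∈ I, x n v) ≤ K₀ := by
      rw [mean_sum, sum_congr rfl hmx, ← mean_sum]
      have h7 : ∀ v, ∑ n ∈ I, G' n v ≤ K₀ := by
        intro v
        simp only [hG']
        rw [← mul_sum]
        exact hθB v
      refine (mean_mono h7).trans (le_of_eq (mean_const (Nat.one_le_pow _ _ (by norm_num)) _))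
    calc mean (3 ^ M) (fun v => (∑ n ∈ I, x n v) ^ 2)
        ≤ mean (3 ^ M) (fun v => 2 * ∑ k ∈ I, x k v * ∑ n ∈ I.filter (fun n => n ≤ k), x n v) :=
          mean_mono h1
      _ = 2 * ∑ k ∈ I, mean (3 ^ M) (fun v => x k v * ∑ n ∈ I.filter (fun n => n ≤ k), x n v) := by
          rw [mean_mul_left, mean_sum]
      _ ≤ 2 * ∑ k ∈ I, mean (3 ^ M) (fun v => G' k v * ∑ n ∈ I, x n v) := by
          have := sum_le_sum h2
          linarith
      _ = 2 * mean (3 ^ M) (fun v => (∑ k ∈ I, G' k v) * ∑ n ∈ I, x n v) := by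
          rw [← mean_sum]
          congr 1
          refine mean_congr fun v => ?_
          rw [sum_mul]
      _ ≤ 2 * mean (3 ^ M) (fun v => K₀ * ∑ n ∈ I, x n v) := by
          have h8 : mean (3 ^ M) (fun v => (∑ k ∈ I, G' k v) * ∑ n ∈ I, x n v) ≤
              mean (3 ^ M) (fun v => K₀ * ∑ n ∈ I, x n v) := by
            refine mean_mono fun v => mul_le_mul_of_nonneg_right ?_ (sum_nonneg fun n _ => hx0 n v)
            simp only [hG']
            rw [← mul_sum]
            exact hθB v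
          linarith
      _ ≤ 2 * (K₀ * K₀) := by
          rw [mean_mul_left]
          have := mul_le_mul_of_nonneg_left h6 hK₀.le
          linarith
      _ = 2 * K₀ ^ 2 := by ring
  · rw [mean_sum, sum_congr rfl hmz, ← mean_sum]
    refine le_trans (mean_mono fun v => ?_) hTδ
    simp only [hG'']
    rw [← mul_sum]
    exact hθB' v

theorem visits {δ : ℝ} (hδ : 0 < δ) : ∃ (K : ℝ) (E₀ : ℕ), 0 < K ∧ ∀ E n₁ N : ℕ, ∀ H : ℝ, E₀ ≤ E →
    n₁ + N + 1 ≤ E → 0 < H → ∃ V' V'' : ℤ → ℝ, Per (3 ^ (n₁ + N)) V' ∧ Per (3 ^ (n₁ + N)) V'' ∧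
    (∀ v, 0 ≤ V' v) ∧ (∀ v, 0 ≤ V'' v) ∧ (∀ v, Vis E n₁ N H v = V' v + V'' v) ∧
    mean (3 ^ (n₁ + N)) (fun v => V' v ^ 2) ≤ K ∧ mean (3 ^ (n₁ + N)) V'' ≤ δ := by
  obtain ⟨C, E₁, hC, hmix⟩ := mix
  -- choice of `n₂` and `m₀`
  obtain ⟨n₂, hn₂⟩ : ∃ n₂ : ℕ, 200 * (49 / 50 : ℝ) ^ n₂ ≤ δ / 2 := by
    obtain ⟨n, hn⟩ := exists_pow_lt_of_lt_one (show (0 : ℝ) < δ / 400 by positivity)
      (show (49 / 50 : ℝ) < 1 by norm_num)
    exact ⟨n, by linarith⟩
  obtain ⟨m₀, hm₀, hm₀'⟩ : ∃ m₀ : ℕ, 1 ≤ m₀ ∧ (n₂ + 1) * (C / (m₀ : ℝ) ^ 2) ≤ δ / 2 := by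
    obtain ⟨m, hm⟩ := exists_nat_gt ((n₂ + 1) * C / (δ / 2))
    refine ⟨m + 1, by omega, ?_⟩
    have h1 : (0 : ℝ) < δ / 2 := by positivity
    rw [div_lt_iff₀ h1] at hm
    have h2 : (1 : ℝ) ≤ ((m + 1 : ℕ) : ℝ) := by push_cast; linarith [(Nat.cast_nonneg m : (0 : ℝ) ≤ m)]
    rw [← mul_div_assoc, div_le_iff₀ (by positivity)]
    have h3 : (m : ℝ) ≤ ((m + 1 : ℕ) : ℝ) ^ 2 := by
      have : (m : ℝ) ≤ ((m + 1 : ℕ) : ℝ) := by push_cast; linarith
      nlinarith
    calc (n₂ + 1) * C ≤ m * (δ / 2) := hm.le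
      _ ≤ ((m + 1 : ℕ) : ℝ) ^ 2 * (δ / 2) := mul_le_mul_of_nonneg_right h3 h1.le
      _ = _ := by ring
  set K₀ : ℝ := (n₂ + 1) * 3 ^ m₀ with hK₀
  have hK₀0 : 0 < K₀ := by positivity
  refine ⟨2 * K₀ ^ 2, max E₁ 6, by positivity, fun E n₁ N H hE₀ hE hH => ?_⟩
  have hE6 : 6 ≤ E := (le_max_right _ _).trans hE₀
  have hE1 : 1 ≤ E := by omega
  have hE₁ : E₁ ≤ E := (le_max_left _ _).trans hE₀
  -- the function `T`
  set T₁ : ℤ → ℝ := fun v => ∑ V ∈ words E (n₁ + N), if vd V v then wt E V * lat H n₁ N n₂ V else 0 with hT₁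
  have hT₁0 : ∀ v, 0 ≤ T₁ v := by
    intro v
    refine sum_nonneg fun V _ => ?_
    split_ifs
    · exact mul_nonneg (wt_nonneg E V) (lat_nonneg _ _ _ _ _)
    · exact le_rfl
  have hT₁per : Per (3 ^ (n₁ + N)) T₁ := by
    intro v
    refine sum_congr rfl fun V hV => ?_
    refine if_congr ?_ rfl rfl
    have := vd_shift (length_of_mem hV) v 1
    rw [mul_one] at this
    push_cast
    exact this
  have hT₁mean : mean (3 ^ (n₁ + N)) T₁ ≤ δ / 2 := by
    refine le_trans ?_ hn₂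
    refine le_trans (le_of_eq ?_) (sum_lat_le hE6 H n₁ N n₂)
    simp only [hT₁]
    rw [mean_sum]
    refine sum_congr rfl fun V hV => ?_
    have h1 := mean_vd (E := E) (m := 0) (length_of_mem hV) (φ := fun _ => lat H n₁ N n₂ V) (fun _ => rfl)
    rw [add_zero, pow_zero, mean_const le_rfl] at h1
    exact h1
  have hB : ∀ v, ∑ n ∈ Ioc n₁ (n₁ + N), MM E (hw E n H) (F E (n₁ + N - n)) v ≤
      (n₂ + 1) * F E (n₁ + N) v + T₁ v := by
    intro v
    rw [sum_G_eq]
    unfold F MM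
    simp only [hT₁]
    rw [mul_sum, ← sum_add_distrib]
    refine sum_le_sum fun V _ => ?_
    split_ifs
    · have h1 := mul_le_mul_of_nonneg_left (kapV_le hH n₁ N n₂ V) (wt_nonneg E V)
      linarith
    · simp
  by_cases hM : m₀ ≤ n₁ + N
  · refine dual_doob hE1 hK₀0 (T := fun v => (n₂ + 1) * |F E (n₁ + N) v - F E m₀ v| + T₁ v) ?_ ?_ ?_ ?_
    · intro v
      show (n₂ + 1) * |F E (n₁ + N) (v + _) - F E m₀ (v + _)| + T₁ (v + _) = _
      rw [F_per E (n₁ + N) v, (Per.pow_mono hM (F_per E m₀)) v, hT₁per v]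
    · intro v
      refine (hB v).trans ?_
      have h1 := F_le hE1 m₀ v
      have h2 := le_abs_self (F E (n₁ + N) v - F E m₀ v)
      have h3 : (0 : ℝ) ≤ n₂ + 1 := by positivity
      have h4 : F E (n₁ + N) v ≤ 3 ^ m₀ + |F E (n₁ + N) v - F E m₀ v| := by linarith
      have h5 := mul_le_mul_of_nonneg_left h4 h3
      rw [hK₀]
      linarith
    · intro v
      have := hT₁0 v
      positivity
    · rw [mean_add, mean_mul_left]
      have h1 := hmix E hE₁ m₀ (n₁ + N) hm₀ hM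
      have h3 : (0 : ℝ) ≤ n₂ + 1 := by positivity
      have h2 := mul_le_mul_of_nonneg_left h1 h3
      linarith
  · refine dual_doob hE1 hK₀0 (T := T₁) hT₁per ?_ hT₁0 (by linarith)
    intro v
    refine (hB v).trans ?_
    have h1 := F_le hE1 (n₁ + N) v
    have h2 : (3 : ℝ) ^ (n₁ + N) ≤ 3 ^ m₀ := pow_le_pow_right₀ (by norm_num) (by omega)
    have h3 : (0 : ℝ) ≤ n₂ + 1 := by positivity
    have h4 := mul_le_mul_of_nonneg_left (h1.trans h2) h3
    rw [hK₀]
    linarith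

end CollatzLin
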