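import Pool.Agent.CollatzLin.TaoFinalCore
import Pool.Agent.CollatzLin.LogSmall
import Pool.Agent.CollatzLin.Start

set_option autoImplicit false

/-!
# Almost all trajectories attain almost bounded values, in natural density
-/

namespace CollatzLin

open CollatzOne Finset Filter Topology

lemma startStmt : StartStmt := fun _ hδ => start hδ

open Classical in
/-- The proportion of integers with `|n| ≤ N` whose trajectory stays outside `[-M, M]` is small. -/
theorem avoid_small {δ : ℝ} (hδ : 0 < δ) : ∃ M N₀ : ℕ, ∀ N : ℕ, N₀ ≤ N →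
    (((Icc (-(N : ℤ)) N).filter (fun n => ∀ k : ℕ, (M : ℤ) < |CollatzExp.C^[k] n|)).card : ℝ) ≤ δ * N :=
  avoid_small_of startStmt log_small hδ

/-- Almost all trajectories attain almost bounded values, in natural density. -/
theorem collatz_tao (f : ℕ → ℝ) (hf : Tendsto f atTop atTop) :
    Tendsto (fun N : ℕ => ({n : ℤ | |n| ≤ N ∧ ∃ k : ℕ, ((|CollatzExp.C^[k] n| : ℤ) : ℝ) ≤ f n.natAbs}.ncard : ℝ) /
      (2 * N + 1)) atTop (𝓝 1) :=
  collatz_tao_of startStmt log_small f hf

end CollatzLin
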