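import Pool.Agent.CollatzLin.LSBasic
import Pool.Agent.CollatzLin.Par

set_option autoImplicit false

/-!
# Almost all trajectories attain almost bounded values, in natural density: the conclusion
-/

namespace CollatzLin

open CollatzOne Finset Filter Topology

/-- The statement of `start`. -/
def StartStmt : Prop := ∀ δ : ℝ, 0 < δ → ∃ (η : ℝ) (L₀ : ℕ), 0 < η ∧ ∀ L : ℕ, L₀ ≤ L →
    ∀ a : ℤ → ℝ, Adm a →
    (∀ A ℓ : ℕ, L ≤ 2 * A → A ≤ 64 * ℓ → 16 * ℓ ≤ A → LS A (A + ℓ) a ≤ η * ℓ) →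
    LS L (L + 1) a ≤ δ

/-- The statement of `log_small`. -/
def LogSmallStmt : Prop := ∃ (C : ℝ) (L₀ : ℕ), 0 < C ∧ ∀ L₁ : ℕ, L₀ ≤ L₁ → ∀ a : ℤ → ℝ, Adm a →
    (∀ v : ℤ, |v| < 2 ^ (2 * L₁) → a v = 0) → ∀ L ℓ : ℕ, L₁ ≤ L → L ≤ 64 * ℓ → 16 * ℓ ≤ L →
    LS L (L + ℓ) a ≤ C * ℓ * (L₁ : ℝ) ^ (-(1 / 4) : ℝ)

/-- The trajectory of `n` stays outside `[-M, M]`. -/
def Av (M : ℕ) (n : ℤ) : Prop := ∀ k : ℕ, (M : ℤ) < |CollatzExp.C^[k] n|

lemma Av.iter {M : ℕ} {n : ℤ} (h : Av M n) (j : ℕ) : Av M (CollatzExp.C^[j] n) := by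
  intro k
  rw [← Function.iterate_add_apply]
  exact h _

lemma Av.ne_zero {M : ℕ} {n : ℤ} (h : Av M n) : n ≠ 0 := by
  rintro rfl
  have := h 0
  simp at this
  omega

lemma av_two_mul {M : ℕ} {n : ℤ} : Av M (2 * n) ↔ Av M n := by
  have hC : CollatzExp.C (2 * n) = n := by rw [CollatzExp.C_even (by omega)]; omega
  constructor
  · intro h
    have := h.iter 1
    rwa [Function.iterate_one, hC] at this
  · intro h k
    rcases k with _ | k
    · have := h 0
      simp only [Function.iterate_zero, id_eq] at this ⊢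
      have h2 : |(2 : ℤ)| = 2 := rfl
      rw [abs_mul, h2]
      omega
    · rw [Function.iterate_succ_apply, hC]
      exact h k

lemma Av.half {M : ℕ} {n : ℤ} (h : Av M n) (h2 : n % 2 = 1) : Av M ((3 * n + 1) / 2) := by
  have h3 := h.iter 2
  rw [Function.iterate_succ_apply, Function.iterate_one, CollatzExp.C_odd h2,
    CollatzExp.C_even (by omega)] at h3
  exact h3

open Classical in
/-- Indicator function of the points whose trajectory stays outside `[-M, M]`. -/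
noncomputable def av (M : ℕ) (v : ℤ) : ℝ := if Av M (3 * v - 1) then 1 else 0

lemma adm_av (M : ℕ) : Adm (av M) where
  nonneg v := by unfold av; split_ifs <;> norm_num
  le_one v := by unfold av; split_ifs <;> norm_num
  mono e v he _ h := by
    have h1 := par_eq h
    have hc : CollatzExp.child e (3 * v - 1) = 3 * c1 e v - 1 := by
      unfold CollatzExp.child
      rw [h1]
      omega
    have hv : CollatzExp.valid e (3 * v - 1) := by
      unfold CollatzExp.valid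
      rw [h1]
      omega
    have h2 := CollatzExp.C_iter_child_full he hv
    rw [hc] at h2
    unfold av
    by_cases h3 : Av M (3 * c1 e v - 1)
    · have h4 := h3.iter (e + 1)
      rw [h2] at h4
      rw [if_pos h3, if_pos h4]
    · rw [if_neg h3]
      split_ifs <;> norm_num

lemma av_zero {M B : ℕ} (hM : 3 * 2 ^ B + 1 ≤ M) {v : ℤ} (hv : |v| < 2 ^ B) : av M v = 0 := by
  unfold av
  rw [if_neg]
  intro h
  have h1 := h 0
  simp only [Function.iterate_zero, id_eq] at h1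
  have h2 : |3 * v - 1| ≤ 3 * |v| + 1 := by
    have := abs_sub (3 * v) 1
    have h3 : |(3 : ℤ)| = 3 := rfl
    have h4 : |(1 : ℤ)| = 1 := rfl
    rw [abs_mul, h3, h4] at this
    exact this
  have h5 : (3 * 2 ^ B + 1 : ℤ) ≤ M := by exact_mod_cast hM
  linarith

/-! ### Counting functions -/

open Classical in
/-- Number of integers of absolute value at most `X` with a property. -/
noncomputable def cnt (p : ℤ → Prop) (X : ℕ) : ℝ := ((Icc (-(X : ℤ)) X).filter p).card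

lemma cnt_nonneg (p : ℤ → Prop) (X : ℕ) : 0 ≤ cnt p X := Nat.cast_nonneg _

lemma cnt_le (p : ℤ → Prop) (X : ℕ) : cnt p X ≤ 2 * X + 1 := by
  classical
  unfold cnt
  have h1 : ((Icc (-(X : ℤ)) X).filter p).card ≤ 2 * X + 1 := by
    refine (card_filter_le _ _).trans ?_
    rw [Int.card_Icc]
    omega
  exact_mod_cast h1

lemma cnt_mono (p : ℤ → Prop) {X Y : ℕ} (h : X ≤ Y) : cnt p X ≤ cnt p Y := by
  classical
  unfold cnt
  have h1 : ((Icc (-(X : ℤ)) X).filter p).card ≤ ((Icc (-(Y : ℤ)) Y).filter p).card := by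
    apply card_le_card
    intro n hn
    rw [mem_filter, mem_Icc] at hn ⊢
    exact ⟨⟨by omega, by omega⟩, hn.2⟩
  exact_mod_cast h1

/-- Comparison of counting functions through a map that is injective. -/
lemma cnt_map {p q : ℤ → Prop} {X Y : ℕ} (g : ℤ → ℤ)
    (hg : ∀ n : ℤ, |n| ≤ (X : ℤ) → p n → q (g n) ∧ |g n| ≤ (Y : ℤ))
    (hinj : ∀ n m, p n → p m → g n = g m → n = m) : cnt p X ≤ cnt q Y := by
  classical
  unfold cnt
  have h1 : ((Icc (-(X : ℤ)) X).filter p).card ≤ ((Icc (-(Y : ℤ)) Y).filter q).card := by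
    apply card_le_card_of_injOn g
    · intro n hn
      rw [mem_coe, mem_filter, mem_Icc] at hn
      obtain ⟨h1, h2⟩ := hg n (abs_le.2 hn.1) hn.2
      rw [mem_coe, mem_filter, mem_Icc]
      exact ⟨abs_le.1 h2, h1⟩
    · intro n hn m hm h
      rw [mem_coe, mem_filter] at hn hm
      exact hinj n m hn.2 hm.2 h
  exact_mod_cast h1

lemma cnt_or {p q r : ℤ → Prop} {X : ℕ} (h : ∀ n, p n → q n ∨ r n) :
    cnt p X ≤ cnt q X + cnt r X := by
  classical
  unfold cnt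
  have h1 : ((Icc (-(X : ℤ)) X).filter p).card ≤
      ((Icc (-(X : ℤ)) X).filter q).card + ((Icc (-(X : ℤ)) X).filter r).card := by
    refine le_trans (card_le_card ?_) (card_union_le _ _)
    intro n hn
    rw [mem_filter] at hn
    rw [mem_union, mem_filter, mem_filter]
    rcases h n hn.2 with h | h
    · exact Or.inl ⟨hn.1, h⟩
    · exact Or.inr ⟨hn.1, h⟩
  exact_mod_cast h1

/-- The recursion for the counting functions. -/
lemma rec_bound {g : ℕ → ℝ} {K₀ c : ℝ} (hc : 0 < c) (hK : 0 ≤ K₀) (h1 : ∀ X, g X ≤ 2 * X + 1)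
    (h2 : ∀ X, 1 ≤ X → g X ≤ K₀ + c * X + g (X / 2)) :
    ∃ K : ℝ, 0 ≤ K ∧ ∀ X, g X ≤ 4 * c * X + K := by
  refine ⟨2 * (K₀ / c + 1) + 1, by positivity, ?_⟩
  intro X
  induction X using Nat.strong_induction_on with
  | _ X ih =>
    by_cases hX : (X : ℝ) ≤ K₀ / c + 1
    · have h3 := h1 X
      have h4 : 0 ≤ 4 * c * X := by positivity
      linarith
    · push Not at hX
      have hX1 : 1 ≤ X := by
        by_contra h
        have : X = 0 := by omega
        rw [this] at hX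
        have : 0 ≤ K₀ / c := by positivity
        norm_num at hX
        linarith
      have h3 := h2 X hX1
      have h4 := ih (X / 2) (by omega)
      have h5 : (((X / 2 : ℕ)) : ℝ) ≤ X / 2 := by
        have := Nat.cast_div_le (α := ℝ) (m := X) (n := 2)
        simpa using this
      have h6 : K₀ ≤ c * X := by
        have : K₀ / c ≤ X := by linarith
        rw [div_le_iff₀ hc] at this
        linarith
      have h7 : 4 * c * (((X / 2 : ℕ)) : ℝ) ≤ 4 * c * (X / 2) :=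
        mul_le_mul_of_nonneg_left h5 (by positivity)
      linarith

/-! ### From logarithmic sums to counting -/

open Classical in
lemma card_win_le (M L : ℕ) :
    (((win L (L + 1)).filter (fun v => Av M (3 * v - 1))).card : ℝ) ≤
      2 ^ (L + 1) * LS L (L + 1) (av M) := by
  unfold LS
  have h1 : ∑ v ∈ (win L (L + 1)).filter (fun v => Av M (3 * v - 1)), (1 : ℝ) / 2 ^ (L + 1) ≤
      ∑ v ∈ win L (L + 1), av M v / |(v : ℝ)| := by
    rw [sum_filter]
    refine sum_le_sum fun v hv => ?_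
    have h2 := win_real hv
    have h3 := abs_pos_of_win hv
    unfold av
    split_ifs
    · exact one_div_le_one_div_of_le h3 h2.2.le
    · simp
  rw [sum_const, nsmul_eq_mul, mul_one_div, div_le_iff₀ (by positivity)] at h1
  linarith

open Classical in
lemma card_bx_le {M L₀ : ℕ} {δ : ℝ} (hδ : 0 ≤ δ) (h : ∀ L, L₀ ≤ L → LS L (L + 1) (av M) ≤ δ)
    (L : ℕ) : (((bx L).filter (fun v => Av M (3 * v - 1))).card : ℝ) ≤
      2 ^ (L₀ + 1) + δ * 2 ^ (L + 1) := by
  induction L with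
  | zero =>
    have h1 : ((bx 0).filter (fun v => Av M (3 * v - 1))).card ≤ 2 := by
      refine (card_filter_le _ _).trans ((card_filter_le _ _).trans ?_)
      rw [Int.card_Ioo]
      norm_num
    have h2 : (((bx 0).filter (fun v => Av M (3 * v - 1))).card : ℝ) ≤ 2 := by exact_mod_cast h1
    have h3 : (2 : ℝ) ≤ 2 ^ (L₀ + 1) := by
      calc (2 : ℝ) = 2 ^ 1 := by norm_num
        _ ≤ 2 ^ (L₀ + 1) := pow_le_pow_right₀ (by norm_num) (by omega)
    have h4 : 0 ≤ δ * 2 ^ (0 + 1) := by positivity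
    linarith
  | succ L ih =>
    by_cases hL : L < L₀
    · have h1 : ((bx (L + 1)).filter (fun v => Av M (3 * v - 1))).card ≤ 2 ^ (L₀ + 1) := by
        refine (card_filter_le _ _).trans ((card_filter_le _ _).trans ?_)
        rw [Int.card_Ioo, Int.toNat_le]
        have h2 : (2 : ℤ) ^ (L + 1) ≤ 2 ^ L₀ := pow_le_pow_right₀ (by norm_num) hL
        push_cast
        rw [pow_succ 2 L₀]
        linarith
      have h2 : (((bx (L + 1)).filter (fun v => Av M (3 * v - 1))).card : ℝ) ≤ 2 ^ (L₀ + 1) := by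
        exact_mod_cast h1
      have h3 : 0 ≤ δ * 2 ^ (L + 1 + 1) := by positivity
      linarith
    · push Not at hL
      have h1 : ((bx (L + 1)).filter (fun v => Av M (3 * v - 1))).card ≤
          ((bx L).filter (fun v => Av M (3 * v - 1))).card +
          ((win L (L + 1)).filter (fun v => Av M (3 * v - 1))).card := by
        refine le_trans (card_le_card ?_) (card_union_le _ _)
        intro v hv
        rw [mem_filter, mem_bx] at hv
        rw [mem_union, mem_filter, mem_filter, mem_bx, mem_win]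
        by_cases hc : |v| < 2 ^ L
        · exact Or.inl ⟨⟨hc, hv.1.2⟩, hv.2⟩
        · exact Or.inr ⟨⟨by omega, hv.1.1, hv.1.2⟩, hv.2⟩
      have h2 : (((bx (L + 1)).filter (fun v => Av M (3 * v - 1))).card : ℝ) ≤
          ((bx L).filter (fun v => Av M (3 * v - 1))).card +
          ((win L (L + 1)).filter (fun v => Av M (3 * v - 1))).card := by exact_mod_cast h1
      have h3 := card_win_le M L
      have h4 : (2 : ℝ) ^ (L + 1) * LS L (L + 1) (av M) ≤ 2 ^ (L + 1) * δ :=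
        mul_le_mul_of_nonneg_left (h L hL) (by positivity)
      have h5 : δ * 2 ^ (L + 1 + 1) = δ * 2 ^ (L + 1) + 2 ^ (L + 1) * δ := by rw [pow_succ]; ring
      linarith

/-- All trajectories that avoid a large interval are rare. -/
theorem avoid_cnt (hs : StartStmt) (hl : LogSmallStmt) {δ : ℝ} (hδ : 0 < δ) :
    ∃ (M : ℕ) (K : ℝ), 0 ≤ K ∧ ∀ X : ℕ,
      cnt (fun v => OO v ∧ Av M (3 * v - 1)) X ≤ K + 4 * δ * X := by
  obtain ⟨η, L₀, hη, hs⟩ := hs δ hδ
  obtain ⟨C, L₂, hC, hl⟩ := hl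
  -- choice of `L₁`
  have ht : Tendsto (fun x : ℕ => C * (x : ℝ) ^ (-(1 / 4) : ℝ)) atTop (𝓝 0) := by
    have h1 := (tendsto_rpow_neg_atTop (y := 1 / 4) (by norm_num)).comp
      (tendsto_natCast_atTop_atTop (R := ℝ))
    simpa using h1.const_mul C
  obtain ⟨L₁, hL₁, hL₁'⟩ := ((ht.eventually (Iio_mem_nhds hη)).and (eventually_ge_atTop L₂)).exists
  set M := 3 * 2 ^ (2 * L₁) + 1 with hM
  have hLS : ∀ L, max L₀ (2 * L₁) ≤ L → LS L (L + 1) (av M) ≤ δ := by
    intro L hL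
    refine hs L (le_trans (le_max_left _ _) hL) (av M) (adm_av M) ?_
    intro A ℓ h1 h2 h3
    have h4 := hl L₁ hL₁' (av M) (adm_av M) (fun v hv => av_zero le_rfl hv) A ℓ
      (by have := le_trans (le_max_right _ _) hL; omega) h2 h3
    refine h4.trans ?_
    have h5 : (0 : ℝ) ≤ ℓ := Nat.cast_nonneg _
    have h6 : C * (L₁ : ℝ) ^ (-(1 / 4) : ℝ) ≤ η := le_of_lt hL₁
    nlinarith
  refine ⟨M, 2 ^ (max L₀ (2 * L₁) + 1), by positivity, ?_⟩
  intro X
  classical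
  have h1 : cnt (fun v => OO v ∧ Av M (3 * v - 1)) X ≤
      (((bx (Nat.log 2 X + 1)).filter (fun v => Av M (3 * v - 1))).card : ℝ) := by
    unfold cnt
    have h2 : ((Icc (-(X : ℤ)) X).filter (fun v => OO v ∧ Av M (3 * v - 1))).card ≤
        ((bx (Nat.log 2 X + 1)).filter (fun v => Av M (3 * v - 1))).card := by
      apply card_le_card
      intro v hv
      rw [mem_filter, mem_Icc] at hv
      rw [mem_filter, mem_bx]
      refine ⟨⟨?_, hv.2.1⟩, hv.2.2⟩
      have h3 := Nat.lt_pow_succ_log_self (b := 2) (by norm_num) X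
      have h4 : (X : ℤ) < 2 ^ (Nat.log 2 X + 1) := by exact_mod_cast h3
      exact lt_of_le_of_lt (abs_le.2 hv.1) h4
    exact_mod_cast h2
  have h2 := card_bx_le hδ.le hLS (Nat.log 2 X + 1)
  rcases Nat.eq_zero_or_pos X with hX | hX
  · subst hX
    have h3 := cnt_le (fun v => OO v ∧ Av M (3 * v - 1)) 0
    have h4 : (1 : ℝ) ≤ 2 ^ (max L₀ (2 * L₁) + 1) := one_le_pow₀ (by norm_num)
    push_cast at h3 ⊢
    linarith
  · have h3 := Nat.pow_log_le_self 2 (by omega : X ≠ 0)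
    have h4 : (2 : ℝ) ^ Nat.log 2 X ≤ X := by exact_mod_cast h3
    have h5 : δ * 2 ^ (Nat.log 2 X + 1 + 1) ≤ 4 * δ * X := by
      have : δ * 2 ^ (Nat.log 2 X + 1 + 1) = 4 * δ * 2 ^ Nat.log 2 X := by
        rw [pow_succ, pow_succ]; ring
      rw [this]
      exact mul_le_mul_of_nonneg_left h4 (by positivity)
    linarith

/-- The integers congruent to `2` modulo `3`. -/
lemma cnt_two {M : ℕ} {K δ : ℝ} (hδ : 0 < δ) (hK : 0 ≤ K)
    (h : ∀ X : ℕ, cnt (fun v => OO v ∧ Av M (3 * v - 1)) X ≤ K + 4 * δ * X) :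
    ∃ K' : ℝ, 0 ≤ K' ∧ ∀ X : ℕ, cnt (fun n => n % 3 = 2 ∧ Av M n) X ≤ 16 * δ * X + K' := by
  suffices hrec : ∀ X : ℕ, 1 ≤ X → cnt (fun n => n % 3 = 2 ∧ Av M n) X ≤
      K + 4 * δ * X + cnt (fun n => n % 3 = 2 ∧ Av M n) (X / 2) by
    obtain ⟨K', h1, h2⟩ := rec_bound (g := cnt (fun n => n % 3 = 2 ∧ Av M n)) (c := 4 * δ) (K₀ := K)
      (by positivity) hK (fun X => cnt_le _ X) hrec
    exact ⟨K', h1, fun X => by have := h2 X; linarith⟩
  intro X _
  have e1 : cnt (fun n => n % 3 = 2 ∧ Av M n) X ≤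
      cnt (fun n => n % 3 = 2 ∧ n % 4 ≠ 0 ∧ Av M n) X +
      cnt (fun n => n % 3 = 2 ∧ n % 4 = 0 ∧ Av M n) X := by
    refine cnt_or fun n hn => ?_
    by_cases h4 : n % 4 = 0
    · exact Or.inr ⟨hn.1, h4, hn.2⟩
    · exact Or.inl ⟨hn.1, h4, hn.2⟩
  have e2 : cnt (fun n => n % 3 = 2 ∧ n % 4 ≠ 0 ∧ Av M n) X ≤
      cnt (fun v => OO v ∧ Av M (3 * v - 1)) X := by
    refine cnt_map (fun n => (n + 1) / 3) ?_ ?_
    · rintro n hn ⟨h1, h2, h3⟩
      refine ⟨⟨by unfold OO; omega, ?_⟩, ?_⟩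
      · have : 3 * ((n + 1) / 3) - 1 = n := by omega
        rw [this]
        exact h3
      · rw [abs_le] at hn ⊢
        constructor <;> omega
    · rintro n m ⟨h1, -⟩ ⟨h2, -⟩ h3
      change (n + 1) / 3 = (m + 1) / 3 at h3
      omega
  have e3 : cnt (fun n => n % 3 = 2 ∧ n % 4 = 0 ∧ Av M n) X ≤
      cnt (fun n => n % 3 = 2 ∧ Av M n) (X / 2) := by
    refine cnt_map (fun n => n / 4) ?_ ?_
    · rintro n hn ⟨h1, h2, h3⟩
      refine ⟨⟨by omega, ?_⟩, ?_⟩
      · have h4 : n = 2 * (2 * (n / 4)) := by omega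
        rw [h4, av_two_mul, av_two_mul] at h3
        exact h3
      · rw [abs_le] at hn ⊢
        constructor <;> omega
    · rintro n m ⟨h1, h2, -⟩ ⟨h3, h4, -⟩ h5
      change n / 4 = m / 4 at h5
      omega
  have e4 := h X
  linarith

/-- All integers. -/
lemma cnt_all {M : ℕ} {K δ : ℝ} (hδ : 0 < δ) (hK : 0 ≤ K)
    (h : ∀ X : ℕ, cnt (fun n => n % 3 = 2 ∧ Av M n) X ≤ 16 * δ * X + K) :
    ∃ K' : ℝ, 0 ≤ K' ∧ ∀ X : ℕ, cnt (Av M) X ≤ 384 * δ * X + K' := by
  suffices hrec : ∀ X : ℕ, 1 ≤ X → cnt (Av M) X ≤ 3 * K + 96 * δ * X + cnt (Av M) (X / 2) by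
    obtain ⟨K', h1, h2⟩ := rec_bound (g := cnt (Av M)) (c := 96 * δ) (K₀ := 3 * K)
      (by positivity) (by positivity) (fun X => cnt_le _ X) hrec
    exact ⟨K', h1, fun X => by have := h2 X; linarith⟩
  intro X hX
  have e1 : cnt (Av M) X ≤ cnt (fun n => n % 2 = 0 ∧ Av M n) X + cnt (fun n => n % 2 = 1 ∧ Av M n) X := by
    refine cnt_or fun n hn => ?_
    rcases Int.emod_two_eq_zero_or_one n with h | h
    · exact Or.inl ⟨h, hn⟩
    · exact Or.inr ⟨h, hn⟩
  have e2 : cnt (fun n => n % 2 = 0 ∧ Av M n) X ≤ cnt (Av M) (X / 2) := by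
    refine cnt_map (fun n => n / 2) ?_ ?_
    · rintro n hn ⟨h1, h2⟩
      refine ⟨?_, ?_⟩
      · have h4 : n = 2 * (n / 2) := by omega
        rw [h4, av_two_mul] at h2
        exact h2
      · rw [abs_le] at hn ⊢
        constructor <;> omega
    · rintro n m ⟨h1, -⟩ ⟨h3, -⟩ h5
      change n / 2 = m / 2 at h5
      omega
  have e3 : cnt (fun n => n % 2 = 1 ∧ Av M n) X ≤
      cnt (fun n => n % 3 = 2 ∧ Av M n) X +
      cnt (fun n => n % 2 = 1 ∧ n % 3 ≠ 2 ∧ Av M n) X := by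
    refine cnt_or fun n hn => ?_
    by_cases h4 : n % 3 = 2
    · exact Or.inl ⟨h4, hn.2⟩
    · exact Or.inr ⟨hn.1, h4, hn.2⟩
  have e4 : cnt (fun n => n % 2 = 1 ∧ n % 3 ≠ 2 ∧ Av M n) X ≤
      cnt (fun n => n % 3 = 1 ∧ Av M n) X +
      cnt (fun n => n % 2 = 1 ∧ n % 3 = 0 ∧ Av M n) X := by
    refine cnt_or fun n hn => ?_
    have h3 : n % 3 = 0 ∨ n % 3 = 1 ∨ n % 3 = 2 := by omega
    rcases h3 with h3 | h3 | h3
    · exact Or.inr ⟨hn.1, h3, hn.2.2⟩
    · exact Or.inl ⟨h3, hn.2.2⟩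
    · exact absurd h3 hn.2.1
  have e5 : cnt (fun n => n % 3 = 1 ∧ Av M n) X ≤ cnt (fun n => n % 3 = 2 ∧ Av M n) (2 * X) := by
    refine cnt_map (fun n => 2 * n) ?_ ?_
    · rintro n hn ⟨h1, h2⟩
      refine ⟨⟨by omega, av_two_mul.2 h2⟩, ?_⟩
      rw [abs_le] at hn ⊢
      constructor <;> omega
    · rintro n m - - h5
      change 2 * n = 2 * m at h5
      omega
  have e6 : cnt (fun n => n % 2 = 1 ∧ n % 3 = 0 ∧ Av M n) X ≤
      cnt (fun n => n % 3 = 2 ∧ Av M n) (2 * X) := by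
    refine cnt_map (fun n => (3 * n + 1) / 2) ?_ ?_
    · rintro n hn ⟨h1, h2, h3⟩
      refine ⟨⟨by omega, h3.half h1⟩, ?_⟩
      rw [abs_le] at hn ⊢
      constructor <;> omega
    · rintro n m ⟨h1, -⟩ ⟨h2, -⟩ h5
      change (3 * n + 1) / 2 = (3 * m + 1) / 2 at h5
      omega
  have e7 := h X
  have e8 := h (2 * X)
  push_cast at e8
  have e9 : 0 ≤ δ * X := by positivity
  linarith

theorem avoid_small_of (hs : StartStmt) (hl : LogSmallStmt) {δ : ℝ} (hδ : 0 < δ) :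
    ∃ M N₀ : ℕ, ∀ N : ℕ, N₀ ≤ N → cnt (Av M) N ≤ δ * N := by
  obtain ⟨M, K, hK, h⟩ := avoid_cnt hs hl (δ := δ / 1000) (by positivity)
  obtain ⟨K', hK', h'⟩ := cnt_two (by positivity) hK h
  obtain ⟨K'', hK'', h''⟩ := cnt_all (by positivity) hK' h'
  obtain ⟨N₀, hN₀⟩ := exists_nat_ge (2 * K'' / δ)
  refine ⟨M, N₀, fun N hN => ?_⟩
  have h1 := h'' N
  have h2 : (N₀ : ℝ) ≤ N := by exact_mod_cast hN
  have h3 : 2 * K'' ≤ δ * N := by
    have : 2 * K'' / δ ≤ N := hN₀.trans h2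
    rw [div_le_iff₀ hδ] at this
    linarith
  have h4 : (0 : ℝ) ≤ δ * N := by positivity
  linarith

theorem collatz_tao_of (hs : StartStmt) (hl : LogSmallStmt) (f : ℕ → ℝ) (hf : Tendsto f atTop atTop) :
    Tendsto (fun N : ℕ => ({n : ℤ | |n| ≤ N ∧ ∃ k : ℕ, ((|CollatzExp.C^[k] n| : ℤ) : ℝ) ≤ f n.natAbs}.ncard : ℝ) /
      (2 * N + 1)) atTop (𝓝 1) := by
  classical
  have hset : ∀ N : ℕ, ({n : ℤ | |n| ≤ N ∧ ∃ k : ℕ, ((|CollatzExp.C^[k] n| : ℤ) : ℝ) ≤ f n.natAbs}.ncard : ℝ) =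
      cnt (fun n => ∃ k : ℕ, ((|CollatzExp.C^[k] n| : ℤ) : ℝ) ≤ f n.natAbs) N := by
    intro N
    unfold cnt
    rw [← Set.ncard_coe_finset]
    congr 2
    ext n
    rw [Set.mem_ofPred_eq, mem_coe, mem_filter, mem_Icc, abs_le]
  simp only [hset]
  have htot : ∀ N : ℕ, (2 * N + 1 : ℝ) ≤
      cnt (fun n => ∃ k : ℕ, ((|CollatzExp.C^[k] n| : ℤ) : ℝ) ≤ f n.natAbs) N +
      cnt (fun n => ¬ ∃ k : ℕ, ((|CollatzExp.C^[k] n| : ℤ) : ℝ) ≤ f n.natAbs) N := by
    intro N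
    have h1 : cnt (fun _ => True) N ≤
      cnt (fun n => ∃ k : ℕ, ((|CollatzExp.C^[k] n| : ℤ) : ℝ) ≤ f n.natAbs) N +
      cnt (fun n => ¬ ∃ k : ℕ, ((|CollatzExp.C^[k] n| : ℤ) : ℝ) ≤ f n.natAbs) N :=
      cnt_or fun n _ => em _
    refine le_trans (le_of_eq ?_) h1
    unfold cnt
    simp only [Finset.filter_true]
    rw [Int.card_Icc]
    have : ((N : ℤ) + 1 - -(N : ℤ)).toNat = 2 * N + 1 := by omega
    rw [this]
    push_cast
    ring
  rw [Metric.tendsto_atTop]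
  intro ε hε
  obtain ⟨M, N₀, hM⟩ := avoid_small_of hs hl (δ := ε / 2) (by positivity)
  obtain ⟨n₀, hn₀⟩ := (hf.eventually (eventually_ge_atTop (M : ℝ))).exists_forall_of_atTop
  obtain ⟨N₁, hN₁⟩ := exists_nat_gt ((2 * n₀ + 1) / ε)
  refine ⟨max N₀ N₁, fun N hN => ?_⟩
  have hN0 : N₀ ≤ N := le_trans (le_max_left _ _) hN
  have hN1 : (N₁ : ℝ) ≤ N := by exact_mod_cast le_trans (le_max_right _ _) hN
  have h1 := cnt_le (fun n => ∃ k : ℕ, ((|CollatzExp.C^[k] n| : ℤ) : ℝ) ≤ f n.natAbs) N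
  have h2 := htot N
  have h3 : cnt (fun n => ¬ ∃ k : ℕ, ((|CollatzExp.C^[k] n| : ℤ) : ℝ) ≤ f n.natAbs) N ≤
      cnt (fun n => |n| ≤ n₀) N + cnt (Av M) N := by
    refine cnt_or fun n hn => ?_
    by_cases hc : |n| ≤ n₀
    · exact Or.inl hc
    · right
      intro k
      push Not at hn
      have h4 := hn k
      have h5 : n₀ ≤ n.natAbs := by
        rw [Int.abs_eq_natAbs] at hc
        omega
      have h6 := hn₀ n.natAbs h5
      have h7 : (M : ℝ) < ((|CollatzExp.C^[k] n| : ℤ) : ℝ) := lt_of_le_of_lt h6 h4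
      exact_mod_cast h7
  have h4 : cnt (fun n => |n| ≤ n₀) N ≤ 2 * n₀ + 1 := by
    refine (cnt_map (q := fun _ => True) (Y := n₀) id ?_ ?_).trans (cnt_le _ n₀)
    · intro n _ h
      exact ⟨trivial, h⟩
    · intro n m _ _ h
      exact h
  have h5 := hM N hN0
  have h6 : (2 * n₀ + 1 : ℝ) < ε * N := by
    have : (2 * n₀ + 1 : ℝ) / ε < N := lt_of_lt_of_le hN₁ hN1
    rw [div_lt_iff₀ hε] at this
    linarith
  have h0 : (0 : ℝ) ≤ N := Nat.cast_nonneg N
  have hpos : (0 : ℝ) < 2 * N + 1 := by positivity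
  rw [Real.dist_eq, abs_lt]
  constructor
  · have : 1 - ε < cnt (fun n => ∃ k : ℕ, ((|CollatzExp.C^[k] n| : ℤ) : ℝ) ≤ f n.natAbs) N / (2 * N + 1) := by
      rw [lt_div_iff₀ hpos]
      nlinarith
    linarith
  · have : cnt (fun n => ∃ k : ℕ, ((|CollatzExp.C^[k] n| : ℤ) : ℝ) ≤ f n.natAbs) N / (2 * N + 1) ≤ 1 := by
      rw [div_le_one hpos]
      exact h1
    linarith

end CollatzLin
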